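import Pool.Agent.H243.CE.Stmt

/-!
# (CE12) polynomial algebra: if `Gp` vanishes, then `f` has one zero only
-/

set_option autoImplicit false

open Polynomial

namespace Pool.Agent.H243.CE

namespace ALG

lemma exists_coprime {D N : ℂ[X]} (hD : D ≠ 0) :
    ∃ g D1 N1 : ℂ[X], g ≠ 0 ∧ D = g * D1 ∧ N = g * N1 ∧ IsCoprime N1 D1 := by
  classical
  obtain ⟨D1, hD1⟩ := EuclideanDomain.gcd_dvd_left D N
  obtain ⟨N1, hN1⟩ := EuclideanDomain.gcd_dvd_right D N
  have hg : EuclideanDomain.gcd D N ≠ 0 := by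
    intro h
    rw [h, zero_mul] at hD1
    exact hD hD1
  refine ⟨_, D1, N1, hg, hD1, hN1, EuclideanDomain.gcdB D N, EuclideanDomain.gcdA D N, ?_⟩
  have hB := EuclideanDomain.gcd_eq_gcd_ab D N
  apply mul_left_cancel₀ hg
  calc EuclideanDomain.gcd D N * (EuclideanDomain.gcdB D N * N1 + EuclideanDomain.gcdA D N * D1)
      = (EuclideanDomain.gcd D N * D1) * EuclideanDomain.gcdA D N +
          (EuclideanDomain.gcd D N * N1) * EuclideanDomain.gcdB D N := by ring
    _ = D * EuclideanDomain.gcdA D N + N * EuclideanDomain.gcdB D N := by rw [← hD1, ← hN1]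
    _ = EuclideanDomain.gcd D N := hB.symm
    _ = EuclideanDomain.gcd D N * 1 := (mul_one _).symm

/-- the second factor -/
noncomputable def P1 (f D N : ℂ[X]) : ℂ[X] := ∑ k ∈ Finset.range (f.natDegree + 1),
    C ((starRingEnd ℂ) (f.coeff k)) * N ^ k * D ^ (f.natDegree - k)

lemma P1_mul (f g D N : ℂ[X]) : P1 f (g * D) (g * N) = g ^ f.natDegree * P1 f D N := by
  unfold P1
  rw [Finset.mul_sum]
  refine Finset.sum_congr rfl fun k hk => ?_
  have hk' : k + (f.natDegree - k) = f.natDegree := by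
    have := Finset.mem_range.1 hk
    omega
  have e : g ^ f.natDegree = g ^ k * g ^ (f.natDegree - k) := by rw [← pow_add, hk']
  rw [e, mul_pow, mul_pow]
  ring

lemma P1_coprime {f D N : ℂ[X]} (hf : f ≠ 0) (h : IsCoprime N D) : IsCoprime (P1 f D N) D := by
  have hlc : (starRingEnd ℂ) (f.coeff f.natDegree) ≠ 0 := by
    rw [Ne, map_eq_zero]
    exact leadingCoeff_ne_zero.2 hf
  have hsplit : ∃ Q, P1 f D N =
      C ((starRingEnd ℂ) (f.coeff f.natDegree)) * N ^ f.natDegree + D * Q := by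
    refine ⟨∑ k ∈ Finset.range f.natDegree,
      C ((starRingEnd ℂ) (f.coeff k)) * N ^ k * D ^ (f.natDegree - k - 1), ?_⟩
    unfold P1
    rw [Finset.sum_range_succ, Nat.sub_self, pow_zero, mul_one, add_comm, Finset.mul_sum]
    congr 1
    refine Finset.sum_congr rfl fun k hk => ?_
    have hk' : f.natDegree - k = (f.natDegree - k - 1) + 1 := by
      have := Finset.mem_range.1 hk
      omega
    have e : D ^ (f.natDegree - k) = D ^ (f.natDegree - k - 1) * D := by
      rw [← pow_succ, ← hk']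
    rw [e]
    ring
  obtain ⟨Q, hQ⟩ := hsplit
  rw [hQ]
  apply IsCoprime.add_mul_left_left
  have hu : IsUnit (C ((starRingEnd ℂ) (f.coeff f.natDegree)) : ℂ[X]) :=
    isUnit_C.2 (isUnit_iff_ne_zero.2 hlc)
  exact (isCoprime_mul_unit_left_left hu _ _).2 h.pow_left

end ALG

open ALG in
theorem t_ALG : S_ALG := by
  intro f D N hn hD hG
  have hf : f ≠ 0 := by
    rintro rfl
    simp at hn
  obtain ⟨g, D1, N1, hg, rfl, rfl, hco⟩ := exists_coprime (N := N) hD
  have h1 : (g * D1) ^ f.natDegree = f * P1 f (g * D1) (g * N1) := sub_eq_zero.1 hG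
  have h2 : D1 ^ f.natDegree = f * P1 f D1 N1 := by
    rw [P1_mul, mul_pow] at h1
    apply mul_left_cancel₀ (pow_ne_zero f.natDegree hg)
    rw [h1]; ring
  have h3 : IsUnit (P1 f D1 N1) := by
    have h4 : IsCoprime (P1 f D1 N1) (D1 ^ f.natDegree) := (P1_coprime hf hco).pow_right
    exact h4.isUnit_of_dvd' dvd_rfl ⟨f, by rw [h2, mul_comm]⟩
  obtain ⟨u, hu, hu'⟩ := Polynomial.isUnit_iff.1 h3
  have hu0 : u ≠ 0 := hu.ne_zero
  rw [← hu'] at h2
  have h5 : f.natDegree * D1.natDegree = f.natDegree := by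
    have h6 := congrArg natDegree h2
    rw [natDegree_pow, natDegree_mul_C hu0] at h6
    exact h6
  have h7 : D1.natDegree = 1 :=
    Nat.eq_of_mul_eq_mul_left (show 0 < f.natDegree from hn) (by rw [h5, mul_one])
  have h8 := eq_X_add_C_of_natDegree_le_one h7.le
  have ha : D1.coeff 1 ≠ 0 := by
    have h9 : D1.leadingCoeff ≠ 0 := by
      rw [leadingCoeff_ne_zero]
      rintro rfl
      simp at h7
    rwa [leadingCoeff, h7] at h9
  refine ⟨u⁻¹ * D1.coeff 1 ^ f.natDegree, -(D1.coeff 0 / D1.coeff 1), ?_⟩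
  have h10 : D1 = C (D1.coeff 1) * (X - C (-(D1.coeff 0 / D1.coeff 1))) := by
    have e : C (D1.coeff 1) * C (-(D1.coeff 0 / D1.coeff 1)) = -C (D1.coeff 0) := by
      rw [← C_mul, ← C_neg]
      congr 1
      field_simp
    rw [mul_sub, e, sub_neg_eq_add]
    exact h8
  have h11 : f = C u⁻¹ * D1 ^ f.natDegree := by
    rw [h2, mul_comm f, ← mul_assoc, ← C_mul, inv_mul_cancel₀ hu0, C_1, one_mul]
  calc f = C u⁻¹ * D1 ^ f.natDegree := h11
    _ = C u⁻¹ * (C (D1.coeff 1) * (X - C (-(D1.coeff 0 / D1.coeff 1)))) ^ f.natDegree := by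
        rw [← h10]
    _ = C (u⁻¹ * D1.coeff 1 ^ f.natDegree) *
          (X - C (-(D1.coeff 0 / D1.coeff 1))) ^ f.natDegree := by
        rw [mul_pow, C_mul, C_pow]; ring

end Pool.Agent.H243.CE
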