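import Pool.Agent.H243.CE.Stmt

set_option autoImplicit false

open MeasureTheory Set Filter Topology Polynomial

namespace Pool.Agent.H243.CE

open Pool.Agent.W753.CZ (numRange)

namespace APPROX

theorem cth {E : Set ℂ} {z : ℂ} {η : ℝ} (hne : E.Nonempty) (h : Metric.infDist z E ≤ η) :
    z ∈ Metric.cthickening η E := by
  rw [Metric.mem_cthickening_iff]
  rw [Metric.infDist] at h
  exact (ENNReal.le_ofReal_iff_toReal_le (Metric.infEDist_ne_top hne)
    (ENNReal.toReal_nonneg.trans h)).mpr h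

theorem exists_delta {H : Type} [NormedAddCommGroup H] [InnerProductSpace ℂ H]
    (A : H →L[ℂ] H) (f : ℂ[X]) (hf : ∀ w ∈ numRange A, ‖f.eval w‖ ≤ 1)
    (L : ℝ) (hL : 0 < L) (M : ℝ) (hM : 1 < M) :
    ∃ δ : ℝ, 0 < δ ∧ δ ≤ 1 ∧ ∀ z : ℂ, (numRange A).Nonempty →
      Metric.infDist z (numRange A) ≤ L * δ → ‖f.eval z‖ ≤ M := by
  have hU : IsOpen {z : ℂ | ‖f.eval z‖ < M} := isOpen_lt (by fun_prop) continuous_const
  have hK : IsCompact (closure (numRange A)) := by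
    apply Metric.isCompact_of_isClosed_isBounded isClosed_closure
    apply Bornology.IsBounded.closure
    rw [isBounded_iff_forall_norm_le]
    exact ⟨‖A‖, W753.CZ.numRange_norm A⟩
  have hsub : closure (numRange A) ⊆ {z : ℂ | ‖f.eval z‖ < M} := by
    have h1 : closure (numRange A) ⊆ {z : ℂ | ‖f.eval z‖ ≤ 1} :=
      closure_minimal hf (isClosed_le (by fun_prop) continuous_const)
    intro z hz
    have h2 : ‖f.eval z‖ ≤ 1 := h1 hz
    show ‖f.eval z‖ < M
    linarith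
  obtain ⟨η, hη, hηs⟩ := hK.exists_cthickening_subset_open hU hsub
  rw [Metric.cthickening_closure] at hηs
  refine ⟨min 1 (η / L), lt_min one_pos (by positivity), min_le_left _ _, ?_⟩
  intro z hne hz
  have h3 : L * min 1 (η / L) ≤ η := by
    have h4 : min 1 (η / L) ≤ η / L := min_le_right _ _
    calc L * min 1 (η / L) ≤ L * (η / L) := by gcongr
      _ = η := by field_simp
  have h5 : z ∈ Metric.cthickening η (numRange A) :=
    cth hne (hz.trans h3)
  have h6 : ‖f.eval z‖ < M := hηs h5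
  exact h6.le

end APPROX

theorem t_APPROX (hD : S_DATUM) (hU : S_UB) : S_APPROX := by
  intro H _ _ _ _ A f hNE hf
  have : CompleteSpace H := FiniteDimensional.complete ℂ H
  obtain ⟨L, hL0, hL⟩ := hD H A
  obtain ⟨C, hC0, hC⟩ := hU H A hNE L
  have hne : (numRange A).Nonempty := W753.CZ.numRange_nonempty A
  have key : ∀ j : ℕ, ∃ (s : ℝ → ℂ) (ρ : ℝ → ℝ) (Y : ℝ → H →L[ℂ] H), Datum A L s ρ Y ∧
      ∀ φ, ‖f.eval (s φ)‖ ≤ 1 + 1 / ((j : ℝ) + 1) := by
    intro j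
    obtain ⟨δ, hδ0, hδ1, hδ⟩ := APPROX.exists_delta A f hf L hL0 (1 + 1 / ((j : ℝ) + 1))
      (by have : (0 : ℝ) < 1 / ((j : ℝ) + 1) := by positivity
          linarith)
    obtain ⟨s, ρ, Y, hd, hs⟩ := hL δ hδ0 hδ1
    exact ⟨s, ρ, Y, hd, fun φ => hδ _ hne (hs φ)⟩
  choose s ρ Y hd hb using key
  refine ⟨L, C, s, ρ, Y, fun j => 1 + 1 / ((j : ℝ) + 1), hL0, hC0, hd, ?_, ?_, ?_, hb, ?_⟩
  · intro j
    have : (0 : ℝ) < 1 / ((j : ℝ) + 1) := by positivity
    linarith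
  · intro j
    have h1 : (1 : ℝ) ≤ (j : ℝ) + 1 := by
      have : (0 : ℝ) ≤ (j : ℝ) := Nat.cast_nonneg j
      linarith
    have h2 : 1 / ((j : ℝ) + 1) ≤ 1 := by
      rw [div_le_one (by positivity)]
      exact h1
    linarith
  · have h1 : Tendsto (fun j : ℕ => 1 / ((j : ℝ) + 1)) atTop (𝓝 0) :=
      tendsto_one_div_add_atTop_nhds_zero_nat
    have h2 : Tendsto (fun j : ℕ => (1 : ℝ) + 1 / ((j : ℝ) + 1)) atTop (𝓝 (1 + 0)) :=
      tendsto_const_nhds.add h1
    rw [add_zero] at h2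
    exact h2
  · intro j φ u
    refine hC (Complex.exp (-φ * Complex.I)) (s j φ) ?_ ((hd j).bd φ) ?_ u
    · have h1 : (-(φ : ℂ) * Complex.I) = ((-φ : ℝ) : ℂ) * Complex.I := by push_cast; ring
      rw [h1, Complex.norm_exp_ofReal_mul_I]
    · intro u
      exact (hd j).bpos φ u

end Pool.Agent.H243.CE
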