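import Pool.Agent.H243.CE.Stmt3

/-! # The approximating sequence for the Moebius image -/

set_option autoImplicit false
set_option linter.all false

open MeasureTheory Set Filter Topology Polynomial

namespace Pool.Agent.H243.CE

open Pool.Agent.W753.CZ (numRange)

namespace APPROXM

lemma mo_bd {ε z : ℂ} {M : ℝ} (hε : ‖ε‖ < 1) (hM : 1 ≤ M) (heM : ‖ε‖ * M < 1) (hz : ‖z‖ ≤ M) :
    ‖mo ε z‖ ≤ (M - ‖ε‖) / (1 - ‖ε‖ * M) := by
  have e0 : 0 ≤ ‖ε‖ := norm_nonneg _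
  have r0 : 0 ≤ ‖z‖ := norm_nonneg _
  have h1 : 0 < 1 - ‖ε‖ * M := by linarith
  have hx : ((starRingEnd ℂ) ε * z).re ≤ ‖ε‖ * ‖z‖ := by
    refine (Complex.re_le_norm _).trans ?_
    rw [norm_mul, RCLike.norm_conj]
  have hN : ‖z - ε‖ ^ 2 = ‖z‖ ^ 2 + ‖ε‖ ^ 2 - 2 * ((starRingEnd ℂ) ε * z).re := by
    rw [Complex.sq_norm, Complex.sq_norm, Complex.sq_norm, Complex.normSq_apply,
      Complex.normSq_apply, Complex.normSq_apply]
    simp only [Complex.sub_re, Complex.sub_im, Complex.mul_re, Complex.conj_re, Complex.conj_im]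
    ring
  have hD : ‖1 - (starRingEnd ℂ) ε * z‖ ^ 2 = 1 + ‖ε‖ ^ 2 * ‖z‖ ^ 2 -
      2 * ((starRingEnd ℂ) ε * z).re := by
    rw [Complex.sq_norm, Complex.sq_norm, Complex.sq_norm, Complex.normSq_apply,
      Complex.normSq_apply, Complex.normSq_apply]
    simp only [Complex.sub_re, Complex.sub_im, Complex.mul_re, Complex.mul_im, Complex.conj_re,
      Complex.conj_im, Complex.one_re, Complex.one_im]
    ring
  set x := ((starRingEnd ℂ) ε * z).re with hxd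
  set e := ‖ε‖ with he
  set r := ‖z‖ with hr
  have hDl : (1 - e * M) ^ 2 ≤ ‖1 - (starRingEnd ℂ) ε * z‖ ^ 2 := by
    rw [hD]
    have h2 : 1 - e * M ≤ 1 - e * r := by nlinarith
    have h3 : (1 - e * M) ^ 2 ≤ (1 - e * r) ^ 2 := pow_le_pow_left₀ h1.le h2 2
    nlinarith
  have hD0 : 0 < ‖1 - (starRingEnd ℂ) ε * z‖ := by
    by_contra hcon
    push Not at hcon
    have : ‖1 - (starRingEnd ℂ) ε * z‖ = 0 := le_antisymm hcon (norm_nonneg _)
    rw [this] at hDl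
    nlinarith [sq_pos_of_pos h1]
  have key : (‖z - ε‖ * (1 - e * M)) ^ 2 ≤ ((M - e) * ‖1 - (starRingEnd ℂ) ε * z‖) ^ 2 := by
    rw [mul_pow, mul_pow]
    have e1 : ‖z - ε‖ ^ 2 = ‖1 - (starRingEnd ℂ) ε * z‖ ^ 2 - (1 - e ^ 2) * (1 - r ^ 2) := by
      rw [hN, hD]; ring
    rw [e1]
    have e2 : (M - e) ^ 2 * ‖1 - (starRingEnd ℂ) ε * z‖ ^ 2 -
        (‖1 - (starRingEnd ℂ) ε * z‖ ^ 2 - (1 - e ^ 2) * (1 - r ^ 2)) * (1 - e * M) ^ 2 =
        (1 - e ^ 2) * ((M ^ 2 - 1) * ‖1 - (starRingEnd ℂ) ε * z‖ ^ 2 +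
          (1 - e * M) ^ 2 * (1 - r ^ 2)) := by ring
    have h4 : (M ^ 2 - 1) * (1 - e * M) ^ 2 ≤ (M ^ 2 - 1) * ‖1 - (starRingEnd ℂ) ε * z‖ ^ 2 :=
      mul_le_mul_of_nonneg_left hDl (by nlinarith)
    have h5 : 0 ≤ (1 - e * M) ^ 2 * (M ^ 2 - r ^ 2) :=
      mul_nonneg (by positivity) (by nlinarith)
    have h6 : 0 ≤ (1 - e ^ 2) * ((M ^ 2 - 1) * ‖1 - (starRingEnd ℂ) ε * z‖ ^ 2 +
          (1 - e * M) ^ 2 * (1 - r ^ 2)) := by
      apply mul_nonneg (by nlinarith)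
      nlinarith
    linarith
  have h7 : ‖z - ε‖ * (1 - e * M) ≤ (M - e) * ‖1 - (starRingEnd ℂ) ε * z‖ :=
    abs_le_of_sq_le_sq key (mul_nonneg (by linarith) hD0.le) |> (le_abs_self _).trans
  unfold mo
  rw [norm_div, div_le_div_iff₀ hD0 h1]
  exact h7

lemma aeval_comm {H : Type} [NormedAddCommGroup H] [InnerProductSpace ℂ H] {A Y : H →L[ℂ] H}
    (h : A * Y = Y * A) (p : ℂ[X]) : aeval A p * Y = Y * aeval A p := by
  induction p using Polynomial.induction_on' with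
  | add p q hp hq => rw [map_add, add_mul, mul_add, hp, hq]
  | monomial n a =>
    rw [aeval_monomial, Algebra.algebraMap_eq_smul_one, smul_mul_assoc, one_mul, smul_mul_assoc,
      mul_smul_comm]
    congr 1
    exact ((show Commute A Y from h).pow_left n).eq

lemma inv_comm {H : Type} [NormedAddCommGroup H] [InnerProductSpace ℂ H] {D Q Y : H →L[ℂ] H}
    (h : D * Y = Y * D) (h1 : Q * D = 1) (h2 : D * Q = 1) : Q * Y = Y * Q := by
  calc Q * Y = Q * Y * (D * Q) := by rw [h2, mul_one]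
    _ = Q * (Y * D) * Q := by simp only [mul_assoc]
    _ = Q * (D * Y) * Q := by rw [h]
    _ = (Q * D) * Y * Q := by simp only [mul_assoc]
    _ = Y * Q := by rw [h1, one_mul]

end APPROXM

open APPROXM in
theorem t_APPROXM (hA : S_APPROX) (hI : S_INTF) : S_APPROXM := by
  intro H _ _ _ _ A p ε T Q hNE hp hMob
  haveI : CompleteSpace H := FiniteDimensional.complete ℂ H
  obtain ⟨L, K, s, ρ, Y, M, hap⟩ := hA H A p hNE hp
  have hε := hMob.e1
  have e0 : 0 ≤ ‖ε‖ := norm_nonneg _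
  have t1 : Tendsto (fun j => ‖ε‖ * M j) atTop (𝓝 (‖ε‖ * 1)) := hap.Mt.const_mul _
  have t2 : Tendsto (fun j => (M j - ‖ε‖) / (1 - ‖ε‖ * M j)) atTop (𝓝 1) := by
    have h1 := (hap.Mt.sub_const ‖ε‖).div (t1.const_sub 1) (by linarith)
    have h2 : (1 - ‖ε‖) / (1 - ‖ε‖ * 1) = 1 := by
      rw [mul_one]
      exact div_self (by linarith)
    rwa [h2] at h1
  have ev1 : ∀ᶠ j in atTop, ‖ε‖ * M j < (1 + ‖ε‖) / 2 :=
    t1.eventually (gt_mem_nhds (by linarith))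
  have ev2 : ∀ᶠ j in atTop, (M j - ‖ε‖) / (1 - ‖ε‖ * M j) < 2 :=
    t2.eventually (gt_mem_nhds (by norm_num))
  obtain ⟨j₀, hj₀⟩ := eventually_atTop.1 (ev1.and ev2)
  have b1 : ∀ j, ‖ε‖ * M (j + j₀) < (1 + ‖ε‖) / 2 := fun j => (hj₀ _ (by omega)).1
  have b2 : ∀ j, (M (j + j₀) - ‖ε‖) / (1 - ‖ε‖ * M (j + j₀)) < 2 := fun j => (hj₀ _ (by omega)).2
  have b3 : ∀ j, 0 < 1 - ‖ε‖ * M (j + j₀) := fun j => by have := b1 j; linarith
  refine ⟨L, K, fun j => s (j + j₀), fun j => ρ (j + j₀), fun j => Y (j + j₀),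
    fun j => M (j + j₀), fun j => (M (j + j₀) - ‖ε‖) / (1 - ‖ε‖ * M (j + j₀)), ?_⟩
  refine
    { ap := ⟨hap.L0, hap.C0, fun j => hap.dat _, fun j => hap.M1 _, fun j => hap.M2 _,
        hap.Mt.comp (tendsto_add_atTop_nat j₀), fun j φ => hap.fb _ φ, fun j φ u => hap.ub _ φ u⟩
      eM := fun j => (b1 j).le
      M1 := fun j => ?_
      M2 := fun j => (b2 j).le
      Mt := t2.comp (tendsto_add_atTop_nat j₀)
      Fb := fun j φ => ?_
      Fi := fun j k g => ?_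
      comm := fun j φ => ?_ }
  · show 1 ≤ (M (j + j₀) - ‖ε‖) / (1 - ‖ε‖ * M (j + j₀))
    rw [le_div_iff₀ (b3 j)]
    have := hap.M1 (j + j₀)
    nlinarith
  · have h3 := b3 j
    exact mo_bd hε (hap.M1 _) (by linarith) (hap.fb _ φ)
  · refine hI H A L (s (j + j₀)) (ρ (j + j₀)) (Y (j + j₀)) (hap.dat _) p ε T Q
      ((1 + ‖ε‖) / 2) hMob (by linarith) (fun φ => ?_) k g
    exact (mul_le_mul_of_nonneg_left (hap.fb _ φ) e0).trans (b1 j).le
  · show T * Y (j + j₀) φ = Y (j + j₀) φ * T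
    have h1 := aeval_comm ((hap.dat (j + j₀)).comm φ) p
    have h2 : (1 - (starRingEnd ℂ) ε • aeval A p) * Y (j + j₀) φ =
        Y (j + j₀) φ * (1 - (starRingEnd ℂ) ε • aeval A p) := by
      rw [sub_mul, mul_sub, one_mul, mul_one, smul_mul_assoc, mul_smul_comm, h1]
    have h3 := inv_comm h2 hMob.q1 hMob.q2
    have h4 : (aeval A p - ε • (1 : H →L[ℂ] H)) * Y (j + j₀) φ =
        Y (j + j₀) φ * (aeval A p - ε • (1 : H →L[ℂ] H)) := by
      rw [sub_mul, mul_sub, smul_mul_assoc, mul_smul_comm, one_mul, mul_one, h1]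
    rw [hMob.t, mul_assoc, h3, ← mul_assoc, h4, mul_assoc]

end Pool.Agent.H243.CE
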