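import Pool.Agent.H243.CE.Stmt

/-!
# (CE16) the numerical range is a disc
-/

set_option autoImplicit false

open Pool.Agent.W753.CZ (numRange)

namespace Pool.Agent.H243.CE.DISC

variable {H : Type} [NormedAddCommGroup H] [InnerProductSpace ℂ H]

theorem inner_bound (b : H →L[ℂ] H) (h : ∀ w ∈ numRange b, ‖w‖ ≤ 1) (u : H) :
    ‖inner ℂ u (b u)‖ ≤ ‖u‖ ^ 2 := by
  by_cases hu : u = 0
  · subst hu; simp
  have hn : 0 < ‖u‖ := norm_pos_iff.mpr hu
  have hnc : ((‖u‖ : ℝ) : ℂ) ≠ 0 := by exact_mod_cast hn.ne'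
  have h1 : ‖(((‖u‖ : ℝ) : ℂ)⁻¹ • u)‖ = 1 := by
    rw [norm_smul, norm_inv, Complex.norm_real, Real.norm_of_nonneg hn.le]
    field_simp
  have h2 := h _ ⟨_, h1, rfl⟩
  rw [map_smul, inner_smul_left, inner_smul_right, norm_mul, norm_mul] at h2
  simp only [map_inv₀, Complex.conj_ofReal, norm_inv, Complex.norm_real,
    Real.norm_of_nonneg hn.le] at h2
  have h3 : ‖u‖⁻¹ * (‖u‖⁻¹ * ‖inner ℂ u (b u)‖) = ‖inner ℂ u (b u)‖ / ‖u‖ ^ 2 := by
    field_simp
  rw [h3, div_le_one (by positivity)] at h2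
  exact h2

theorem re_nonneg (b : H →L[ℂ] H) (hb : ∀ u, ‖inner ℂ u (b u)‖ ≤ ‖u‖ ^ 2) (w : ℂ)
    (hw : ‖w‖ = 1) (u : H) : 0 ≤ (inner ℂ u (u - w • b u)).re := by
  rw [inner_sub_right, inner_smul_right, Complex.sub_re]
  have h1 : (inner ℂ u u).re = ‖u‖ ^ 2 := by
    rw [inner_self_eq_norm_sq_to_K]
    norm_cast
  have h2 : (w * inner ℂ u (b u)).re ≤ ‖u‖ ^ 2 := by
    refine (Complex.re_le_norm _).trans ?_
    rw [norm_mul, hw, one_mul]
    exact hb u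
  rw [h1]; linarith

/-- the partial geometric sums -/
noncomputable def g (b : H →L[ℂ] H) (N : ℕ) (w : ℂ) (v : H) : H :=
  ∑ m ∈ Finset.range N, w ^ m • (b ^ m) v

theorem g_tel (b : H →L[ℂ] H) (N : ℕ) (w : ℂ) (v : H) :
    g b N w v - w • b (g b N w v) = v - w ^ N • (b ^ N) v := by
  unfold g
  rw [map_sum, Finset.smul_sum, ← Finset.sum_sub_distrib]
  have : ∀ m ∈ Finset.range N, w ^ m • (b ^ m) v - w • b (w ^ m • (b ^ m) v) =
      w ^ m • (b ^ m) v - w ^ (m + 1) • (b ^ (m + 1)) v := by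
    intro m _
    rw [map_smul, smul_smul, ← pow_succ', pow_succ' b m]
    rfl
  rw [Finset.sum_congr rfl this, Finset.sum_range_sub' (fun m => w ^ m • (b ^ m) v)]
  simp

theorem g_sum (b : H →L[ℂ] H) (N : ℕ) (hN : 1 ≤ N) (ζ : ℂ) (hζ : IsPrimitiveRoot ζ N) (v : H) :
    ∑ j ∈ Finset.range N, g b N (ζ ^ j) v = (N : ℂ) • v := by
  unfold g
  rw [Finset.sum_comm]
  have hz : ∀ m ∈ Finset.range N, ∑ j ∈ Finset.range N, (ζ ^ j) ^ m • (b ^ m) v =
      if m = 0 then (N : ℂ) • v else 0 := by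
    intro m hm
    rw [Finset.mem_range] at hm
    rw [← Finset.sum_smul]
    split_ifs with h0
    · subst h0; simp
    · have h1 : ∑ j ∈ Finset.range N, (ζ ^ j) ^ m = ∑ j ∈ Finset.range N, (ζ ^ m) ^ j :=
        Finset.sum_congr rfl (fun j _ => by rw [← pow_mul, ← pow_mul, mul_comm])
      have h2 : ζ ^ m ≠ 1 := hζ.pow_ne_one_of_pos_of_lt h0 hm
      have h3 := mul_geom_sum (ζ ^ m) N
      rw [← pow_mul, mul_comm m N, pow_mul, hζ.pow_eq_one, one_pow, sub_self] at h3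
      have h4 : ∑ j ∈ Finset.range N, (ζ ^ m) ^ j = 0 := by
        rcases mul_eq_zero.mp h3 with h | h
        · exact absurd (sub_eq_zero.mp h) h2
        · exact h
      rw [h1, h4, zero_smul]
  rw [Finset.sum_congr rfl hz, Finset.sum_ite_eq' (Finset.range N) 0]
  rw [if_pos (Finset.mem_range.mpr hN)]

theorem pearcy (b : H →L[ℂ] H) (N : ℕ) (hN : 1 ≤ N) (ζ : ℂ) (hζ : IsPrimitiveRoot ζ N) (v : H) :
    ∑ j ∈ Finset.range N, inner ℂ (g b N (ζ ^ j) v)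
      (g b N (ζ ^ j) v - ζ ^ j • b (g b N (ζ ^ j) v)) = (N : ℂ) * inner ℂ v (v - (b ^ N) v) := by
  have h1 : ∀ j ∈ Finset.range N, inner ℂ (g b N (ζ ^ j) v)
      (g b N (ζ ^ j) v - ζ ^ j • b (g b N (ζ ^ j) v)) =
      inner ℂ (g b N (ζ ^ j) v) (v - (b ^ N) v) := by
    intro j _
    rw [g_tel, ← pow_mul, mul_comm j N, pow_mul, hζ.pow_eq_one, one_pow, one_smul]
  rw [Finset.sum_congr rfl h1, ← sum_inner, g_sum b N hN ζ hζ, inner_smul_left,
    Complex.conj_natCast]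

theorem exists_root (N : ℕ) (hN : 1 ≤ N) (l : ℂ) (hl : ‖l‖ = 1) : ∃ k : ℂ, ‖k‖ = 1 ∧ k ^ N = l := by
  obtain ⟨k, hk⟩ := IsAlgClosed.exists_pow_nat_eq l (n := N) (by omega)
  refine ⟨k, ?_, hk⟩
  have h1 : ‖k‖ ^ N = 1 := by rw [← norm_pow, hk, hl]
  exact (pow_eq_one_iff_of_nonneg (norm_nonneg k) (by omega)).mp h1

theorem prim (N : ℕ) (hN : 1 ≤ N) : ∃ ζ : ℂ, IsPrimitiveRoot ζ N :=
  ⟨_, Complex.isPrimitiveRoot_exp N (by omega)⟩

theorem unit_pow {ζ : ℂ} {N : ℕ} (hN : 1 ≤ N) (hζ : IsPrimitiveRoot ζ N) (j : ℕ) :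
    ‖ζ ^ j‖ = 1 := by
  have h1 : ‖ζ‖ ^ N = 1 := by rw [← norm_pow, hζ.pow_eq_one, norm_one]
  have h2 : ‖ζ‖ = 1 := (pow_eq_one_iff_of_nonneg (norm_nonneg ζ) (by omega)).mp h1
  rw [norm_pow, h2, one_pow]

theorem re_pow (b : H →L[ℂ] H) (hb : ∀ u, ‖inner ℂ u (b u)‖ ≤ ‖u‖ ^ 2) (N : ℕ) (hN : 1 ≤ N)
    (v : H) : (inner ℂ v ((b ^ N) v)).re ≤ ‖v‖ ^ 2 := by
  obtain ⟨ζ, hζ⟩ := prim N hN
  have h1 := congrArg Complex.re (pearcy b N hN ζ hζ v)
  rw [Complex.re_sum] at h1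
  have h2 : 0 ≤ ∑ j ∈ Finset.range N, (inner ℂ (g b N (ζ ^ j) v)
      (g b N (ζ ^ j) v - ζ ^ j • b (g b N (ζ ^ j) v))).re :=
    Finset.sum_nonneg fun j _ => re_nonneg b hb _ (unit_pow hN hζ j) _
  rw [h1] at h2
  have h3 : ((N : ℂ) * inner ℂ v (v - (b ^ N) v)).re = N * (inner ℂ v (v - (b ^ N) v)).re := by
    rw [Complex.mul_re]; simp
  rw [h3] at h2
  have hNp : (0 : ℝ) < N := by exact_mod_cast hN
  have h4 : 0 ≤ (inner ℂ v (v - (b ^ N) v)).re := nonneg_of_mul_nonneg_right h2 hNp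
  rw [inner_sub_right, Complex.sub_re, inner_self_eq_norm_sq_to_K] at h4
  have h5 : (((‖v‖ : ℝ) : ℂ) ^ 2).re = ‖v‖ ^ 2 := by norm_cast
  have h6 : ((RCLike.ofReal ‖v‖ : ℂ) ^ 2).re = ‖v‖ ^ 2 := h5
  rw [h6] at h4
  linarith

theorem smul_bound (b : H →L[ℂ] H) (hb : ∀ u, ‖inner ℂ u (b u)‖ ≤ ‖u‖ ^ 2) (k : ℂ)
    (hk : ‖k‖ = 1) (u : H) : ‖inner ℂ u ((k • b) u)‖ ≤ ‖u‖ ^ 2 := by
  rw [smul_apply, inner_smul_right, norm_mul, hk, one_mul]
  exact hb u

theorem re_pow' (b : H →L[ℂ] H) (hb : ∀ u, ‖inner ℂ u (b u)‖ ≤ ‖u‖ ^ 2) (N : ℕ) (hN : 1 ≤ N)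
    (l : ℂ) (hl : ‖l‖ = 1) (v : H) : (l * inner ℂ v ((b ^ N) v)).re ≤ ‖v‖ ^ 2 := by
  obtain ⟨k, hk1, hk2⟩ := exists_root N hN l hl
  have h1 := re_pow (k • b) (smul_bound b hb k hk1) N hN v
  rw [smul_pow, hk2, smul_apply, inner_smul_right] at h1
  exact h1

/-- a complex number whose rotations all have nonpositive real part vanishes -/
theorem zero_of_rot (a : ℂ) (h : ∀ l : ℂ, ‖l‖ = 1 → (l * a).re ≤ 0) : a = 0 := by
  by_contra ha
  have hn : 0 < ‖a‖ := norm_pos_iff.mpr ha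
  have hnc : ((‖a‖ : ℝ) : ℂ) ≠ 0 := by exact_mod_cast hn.ne'
  have h1 := h ((starRingEnd ℂ) a / ((‖a‖ : ℝ) : ℂ)) (by
    rw [norm_div, RCLike.norm_conj, Complex.norm_real, Real.norm_of_nonneg hn.le]
    field_simp)
  have h2 : (starRingEnd ℂ) a / ((‖a‖ : ℝ) : ℂ) * a = ((‖a‖ : ℝ) : ℂ) := by
    have : (starRingEnd ℂ) a * a = ((‖a‖ : ℝ) : ℂ) ^ 2 := Complex.conj_mul' a
    field_simp
    linear_combination this
  rw [h2, Complex.ofReal_re] at h1
  linarith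

theorem pow_bound (b : H →L[ℂ] H) (hb : ∀ u, ‖inner ℂ u (b u)‖ ≤ ‖u‖ ^ 2) (N : ℕ) (hN : 1 ≤ N)
    (v : H) : ‖inner ℂ v ((b ^ N) v)‖ ≤ ‖v‖ ^ 2 := by
  set a := inner ℂ v ((b ^ N) v) with ha
  by_cases h0 : a = 0
  · rw [h0]; simp
  have hn : 0 < ‖a‖ := norm_pos_iff.mpr h0
  have hnc : ((‖a‖ : ℝ) : ℂ) ≠ 0 := by exact_mod_cast hn.ne'
  have h1 := re_pow' b hb N hN ((starRingEnd ℂ) a / ((‖a‖ : ℝ) : ℂ)) (by
    rw [norm_div, RCLike.norm_conj, Complex.norm_real, Real.norm_of_nonneg hn.le]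
    field_simp) v
  rw [← ha] at h1
  have h2 : (starRingEnd ℂ) a / ((‖a‖ : ℝ) : ℂ) * a = ((‖a‖ : ℝ) : ℂ) := by
    have : (starRingEnd ℂ) a * a = ((‖a‖ : ℝ) : ℂ) ^ 2 := Complex.conj_mul' a
    field_simp
    linear_combination this
  rw [h2, Complex.ofReal_re] at h1
  exact h1

theorem inner_self_c (v : H) : inner ℂ v v = ((‖v‖ ^ 2 : ℝ) : ℂ) := by
  rw [inner_self_eq_norm_sq_to_K]
  norm_cast

/-- the key step: `1` lies in the numerical range -/
theorem one_mem (b : H →L[ℂ] H) (hb : ∀ u, ‖inner ℂ u (b u)‖ ≤ ‖u‖ ^ 2) (N : ℕ) (hN : 1 ≤ N)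
    (x : H) (hx : ‖x‖ = 1) (h2 : ‖(b ^ N) x‖ = 2) : ∃ u : H, ‖u‖ = 1 ∧ inner ℂ u (b u) = 1 := by
  obtain ⟨y, hy⟩ : ∃ y : H, (b ^ N) x = (2 : ℂ) • y := ⟨(2 : ℂ)⁻¹ • (b ^ N) x, by
    rw [smul_smul, mul_inv_cancel₀ (by norm_num), one_smul]⟩
  have hy1 : ‖y‖ = 1 := by
    rw [hy, norm_smul] at h2
    have : ‖(2 : ℂ)‖ = 2 := by simp
    rw [this] at h2
    linarith
  set S := b ^ N with hS
  have hxx : inner ℂ x x = (1 : ℂ) := by rw [inner_self_c, hx]; norm_num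
  have hyy : inner ℂ y y = (1 : ℂ) := by rw [inner_self_c, hy1]; norm_num
  -- the quadratic form
  have hq : ∀ l : ℂ, ‖l‖ = 1 → (l ^ 2 * inner ℂ x (S y) + l * inner ℂ y (S y)).re ≤ 0 := by
    intro l hl
    have h1 := re_pow' b hb N hN l hl (x + l • y)
    rw [← hS] at h1
    have hll : l * (starRingEnd ℂ) l = 1 := by
      rw [Complex.mul_conj, Complex.normSq_eq_norm_sq, hl]; norm_num
    have hns : ((‖x + l • y‖ ^ 2 : ℝ) : ℂ) = 2 + l * inner ℂ x y +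
        (starRingEnd ℂ) (l * inner ℂ x y) := by
      rw [← inner_self_c, inner_add_left, inner_add_right, inner_add_right, inner_smul_left,
        inner_smul_left, inner_smul_right, inner_smul_right, hxx, hyy, map_mul, inner_conj_symm]
      linear_combination hll
    have hns' := congrArg Complex.re hns
    rw [Complex.ofReal_re] at hns'
    have hin : l * inner ℂ (x + l • y) (S (x + l • y)) =
        2 * (l * inner ℂ x y) + 2 + (l ^ 2 * inner ℂ x (S y) + l * inner ℂ y (S y)) := by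
      rw [map_add, map_smul, hy, inner_add_left, inner_add_right, inner_add_right,
        inner_smul_left, inner_smul_left, inner_smul_right, inner_smul_right, inner_smul_right,
        inner_smul_right, hyy]
      linear_combination (2 + l * inner ℂ y (S y)) * hll
    rw [hin, hns'] at h1
    simp only [Complex.add_re, Complex.mul_re, Complex.conj_re, Complex.re_ofNat,
      Complex.im_ofNat] at h1 ⊢
    linarith
  have ha : inner ℂ x (S y) = (0 : ℂ) := by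
    apply zero_of_rot
    intro l hl
    obtain ⟨k, hk1, hk2⟩ := exists_root 2 (by norm_num) l hl
    have h3 := hq k hk1
    have h4 := hq (-k) (by rw [norm_neg, hk1])
    rw [neg_sq, hk2, Complex.add_re] at h4
    rw [hk2, Complex.add_re] at h3
    have h5 : (-k * inner ℂ y (S y)).re = -(k * inner ℂ y (S y)).re := by
      rw [neg_mul, Complex.neg_re]
    rw [h5] at h4
    linarith
  have hc : inner ℂ y (S y) = (0 : ℂ) := by
    apply zero_of_rot
    intro l hl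
    have h3 := hq l hl
    rw [ha, mul_zero, zero_add] at h3
    exact h3
  -- the vector `v`
  obtain ⟨v, hv⟩ : ∃ v : H, v = x + y := ⟨_, rfl⟩
  have hSv : S v = (2 : ℂ) • y + S y := by rw [hv, map_add, hy]
  have hvv : (inner ℂ v (v - S v)).re = 0 := by
    rw [inner_sub_right, hSv, hv]
    rw [inner_add_left, inner_add_right, inner_add_right, inner_add_left, inner_add_right,
      inner_add_right, inner_smul_right, inner_smul_right, hxx, hyy, ha, hc,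
      ← inner_conj_symm y x]
    simp only [Complex.add_re, Complex.sub_re, Complex.mul_re, Complex.conj_re, Complex.re_ofNat,
      Complex.im_ofNat, Complex.one_re, Complex.one_im, Complex.zero_re]
    ring
  obtain ⟨ζ, hζ⟩ := prim N hN
  have h1 := congrArg Complex.re (pearcy b N hN ζ hζ v)
  rw [Complex.re_sum, ← hS, Complex.mul_re, hvv] at h1
  simp only [Complex.natCast_im, zero_mul, mul_zero, sub_zero] at h1
  have h3 := (Finset.sum_eq_zero_iff_of_nonneg (fun j _ =>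
    re_nonneg b hb _ (unit_pow hN hζ j) (g b N (ζ ^ j) v))).mp h1 0 (Finset.mem_range.mpr hN)
  rw [pow_zero, one_smul] at h3
  obtain ⟨z, hz⟩ : ∃ z : H, z = g b N 1 v := ⟨_, rfl⟩
  rw [← hz] at h3
  have hz0 : z ≠ 0 := by
    intro h0
    have h4 := g_tel b N 1 v
    rw [← hz, h0, map_zero, smul_zero, sub_zero, one_pow, one_smul, ← hS] at h4
    have h5 : v = S v := (sub_eq_zero.mp h4.symm)
    have h6 : inner ℂ x v = inner ℂ x (S v) := by rw [← h5]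
    rw [hSv, hv, inner_add_right, inner_add_right, inner_smul_right, hxx, ha] at h6
    have h7 : inner ℂ x y = (1 : ℂ) := by linear_combination -h6
    have h8 := pow_bound b hb N hN x
    rw [← hS, hy, inner_smul_right, h7, hx] at h8
    norm_num at h8
  have hzn : 0 < ‖z‖ := norm_pos_iff.mpr hz0
  have hzc : ((‖z‖ : ℝ) : ℂ) ≠ 0 := by exact_mod_cast hzn.ne'
  refine ⟨((‖z‖ : ℝ) : ℂ)⁻¹ • z, ?_, ?_⟩
  · rw [norm_smul, norm_inv, Complex.norm_real, Real.norm_of_nonneg hzn.le]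
    field_simp
  · rw [inner_sub_right, Complex.sub_re, inner_self_c, Complex.ofReal_re] at h3
    have h9 : (inner ℂ z (b z)).re = ‖z‖ ^ 2 := by linarith
    have h10 := hb z
    have h11 : (inner ℂ z (b z)) = ((‖z‖ ^ 2 : ℝ) : ℂ) := by
      have h12 : (inner ℂ z (b z)).im = 0 := by
        have h13 := Complex.sq_norm (inner ℂ z (b z))
        rw [Complex.normSq_apply, h9] at h13
        have h14 : ‖inner ℂ z (b z)‖ ^ 2 ≤ (‖z‖ ^ 2) ^ 2 :=
          pow_le_pow_left₀ (norm_nonneg _) h10 2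
        have h15 : (inner ℂ z (b z)).im * (inner ℂ z (b z)).im ≤ 0 := by nlinarith
        exact mul_self_eq_zero.mp (le_antisymm h15 (mul_self_nonneg _))
      apply Complex.ext
      · rw [h9, Complex.ofReal_re]
      · rw [h12, Complex.ofReal_im]
    rw [map_smul, inner_smul_left, inner_smul_right, h11, map_inv₀, Complex.conj_ofReal]
    push_cast
    field_simp

theorem circle_mem (b : H →L[ℂ] H) (hb : ∀ u, ‖inner ℂ u (b u)‖ ≤ ‖u‖ ^ 2) (N : ℕ) (hN : 1 ≤ N)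
    (x : H) (hx : ‖x‖ = 1) (h2 : ‖(b ^ N) x‖ = 2) (k : ℂ) (hk : ‖k‖ = 1) : k ∈ numRange b := by
  have hkk : (starRingEnd ℂ) k * k = 1 := by
    rw [Complex.conj_mul', hk]; norm_num
  have hk' : ‖(starRingEnd ℂ) k‖ = 1 := by rw [RCLike.norm_conj, hk]
  obtain ⟨u, hu1, hu2⟩ := one_mem ((starRingEnd ℂ) k • b) (smul_bound b hb _ hk') N hN x hx (by
    rw [smul_pow, smul_apply, norm_smul, norm_pow, hk', one_pow, one_mul, h2])
  refine ⟨u, hu1, ?_⟩
  rw [smul_apply, inner_smul_right] at hu2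
  calc inner ℂ u (b u) = k * ((starRingEnd ℂ) k * inner ℂ u (b u)) := by
        linear_combination -(inner ℂ u (b u)) * hkk
    _ = k := by rw [hu2, mul_one]

end Pool.Agent.H243.CE.DISC

namespace Pool.Agent.H243.CE

open DISC

theorem t_DISC : S_DISC := by
  intro H _ _ b N x hN hw hx h2
  have hb := inner_bound b hw
  have hc := circle_mem b hb N hN x hx h2
  have hconv : Convex ℝ (numRange b) := H640R2.PhaseMu.toeplitz_hausdorff b
  apply Set.Subset.antisymm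
  · intro w h
    rw [mem_closedBall_zero_iff]
    exact hw w h
  · intro w h
    rw [mem_closedBall_zero_iff] at h
    obtain ⟨e, he, hwe⟩ : ∃ e : ℂ, ‖e‖ = 1 ∧ w = ‖w‖ • e := by
      by_cases h0 : w = 0
      · exact ⟨1, norm_one, by rw [h0]; simp⟩
      · have hn : 0 < ‖w‖ := norm_pos_iff.mpr h0
        refine ⟨‖w‖⁻¹ • w, ?_, ?_⟩
        · rw [norm_smul, norm_inv, norm_norm]; field_simp
        · rw [smul_smul, mul_inv_cancel₀ hn.ne', one_smul]
    have h3 := hconv (hc e he) (hc (-e) (by rw [norm_neg, he]))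
      (show (0 : ℝ) ≤ (1 + ‖w‖) / 2 by positivity)
      (show (0 : ℝ) ≤ (1 - ‖w‖) / 2 by linarith) (by ring)
    have h4 : ((1 + ‖w‖) / 2) • e + ((1 - ‖w‖) / 2) • (-e) = w := by
      rw [smul_neg, ← sub_eq_add_neg, ← sub_smul]
      rw [show (1 + ‖w‖) / 2 - (1 - ‖w‖) / 2 = ‖w‖ by ring]
      exact hwe.symm
    rw [h4] at h3
    exact h3

end Pool.Agent.H243.CE
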