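import Pool.Agent.H243.CE.Stmt

/-!
# (CE17) orthogonality of `x` and `P x` for maximal vectors, by Moebius variation
-/

set_option autoImplicit false

open Polynomial Filter Topology

namespace Pool.Agent.H243.CE.QORTH

open Q82.QR

variable {E : Type} [NormedAddCommGroup E] [InnerProductSpace ℂ E]

lemma Bp_bound' {ε : ℂ} (hε : ‖ε‖ ≤ 1 / 4) (N : ℕ) {w : ℂ} (hw : ‖w‖ ≤ 1) :
    ‖(Bp ε N).eval w‖ ≤ 1 + (1 / 4 : ℝ) ^ N * (4 / 3) := by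
  have h := congrArg (eval w) (Bp_mul ε N)
  simp only [eval_mul, eval_sub, eval_one, eval_C, eval_X, eval_pow] at h
  set D : ℂ := 1 - (starRingEnd ℂ) ε * w with hD
  have hDn : 3 / 4 ≤ ‖D‖ := by
    have h1 : ‖(1 : ℂ)‖ - ‖(starRingEnd ℂ) ε * w‖ ≤ ‖D‖ := norm_sub_norm_le _ _
    have h2 : ‖(starRingEnd ℂ) ε * w‖ ≤ 1 / 4 * 1 := by
      rw [norm_mul, RCLike.norm_conj]
      exact mul_le_mul hε hw (norm_nonneg _) (by norm_num)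
    rw [norm_one] at h1
    linarith
  have hD0 : 0 < ‖D‖ := by linarith
  have h1 : ‖w - ε‖ ≤ ‖D‖ := by
    apply abs_le_of_sq_le_sq' _ (norm_nonneg _) |>.2
    have e1 : ‖w - ε‖ ^ 2 = Complex.normSq (w - ε) := (Complex.normSq_eq_norm_sq _).symm
    have e2 : ‖D‖ ^ 2 = Complex.normSq D := (Complex.normSq_eq_norm_sq _).symm
    have e3 : ‖ε‖ ^ 2 = Complex.normSq ε := (Complex.normSq_eq_norm_sq _).symm
    have e4 : ‖w‖ ^ 2 = Complex.normSq w := (Complex.normSq_eq_norm_sq _).symm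
    have h5 : Complex.normSq D - Complex.normSq (w - ε) =
        (1 - Complex.normSq ε) * (1 - Complex.normSq w) := by
      rw [hD]
      simp only [Complex.normSq_apply, Complex.sub_re, Complex.sub_im, Complex.mul_re,
        Complex.mul_im, Complex.conj_re, Complex.conj_im, Complex.one_re, Complex.one_im]
      ring
    have h6 : 0 ≤ 1 - Complex.normSq ε := by rw [← e3]; nlinarith [norm_nonneg ε]
    have h7 : 0 ≤ 1 - Complex.normSq w := by rw [← e4]; nlinarith [norm_nonneg w]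
    rw [e1, e2]
    nlinarith [mul_nonneg h6 h7]
  have h2 : ‖((1 - ‖ε‖ ^ 2 : ℝ) : ℂ) * (starRingEnd ℂ) ε ^ N * w ^ (N + 1)‖ ≤ (1 / 4 : ℝ) ^ N := by
    rw [norm_mul, norm_mul, norm_pow, norm_pow, RCLike.norm_conj, Complex.norm_real]
    have e1 : ‖(1 - ‖ε‖ ^ 2 : ℝ)‖ ≤ 1 := by
      rw [Real.norm_eq_abs, abs_le]
      constructor <;> nlinarith [norm_nonneg ε]
    have e2 : ‖ε‖ ^ N ≤ (1 / 4 : ℝ) ^ N := pow_le_pow_left₀ (norm_nonneg _) hε _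
    have e3 : ‖w‖ ^ (N + 1) ≤ 1 := pow_le_one₀ (norm_nonneg _) hw
    calc ‖(1 - ‖ε‖ ^ 2 : ℝ)‖ * ‖ε‖ ^ N * ‖w‖ ^ (N + 1) ≤ 1 * (1 / 4 : ℝ) ^ N * 1 := by gcongr
      _ = (1 / 4 : ℝ) ^ N := by ring
  have h3 : ‖(Bp ε N).eval w‖ * ‖D‖ ≤ ‖D‖ + (1 / 4 : ℝ) ^ N := by
    rw [← norm_mul, h]
    exact (norm_sub_le _ _).trans (add_le_add h1 h2)
  have h5 : (1 / 4 : ℝ) ^ N ≤ (1 / 4 : ℝ) ^ N * (4 / 3) * ‖D‖ := by
    have : 0 ≤ (1 / 4 : ℝ) ^ N := by positivity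
    nlinarith
  have h6 : ‖(Bp ε N).eval w‖ * ‖D‖ ≤ (1 + (1 / 4 : ℝ) ^ N * (4 / 3)) * ‖D‖ := by
    linarith
  exact le_of_mul_le_mul_right h6 hD0

end Pool.Agent.H243.CE.QORTH

namespace Pool.Agent.H243.CE

open Q82.QR QORTH

theorem t_QORTH : S_QORTH := by
  unfold S_QORTH
  intro E _ _ _ _ A p s t q hs ht hq hqt hsq hBd hdim h2t x hx hmax
  have : CompleteSpace E := FiniteDimensional.complete ℂ E
  set P : E →L[ℂ] E := aeval A p with hP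
  have hk : max 1 (2 * t) = 2 * t := max_eq_right h2t.le
  -- the radius
  set r : ℝ := min (1 / 4) (1 / (4 * (‖P‖ + 1))) with hr
  have hr0 : 0 < r := lt_min (by norm_num) (by positivity)
  have hab : ‖P x‖ = 2 * t * ‖x‖ := by rw [hx, mul_one]; exact hmax
  apply orth_of_max h2t hr0 hab
  intro δ hδ
  have hδ1 : ‖δ‖ ≤ 1 / 4 := hδ.trans (min_le_left _ _)
  have hδ2 : ‖δ‖ * ‖P‖ ≤ 1 / 4 := by
    have h1 : ‖δ‖ ≤ 1 / (4 * (‖P‖ + 1)) := hδ.trans (min_le_right _ _)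
    rw [le_div_iff₀ (by positivity)] at h1
    nlinarith [norm_nonneg δ, norm_nonneg P]
  set b : E := x - (starRingEnd ℂ) δ • P x with hb
  set a : E := P x - δ • x with ha
  have hlim : ∀ N : ℕ, ‖a‖ ≤ 2 * t * (1 + (1 / 4 : ℝ) ^ N * (4 / 3)) * ‖b‖ +
      (1 / 4 : ℝ) ^ N * (‖P‖ * ‖x‖) := by
    intro N
    have hbN : Bd A s ((Bp δ N).comp p) (1 + (1 / 4 : ℝ) ^ N * (4 / 3)) := by
      intro x v h1 h2 h3
      rw [eval_comp]
      exact Bp_bound' hδ1 N (hBd x v h1 h2 h3)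
    have h1 := main_bound hs ht hq hqt hsq (by positivity) hbN hdim
    rw [aeval_comp, ← hP, hk] at h1
    set c : ℂ := ((1 - ‖δ‖ ^ 2 : ℝ) : ℂ) * (starRingEnd ℂ) δ ^ N with hc
    have hcn : ‖c‖ ≤ ‖δ‖ ^ N := by
      rw [hc, norm_mul, norm_pow, RCLike.norm_conj, Complex.norm_real]
      have e1 : ‖(1 - ‖δ‖ ^ 2 : ℝ)‖ ≤ 1 := by
        rw [Real.norm_eq_abs, abs_le]
        constructor <;> nlinarith [norm_nonneg δ]
      calc ‖(1 - ‖δ‖ ^ 2 : ℝ)‖ * ‖δ‖ ^ N ≤ 1 * ‖δ‖ ^ N := by gcongr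
        _ = ‖δ‖ ^ N := one_mul _
    have h2 : (aeval P (Bp δ N)) b = a - c • (P ^ (N + 1)) x := by
      have e1 : b = (aeval P (1 - C ((starRingEnd ℂ) δ) * X)) x := by
        rw [map_sub, map_mul, map_one, aeval_C, aeval_X, ← Algebra.smul_def]
        rfl
      have e2 : (aeval P (Bp δ N)) b =
          (aeval P (Bp δ N * (1 - C ((starRingEnd ℂ) δ) * X))) x := by
        rw [map_mul, e1]; rfl
      rw [e2, Bp_mul, map_sub, map_sub, map_mul, aeval_X, aeval_C, aeval_C, map_pow, aeval_X,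
        ← Algebra.smul_def, ← hc]
      show P x - (algebraMap ℂ (E →L[ℂ] E) δ) x - (c • P ^ (N + 1)) x = _
      rw [Algebra.algebraMap_eq_smul_one]
      rfl
    have h4 : a = (aeval P (Bp δ N)) b + c • (P ^ (N + 1)) x := by
      rw [h2, sub_add_cancel]
    have h5 : ‖(aeval P (Bp δ N)) b‖ ≤ 2 * t * (1 + (1 / 4 : ℝ) ^ N * (4 / 3)) * ‖b‖ :=
      ((aeval P (Bp δ N)).le_opNorm b).trans (mul_le_mul_of_nonneg_right h1 (norm_nonneg _))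
    have h6 : ‖c • (P ^ (N + 1)) x‖ ≤ (1 / 4 : ℝ) ^ N * (‖P‖ * ‖x‖) := by
      rw [norm_smul]
      have e3 : ‖(P ^ (N + 1)) x‖ ≤ ‖P‖ ^ N * (‖P‖ * ‖x‖) := by
        have e4 : ‖P ^ (N + 1)‖ ≤ ‖P‖ ^ (N + 1) := norm_pow_le' P (Nat.succ_pos N)
        calc ‖(P ^ (N + 1)) x‖ ≤ ‖P ^ (N + 1)‖ * ‖x‖ := (P ^ (N + 1)).le_opNorm x
          _ ≤ ‖P‖ ^ (N + 1) * ‖x‖ := by gcongr
          _ = ‖P‖ ^ N * (‖P‖ * ‖x‖) := by ring
      calc ‖c‖ * ‖(P ^ (N + 1)) x‖ ≤ ‖δ‖ ^ N * (‖P‖ ^ N * (‖P‖ * ‖x‖)) := by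
            gcongr
        _ = (‖δ‖ * ‖P‖) ^ N * (‖P‖ * ‖x‖) := by rw [mul_pow]; ring
        _ ≤ (1 / 4 : ℝ) ^ N * (‖P‖ * ‖x‖) := by gcongr
    calc ‖a‖ = ‖(aeval P (Bp δ N)) b + c • (P ^ (N + 1)) x‖ := by rw [← h4]
      _ ≤ _ := (norm_add_le _ _).trans (add_le_add h5 h6)
  have ht0 : Tendsto (fun N : ℕ => (1 / 4 : ℝ) ^ N) atTop (𝓝 0) :=
    tendsto_pow_atTop_nhds_zero_of_lt_one (by norm_num) (by norm_num)
  have hT : Tendsto (fun N : ℕ => 2 * t * (1 + (1 / 4 : ℝ) ^ N * (4 / 3)) * ‖b‖ +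
      (1 / 4 : ℝ) ^ N * (‖P‖ * ‖x‖)) atTop
      (𝓝 (2 * t * (1 + 0 * (4 / 3)) * ‖b‖ + 0 * (‖P‖ * ‖x‖))) :=
    ((((ht0.mul_const _).const_add 1).const_mul (2 * t)).mul_const _).add (ht0.mul_const _)
  have hfin := ge_of_tendsto' hT hlim
  simp only [zero_mul, add_zero, mul_one] at hfin
  exact hfin

end Pool.Agent.H243.CE
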