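import Pool.Agent.H243.CE.NeCase
import Pool.Agent.H243.CE.PT
import Pool.Agent.H243.CE.KER
import Pool.Agent.H243.CE.DISC
import Pool.Agent.H243.CE.QORTH

/-!
# The equality case of Crouzeix's inequality, for all operators
-/

namespace Pool.Agent.H243.CE

theorem t_ALLCASE : S_ALLCASE := t_RED (t_NECASE t_PT (t_KER t_TOEP t_MEAN t_REC))

end Pool.Agent.H243.CE
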