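import Pool.Agent.H243.CE.Stmt3

/-!
# Decay of the powers of the Moebius image of a polynomial of an operator (helper385)

The auxiliary lemmas of the first part are those of `DECAY.lean` (decay for polynomials).
-/

set_option autoImplicit false

open MeasureTheory Set Filter Topology Polynomial

namespace Pool.Agent.H243.CE

open Pool.Agent.W753.CZ (numRange supp le_supp supp_props near_convex numRange_norm
  numRange_nonempty norm_exp')

namespace DECAYF

/-- decay of the powers from the spectrum -/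
theorem pow_tendsto {R : Type} [NormedRing R] [NormedAlgebra ℂ R] [CompleteSpace R] [Nontrivial R]
    (T : R) (h : ∀ z ∈ spectrum ℂ T, ‖z‖ < 1) : Tendsto (fun k : ℕ => ‖T ^ k‖) atTop (𝓝 0) := by
  have h1 : spectralRadius ℂ T < ((1 : NNReal) : ENNReal) :=
    spectrum.spectralRadius_lt_of_forall_lt T fun z hz => by
      rw [← NNReal.coe_lt_coe]
      exact h z hz
  obtain ⟨r, hr1, hr2⟩ := ENNReal.lt_iff_exists_nnreal_btwn.1 h1
  have h2 := spectrum.pow_nnnorm_pow_one_div_tendsto_nhds_spectralRadius T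
  have h3 : ∀ᶠ n : ℕ in atTop, (‖T ^ n‖₊ : ENNReal) ^ (1 / n : ℝ) < r :=
    h2.eventually (gt_mem_nhds hr1)
  have h4 : ∀ᶠ n : ℕ in atTop, ‖T ^ n‖ ≤ (r : ℝ) ^ n := by
    filter_upwards [h3, eventually_gt_atTop 0] with n hn hn0
    have h5 : (‖T ^ n‖₊ : ENNReal) ≤ (r : ENNReal) ^ n := by
      have h6 := ENNReal.rpow_le_rpow hn.le (n.cast_nonneg (α := ℝ))
      have hn1 : (n : ℝ) ≠ 0 := by exact_mod_cast hn0.ne'
      rw [← ENNReal.rpow_mul, one_div, inv_mul_cancel₀ hn1, ENNReal.rpow_one,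
        ENNReal.rpow_natCast] at h6
      exact h6
    have h7 : ‖T ^ n‖₊ ≤ r ^ n := by exact_mod_cast h5
    exact_mod_cast h7
  refine squeeze_zero' (Eventually.of_forall fun n => norm_nonneg _) h4 ?_
  exact tendsto_pow_atTop_nhds_zero_of_lt_one r.2 (by exact_mod_cast hr2)

variable {H : Type} [NormedAddCommGroup H] [InnerProductSpace ℂ H]

theorem eig_of_spec [FiniteDimensional ℂ H] (A : H →L[ℂ] H) {β : ℂ} (hβ : β ∈ spectrum ℂ A) :
    ∃ v : H, v ≠ 0 ∧ A v = β • v := by
  have e1 : Module.End.toContinuousLinearMap H (A : H →ₗ[ℂ] H) = A := by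
    ext
    rfl
  have h1 := AlgEquiv.spectrum_eq (Module.End.toContinuousLinearMap H) (A : H →ₗ[ℂ] H)
  rw [e1] at h1
  rw [h1] at hβ
  obtain ⟨v, hv⟩ := (Module.End.hasEigenvalue_iff_mem_spectrum.2 hβ).exists_hasEigenvector
  exact ⟨v, hv.2, hv.apply_eq_smul⟩

theorem num_le {A : H →L[ℂ] H} (φ : ℝ) (u : H) :
    (Complex.exp (-φ * Complex.I) * inner ℂ u (A u)).re ≤ supp (numRange A) φ * ‖u‖ ^ 2 := by
  by_cases hu : u = 0
  · simp [hu]
  have hn : ‖u‖ ≠ 0 := norm_ne_zero_iff.mpr hu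
  set x : H := ((‖u‖⁻¹ : ℝ) : ℂ) • u with hx
  have hx1 : ‖x‖ = 1 := by
    rw [hx, norm_smul, Complex.norm_real, norm_inv, norm_norm, inv_mul_cancel₀ hn]
  have h1 := le_supp (numRange_norm A) φ (w := inner ℂ x (A x)) ⟨x, hx1, rfl⟩
  have h2 : inner ℂ x (A x) = (((‖u‖⁻¹) ^ 2 : ℝ) : ℂ) * inner ℂ u (A u) := by
    rw [hx, map_smul, inner_smul_left, inner_smul_right, Complex.conj_ofReal]
    push_cast
    ring
  rw [h2, mul_left_comm, Complex.re_ofReal_mul] at h1
  have h3 : 0 < ‖u‖ ^ 2 := by positivity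
  calc (Complex.exp (-φ * Complex.I) * inner ℂ u (A u)).re =
      ((‖u‖⁻¹) ^ 2 * (Complex.exp (-φ * Complex.I) * inner ℂ u (A u)).re) * ‖u‖ ^ 2 := by
        field_simp
    _ ≤ supp (numRange A) φ * ‖u‖ ^ 2 := by gcongr

/-- the values at the eigenvalues -/
theorem lt_one [CompleteSpace H] [Nontrivial H] {A : H →L[ℂ] H} {f : ℂ[X]} (hNE : NE A)
    (hf : ∀ w ∈ numRange A, ‖f.eval w‖ ≤ 1) (hd : 1 ≤ f.natDegree) {β : ℂ} {v : H} (hv : v ≠ 0)
    (hAv : A v = β • v) : ‖f.eval β‖ < 1 := by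
  have hW := numRange_norm A
  have hne := numRange_nonempty A
  have hconv : Convex ℝ (numRange A) := H640R2.PhaseMu.toeplitz_hausdorff A
  obtain ⟨-, hL, hper, -⟩ := supp_props hW hne
  -- the distance to the supporting lines is positive
  have hpos : ∀ ψ : ℝ, 0 < supp (numRange A) ψ - (Complex.exp (-ψ * Complex.I) * β).re := by
    intro ψ
    by_contra hcon
    apply hv
    refine hNE (Complex.exp (-ψ * Complex.I)) β v (norm_exp' ψ) hAv fun u => ?_
    have h1 := num_le (A := A) ψ u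
    have h2 : supp (numRange A) ψ ≤ (Complex.exp (-ψ * Complex.I) * β).re := by linarith
    have h3 : supp (numRange A) ψ * ‖u‖ ^ 2 ≤ (Complex.exp (-ψ * Complex.I) * β).re * ‖u‖ ^ 2 := by
      gcongr
    have h4 : (Complex.exp (-ψ * Complex.I) * (β * (‖u‖ : ℂ) ^ 2 - inner ℂ u (A u))).re =
        (Complex.exp (-ψ * Complex.I) * β).re * ‖u‖ ^ 2 -
          (Complex.exp (-ψ * Complex.I) * inner ℂ u (A u)).re := by
      rw [mul_sub, Complex.sub_re, ← mul_assoc]
      congr 1
      have h5 : ((‖u‖ : ℂ) ^ 2) = ((‖u‖ ^ 2 : ℝ) : ℂ) := by push_cast; rfl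
      rw [h5, Complex.re_mul_ofReal]
    rw [h4]
    linarith
  have hcont : Continuous (fun ψ : ℝ => supp (numRange A) ψ -
      (Complex.exp (-ψ * Complex.I) * β).re) := by
    refine Continuous.sub ?_ (by fun_prop)
    have h1 : LipschitzWith ‖A‖₊ (supp (numRange A)) := LipschitzWith.of_dist_le_mul fun x y => by
      rw [Real.dist_eq, Real.dist_eq]
      exact hL x y
    exact h1.continuous
  have hperiod : Function.Periodic (fun ψ : ℝ => supp (numRange A) ψ -
      (Complex.exp (-ψ * Complex.I) * β).re) (2 * Real.pi) := by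
    intro ψ
    have h1 : Complex.exp (-((ψ + 2 * Real.pi : ℝ) : ℂ) * Complex.I) =
        Complex.exp (-ψ * Complex.I) := by
      have e : (-((ψ + 2 * Real.pi : ℝ) : ℂ) * Complex.I) =
          -ψ * Complex.I + -(2 * Real.pi * Complex.I) := by push_cast; ring
      rw [e, Complex.exp_add, Complex.exp_neg, Complex.exp_two_pi_mul_I]
      simp
    show supp (numRange A) (ψ + 2 * Real.pi) -
      (Complex.exp (-((ψ + 2 * Real.pi : ℝ) : ℂ) * Complex.I) * β).re = _
    rw [hper, h1]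
  obtain ⟨ψ0, -, hmin⟩ := (isCompact_Icc (a := (0 : ℝ)) (b := 2 * Real.pi)).exists_isMinOn
    ⟨0, ⟨le_rfl, by positivity⟩⟩ hcont.continuousOn
  obtain ⟨c, hcd⟩ : ∃ c : ℝ, c = supp (numRange A) ψ0 -
    (Complex.exp (-ψ0 * Complex.I) * β).re := ⟨_, rfl⟩
  have hc : 0 < c := by
    rw [hcd]
    exact hpos ψ0
  have hcle : ∀ ψ : ℝ, c ≤ supp (numRange A) ψ - (Complex.exp (-ψ * Complex.I) * β).re := by
    intro ψ
    obtain ⟨y, hy, hyf⟩ := hperiod.exists_mem_Ico₀ (by positivity) ψ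
    have h1 := hmin (a := y) ⟨hy.1, hy.2.le⟩
    rw [hcd]
    rw [hyf]
    exact h1
  -- a disc in the closure of the numerical range
  have hball : ∀ z : ℂ, ‖z - β‖ ≤ c → ‖f.eval z‖ ≤ 1 := by
    intro z hz
    have h1 : Metric.infDist z (numRange A) ≤ 0 := by
      refine near_convex hW hne hconv (fun ψ => ?_) le_rfl
      have h2 := hcle ψ
      have h3 : (Complex.exp (-ψ * Complex.I) * z).re ≤
          (Complex.exp (-ψ * Complex.I) * β).re + ‖z - β‖ := by
        have h4 : Complex.exp (-ψ * Complex.I) * z = Complex.exp (-ψ * Complex.I) * β +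
            Complex.exp (-ψ * Complex.I) * (z - β) := by ring
        rw [h4, Complex.add_re]
        gcongr
        refine (Complex.re_le_norm _).trans ?_
        rw [norm_mul, norm_exp', one_mul]
      linarith
    have h2 : z ∈ closure (numRange A) := by
      rw [Metric.mem_closure_iff_infDist_zero hne]
      exact le_antisymm h1 Metric.infDist_nonneg
    have h3 : closure (numRange A) ⊆ {z : ℂ | ‖f.eval z‖ ≤ 1} :=
      closure_minimal hf (isClosed_le (by fun_prop) continuous_const)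
    exact h3 h2
  refine lt_of_le_of_ne (hball β (by rw [sub_self, norm_zero]; exact hc.le)) fun h1 => ?_
  have hmem : Metric.ball β c ∈ 𝓝 β := Metric.ball_mem_nhds β hc
  have hmax : IsLocalMax (norm ∘ fun z => f.eval z) β := by
    filter_upwards [hmem] with z hz
    rw [Metric.mem_ball, dist_eq_norm] at hz
    show ‖f.eval z‖ ≤ ‖f.eval β‖
    rw [h1]
    exact hball z hz.le
  have hev := Complex.eventually_eq_of_isLocalMax_norm
    (Eventually.of_forall fun z => f.differentiable.differentiableAt) hmax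
  have hinf : Set.Infinite {z : ℂ | f.eval z = (C (f.eval β)).eval z} := by
    refine infinite_of_mem_nhds β ?_
    filter_upwards [hev] with z hz
    rw [eval_C]
    exact hz
  have h2 := Polynomial.eq_of_infinite_eval_eq f _ hinf
  rw [h2, natDegree_C] at hd
  omega

/-- the Moebius transform of the unit disc -/
theorem mo_lt {ε w : ℂ} (hε : ‖ε‖ < 1) (hw : ‖w‖ < 1) : ‖mo ε w‖ < 1 ∧
    1 - (starRingEnd ℂ) ε * w ≠ 0 := by
  have h1 : Complex.normSq (1 - (starRingEnd ℂ) ε * w) - Complex.normSq (w - ε) =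
      (1 - Complex.normSq ε) * (1 - Complex.normSq w) := by
    simp only [Complex.normSq_apply, Complex.sub_re, Complex.sub_im, Complex.mul_re,
      Complex.mul_im, Complex.conj_re, Complex.conj_im, Complex.one_re, Complex.one_im]
    ring
  have h2 : 0 < 1 - Complex.normSq ε := by
    rw [Complex.normSq_eq_norm_sq]
    nlinarith [norm_nonneg ε]
  have h3 : 0 < 1 - Complex.normSq w := by
    rw [Complex.normSq_eq_norm_sq]
    nlinarith [norm_nonneg w]
  have h4 := mul_pos h2 h3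
  rw [← h1, Complex.normSq_eq_norm_sq, Complex.normSq_eq_norm_sq] at h4
  have h5 : ‖w - ε‖ < ‖1 - (starRingEnd ℂ) ε * w‖ :=
    lt_of_pow_lt_pow_left₀ 2 (norm_nonneg _) (by linarith)
  have h6 : 0 < ‖1 - (starRingEnd ℂ) ε * w‖ := (norm_nonneg _).trans_lt h5
  refine ⟨?_, norm_pos_iff.1 h6⟩
  unfold mo
  rw [norm_div, div_lt_one h6]
  exact h5

end DECAYF

open DECAYF in
theorem t_DECAYF : S_DECAYF := by
  intro H _ _ _ _ A p ε T Q hNE hp hd hM
  have : CompleteSpace H := FiniteDimensional.complete ℂ H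
  refine pow_tendsto T fun z hz => ?_
  obtain ⟨r, hr⟩ : ∃ r : ℂ[X], r = C (z + ε) - C (1 + z * (starRingEnd ℂ) ε) * p := ⟨_, rfl⟩
  have hQ : IsUnit Q := ⟨⟨Q, 1 - (starRingEnd ℂ) ε • aeval A p, hM.q1, hM.q2⟩, rfl⟩
  have haev : aeval A r = (z + ε) • (1 : H →L[ℂ] H) - (1 + z * (starRingEnd ℂ) ε) • aeval A p := by
    rw [hr, map_sub, map_mul, aeval_C, aeval_C, Algebra.algebraMap_eq_smul_one,
      Algebra.algebraMap_eq_smul_one, smul_mul_assoc, one_mul]
  have hTz : algebraMap ℂ (H →L[ℂ] H) z - T = aeval A r * Q := by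
    have h1 : algebraMap ℂ (H →L[ℂ] H) z =
        (z • (1 : H →L[ℂ] H)) * ((1 - (starRingEnd ℂ) ε • aeval A p) * Q) := by
      rw [hM.q2, mul_one, Algebra.algebraMap_eq_smul_one]
    rw [h1, hM.t, haev, ← mul_assoc, ← sub_mul]
    congr 1
    rw [smul_mul_assoc, one_mul, smul_sub, smul_smul, add_smul, add_smul, one_smul]
    abel
  have hnot : (0 : ℂ) ∈ spectrum ℂ (aeval A r) := by
    rw [spectrum.zero_mem_iff]
    intro hu
    have h1 := spectrum.mem_iff.1 hz
    rw [hTz] at h1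
    exact h1 (hu.mul hQ)
  rw [spectrum.map_polynomial_aeval_of_nonempty A r (spectrum.nonempty A)] at hnot
  obtain ⟨β, hβ, hrβ⟩ := hnot
  obtain ⟨v, hv, hAv⟩ := eig_of_spec A hβ
  have hlt := lt_one hNE hp hd hv hAv
  obtain ⟨h1, h2⟩ := mo_lt hM.e1 hlt
  have h3 : z = mo ε (p.eval β) := by
    have h4 : r.eval β = 0 := hrβ
    rw [hr, eval_sub, eval_mul, eval_C, eval_C] at h4
    unfold mo
    rw [eq_div_iff h2]
    linear_combination h4
  rw [h3]
  exact h1

end Pool.Agent.H243.CE
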