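import Pool.Agent.H243.CE.Stmt3

/-!
(CE37) The polynomial `Dm` does not vanish: comparison of degrees.
-/

set_option autoImplicit false

open MeasureTheory Set Filter Topology Polynomial

namespace Pool.Agent.H243.CE

namespace DNZM

variable {H : Type} [NormedAddCommGroup H] [InnerProductSpace ℂ H]

theorem psi_natDegree (A : H →L[ℂ] H) (f : ℂ[X]) (u v : H) :
    (psi A f u v).natDegree ≤ f.natDegree - 1 := by
  unfold psi
  refine natDegree_sum_le_of_forall_le _ _ fun k hk => ?_
  rw [Finset.mem_range] at hk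
  refine (natDegree_C_mul_le _ _).trans ?_
  refine natDegree_sum_le_of_forall_le _ _ fun i hi => ?_
  rw [Finset.mem_range] at hi
  refine (natDegree_C_mul_X_pow_le _ _).trans ?_
  omega

theorem psi_coeff (A : H →L[ℂ] H) (f : ℂ[X]) (hN : 1 ≤ f.natDegree) (u v : H) :
    (psi A f u v).coeff (f.natDegree - 1) = f.coeff f.natDegree * inner ℂ u v := by
  have hin : ∀ k, k ≤ f.natDegree → (∑ i ∈ Finset.range k,
      C (inner ℂ u ((A ^ (k - 1 - i)) v)) * X ^ i : ℂ[X]).coeff (f.natDegree - 1) =
      if k = f.natDegree then inner ℂ u v else 0 := by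
    intro k hk
    rw [finsetSum_coeff]
    by_cases h : k = f.natDegree
    · rw [if_pos h]
      subst h
      rw [Finset.sum_eq_single_of_mem (f.natDegree - 1) (Finset.mem_range.2 (by omega))]
      · rw [coeff_C_mul, coeff_X_pow, if_pos rfl, mul_one, Nat.sub_self, pow_zero]
        rfl
      · intro i _ hne
        rw [coeff_C_mul, coeff_X_pow, if_neg (Ne.symm hne), mul_zero]
    · rw [if_neg h]
      refine Finset.sum_eq_zero fun i hi => ?_
      rw [Finset.mem_range] at hi
      rw [coeff_C_mul, coeff_X_pow, if_neg (by omega), mul_zero]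
  unfold psi
  rw [finsetSum_coeff, Finset.sum_eq_single_of_mem f.natDegree (Finset.mem_range.2 (by omega))]
  · rw [coeff_C_mul, hin _ le_rfl, if_pos rfl]
  · intro k hk hne
    rw [Finset.mem_range] at hk
    rw [coeff_C_mul, hin k (by omega), if_neg hne, mul_zero]

theorem kappa_ne (ε : ℂ) (hε : ‖ε‖ < 1) : 1 - (starRingEnd ℂ) ε * ε ≠ 0 := by
  intro h
  have h1 : (starRingEnd ℂ) ε * ε = 1 := (sub_eq_zero.1 h).symm
  have h2 := congrArg norm h1
  rw [norm_mul, RCLike.norm_conj, norm_one] at h2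
  nlinarith [norm_nonneg ε]

end DNZM

open DNZM in
/-- (CE37) the polynomial `Dm` does not vanish -/
theorem t_DNZM : S_DNZM := by
  intro H _ _ A p ε x y hx hy hxy hε hN h0
  have hp0 : p ≠ 0 := by
    rintro rfl
    rw [natDegree_zero] at hN
    omega
  have ha : p.coeff p.natDegree ≠ 0 := by
    rw [coeff_natDegree]
    exact leadingCoeff_ne_zero.2 hp0
  have hκ : 1 - (starRingEnd ℂ) ε * ε ≠ 0 := kappa_ne ε hε
  set κ : ℂ := 1 - (starRingEnd ℂ) ε * ε with hκd
  set n : ℂ[X] := p - C ε with hn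
  set d : ℂ[X] := 1 - C ((starRingEnd ℂ) ε) * p with hd
  set x' : H := x + (2 * (starRingEnd ℂ) ε) • y with hx'
  have hnd : n.natDegree = p.natDegree := natDegree_sub_C
  have hn0 : n ≠ 0 := by
    intro h
    rw [h, natDegree_zero] at hnd
    omega
  have hsum : d + C ((starRingEnd ℂ) ε) * n = C κ := by
    rw [hd, hn, hκd, C_sub, C_mul, C_1]
    ring
  have hcop : IsCoprime n d := by
    refine ⟨C (κ⁻¹) * C ((starRingEnd ℂ) ε), C (κ⁻¹), ?_⟩
    have h1 : C (κ⁻¹) * C κ = (1 : ℂ[X]) := by
      rw [← C_mul, inv_mul_cancel₀ hκ, C_1]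
    calc C (κ⁻¹) * C ((starRingEnd ℂ) ε) * n + C (κ⁻¹) * d
        = C (κ⁻¹) * (d + C ((starRingEnd ℂ) ε) * n) := by ring
      _ = 1 := by rw [hsum, h1]
  have hexp : n * d * (psi A p y y + psi A p x x') + n ^ 2 * psi A p y x' +
      d ^ 2 * psi A p x y = 0 := h0
  have h3 : psi A p x y = 0 := by
    have h4 : n ∣ d ^ 2 * psi A p x y := by
      refine ⟨-(d * (psi A p y y + psi A p x x') + n * psi A p y x'), ?_⟩
      linear_combination hexp
    have h5 : n ∣ psi A p x y := (hcop.pow_right (n := 2)).dvd_of_dvd_mul_left h4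
    refine eq_zero_of_dvd_of_natDegree_lt h5 ?_
    have := psi_natDegree A p x y
    rw [hnd]
    omega
  rw [h3, mul_zero, add_zero] at hexp
  have h6 : d * (psi A p y y + psi A p x x') + n * psi A p y x' = 0 := by
    have h7 : n * (d * (psi A p y y + psi A p x x') + n * psi A p y x') = 0 := by
      linear_combination hexp
    exact (mul_eq_zero.1 h7).resolve_left hn0
  have h8 : C κ * (psi A p y y + psi A p x x') = 0 := by
    have h9 : n ∣ C κ * (psi A p y y + psi A p x x') := by
      refine ⟨C ((starRingEnd ℂ) ε) * (psi A p y y + psi A p x x') - psi A p y x', ?_⟩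
      rw [← hsum]
      linear_combination h6
    refine eq_zero_of_dvd_of_natDegree_lt h9 ?_
    have h10 : (C κ * (psi A p y y + psi A p x x')).natDegree ≤ p.natDegree - 1 :=
      (natDegree_C_mul_le _ _).trans ((natDegree_add_le _ _).trans
        (max_le (psi_natDegree _ _ _ _) (psi_natDegree _ _ _ _)))
    rw [hnd]
    omega
  have h11 : psi A p y y + psi A p x x' = 0 :=
    (mul_eq_zero.1 h8).resolve_left (fun h => hκ (C_eq_zero.1 h))
  have h12 := congrArg (fun g : ℂ[X] => g.coeff (p.natDegree - 1)) h11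
  have h13 : (psi A p y y).coeff (p.natDegree - 1) + (psi A p x x').coeff (p.natDegree - 1) = 0 := by
    rw [← coeff_add]
    exact h12
  rw [psi_coeff A p hN, psi_coeff A p hN, hx', inner_add_right, inner_smul_right, hxy,
    inner_self_eq_norm_sq_to_K, inner_self_eq_norm_sq_to_K, hx, hy] at h13
  apply mul_ne_zero two_ne_zero ha
  have h14 : (2 : ℂ) * p.coeff p.natDegree = p.coeff p.natDegree * (((1 : ℝ) : ℂ)) ^ 2 +
      p.coeff p.natDegree * ((((1 : ℝ) : ℂ)) ^ 2 + 2 * (starRingEnd ℂ) ε * 0) := by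
    push_cast
    ring
  rw [h14]
  exact h13

end Pool.Agent.H243.CE
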