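import Pool.Agent.H243.CE.Stmt2

/-!
# CE2-EIG: eigenvalues of a nonscalar matrix are interior to the `q`-range
-/

set_option autoImplicit false
set_option linter.all false

open MeasureTheory Set Filter Topology Polynomial

namespace Pool.Agent.H243.CE

noncomputable section

namespace EIG

/-- the local lemma -/
theorem local_lem {p : ℂ[X]} (hp : 1 ≤ p.natDegree) {μ η : ℂ} (hη : η ≠ 0) {K θ₀ : ℝ}
    (hθ₀ : 0 < θ₀) (h : ∀ ω : ℂ, ‖ω‖ = 1 → ∀ θ : ℝ, 0 < θ → θ < θ₀ →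
      ∃ z : ℂ, ‖p.eval z‖ ≤ 1 ∧ ‖z - μ - (θ : ℂ) * η * ω‖ ≤ K * θ ^ 2) : ‖p.eval μ‖ < 1 := by
  by_contra hcon
  push Not at hcon
  set a := p.eval μ with ha
  have ha0 : a ≠ 0 := by
    intro h0
    rw [h0, norm_zero] at hcon
    linarith
  set r : ℂ[X] := p - C a with hr
  have hr0 : r ≠ 0 := by
    intro h0
    rw [hr, sub_eq_zero] at h0
    rw [h0, natDegree_C] at hp
    omega
  obtain ⟨g, hg, hg'⟩ := exists_eq_pow_rootMultiplicity_mul_and_not_dvd r hr0 μ
  set m := rootMultiplicity μ r with hm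
  have hm1 : 0 < m := by
    rw [hm, rootMultiplicity_pos hr0, IsRoot.def, hr, eval_sub, eval_C, ← ha, sub_self]
  have hκ : g.eval μ ≠ 0 := by
    intro h0
    exact hg' (dvd_iff_isRoot.2 h0)
  set c : ℂ := (starRingEnd ℂ) a * g.eval μ * η ^ m with hc
  have hc0 : c ≠ 0 := mul_ne_zero (mul_ne_zero (by rwa [Ne, map_eq_zero]) hκ) (pow_ne_zero _ hη)
  have hcn : (‖c‖ : ℂ) ≠ 0 := by
    rw [Ne, Complex.ofReal_eq_zero, norm_eq_zero]; exact hc0
  obtain ⟨ω, hω⟩ := IsAlgClosed.exists_pow_nat_eq ((starRingEnd ℂ) c / ‖c‖) hm1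
  have hω1 : ‖ω‖ = 1 := by
    have h1 := congrArg norm hω
    rw [norm_pow, norm_div, RCLike.norm_conj, Complex.norm_real, norm_norm,
      div_self (norm_ne_zero_iff.2 hc0)] at h1
    exact (pow_eq_one_iff_of_nonneg (norm_nonneg _) hm1.ne').1 h1
  have key : (starRingEnd ℂ) a * ((η * ω) ^ m * g.eval μ) = (‖c‖ : ℂ) := by
    have e1 : (starRingEnd ℂ) a * ((η * ω) ^ m * g.eval μ) = c * ω ^ m := by
      rw [hc, mul_pow]; ring
    rw [e1, hω, mul_div_assoc', Complex.mul_conj, Complex.normSq_eq_norm_sq]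
    push_cast
    field_simp
  -- the sequence
  set θ : ℕ → ℝ := fun n => θ₀ / (n + 2) with hθ
  have hθ1 : ∀ n, 0 < θ n := fun n => by rw [hθ]; positivity
  have hθ2 : ∀ n, θ n < θ₀ := fun n => by
    rw [hθ]
    show θ₀ / ((n : ℝ) + 2) < θ₀
    rw [div_lt_iff₀ (by positivity)]
    have : (0 : ℝ) ≤ n := Nat.cast_nonneg n
    nlinarith
  have hθ3 : Tendsto θ atTop (𝓝 0) := by
    have h1 : Tendsto (fun n : ℕ => (n : ℝ) + 2) atTop atTop :=
      tendsto_atTop_add_const_right _ _ tendsto_natCast_atTop_atTop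
    exact h1.const_div_atTop θ₀
  choose z hz1 hz2 using fun n => h ω hω1 (θ n) (hθ1 n) (hθ2 n)
  set w : ℕ → ℂ := fun n => (z n - μ) / (θ n : ℂ) with hw
  have hθc : ∀ n, ((θ n : ℝ) : ℂ) ≠ 0 := fun n => by
    rw [Ne, Complex.ofReal_eq_zero]; exact (hθ1 n).ne'
  have hw1 : Tendsto w atTop (𝓝 (η * ω)) := by
    rw [tendsto_iff_norm_sub_tendsto_zero]
    have h1 : ∀ n, ‖w n - η * ω‖ ≤ K * θ n := by
      intro n
      have e : w n - η * ω = (z n - μ - (θ n : ℂ) * η * ω) / (θ n : ℂ) := by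
        rw [hw]
        have := hθc n
        field_simp
      rw [e, norm_div, Complex.norm_real, Real.norm_of_nonneg (hθ1 n).le, div_le_iff₀ (hθ1 n)]
      calc _ ≤ K * θ n ^ 2 := hz2 n
        _ = K * θ n * θ n := by ring
    have h2 : Tendsto (fun n => K * θ n) atTop (𝓝 0) := by
      simpa using hθ3.const_mul K
    exact squeeze_zero (fun n => norm_nonneg _) h1 h2
  have hz3 : ∀ n, z n = μ + (θ n : ℂ) * w n := by
    intro n
    rw [hw]
    have := hθc n
    field_simp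
    ring
  have hz4 : Tendsto z atTop (𝓝 μ) := by
    have h1 : Tendsto (fun n => ((θ n : ℝ) : ℂ)) atTop (𝓝 0) := by
      have := (Complex.continuous_ofReal.tendsto 0).comp hθ3
      rwa [Complex.ofReal_zero] at this
    have h2 := (h1.mul hw1).const_add μ
    rw [zero_mul, add_zero] at h2
    exact h2.congr (fun n => (hz3 n).symm)
  have hlim : Tendsto (fun n => ((starRingEnd ℂ) a * (w n ^ m * g.eval (z n))).re) atTop
      (𝓝 ‖c‖) := by
    have h1 : Tendsto (fun n => (starRingEnd ℂ) a * (w n ^ m * g.eval (z n))) atTop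
        (𝓝 ((starRingEnd ℂ) a * ((η * ω) ^ m * g.eval μ))) := by
      refine Tendsto.const_mul _ ((hw1.pow m).mul ?_)
      exact (g.continuous.tendsto μ).comp hz4
    rw [key] at h1
    have h2 := (Complex.continuous_re.tendsto _).comp h1
    rw [Complex.ofReal_re] at h2
    exact h2
  have hcpos : 0 < ‖c‖ := norm_pos_iff.2 hc0
  obtain ⟨n, hn⟩ := (hlim.eventually (lt_mem_nhds hcpos)).exists
  have e1 : p.eval (z n) = a + (θ n : ℂ) ^ m * (w n ^ m * g.eval (z n)) := by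
    have h1 : r.eval (z n) = (z n - μ) ^ m * g.eval (z n) := by
      rw [hg, eval_mul, eval_pow, eval_sub, eval_X, eval_C]
    rw [hr, eval_sub, eval_C] at h1
    have h2 : z n - μ = (θ n : ℂ) * w n := by rw [hz3 n]; ring
    rw [h2, mul_pow] at h1
    linear_combination h1
  have e2 : ((starRingEnd ℂ) a * p.eval (z n)).re = ‖a‖ ^ 2 + θ n ^ m *
      ((starRingEnd ℂ) a * (w n ^ m * g.eval (z n))).re := by
    rw [e1, mul_add, Complex.add_re]
    congr 1
    · rw [mul_comm, Complex.mul_conj, Complex.normSq_eq_norm_sq, Complex.ofReal_re]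
    · have e3 : (starRingEnd ℂ) a * ((θ n : ℂ) ^ m * (w n ^ m * g.eval (z n))) =
          ((θ n ^ m : ℝ) : ℂ) * ((starRingEnd ℂ) a * (w n ^ m * g.eval (z n))) := by
        push_cast; ring
      rw [e3, Complex.re_ofReal_mul]
  have e4 : ((starRingEnd ℂ) a * p.eval (z n)).re ≤ ‖a‖ := by
    refine (Complex.re_le_norm _).trans ?_
    rw [norm_mul, RCLike.norm_conj]
    exact mul_le_of_le_one_right (norm_nonneg _) (hz1 n)
  have e5 : 0 < θ n ^ m * ((starRingEnd ℂ) a * (w n ^ m * g.eval (z n))).re :=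
    mul_pos (pow_pos (hθ1 n) m) hn
  nlinarith

variable {E : Type} [NormedAddCommGroup E] [InnerProductSpace ℂ E]

theorem nrm (x v : E) (hx : ‖x‖ = 1) (hv : ‖v‖ = 1) (hvx : inner ℂ v x = (0 : ℂ)) (θ : ℝ) (ω : ℂ)
    (hω : ‖ω‖ = 1) : ‖x + ((θ : ℂ) * ω) • v‖ ^ 2 = 1 + θ ^ 2 := by
  rw [norm_add_sq (𝕜 := ℂ), inner_smul_right, norm_smul, norm_mul, Complex.norm_real, hω, hx, hv]
  have h1 : inner ℂ x v = (0 : ℂ) := by rw [← inner_conj_symm, hvx, map_zero]
  rw [h1, mul_zero]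
  simp

end EIG

open EIG in
theorem t_EIG : S_EIG := by
  intro E _ _ _ A p s hs hB hdim hp hA μ x hx hAx
  have hxx : inner ℂ x x = (1 : ℂ) := by
    rw [inner_self_eq_norm_sq_to_K, hx]; simp
  by_cases hcase : ∃ v : E, ‖v‖ = 1 ∧ inner ℂ v x = (0 : ℂ) ∧ inner ℂ x (A v) ≠ (0 : ℂ)
  · obtain ⟨v, hv, hvx, hβ⟩ := hcase
    set β : ℂ := inner ℂ x (A v) with hβdef
    set γ : ℂ := inner ℂ v (A v) with hγdef
    refine local_lem hp hβ (K := ‖γ - μ‖ + ‖β‖) (θ₀ := 1) one_pos ?_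
    intro ω hω θ hθ hθ1
    have hn2 := nrm x v hx hv hvx θ ω hω
    set y : E := x + ((θ : ℂ) * ω) • v with hy
    have hpos : 0 < 1 + θ ^ 2 := by positivity
    have hn0 : ‖y‖ ≠ 0 := by
      intro h0
      rw [h0] at hn2
      nlinarith
    have hnc : ((‖y‖ : ℝ) : ℂ) ≠ 0 := by rwa [Ne, Complex.ofReal_eq_zero]
    have h1 := Q82.QR.disc_point (A := A) (p := p) (M := 1) hs.le hB (fun _ => hdim)
      ((((‖y‖)⁻¹ : ℝ) : ℂ) • y) 0 (by
        rw [norm_smul, Complex.norm_real, norm_inv, norm_norm, inv_mul_cancel₀ hn0])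
      (inner_zero_left _) (by rw [norm_zero]; exact hs.le)
    rw [inner_zero_left, add_zero, map_smul, inner_smul_left, inner_smul_right,
      Complex.conj_ofReal] at h1
    have e1 : inner ℂ y (A y) = μ + (θ : ℂ) * ω * β + (θ : ℂ) ^ 2 * γ := by
      have hωω : (starRingEnd ℂ) ω * ω = 1 := by
        rw [mul_comm, Complex.mul_conj, Complex.normSq_eq_norm_sq, hω]; simp
      rw [hy, map_add, map_smul, hAx]
      simp only [inner_add_left, inner_add_right, inner_smul_left, inner_smul_right, map_mul,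
        Complex.conj_ofReal, hxx, hvx, ← hβdef, ← hγdef]
      linear_combination (θ : ℂ) ^ 2 * γ * hωω
    have e2 : (((‖y‖)⁻¹ : ℝ) : ℂ) * ((((‖y‖)⁻¹ : ℝ) : ℂ) * inner ℂ y (A y)) =
        (μ + (θ : ℂ) * ω * β + (θ : ℂ) ^ 2 * γ) / (1 + (θ : ℂ) ^ 2) := by
      have e3 : (1 + (θ : ℂ) ^ 2) = ((‖y‖ : ℝ) : ℂ) ^ 2 := by
        have := congrArg (fun t : ℝ => (t : ℂ)) hn2
        push_cast at this
        exact this.symm
      rw [e1, e3]
      push_cast
      field_simp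
    rw [e2] at h1
    refine ⟨_, h1, ?_⟩
    have hposc : (1 + (θ : ℂ) ^ 2) ≠ 0 := by
      have : ((1 + θ ^ 2 : ℝ) : ℂ) ≠ 0 := by rw [Ne, Complex.ofReal_eq_zero]; exact hpos.ne'
      push_cast at this
      exact this
    have e4 : (μ + (θ : ℂ) * ω * β + (θ : ℂ) ^ 2 * γ) / (1 + (θ : ℂ) ^ 2) - μ - (θ : ℂ) * β * ω =
        ((θ : ℂ) ^ 2 * ((γ - μ) - (θ : ℂ) * ω * β)) / (1 + (θ : ℂ) ^ 2) := by
      field_simp
      ring
    rw [e4, norm_div, norm_mul]
    have e5 : ‖(1 + (θ : ℂ) ^ 2)‖ = 1 + θ ^ 2 := by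
      have : (1 + (θ : ℂ) ^ 2) = ((1 + θ ^ 2 : ℝ) : ℂ) := by push_cast; ring
      rw [this, Complex.norm_real, Real.norm_of_nonneg hpos.le]
    have e6 : ‖(θ : ℂ) ^ 2‖ = θ ^ 2 := by
      rw [norm_pow, Complex.norm_real, Real.norm_of_nonneg hθ.le]
    rw [e5, e6, div_le_iff₀ hpos]
    have e7 : ‖(γ - μ) - (θ : ℂ) * ω * β‖ ≤ ‖γ - μ‖ + ‖β‖ := by
      refine (norm_sub_le _ _).trans (add_le_add le_rfl ?_)
      rw [norm_mul, norm_mul, Complex.norm_real, Real.norm_of_nonneg hθ.le, hω, mul_one]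
      exact mul_le_of_le_one_left (norm_nonneg _) hθ1.le
    have e8 : θ ^ 2 * ‖(γ - μ) - (θ : ℂ) * ω * β‖ ≤ θ ^ 2 * (‖γ - μ‖ + ‖β‖) :=
      mul_le_mul_of_nonneg_left e7 (by positivity)
    have e9 : 0 ≤ (‖γ - μ‖ + ‖β‖) * θ ^ 2 * θ ^ 2 := by positivity
    nlinarith
  · push Not at hcase
    have hcase' : ∀ v : E, inner ℂ v x = (0 : ℂ) → inner ℂ x (A v) = (0 : ℂ) := by
      intro v hv
      by_cases hv0 : v = 0
      · rw [hv0, map_zero, inner_zero_right]
      · have hn : ‖v‖ ≠ 0 := norm_ne_zero_iff.2 hv0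
        have hnc : ((‖v‖ : ℝ) : ℂ) ≠ 0 := by rwa [Ne, Complex.ofReal_eq_zero]
        have h1 := hcase ((((‖v‖)⁻¹ : ℝ) : ℂ) • v) (by
          rw [norm_smul, Complex.norm_real, norm_inv, norm_norm, inv_mul_cancel₀ hn]) (by
          rw [inner_smul_left, hv, mul_zero])
        rw [map_smul, inner_smul_right] at h1
        rcases mul_eq_zero.1 h1 with h2 | h2
        · exfalso
          rw [Complex.ofReal_eq_zero, inv_eq_zero] at h2
          exact hn h2
        · exact h2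
    obtain ⟨v, hv, hvx, hγ⟩ : ∃ v : E, ‖v‖ = 1 ∧ inner ℂ v x = (0 : ℂ) ∧
        inner ℂ v (A v) - μ ≠ (0 : ℂ) := by
      by_contra hcon
      push Not at hcon
      have hB0 : ∀ v : E, inner ℂ v x = (0 : ℂ) → inner ℂ v (A v - μ • v) = (0 : ℂ) := by
        intro v hv
        by_cases hv0 : v = 0
        · rw [hv0, inner_zero_left]
        · have hn : ‖v‖ ≠ 0 := norm_ne_zero_iff.2 hv0
          have h1 := hcon ((((‖v‖)⁻¹ : ℝ) : ℂ) • v) (by
            rw [norm_smul, Complex.norm_real, norm_inv, norm_norm, inv_mul_cancel₀ hn]) (by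
            rw [inner_smul_left, hv, mul_zero])
          rw [map_smul, inner_smul_right, inner_smul_left, Complex.conj_ofReal] at h1
          rw [inner_sub_right, inner_smul_right, inner_self_eq_norm_sq_to_K]
          have hnc : ((‖v‖ : ℝ) : ℂ) ≠ 0 := by rwa [Ne, Complex.ofReal_eq_zero]
          have h2 : (((‖v‖)⁻¹ : ℝ) : ℂ) * ((((‖v‖)⁻¹ : ℝ) : ℂ) * inner ℂ v (A v)) = μ := by
            linear_combination h1
          rw [← h2]
          push_cast
          show inner ℂ v (A v) - (((‖v‖ : ℝ) : ℂ))⁻¹ * ((((‖v‖ : ℝ) : ℂ))⁻¹ * inner ℂ v (A v)) *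
            ((‖v‖ : ℝ) : ℂ) ^ 2 = 0
          field_simp
          ring
      apply hA μ
      have h2 : (A - μ • (1 : E →L[ℂ] E)).toLinearMap = 0 := by
        rw [← inner_map_self_eq_zero]
        intro u
        have e0 : (A - μ • (1 : E →L[ℂ] E)).toLinearMap u = A u - μ • u := rfl
        rw [e0, ← inner_conj_symm, map_eq_zero]
        set v : E := u - (inner ℂ x u : ℂ) • x with hvdef
        have hvx : inner ℂ v x = (0 : ℂ) := by
          rw [hvdef, inner_sub_left, inner_smul_left, hxx, mul_one, inner_conj_symm, sub_self]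
        have hu : u = (inner ℂ x u : ℂ) • x + v := by rw [hvdef]; abel
        have e1 : A u - μ • u = A v - μ • v := by
          rw [hvdef, map_sub, map_smul, hAx, smul_sub, smul_comm μ]
          abel
        rw [e1]
        have e2 : inner ℂ u (A v - μ • v) = (starRingEnd ℂ) (inner ℂ x u) *
            inner ℂ x (A v - μ • v) + inner ℂ v (A v - μ • v) := by
          conv_lhs => rw [hu]
          rw [inner_add_left, inner_smul_left]
        rw [e2, hB0 v hvx, inner_sub_right, hcase' v hvx, inner_smul_right]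
        have h3 : inner ℂ x v = (0 : ℂ) := by rw [← inner_conj_symm, hvx, map_zero]
        rw [h3]
        ring
      have h3 : A - μ • (1 : E →L[ℂ] E) = 0 := by
        ext u
        exact congrArg (fun L : E →ₗ[ℂ] E => L u) h2
      exact sub_eq_zero.1 h3
    have hxAv := hcase' v hvx
    have hxv : inner ℂ x v = (0 : ℂ) := by rw [← inner_conj_symm, hvx, map_zero]
    have hvv : inner ℂ v v = (1 : ℂ) := by
      rw [inner_self_eq_norm_sq_to_K, hv]; simp
    set γ : ℂ := inner ℂ v (A v) with hγdef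
    have hsc : (s : ℂ) ≠ 0 := by rw [Ne, Complex.ofReal_eq_zero]; exact hs.ne'
    refine local_lem hp (η := (s : ℂ) * (γ - μ)) (mul_ne_zero hsc hγ)
      (K := ‖γ - μ‖ * (1 + s)) (θ₀ := 1) one_pos ?_
    intro ω hω θ hθ hθ1
    have hn2 := nrm x v hx hv hvx θ 1 (by simp)
    rw [mul_one] at hn2
    set y : E := x + (θ : ℂ) • v with hy
    set w : E := v - (θ : ℂ) • x with hw
    have hpos : 0 < 1 + θ ^ 2 := by positivity
    have hn0 : ‖y‖ ≠ 0 := by
      intro h0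
      rw [h0] at hn2
      nlinarith
    have hnc : ((‖y‖ : ℝ) : ℂ) ≠ 0 := by rwa [Ne, Complex.ofReal_eq_zero]
    have hwn : ‖w‖ = ‖y‖ := by
      have h1 : ‖w‖ ^ 2 = ‖y‖ ^ 2 := by
        rw [hn2, hw, norm_sub_sq (𝕜 := ℂ), inner_smul_right, hvx, norm_smul, Complex.norm_real,
          Real.norm_of_nonneg hθ.le, hx, hv]
        simp
      exact (pow_left_inj₀ (norm_nonneg _) (norm_nonneg _) two_ne_zero).1 h1
    have hwy : inner ℂ w y = (0 : ℂ) := by
      rw [hw, hy]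
      simp only [inner_add_right, inner_sub_left, inner_smul_left, inner_smul_right, hxx, hvx, hvv,
        hxv, Complex.conj_ofReal]
      ring
    have e1 : inner ℂ y (A y) = μ + (θ : ℂ) ^ 2 * γ := by
      rw [hy, map_add, map_smul, hAx]
      simp only [inner_add_left, inner_add_right, inner_smul_left, inner_smul_right,
        Complex.conj_ofReal, hxx, hvx, hxAv, ← hγdef]
      ring
    have e2 : inner ℂ w (A y) = (θ : ℂ) * (γ - μ) := by
      rw [hw, hy, map_add, map_smul, hAx]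
      simp only [inner_sub_left, inner_add_right, inner_smul_left, inner_smul_right,
        Complex.conj_ofReal, hxx, hvx, hxAv, ← hγdef]
      ring
    have h1 := hB ((((‖y‖)⁻¹ : ℝ) : ℂ) • y)
      (((s : ℂ) * (starRingEnd ℂ) ω * (((‖y‖)⁻¹ : ℝ) : ℂ)) • w) (by
        rw [norm_smul, Complex.norm_real, norm_inv, norm_norm, inv_mul_cancel₀ hn0]) (by
        rw [inner_smul_left, inner_smul_right, hwy, mul_zero, mul_zero]) (by
        rw [norm_smul, norm_mul, norm_mul, Complex.norm_real, Complex.norm_real, RCLike.norm_conj,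
          hω, Real.norm_of_nonneg hs.le, norm_inv, norm_norm, hwn, mul_one, mul_assoc,
          inv_mul_cancel₀ hn0, mul_one])
    rw [map_smul, inner_smul_left, inner_smul_left, inner_smul_right, inner_smul_right, e1, e2] at h1
    simp only [map_mul, Complex.conj_conj, Complex.conj_ofReal] at h1
    have hposc : (1 + (θ : ℂ) ^ 2) ≠ 0 := by
      have : ((1 + θ ^ 2 : ℝ) : ℂ) ≠ 0 := by rw [Ne, Complex.ofReal_eq_zero]; exact hpos.ne'
      push_cast at this
      exact this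
    have e3 : (1 + (θ : ℂ) ^ 2) = ((‖y‖ : ℝ) : ℂ) ^ 2 := by
      have := congrArg (fun t : ℝ => (t : ℂ)) hn2
      push_cast at this
      exact this.symm
    have e5 : (((‖y‖)⁻¹ : ℝ) : ℂ) * ((((‖y‖)⁻¹ : ℝ) : ℂ) * (μ + (θ : ℂ) ^ 2 * γ)) +
        (s : ℂ) * ω * (((‖y‖)⁻¹ : ℝ) : ℂ) * ((((‖y‖)⁻¹ : ℝ) : ℂ) * ((θ : ℂ) * (γ - μ))) =
        (μ + (θ : ℂ) ^ 2 * γ + (s : ℂ) * ω * ((θ : ℂ) * (γ - μ))) / (1 + (θ : ℂ) ^ 2) := by
      rw [e3]
      push_cast
      field_simp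
    rw [e5] at h1
    refine ⟨_, h1, ?_⟩
    have e6 : (μ + (θ : ℂ) ^ 2 * γ + (s : ℂ) * ω * ((θ : ℂ) * (γ - μ))) / (1 + (θ : ℂ) ^ 2) - μ -
        (θ : ℂ) * ((s : ℂ) * (γ - μ)) * ω =
        ((θ : ℂ) ^ 2 * ((γ - μ) * (1 - (s : ℂ) * ω * (θ : ℂ)))) / (1 + (θ : ℂ) ^ 2) := by
      field_simp
      ring
    rw [e6, norm_div, norm_mul]
    have e7 : ‖(1 + (θ : ℂ) ^ 2)‖ = 1 + θ ^ 2 := by
      have : (1 + (θ : ℂ) ^ 2) = ((1 + θ ^ 2 : ℝ) : ℂ) := by push_cast; ring
      rw [this, Complex.norm_real, Real.norm_of_nonneg hpos.le]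
    have e8 : ‖(θ : ℂ) ^ 2‖ = θ ^ 2 := by
      rw [norm_pow, Complex.norm_real, Real.norm_of_nonneg hθ.le]
    rw [e7, e8, div_le_iff₀ hpos]
    have e9 : ‖(γ - μ) * (1 - (s : ℂ) * ω * (θ : ℂ))‖ ≤ ‖γ - μ‖ * (1 + s) := by
      rw [norm_mul]
      refine mul_le_mul_of_nonneg_left ((norm_sub_le _ _).trans ?_) (norm_nonneg _)
      rw [norm_one, norm_mul, norm_mul, Complex.norm_real, Complex.norm_real, hω,
        Real.norm_of_nonneg hs.le, Real.norm_of_nonneg hθ.le, mul_one]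
      have : s * θ ≤ s := mul_le_of_le_one_right hs.le hθ1.le
      linarith
    have e10 : θ ^ 2 * ‖(γ - μ) * (1 - (s : ℂ) * ω * (θ : ℂ))‖ ≤ θ ^ 2 * (‖γ - μ‖ * (1 + s)) :=
      mul_le_mul_of_nonneg_left e9 (by positivity)
    have e11 : 0 ≤ (‖γ - μ‖ * (1 + s)) * θ ^ 2 * θ ^ 2 := by positivity
    nlinarith

end

end Pool.Agent.H243.CE
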