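import Pool.Agent.H243.CE.Stmt3

set_option autoImplicit false

open MeasureTheory Set Filter Topology Polynomial

namespace Pool.Agent.H243.CE

namespace EPS

variable {H : Type} [NormedAddCommGroup H] [InnerProductSpace ℂ H]

lemma psi_X (A : H →L[ℂ] H) (u v : H) : psi A X u v = C (inner ℂ u v) := by
  unfold psi
  rw [natDegree_X, Finset.sum_range_succ, Finset.sum_range_succ, Finset.sum_range_zero]
  simp

lemma Gp_X (D N : ℂ[X]) : Gp X D N = D - X * N := by
  unfold Gp
  rw [natDegree_X, Finset.sum_range_succ, Finset.sum_range_succ, Finset.sum_range_zero]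
  simp

end EPS

open EPS in
theorem t_EPS : S_EPS := by
  intro H _ _ A ε x y hx hy hxy hε hG
  rw [Gp_X] at hG
  have hyx : inner ℂ y x = (0 : ℂ) := by
    rw [← inner_conj_symm, hxy, map_zero]
  have hxx : inner ℂ x x = (1 : ℂ) := by
    rw [inner_self_eq_norm_sq_to_K, hx]
    norm_num
  have hyy : inner ℂ y y = (1 : ℂ) := by
    rw [inner_self_eq_norm_sq_to_K, hy]
    norm_num
  have h0 := congrArg (Polynomial.eval 0) hG
  rw [eval_sub, eval_mul, eval_X, zero_mul, sub_zero, eval_zero] at h0
  unfold Dm at h0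
  simp only [psi_X, inner_add_right, inner_smul_right, hxx, hyy, hxy, hyx] at h0
  simp only [eval_add, eval_mul, eval_sub, eval_pow, eval_X, eval_C, eval_one] at h0
  have h1 : ε * (1 - (starRingEnd ℂ) ε * ε) = 0 := by
    linear_combination (-1 / 2 : ℂ) * h0
  rcases mul_eq_zero.1 h1 with h2 | h2
  · exact h2
  · exfalso
    have h3 : (starRingEnd ℂ) ε * ε = 1 := (sub_eq_zero.1 h2).symm
    have h4 := congrArg norm h3
    rw [norm_mul, RCLike.norm_conj, norm_one] at h4
    nlinarith [norm_nonneg ε]

end Pool.Agent.H243.CE
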