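import Pool.Agent.H243.CE.Stmt3

/-! # (CE39) polynomials which are small in `L²` annihilate `y`, Moebius images -/

set_option autoImplicit false

open MeasureTheory Set Filter Topology Polynomial

namespace Pool.Agent.H243.CE

noncomputable section

namespace IDEALF

variable {H : Type} [NormedAddCommGroup H] [InnerProductSpace ℂ H]

/-- expansion of the form -/
theorem expand (B : H →L[ℂ] H) (u x : H) (t : ℝ) (μ : ℂ) (h : inner ℂ x (B u) = (0 : ℂ)) :
    (inner ℂ ((t : ℂ) • u - μ • x) (B ((t : ℂ) • u - μ • x))).re =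
      t ^ 2 * (inner ℂ u (B u)).re + ‖μ‖ ^ 2 * (inner ℂ x (B x)).re -
        t * (μ * inner ℂ u (B x)).re := by
  have h1 : inner ℂ ((t : ℂ) • u - μ • x) (B ((t : ℂ) • u - μ • x)) =
      ((t ^ 2 : ℝ) : ℂ) * inner ℂ u (B u) + ((‖μ‖ ^ 2 : ℝ) : ℂ) * inner ℂ x (B x) -
        (t : ℂ) * (μ * inner ℂ u (B x)) := by
    rw [map_sub, map_smul, map_smul, inner_sub_left, inner_sub_right, inner_sub_right,
      inner_smul_left, inner_smul_left, inner_smul_left, inner_smul_left, inner_smul_right,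
      inner_smul_right, inner_smul_right, inner_smul_right, h, Complex.conj_ofReal]
    have h2 := Complex.conj_mul' μ
    push_cast
    rw [← h2]
    ring
  rw [h1, Complex.sub_re, Complex.add_re, Complex.re_ofReal_mul, Complex.re_ofReal_mul,
    Complex.re_ofReal_mul]

/-- mean values of the kernel -/
theorem mean_re [CompleteSpace H] {Y : ℝ → H →L[ℂ] H} (hY : Continuous Y) {h : ℝ → ℂ}
    (hh : Continuous h) (u v : H) :
    mean (fun φ => (h φ * inner ℂ u (Y φ v)).re) = (inner ℂ u (Gam Y h v)).re := by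
  unfold mean Gam
  have e1 : inner ℂ u (((((2 * Real.pi : ℝ) : ℂ)⁻¹ • ∫ φ in (0 : ℝ)..(2 * Real.pi), h φ • Y φ) :
      H →L[ℂ] H) v) = ((2 * Real.pi : ℝ) : ℂ)⁻¹ *
        ∫ φ in (0 : ℝ)..(2 * Real.pi), h φ * inner ℂ u (Y φ v) := by
    rw [ContinuousLinearMap.smul_apply, inner_smul_right]
    congr 1
    have h1 := ((innerSL ℂ u).comp (ContinuousLinearMap.apply ℂ H v)).intervalIntegral_comp_comm
      (f := fun φ => h φ • Y φ) (μ := volume) (a := 0) (b := 2 * Real.pi)
      ((hh.smul hY).intervalIntegrable _ _)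
    simp only [ContinuousLinearMap.comp_apply, ContinuousLinearMap.apply_apply,
      innerSL_apply_apply, ContinuousLinearMap.smul_apply, inner_smul_right] at h1
    exact h1.symm
  rw [e1, ← Complex.ofReal_inv, Complex.re_ofReal_mul]
  congr 1
  have h2 := Complex.reCLM.intervalIntegral_comp_comm
    (f := fun φ => h φ * inner ℂ u (Y φ v)) (μ := volume) (a := 0) (b := 2 * Real.pi)
    ((hh.mul (continuous_const.inner (hY.clm_apply continuous_const))).intervalIntegrable _ _)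
  simp only [Complex.reCLM_apply] at h2
  exact h2

variable {A : H →L[ℂ] H} {L : ℝ} {s : ℝ → ℂ} {ρ : ℝ → ℝ} {Y : ℝ → H →L[ℂ] H}

theorem gam_eval (D : Datum A L s ρ Y) (g : ℂ[X]) : Gam Y (fun φ => g.eval (s φ)) = aeval A g := by
  unfold Gam
  rw [D.int g, smul_smul, inv_mul_cancel₀, one_smul]
  have := Real.pi_pos
  exact_mod_cast (by positivity : (2 * Real.pi : ℝ) ≠ 0)

theorem mean_nonneg {h : ℝ → ℝ} (hh : ∀ φ, 0 ≤ h φ) : 0 ≤ mean h := by
  unfold mean
  refine mul_nonneg (by positivity) ?_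
  exact intervalIntegral.integral_nonneg (by positivity) fun φ _ => hh φ

theorem mean_mono {h k : ℝ → ℝ} (ch : Continuous h) (ck : Continuous k) (hk : ∀ φ, h φ ≤ k φ) :
    mean h ≤ mean k := by
  unfold mean
  refine mul_le_mul_of_nonneg_left ?_ (by positivity)
  exact intervalIntegral.integral_mono (by positivity) (ch.intervalIntegrable _ _)
    (ck.intervalIntegrable _ _) hk

theorem mean_comb {h k l : ℝ → ℝ} (ch : Continuous h) (ck : Continuous k) (cl : Continuous l)
    (a b c : ℝ) : mean (fun φ => a * h φ + b * k φ - c * l φ) =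
      a * mean h + b * mean k - c * mean l := by
  unfold mean
  rw [intervalIntegral.integral_sub, intervalIntegral.integral_add,
    intervalIntegral.integral_const_mul, intervalIntegral.integral_const_mul,
    intervalIntegral.integral_const_mul]
  · ring
  · exact (continuous_const.mul ch).intervalIntegrable _ _
  · exact (continuous_const.mul ck).intervalIntegrable _ _
  · exact ((continuous_const.mul ch).add (continuous_const.mul ck)).intervalIntegrable _ _
  · exact (continuous_const.mul cl).intervalIntegrable _ _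

theorem cont_inner (hY : Continuous Y) (u v : H) : Continuous fun φ => inner ℂ u (Y φ v) :=
  continuous_const.inner (hY.clm_apply continuous_const)

theorem cont_eval (hs : Continuous s) (g : ℂ[X]) : Continuous fun φ => g.eval (s φ) :=
  g.continuous.comp hs

/-- the main inequality -/
theorem main_ineq [CompleteSpace H] (D : Datum A L s ρ Y) (T G : H →L[ℂ] H)
    (hc : ∀ φ, T * Y φ = Y φ * T) (h : ℝ → ℂ) (ch : Continuous h) (hG : Gam Y h = G) (x v : H)
    (hx : ∀ u : H, inner ℂ x (T u) = (0 : ℂ)) (t : ℝ) :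
    t * ‖(inner ℂ (T v) (G x) : ℂ)‖ ^ 2 ≤
      t ^ 2 * ‖T v‖ ^ 2 +
        ‖(inner ℂ (T v) (G x) : ℂ)‖ ^ 2 * mean (fun φ => ‖h φ‖ ^ 2 * (inner ℂ x (Y φ x)).re) := by
  obtain ⟨u, hu⟩ : ∃ u, u = T v := ⟨_, rfl⟩
  obtain ⟨z, hz⟩ : ∃ z : ℂ, z = inner ℂ u (G x) := ⟨_, rfl⟩
  have h0 : ∀ φ, inner ℂ x (Y φ u) = (0 : ℂ) := by
    intro φ
    have h2 : Y φ u = T (Y φ v) := by
      rw [hu]
      exact (congrArg (fun B : H →L[ℂ] H => B v) (hc φ)).symm
    rw [h2]
    exact hx _
  have hpt : ∀ φ, 0 ≤ t ^ 2 * (inner ℂ u (Y φ u)).re +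
      ‖z‖ ^ 2 * (‖h φ‖ ^ 2 * (inner ℂ x (Y φ x)).re) -
        t * (((starRingEnd ℂ) z * h φ) * inner ℂ u (Y φ x)).re := by
    intro φ
    have h1 := D.pos φ ((t : ℂ) • u - ((starRingEnd ℂ) z * h φ) • x)
    rw [expand (Y φ) u x t _ (h0 φ), norm_mul, RCLike.norm_conj, mul_pow] at h1
    rw [← mul_assoc (‖z‖ ^ 2)]
    exact h1
  have c1 : Continuous fun φ => (inner ℂ u (Y φ u)).re :=
    Complex.continuous_re.comp (cont_inner D.Yc u u)
  have c2 : Continuous fun φ => ‖h φ‖ ^ 2 * (inner ℂ x (Y φ x)).re :=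
    (ch.norm.pow 2).mul (Complex.continuous_re.comp (cont_inner D.Yc x x))
  have c3 : Continuous fun φ =>
      (((starRingEnd ℂ) z * h φ) * inner ℂ u (Y φ x)).re :=
    Complex.continuous_re.comp
      ((continuous_const.mul ch).mul (cont_inner D.Yc u x))
  have h3 := mean_nonneg hpt
  rw [mean_comb c1 c2 c3] at h3
  have m1 : mean (fun φ => (inner ℂ u (Y φ u)).re) = ‖u‖ ^ 2 := by
    have h4 := mean_re D.Yc (h := fun φ => (1 : ℂ[X]).eval (s φ))
      (cont_eval D.sc 1) u u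
    rw [gam_eval D 1, map_one] at h4
    simp only [eval_one, one_mul, ContinuousLinearMap.one_apply] at h4
    rw [h4, inner_self_eq_norm_sq_to_K]
    norm_cast
  have m3 : mean (fun φ => (((starRingEnd ℂ) z * h φ) * inner ℂ u (Y φ x)).re) =
      ‖z‖ ^ 2 := by
    have h4 := mean_re D.Yc (h := fun φ => (starRingEnd ℂ) z * h φ) (continuous_const.mul ch) u x
    have h5 : Gam Y (fun φ => (starRingEnd ℂ) z * h φ) = (starRingEnd ℂ) z • G := by
      rw [← hG]
      unfold Gam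
      simp only [mul_smul]
      rw [intervalIntegral.integral_smul, smul_comm]
    rw [h5] at h4
    rw [h4, ContinuousLinearMap.smul_apply, inner_smul_right, ← hz, Complex.conj_mul']
    norm_cast
  rw [m1, m3] at h3
  rw [← hu, ← hz]
  linarith

/-- a nonnegative real number which is at most `t² n / t` -/
theorem zero_of (z : ℂ) (n : ℝ) (hn0 : 0 ≤ n) (h1 : ∀ t : ℝ, t * ‖z‖ ^ 2 ≤ t ^ 2 * n) : z = 0 := by
  by_contra hne
  have hzp : 0 < ‖z‖ ^ 2 := by positivity
  have h4 := h1 (‖z‖ ^ 2 / (2 * (n + 1)))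
  have h6 : (‖z‖ ^ 2 / (2 * (n + 1))) ^ 2 * n =
      ‖z‖ ^ 2 / (2 * (n + 1)) * ‖z‖ ^ 2 * (n / (2 * (n + 1))) := by
    ring
  rw [h6] at h4
  have h7 : n / (2 * (n + 1)) < 1 := by
    rw [div_lt_one (by positivity)]
    linarith
  have h8 : 0 < ‖z‖ ^ 2 / (2 * (n + 1)) * ‖z‖ ^ 2 := by positivity
  nlinarith

/-- `T` commutes with the polynomials in `A` -/
theorem comm_T [CompleteSpace H] (D : Datum A L s ρ Y) (T : H →L[ℂ] H)
    (hc : ∀ φ, T * Y φ = Y φ * T) (g : ℂ[X]) : T * aeval A g = aeval A g * T := by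
  have hi : IntervalIntegrable (fun φ => g.eval (s φ) • Y φ) volume 0 (2 * Real.pi) :=
    ((cont_eval D.sc g).smul D.Yc).intervalIntegrable _ _
  have hL := ((ContinuousLinearMap.mul ℂ (H →L[ℂ] H)) T).intervalIntegral_comp_comm hi
  have hR := ((ContinuousLinearMap.mul ℂ (H →L[ℂ] H)).flip T).intervalIntegral_comp_comm hi
  simp only [ContinuousLinearMap.mul_apply', ContinuousLinearMap.flip_apply] at hL hR
  have he : ∀ φ, T * (g.eval (s φ) • Y φ) = (g.eval (s φ) • Y φ) * T := by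
    intro φ
    rw [mul_smul_comm, smul_mul_assoc, hc]
  rw [D.int g] at hL hR
  have h1 : T * (((2 * Real.pi : ℝ) : ℂ) • aeval A g) =
      (((2 * Real.pi : ℝ) : ℂ) • aeval A g) * T := by
    rw [← hL, ← hR]
    simp only [he]
  rw [mul_smul_comm, smul_mul_assoc] at h1
  have h2 : ((2 * Real.pi : ℝ) : ℂ) ≠ 0 := by
    have := Real.pi_pos
    exact_mod_cast (by positivity : (2 * Real.pi : ℝ) ≠ 0)
  exact smul_right_injective _ h2 h1

end IDEALF

open IDEALF

theorem t_IDEALF : S_IDEALF := by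
  intro H _ _ _ A p ε T L K s ρ Y M M' hε hA x y hxy hx g hg
  -- the denominators
  have hden : ∀ j φ, 1 - (starRingEnd ℂ) ε * p.eval (s j φ) ≠ 0 := by
    intro j φ h
    have h1 : (starRingEnd ℂ) ε * p.eval (s j φ) = 1 := (sub_eq_zero.1 h).symm
    have h2 : ‖(starRingEnd ℂ) ε * p.eval (s j φ)‖ = 1 := by rw [h1, norm_one]
    rw [norm_mul, RCLike.norm_conj] at h2
    have h3 : ‖ε‖ * ‖p.eval (s j φ)‖ ≤ ‖ε‖ * M j :=
      mul_le_mul_of_nonneg_left (hA.ap.fb j φ) (norm_nonneg _)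
    have h4 := hA.eM j
    linarith
  have hcF : ∀ j, Continuous fun φ => mo ε (p.eval (s j φ)) := by
    intro j
    have hp := cont_eval (hA.ap.dat j).sc p
    exact (hp.sub continuous_const).div (continuous_const.sub (continuous_const.mul hp)) (hden j)
  -- the function `g F`
  have hch : ∀ j, Continuous fun φ => g.eval (s j φ) * mo ε (p.eval (s j φ)) := fun j =>
    (cont_eval (hA.ap.dat j).sc g).mul (hcF j)
  have hG : ∀ j, Gam (Y j) (fun φ => g.eval (s j φ) * mo ε (p.eval (s j φ))) =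
      aeval A g * T := by
    intro j
    have h1 := hA.Fi j 1 g
    simp only [pow_one] at h1
    unfold Gam
    rw [h1, smul_smul, inv_mul_cancel₀, one_smul]
    have := Real.pi_pos
    exact_mod_cast (by positivity : (2 * Real.pi : ℝ) ≠ 0)
  -- smallness
  have hJ : ∀ j, mean (fun φ => ‖g.eval (s j φ) * mo ε (p.eval (s j φ))‖ ^ 2 *
      (inner ℂ x (Y j φ x)).re) ≤ 4 * J x (s j) (Y j) g := by
    intro j
    have c2 : ∀ h : ℝ → ℂ, Continuous h → Continuous fun φ =>
        ‖h φ‖ ^ 2 * (inner ℂ x (Y j φ x)).re := fun h ch =>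
      (ch.norm.pow 2).mul (Complex.continuous_re.comp (cont_inner (hA.ap.dat j).Yc x x))
    have h5 : mean (fun φ => 4 * (‖g.eval (s j φ)‖ ^ 2 * (inner ℂ x (Y j φ x)).re)) =
        4 * J x (s j) (Y j) g := by
      unfold J mean
      rw [intervalIntegral.integral_const_mul]
      ring
    rw [← h5]
    refine mean_mono (c2 _ (hch j))
      (continuous_const.mul (c2 _ (cont_eval (hA.ap.dat j).sc g))) fun φ => ?_
    rw [norm_mul, mul_pow]
    have h6 := (hA.ap.dat j).pos φ x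
    have h7 : ‖mo ε (p.eval (s j φ))‖ ^ 2 ≤ 4 := by
      have h8 := (hA.Fb j φ).trans (hA.M2 j)
      have h9 := norm_nonneg (mo ε (p.eval (s j φ)))
      nlinarith
    calc ‖g.eval (s j φ)‖ ^ 2 * ‖mo ε (p.eval (s j φ))‖ ^ 2 * (inner ℂ x (Y j φ x)).re
        ≤ ‖g.eval (s j φ)‖ ^ 2 * 4 * (inner ℂ x (Y j φ x)).re := by gcongr
      _ = _ := by ring
  -- orthogonality
  have horth : ∀ v : H, inner ℂ (T v) ((aeval A g * T) x) = (0 : ℂ) := by
    intro v
    refine zero_of _ (‖T v‖ ^ 2) (by positivity) fun t => ?_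
    have h2 : ∀ j, t * ‖(inner ℂ (T v) ((aeval A g * T) x) : ℂ)‖ ^ 2 ≤ t ^ 2 * ‖T v‖ ^ 2 +
        ‖(inner ℂ (T v) ((aeval A g * T) x) : ℂ)‖ ^ 2 * (4 * J x (s j) (Y j) g) := by
      intro j
      have h3 := main_ineq (hA.ap.dat j) T (aeval A g * T) (hA.comm j) _ (hch j) (hG j) x v hx t
      have h4 := mul_le_mul_of_nonneg_left (hJ j)
        (sq_nonneg ‖(inner ℂ (T v) ((aeval A g * T) x) : ℂ)‖)
      linarith
    have h3 : Tendsto (fun j => t ^ 2 * ‖T v‖ ^ 2 +
        ‖(inner ℂ (T v) ((aeval A g * T) x) : ℂ)‖ ^ 2 * (4 * J x (s j) (Y j) g)) atTop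
        (𝓝 (t ^ 2 * ‖T v‖ ^ 2 +
          ‖(inner ℂ (T v) ((aeval A g * T) x) : ℂ)‖ ^ 2 * (4 * 0))) :=
      ((hg.const_mul _).const_mul _).const_add _
    rw [mul_zero, mul_zero, add_zero] at h3
    exact ge_of_tendsto' h3 h2
  have h1 := horth ((aeval A g) x)
  have h2 : (aeval A g * T) x = (2 : ℂ) • (aeval A g) y := by
    rw [ContinuousLinearMap.mul_apply, hxy, map_smul]
  have h3 : T ((aeval A g) x) = (2 : ℂ) • (aeval A g) y := by
    rw [← h2, ← comm_T (hA.ap.dat 0) T (hA.comm 0) g, ContinuousLinearMap.mul_apply]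
  rw [h2, h3, inner_self_eq_zero, smul_eq_zero] at h1
  rcases h1 with h1 | h1
  · exact absurd h1 two_ne_zero
  · exact h1

end

end Pool.Agent.H243.CE
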