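import Pool.Agent.H243.CE.Stmt3

/-! # Integrals of Moebius images over the curve -/

set_option autoImplicit false
set_option linter.all false

open MeasureTheory Set Filter Topology Polynomial

namespace Pool.Agent.H243.CE

namespace INTF

variable {H : Type} [NormedAddCommGroup H] [InnerProductSpace ℂ H] [CompleteSpace H]

omit [CompleteSpace H] in
lemma bp_aeval (P : H →L[ℂ] H) (ε : ℂ) (n : ℕ) :
    aeval P (Q82.QR.Bp ε n) * (1 - (starRingEnd ℂ) ε • P) =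
      P - ε • (1 : H →L[ℂ] H) - ((1 - ‖ε‖ ^ 2 : ℝ) : ℂ) • ((starRingEnd ℂ) ε ^ n • P ^ (n + 1)) := by
  have h := congrArg (aeval P) (Q82.QR.Bp_mul ε n)
  rw [map_mul, map_sub, map_one, map_mul, aeval_X, aeval_C, map_sub, map_sub, aeval_X, aeval_C,
    map_mul, aeval_C, map_pow, aeval_X, Algebra.algebraMap_eq_smul_one,
    Algebra.algebraMap_eq_smul_one, Algebra.algebraMap_eq_smul_one, smul_mul_assoc, one_mul,
    smul_mul_assoc, one_mul, mul_smul] at h
  exact h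

lemma bp_eval {ε w : ℂ} {θ : ℝ} (hε : ‖ε‖ < 1) (hθ : θ < 1) (hw : ‖ε‖ * ‖w‖ ≤ θ) (n : ℕ) :
    ‖(Q82.QR.Bp ε n).eval w - mo ε w‖ ≤ θ ^ n * (‖w‖ / (1 - θ)) := by
  have hθ0 : 0 ≤ θ := (by positivity : 0 ≤ ‖ε‖ * ‖w‖).trans hw
  have h1θ : 0 < 1 - θ := by linarith
  have hD : 1 - θ ≤ ‖1 - (starRingEnd ℂ) ε * w‖ := by
    have h1 := norm_sub_norm_le (1 : ℂ) ((starRingEnd ℂ) ε * w)
    rw [norm_one, norm_mul, RCLike.norm_conj] at h1
    linarith
  have hD0 : 1 - (starRingEnd ℂ) ε * w ≠ 0 := by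
    intro h0
    rw [h0, norm_zero] at hD
    linarith
  have h := congrArg (eval w) (Q82.QR.Bp_mul ε n)
  rw [eval_mul, eval_sub, eval_one, eval_mul, eval_C, eval_X, eval_sub, eval_sub, eval_X, eval_C,
    eval_mul, eval_C, eval_pow, eval_X] at h
  have e : (Q82.QR.Bp ε n).eval w - mo ε w =
      -(((1 - ‖ε‖ ^ 2 : ℝ) : ℂ) * (starRingEnd ℂ) ε ^ n * w ^ (n + 1)) /
        (1 - (starRingEnd ℂ) ε * w) := by
    unfold mo
    rw [eq_div_iff hD0, sub_mul, h, div_mul_cancel₀ _ hD0]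
    ring
  rw [e, norm_div, norm_neg, norm_mul, norm_mul, Complex.norm_real, norm_pow, RCLike.norm_conj,
    norm_pow, Real.norm_of_nonneg (by nlinarith [norm_nonneg ε])]
  have h2 : (1 - ‖ε‖ ^ 2) * ‖ε‖ ^ n * ‖w‖ ^ (n + 1) ≤ θ ^ n * ‖w‖ := by
    have e1 : (1 - ‖ε‖ ^ 2) * ‖ε‖ ^ n * ‖w‖ ^ (n + 1) =
        (1 - ‖ε‖ ^ 2) * ((‖ε‖ * ‖w‖) ^ n * ‖w‖) := by
      rw [mul_pow, pow_succ]; ring
    rw [e1]
    have h3 : (‖ε‖ * ‖w‖) ^ n * ‖w‖ ≤ θ ^ n * ‖w‖ :=
      mul_le_mul_of_nonneg_right (pow_le_pow_left₀ (by positivity) hw n) (norm_nonneg _)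
    have h4 : 0 ≤ (‖ε‖ * ‖w‖) ^ n * ‖w‖ := by positivity
    have h5 : 0 ≤ ‖ε‖ ^ 2 := by positivity
    nlinarith
  rw [div_le_iff₀ (h1θ.trans_le hD)]
  refine h2.trans ?_
  have h6 : θ ^ n * ‖w‖ = θ ^ n * (‖w‖ / (1 - θ)) * (1 - θ) := by field_simp
  rw [h6]
  exact mul_le_mul_of_nonneg_left hD (by positivity)

end INTF

open INTF in
theorem t_INTF : S_INTF := by
  intro H _ _ _ A L s ρ Y hD p ε T Q θ hM hθ hb k g
  have hθ0 : 0 ≤ θ := (by positivity : 0 ≤ ‖ε‖ * ‖p.eval (s 0)‖).trans (hb 0)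
  have h1θ : 0 < 1 - θ := by linarith
  have hπ : (0 : ℝ) < 2 * Real.pi := by positivity
  have hsc := hD.sc
  have hYc := hD.Yc
  have hε := hM.e1
  set P : H →L[ℂ] H := aeval A p with hP
  have hpc : Continuous (fun φ => p.eval (s φ)) := by fun_prop
  have hgc : Continuous (fun φ => g.eval (s φ)) := by fun_prop
  have hD0 : ∀ φ, 1 - (starRingEnd ℂ) ε * p.eval (s φ) ≠ 0 := by
    intro φ h0
    have h1 := norm_sub_norm_le (1 : ℂ) ((starRingEnd ℂ) ε * p.eval (s φ))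
    rw [norm_one, norm_mul, RCLike.norm_conj, h0, norm_zero] at h1
    have := hb φ
    linarith
  have hFc : Continuous (fun φ => mo ε (p.eval (s φ))) := by
    unfold mo
    exact (hpc.sub continuous_const).div (continuous_const.sub (continuous_const.mul hpc)) hD0
  have hpowθ : Tendsto (fun n : ℕ => θ ^ n) atTop (𝓝 0) :=
    tendsto_pow_atTop_nhds_zero_of_lt_one hθ0 hθ
  have hpi0 : ((2 * Real.pi : ℝ) : ℂ) ≠ 0 := by
    rw [Ne, Complex.ofReal_eq_zero]; exact hπ.ne'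
  -- the error term
  have hE : Tendsto (fun n : ℕ => (starRingEnd ℂ) ε ^ n • P ^ (n + 1)) atTop (𝓝 0) := by
    have h1 : Tendsto (fun n : ℕ => ∫ φ in (0 : ℝ)..(2 * Real.pi),
        (C ((starRingEnd ℂ) ε ^ n) * p ^ (n + 1)).eval (s φ) • Y φ) atTop
        (𝓝 (∫ φ in (0 : ℝ)..(2 * Real.pi), (0 : H →L[ℂ] H))) := by
      have hbd : ∀ n φ, ‖(C ((starRingEnd ℂ) ε ^ n) * p ^ (n + 1)).eval (s φ) • Y φ‖ ≤
          θ ^ n * (‖p.eval (s φ)‖ * ‖Y φ‖) := by
        intro n φ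
        rw [norm_smul, eval_mul, eval_C, eval_pow, norm_mul, norm_pow, RCLike.norm_conj, norm_pow,
          pow_succ, ← mul_assoc, ← mul_pow, mul_assoc]
        exact mul_le_mul_of_nonneg_right (pow_le_pow_left₀ (by positivity) (hb φ) n)
          (by positivity)
      refine intervalIntegral.tendsto_integral_filter_of_dominated_convergence
        (fun φ => ‖p.eval (s φ)‖ * ‖Y φ‖) ?_ ?_ ?_ ?_
      · refine Eventually.of_forall fun n => Continuous.aestronglyMeasurable ?_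
        exact ((C ((starRingEnd ℂ) ε ^ n) * p ^ (n + 1)).continuous.comp hsc).smul hYc
      · refine Eventually.of_forall fun n => Eventually.of_forall fun φ _ => (hbd n φ).trans ?_
        exact mul_le_of_le_one_left (by positivity) (pow_le_one₀ hθ0 hθ.le)
      · exact (hpc.norm.mul hYc.norm).intervalIntegrable _ _
      · refine Eventually.of_forall fun φ _ => ?_
        refine squeeze_zero_norm (fun n => hbd n φ) ?_
        have := hpowθ.mul_const (‖p.eval (s φ)‖ * ‖Y φ‖)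
        rwa [zero_mul] at this
    rw [intervalIntegral.integral_zero] at h1
    have h2 : ∀ n : ℕ, (starRingEnd ℂ) ε ^ n • P ^ (n + 1) = (((2 * Real.pi : ℝ) : ℂ))⁻¹ •
        ∫ φ in (0 : ℝ)..(2 * Real.pi), (C ((starRingEnd ℂ) ε ^ n) * p ^ (n + 1)).eval (s φ) • Y φ := by
      intro n
      rw [hD.int, smul_smul, inv_mul_cancel₀ hpi0, one_smul, map_mul, aeval_C,
        Algebra.algebraMap_eq_smul_one, map_pow, smul_mul_assoc, one_mul]
    have h3 := h1.const_smul (((2 * Real.pi : ℝ) : ℂ))⁻¹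
    rw [smul_zero] at h3
    exact h3.congr (fun n => (h2 n).symm)
  -- `q_n (A) → T`
  have hT : Tendsto (fun n : ℕ => aeval A ((Q82.QR.Bp ε n).comp p)) atTop (𝓝 T) := by
    have h1 : ∀ n : ℕ, aeval A ((Q82.QR.Bp ε n).comp p) =
        T - (((1 - ‖ε‖ ^ 2 : ℝ) : ℂ) • ((starRingEnd ℂ) ε ^ n • P ^ (n + 1))) * Q := by
      intro n
      rw [aeval_comp]
      calc aeval P (Q82.QR.Bp ε n) = aeval P (Q82.QR.Bp ε n) *
            ((1 - (starRingEnd ℂ) ε • P) * Q) := by rw [hM.q2, mul_one]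
        _ = (aeval P (Q82.QR.Bp ε n) * (1 - (starRingEnd ℂ) ε • P)) * Q := by rw [mul_assoc]
        _ = _ := by rw [bp_aeval, sub_mul, ← hM.t]
    have h2 := (hE.const_smul ((1 - ‖ε‖ ^ 2 : ℝ) : ℂ)).mul_const Q
    rw [smul_zero, zero_mul] at h2
    have h3 := h2.const_sub T
    rw [sub_zero] at h3
    exact h3.congr (fun n => (h1 n).symm)
  have hR : Tendsto (fun n : ℕ => ((2 * Real.pi : ℝ) : ℂ) •
      aeval A (g * ((Q82.QR.Bp ε n).comp p) ^ k)) atTop
      (𝓝 (((2 * Real.pi : ℝ) : ℂ) • (aeval A g * T ^ k))) := by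
    have h1 := ((hT.pow k).const_mul (aeval A g)).const_smul ((2 * Real.pi : ℝ) : ℂ)
    refine h1.congr (fun n => ?_)
    rw [map_mul, map_pow]
  have hLim : Tendsto (fun n : ℕ => ∫ φ in (0 : ℝ)..(2 * Real.pi),
      (g * ((Q82.QR.Bp ε n).comp p) ^ k).eval (s φ) • Y φ) atTop
      (𝓝 (∫ φ in (0 : ℝ)..(2 * Real.pi), (g.eval (s φ) * (mo ε (p.eval (s φ))) ^ k) • Y φ)) := by
    have hval : ∀ n φ, (g * ((Q82.QR.Bp ε n).comp p) ^ k).eval (s φ) =
        g.eval (s φ) * ((Q82.QR.Bp ε n).eval (p.eval (s φ))) ^ k := by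
      intro n φ
      rw [eval_mul, eval_pow, eval_comp]
    have hbb : ∀ n φ, ‖(Q82.QR.Bp ε n).eval (p.eval (s φ))‖ ≤
        ‖mo ε (p.eval (s φ))‖ + ‖p.eval (s φ)‖ / (1 - θ) := by
      intro n φ
      have h1 := bp_eval hε hθ (hb φ) n
      have h2 : θ ^ n * (‖p.eval (s φ)‖ / (1 - θ)) ≤ ‖p.eval (s φ)‖ / (1 - θ) :=
        mul_le_of_le_one_left (by positivity) (pow_le_one₀ hθ0 hθ.le)
      have h3 := norm_le_norm_add_norm_sub' ((Q82.QR.Bp ε n).eval (p.eval (s φ)))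
        (mo ε (p.eval (s φ)))
      linarith
    refine intervalIntegral.tendsto_integral_filter_of_dominated_convergence
      (fun φ => ‖g.eval (s φ)‖ * (‖mo ε (p.eval (s φ))‖ + ‖p.eval (s φ)‖ / (1 - θ)) ^ k * ‖Y φ‖)
      ?_ ?_ ?_ ?_
    · refine Eventually.of_forall fun n => Continuous.aestronglyMeasurable ?_
      exact ((g * ((Q82.QR.Bp ε n).comp p) ^ k).continuous.comp hsc).smul hYc
    · refine Eventually.of_forall fun n => Eventually.of_forall fun φ _ => ?_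
      rw [hval, norm_smul, norm_mul, norm_pow]
      refine mul_le_mul_of_nonneg_right (mul_le_mul_of_nonneg_left ?_ (norm_nonneg _))
        (norm_nonneg _)
      exact pow_le_pow_left₀ (norm_nonneg _) (hbb n φ) k
    · exact (((hgc.norm.mul ((hFc.norm.add (hpc.norm.div_const _)).pow k)).mul
        hYc.norm)).intervalIntegrable _ _
    · refine Eventually.of_forall fun φ _ => ?_
      simp only [hval]
      refine Tendsto.smul_const (Tendsto.const_mul _ (Tendsto.pow ?_ k)) _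
      rw [tendsto_iff_norm_sub_tendsto_zero]
      refine squeeze_zero (fun n => norm_nonneg _) (fun n => bp_eval hε hθ (hb φ) n) ?_
      have := hpowθ.mul_const (‖p.eval (s φ)‖ / (1 - θ))
      rwa [zero_mul] at this
  have hEq : (fun n : ℕ => ∫ φ in (0 : ℝ)..(2 * Real.pi),
      (g * ((Q82.QR.Bp ε n).comp p) ^ k).eval (s φ) • Y φ) = (fun n : ℕ =>
        ((2 * Real.pi : ℝ) : ℂ) • aeval A (g * ((Q82.QR.Bp ε n).comp p) ^ k)) := by
    funext n
    exact hD.int _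
  rw [hEq] at hLim
  exact tendsto_nhds_unique hLim hR

end Pool.Agent.H243.CE
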