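import Pool.Agent.H243.CE.Stmt3

/-!
# The kernel relations at a maximal vector, for Moebius images of polynomials
-/

set_option autoImplicit false
set_option linter.unusedSectionVars false

open MeasureTheory Set Filter Topology Polynomial

namespace Pool.Agent.H243.CE

namespace KERF

noncomputable section

variable {H : Type} [NormedAddCommGroup H] [InnerProductSpace ℂ H]

/-- the normalised Moebius image on the curve -/
def Fj (ε : ℂ) (p : ℂ[X]) (M : ℝ) (s : ℝ → ℂ) : ℝ → ℂ := fun φ => ((M⁻¹ : ℝ) : ℂ) * mo ε (p.eval (s φ))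

/-- the operators `Γ_k` -/
def Gm (Y : ℝ → H →L[ℂ] H) (F : ℝ → ℂ) (k : ℕ) : H →L[ℂ] H :=
  Gam Y (fun φ => (starRingEnd ℂ) (F φ) ^ k)

theorem Fj_norm (ε : ℂ) (p : ℂ[X]) (M : ℝ) (s : ℝ → ℂ) (hM : 1 ≤ M) (φ : ℝ)
    (h : ‖mo ε (p.eval (s φ))‖ ≤ M) : ‖Fj ε p M s φ‖ ≤ 1 := by
  have hM0 : 0 < M := by linarith
  rw [Fj, norm_mul, Complex.norm_real, Real.norm_eq_abs, abs_of_pos (inv_pos.2 hM0)]
  rw [inv_mul_le_iff₀ hM0, mul_one]
  exact h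

theorem Fj_cont (ε : ℂ) (p : ℂ[X]) (M : ℝ) (s : ℝ → ℂ) (hs : Continuous s)
    (h : ∀ φ, ‖ε‖ * ‖p.eval (s φ)‖ < 1) : Continuous (Fj ε p M s) := by
  have h1 : Continuous fun φ => p.eval (s φ) := p.continuous.comp hs
  unfold Fj mo
  refine continuous_const.mul ((h1.sub continuous_const).div (continuous_const.sub (continuous_const.mul h1)) ?_)
  intro φ h0
  have h2 : (starRingEnd ℂ) ε * p.eval (s φ) = 1 := (sub_eq_zero.1 h0).symm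
  have h3 : ‖(starRingEnd ℂ) ε * p.eval (s φ)‖ = 1 := by rw [h2, norm_one]
  rw [norm_mul, RCLike.norm_conj] at h3
  linarith [h φ]

theorem Fj_int (ε : ℂ) (p : ℂ[X]) (M : ℝ) (s : ℝ → ℂ) (Y : ℝ → H →L[ℂ] H) (T : H →L[ℂ] H) (k : ℕ)
    (h : ∫ φ in (0 : ℝ)..(2 * Real.pi), (mo ε (p.eval (s φ))) ^ k • Y φ =
      ((2 * Real.pi : ℝ) : ℂ) • T ^ k) :
    ∫ φ in (0 : ℝ)..(2 * Real.pi), (Fj ε p M s φ) ^ k • Y φ =
      ((2 * Real.pi : ℝ) : ℂ) • ((((M⁻¹ : ℝ) : ℂ) • T) ^ k) := by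
  have h1 : ∀ φ, (Fj ε p M s φ) ^ k • Y φ = (((M⁻¹ : ℝ) : ℂ) ^ k) • ((mo ε (p.eval (s φ))) ^ k • Y φ) := by
    intro φ
    rw [Fj, mul_pow, mul_smul]
  simp only [h1]
  rw [intervalIntegral.integral_smul, h, _root_.smul_pow, smul_comm]

section alg

variable (T Γ1 Γk Γk1 : H →L[ℂ] H) (x y v : H)

theorem inner_pow_comm {k : ℕ} (hc : T * Γk = Γk * T) (u w : H) :
    inner ℂ u ((T ^ k) (Γk (T w))) = inner ℂ u ((T ^ (k + 1)) (Γk w)) := by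
  have h1 : Γk (T w) = T (Γk w) := by
    have := congrArg (fun S : H →L[ℂ] H => S w) hc
    exact this.symm
  rw [h1, pow_succ]
  rfl

/-- the first inequality -/
theorem ineq1 (k : ℕ) (m t : ℝ) (hx : ‖x‖ = 1) (hy : ‖y‖ = 1) (hTx : T x = (2 : ℂ) • y)
    (hyT : ∀ u : H, inner ℂ y (T u) = 2 * inner ℂ x u)
    (hv : ∀ u : H, inner ℂ v u = inner ℂ x ((T ^ k) u))
    (c1 : T * Γ1 = Γ1 * T) (ck1 : T * Γk1 = Γk1 * T)
    (h : 0 ≤ ‖((-t : ℝ) : ℂ) • v‖ ^ 2 + ‖-x‖ ^ 2 + ‖y‖ ^ 2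
        + ((inner ℂ (-x) ((((m : ℂ) • T) ^ k) (((-t : ℝ) : ℂ) • v))).re
          + (inner ℂ (((-t : ℝ) : ℂ) • v) (Γk (-x))).re)
        + ((inner ℂ y ((((m : ℂ) • T) ^ (k + 1)) (((-t : ℝ) : ℂ) • v))).re
          + (inner ℂ (((-t : ℝ) : ℂ) • v) (Γk1 y)).re)
        + ((inner ℂ y (((m : ℂ) • T) (-x))).re
          + (inner ℂ (-x) (Γ1 y)).re)) :
    0 ≤ t ^ 2 * ‖v‖ ^ 2 + 2 + t * (m ^ k * ‖v‖ ^ 2 + (inner ℂ x ((T ^ k) (Γk x))).re)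
      - t * (2 * m ^ (k + 1) * ‖v‖ ^ 2 + (inner ℂ x ((T ^ (k + 1)) (Γk1 x))).re / 2)
      - 2 * m - (inner ℂ x ((T ^ 1) (Γ1 x))).re / 2 := by
  have hyx : y = (2⁻¹ : ℂ) • T x := by
    rw [hTx, smul_smul, inv_mul_cancel₀ two_ne_zero, one_smul]
  have hxx : inner ℂ x x = (1 : ℂ) := by
    rw [inner_self_eq_norm_sq_to_K, hx]; simp
  have hvv : inner ℂ v v = ((‖v‖ ^ 2 : ℝ) : ℂ) := by
    rw [inner_self_eq_norm_sq_to_K]; simp
  have e1 : ‖((-t : ℝ) : ℂ) • v‖ ^ 2 = t ^ 2 * ‖v‖ ^ 2 := by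
    rw [norm_smul, Complex.norm_real, Real.norm_eq_abs, mul_pow, sq_abs, neg_sq]
  have e2 : (inner ℂ (-x) ((((m : ℂ) • T) ^ k) (((-t : ℝ) : ℂ) • v))).re = t * (m ^ k * ‖v‖ ^ 2) := by
    rw [_root_.smul_pow, _root_.smul_apply, map_smul, inner_neg_left, inner_smul_right,
      inner_smul_right, ← hv, hvv]
    rw [← Complex.ofReal_pow, ← Complex.ofReal_mul, ← Complex.ofReal_mul, ← Complex.ofReal_neg,
      Complex.ofReal_re]
    ring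
  have e3 : (inner ℂ (((-t : ℝ) : ℂ) • v) (Γk (-x))).re = t * (inner ℂ x ((T ^ k) (Γk x))).re := by
    rw [map_neg, inner_smul_left, inner_neg_right, hv, Complex.conj_ofReal, Complex.re_ofReal_mul,
      Complex.neg_re]
    ring
  have e4 : (inner ℂ y ((((m : ℂ) • T) ^ (k + 1)) (((-t : ℝ) : ℂ) • v))).re =
      -(t * (2 * m ^ (k + 1) * ‖v‖ ^ 2)) := by
    have h1 : inner ℂ y ((T ^ (k + 1)) v) = 2 * inner ℂ v v := by
      rw [pow_succ', mul_apply_eq_comp, hyT, ← hv]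
    rw [_root_.smul_pow, _root_.smul_apply, map_smul, inner_smul_right,
      inner_smul_right, h1, hvv]
    rw [← Complex.ofReal_pow, Complex.re_ofReal_mul, Complex.re_ofReal_mul]
    rw [Complex.mul_re, Complex.ofReal_re, Complex.ofReal_im]
    simp
    ring
  have e5 : (inner ℂ (((-t : ℝ) : ℂ) • v) (Γk1 y)).re =
      -(t * ((inner ℂ x ((T ^ (k + 1)) (Γk1 x))).re / 2)) := by
    rw [inner_smul_left, Complex.conj_ofReal, Complex.re_ofReal_mul, hv, hyx, map_smul, map_smul,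
      inner_smul_right, inner_pow_comm T Γk1 ck1]
    have h1 : (2⁻¹ : ℂ) = ((2⁻¹ : ℝ) : ℂ) := by push_cast; rfl
    rw [h1, Complex.re_ofReal_mul]
    ring
  have e6 : (inner ℂ y (((m : ℂ) • T) (-x))).re = -(2 * m) := by
    rw [_root_.smul_apply, inner_smul_right, hyT, inner_neg_right, hxx,
      Complex.re_ofReal_mul]
    simp
    ring
  have e7 : (inner ℂ (-x) (Γ1 y)).re = -((inner ℂ x ((T ^ 1) (Γ1 x))).re / 2) := by
    rw [hyx, map_smul, inner_neg_left, inner_smul_right]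
    have h0 := inner_pow_comm (k := 0) T Γ1 c1 x x
    rw [pow_zero, zero_add, one_apply_eq_self] at h0
    rw [h0]
    have h1 : (2⁻¹ : ℂ) = ((2⁻¹ : ℝ) : ℂ) := by push_cast; rfl
    rw [h1, Complex.neg_re, Complex.re_ofReal_mul]
    ring
  rw [e1, norm_neg, hx, hy, e2, e3, e4, e5, e6, e7] at h
  linarith

/-- the second inequality -/
theorem ineq2 (Γ2 : H →L[ℂ] H) (m t : ℝ) (hx : ‖x‖ = 1) (hy : ‖y‖ = 1) (hTx : T x = (2 : ℂ) • y)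
    (hyT : ∀ u : H, inner ℂ y (T u) = 2 * inner ℂ x u)
    (c1 : T * Γ1 = Γ1 * T) (c2 : T * Γ2 = Γ2 * T)
    (h : 0 ≤ ‖-x‖ ^ 2 + ‖y‖ ^ 2 + ‖((-t : ℝ) : ℂ) • T y‖ ^ 2
        + ((inner ℂ y ((((m : ℂ) • T) ^ 1) (-x))).re
          + (inner ℂ (-x) (Γ1 y)).re)
        + ((inner ℂ (((-t : ℝ) : ℂ) • T y) ((((m : ℂ) • T) ^ (1 + 1)) (-x))).re
          + (inner ℂ (-x) (Γ2 (((-t : ℝ) : ℂ) • T y))).re)
        + ((inner ℂ (((-t : ℝ) : ℂ) • T y) (((m : ℂ) • T) y)).re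
          + (inner ℂ y (Γ1 (((-t : ℝ) : ℂ) • T y))).re)) :
    0 ≤ t ^ 2 * ‖T y‖ ^ 2 + 2 - 2 * m - (inner ℂ x ((T ^ 1) (Γ1 x))).re / 2
      + 2 * t * m ^ 2 * ‖T y‖ ^ 2 + t * (inner ℂ x ((T ^ 2) (Γ2 x))).re / 2
      - t * m * ‖T y‖ ^ 2 - t * (inner ℂ x ((T ^ 1) (Γ1 x))).re := by
  have hyx : y = (2⁻¹ : ℂ) • T x := by
    rw [hTx, smul_smul, inv_mul_cancel₀ two_ne_zero, one_smul]
  have hxx : inner ℂ x x = (1 : ℂ) := by
    rw [inner_self_eq_norm_sq_to_K, hx]; simp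
  have hnn : inner ℂ (T y) (T y) = ((‖T y‖ ^ 2 : ℝ) : ℂ) := by
    rw [inner_self_eq_norm_sq_to_K]; simp
  have h2i : (2⁻¹ : ℂ) = ((2⁻¹ : ℝ) : ℂ) := by push_cast; rfl
  have hc : ∀ w, Γ1 (T w) = T (Γ1 w) := fun w =>
    (congrArg (fun S : H →L[ℂ] H => S w) c1).symm
  have hc2 : ∀ w, Γ2 (T w) = T (Γ2 w) := fun w =>
    (congrArg (fun S : H →L[ℂ] H => S w) c2).symm
  have hxy : inner ℂ x (Γ1 y) = (2⁻¹ : ℂ) * inner ℂ x ((T ^ 1) (Γ1 x)) := by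
    rw [hyx, map_smul, inner_smul_right, hc, pow_one]
  have e1 : ‖((-t : ℝ) : ℂ) • T y‖ ^ 2 = t ^ 2 * ‖T y‖ ^ 2 := by
    rw [norm_smul, Complex.norm_real, Real.norm_eq_abs, mul_pow, sq_abs, neg_sq]
  have e2 : (inner ℂ y ((((m : ℂ) • T) ^ 1) (-x))).re = -(2 * m) := by
    rw [pow_one, _root_.smul_apply, inner_smul_right, hyT, inner_neg_right, hxx,
      Complex.re_ofReal_mul]
    simp
    ring
  have e3 : (inner ℂ (-x) (Γ1 y)).re = -((inner ℂ x ((T ^ 1) (Γ1 x))).re / 2) := by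
    rw [inner_neg_left, hxy, h2i, Complex.neg_re, Complex.re_ofReal_mul]
    ring
  have e4 : (inner ℂ (((-t : ℝ) : ℂ) • T y) ((((m : ℂ) • T) ^ (1 + 1)) (-x))).re =
      2 * t * m ^ 2 * ‖T y‖ ^ 2 := by
    have h1 : (T ^ (1 + 1)) (-x) = (-2 : ℂ) • T y := by
      rw [pow_succ, pow_one, mul_apply_eq_comp, map_neg, hTx, map_neg, map_smul,
        neg_smul]
    rw [_root_.smul_pow, _root_.smul_apply, h1, inner_smul_left, inner_smul_right,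
      inner_smul_right, hnn, Complex.conj_ofReal]
    have h3 : (-2 : ℂ) = ((-2 : ℝ) : ℂ) := by push_cast; rfl
    rw [h3, ← Complex.ofReal_pow, ← Complex.ofReal_mul, ← Complex.ofReal_mul,
      ← Complex.ofReal_mul, Complex.ofReal_re]
    ring
  have e5 : (inner ℂ (-x) (Γ2 (((-t : ℝ) : ℂ) • T y))).re =
      t * (inner ℂ x ((T ^ 2) (Γ2 x))).re / 2 := by
    have h1 : Γ2 (T y) = (2⁻¹ : ℂ) • (T ^ 2) (Γ2 x) := by
      rw [hyx, map_smul, map_smul, hc2, hc2, pow_two, mul_apply_eq_comp]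
    rw [map_smul, h1, inner_neg_left, inner_smul_right, inner_smul_right, h2i, Complex.neg_re,
      Complex.re_ofReal_mul, Complex.re_ofReal_mul]
    ring
  have e6 : (inner ℂ (((-t : ℝ) : ℂ) • T y) (((m : ℂ) • T) y)).re = -(t * m * ‖T y‖ ^ 2) := by
    rw [_root_.smul_apply, inner_smul_left, inner_smul_right, hnn,
      Complex.conj_ofReal, ← Complex.ofReal_mul, ← Complex.ofReal_mul, Complex.ofReal_re]
    ring
  have e7 : (inner ℂ y (Γ1 (((-t : ℝ) : ℂ) • T y))).re =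
      -(t * (inner ℂ x ((T ^ 1) (Γ1 x))).re) := by
    rw [map_smul, inner_smul_right, hc, hyT, hxy]
    have h3 : (2 : ℂ) * (2⁻¹ * inner ℂ x ((T ^ 1) (Γ1 x))) = inner ℂ x ((T ^ 1) (Γ1 x)) := by
      rw [← mul_assoc, mul_inv_cancel₀ two_ne_zero, one_mul]
    rw [h3, Complex.re_ofReal_mul]
    ring
  rw [e1, norm_neg, hx, hy, e2, e3, e4, e5, e6, e7] at h
  linarith

end alg

section dat

variable [CompleteSpace H] {A : H →L[ℂ] H} {L : ℝ} {s : ℝ → ℂ} {ρ : ℝ → ℝ} {Y : ℝ → H →L[ℂ] H}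

theorem norm_Y (h : Datum A L s ρ Y) {K : ℝ} (hK : 0 < K)
    (hu : ∀ φ (u : H), ‖u‖ ≤ K * ‖s φ • u - A u‖) (φ : ℝ) : ‖Y φ‖ ≤ K * ρ φ := by
  refine ContinuousLinearMap.opNorm_le_bound _ (mul_nonneg hK.le (h.r0 φ)) fun u => ?_
  have h1 := hu φ (Y φ u)
  rw [h.eq φ u, norm_smul, norm_mul, Complex.norm_exp_ofReal_mul_I, mul_one, Complex.norm_real,
    Real.norm_eq_abs, abs_of_nonneg (h.r0 φ), ← mul_assoc] at h1
  exact h1

theorem norm_Gm (h : Datum A L s ρ Y) {K : ℝ} (hK : 0 < K)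
    (hu : ∀ φ (u : H), ‖u‖ ≤ K * ‖s φ • u - A u‖) (F : ℝ → ℂ)
    (hg : ∀ φ, ‖F φ‖ ≤ 1) (k : ℕ) : ‖Gm Y F k‖ ≤ (2 * Real.pi)⁻¹ * (K * L) := by
  have hpi := Real.pi_pos
  rw [Gm, Gam, norm_smul, norm_inv, Complex.norm_real, Real.norm_eq_abs,
    abs_of_pos (by positivity : (0 : ℝ) < 2 * Real.pi)]
  gcongr
  have h1 : ‖∫ φ in (0 : ℝ)..(2 * Real.pi), ((starRingEnd ℂ) (F φ) ^ k) • Y φ‖ ≤
      ∫ φ in (0 : ℝ)..(2 * Real.pi), K * ρ φ := by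
    refine intervalIntegral.norm_integral_le_of_norm_le (by positivity) ?_
      ((h.rc.const_mul K).intervalIntegrable _ _)
    refine Eventually.of_forall fun φ _ => ?_
    rw [norm_smul, norm_pow, RCLike.norm_conj]
    calc ‖F φ‖ ^ k * ‖Y φ‖ ≤ 1 * (K * ρ φ) := by
          gcongr
          · exact pow_le_one₀ (norm_nonneg _) (hg φ)
          · exact norm_Y h hK hu φ
      _ = K * ρ φ := one_mul _
  refine h1.trans ?_
  rw [intervalIntegral.integral_const_mul]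
  exact mul_le_mul_of_nonneg_left h.mass hK.le

theorem comm_Gm (h : Datum A L s ρ Y) (F : ℝ → ℂ) (hF : Continuous F) (k : ℕ) (T : H →L[ℂ] H)
    (hT : ∀ φ, T * Y φ = Y φ * T) : T * Gm Y F k = Gm Y F k * T := by
  have hint : IntervalIntegrable
      (fun φ => ((starRingEnd ℂ) (F φ) ^ k) • Y φ) volume 0 (2 * Real.pi) :=
    (((Complex.continuous_conj.comp hF).pow k).smul h.Yc).intervalIntegrable _ _
  have h1 := (ContinuousLinearMap.mul ℂ (H →L[ℂ] H) T).intervalIntegral_comp_comm hint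
  have h2 := ((ContinuousLinearMap.mul ℂ (H →L[ℂ] H)).flip T).intervalIntegral_comp_comm hint
  simp only [ContinuousLinearMap.mul_apply', ContinuousLinearMap.flip_apply, mul_smul_comm,
    smul_mul_assoc] at h1 h2
  rw [Gm, Gam, mul_smul_comm, smul_mul_assoc]
  show _ • (T * ∫ φ in (0 : ℝ)..(2 * Real.pi), ((starRingEnd ℂ) (F φ) ^ k) • Y φ) =
    _ • ((∫ φ in (0 : ℝ)..(2 * Real.pi), ((starRingEnd ℂ) (F φ) ^ k) • Y φ) * T)
  rw [← h1, ← h2]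
  congr 1
  refine intervalIntegral.integral_congr fun φ _ => ?_
  simp only [hT φ]

end dat

section ultra

variable [CompleteSpace H]

theorem adj_pow (T : H →L[ℂ] H) (x : H) (k : ℕ) (u : H) :
    inner ℂ (((ContinuousLinearMap.adjoint T) ^ k) x) u = inner ℂ x ((T ^ k) u) := by
  induction k generalizing u with
  | zero => simp
  | succ n ih =>
    rw [pow_succ', mul_apply_eq_comp, ContinuousLinearMap.adjoint_inner_left, ih, pow_succ,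
      mul_apply_eq_comp]

theorem hA_cont {A : H →L[ℂ] H} {p : ℂ[X]} {ε : ℂ} {T : H →L[ℂ] H} {L K : ℝ} {s : ℕ → ℝ → ℂ} {ρ : ℕ → ℝ → ℝ}
    {Y : ℕ → ℝ → H →L[ℂ] H} {M₀ M : ℕ → ℝ} (hε : ‖ε‖ < 1) (hA : ApproxM A p ε T L K s ρ Y M₀ M) (j : ℕ) :
    Continuous (Fj ε p (M j) (s j)) := by
  apply Fj_cont _ _ _ _ (hA.ap.dat j).sc
  intro φ
  have h1 := hA.eM j
  have h2 : ‖ε‖ * ‖p.eval (s j φ)‖ ≤ ‖ε‖ * M₀ j := mul_le_mul_of_nonneg_left (hA.ap.fb j φ) (norm_nonneg _)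
  linarith

theorem hA_int {A : H →L[ℂ] H} {p : ℂ[X]} {ε : ℂ} {T : H →L[ℂ] H} {L K : ℝ} {s : ℕ → ℝ → ℂ} {ρ : ℕ → ℝ → ℝ}
    {Y : ℕ → ℝ → H →L[ℂ] H} {M₀ M : ℕ → ℝ} (hA : ApproxM A p ε T L K s ρ Y M₀ M) (j k : ℕ) :
    ∫ φ in (0 : ℝ)..(2 * Real.pi), (mo ε (p.eval (s j φ))) ^ k • Y j φ =
      ((2 * Real.pi : ℝ) : ℂ) • T ^ k := by
  have h := hA.Fi j k 1
  simpa using h

/-- the main argument along an ultrafilter -/
theorem main_ultra (hT : S_TOEPF) (hR : S_REC)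
    (A : H →L[ℂ] H) (p : ℂ[X]) (ε : ℂ) (T : H →L[ℂ] H) (L K : ℝ) (s : ℕ → ℝ → ℂ) (ρ : ℕ → ℝ → ℝ)
    (Y : ℕ → ℝ → H →L[ℂ] H) (M₀ M : ℕ → ℝ) (hε : ‖ε‖ < 1) (hA : ApproxM A p ε T L K s ρ Y M₀ M)
    (hpow : Tendsto (fun k : ℕ => ‖T ^ k‖) atTop (𝓝 0))
    (x y : H) (hx : ‖x‖ = 1) (hy : ‖y‖ = 1) (hTx : T x = (2 : ℂ) • y)
    (hyT : ∀ u : H, inner ℂ y (T u) = 2 * inner ℂ x u)
    (U : Ultrafilter ℕ) (hU : (U : Filter ℕ) ≤ atTop) :
    (∀ u : H, inner ℂ x (T u) = (0 : ℂ)) ∧ T y = 0 ∧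
    Tendsto (fun j => (inner ℂ x ((T ^ 1) (Gm (Y j) (Fj ε p (M j) (s j)) 1 x))).re)
      U (𝓝 0) := by
  set Γ : ℕ → ℕ → H →L[ℂ] H := fun j k => Gm (Y j) (Fj ε p (M j) (s j)) k with hΓ
  set γ : ℕ → ℕ → ℝ := fun j k => (inner ℂ x ((T ^ k) (Γ j k x))).re with hγ
  set B : ℝ := (2 * Real.pi)⁻¹ * (K * L) with hB
  have hB0 : 0 ≤ B := by
    have := Real.pi_pos
    have := hA.ap.C0
    have := hA.ap.L0
    positivity
  have hg1 : ∀ j φ, ‖Fj ε p (M j) (s j) φ‖ ≤ 1 := fun j φ =>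
    Fj_norm ε p (M j) (s j) (hA.M1 j) φ (hA.Fb j φ)
  have hFc : ∀ j, Continuous (Fj ε p (M j) (s j)) := fun j => hA_cont hε hA j
  have hΓn : ∀ j k, ‖Γ j k‖ ≤ B := fun j k =>
    norm_Gm (hA.ap.dat j) hA.ap.C0 (hA.ap.ub j) _ (hg1 j) k
  have hΓc : ∀ j k, T * Γ j k = Γ j k * T := fun j k => comm_Gm (hA.ap.dat j) _ (hFc j) k T (hA.comm j)
  have hγb : ∀ j k, |γ j k| ≤ ‖T ^ k‖ * B := by
    intro j k
    calc |γ j k| ≤ ‖inner ℂ x ((T ^ k) (Γ j k x))‖ := Complex.abs_re_le_norm _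
      _ ≤ ‖x‖ * ‖(T ^ k) (Γ j k x)‖ := norm_inner_le_norm _ _
      _ ≤ ‖x‖ * (‖T ^ k‖ * (‖Γ j k‖ * ‖x‖)) := by
          gcongr
          exact ((T ^ k).le_opNorm _).trans (by gcongr; exact (Γ j k).le_opNorm _)
      _ ≤ ‖T ^ k‖ * B := by
          rw [hx]
          simp only [one_mul, mul_one]
          gcongr
          exact hΓn j k
  have hlim : ∀ k, ∃ l : ℝ, |l| ≤ ‖T ^ k‖ * B ∧ Tendsto (fun j => γ j k) U (𝓝 l) := by
    intro k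
    have hc : IsCompact (Icc (-(‖T ^ k‖ * B)) (‖T ^ k‖ * B)) := isCompact_Icc
    obtain ⟨l, hl, hl2⟩ := hc.ultrafilter_le_nhds (U.map fun j => γ j k) (by
      rw [le_principal_iff]
      show (fun j => γ j k) ⁻¹' _ ∈ (U : Filter ℕ)
      refine Filter.univ_mem' fun j => ?_
      exact abs_le.1 (hγb j k))
    exact ⟨l, abs_le.2 hl, hl2⟩
  choose g hgb hgl using hlim
  have hg0 : Tendsto g atTop (𝓝 0) := by
    have h1 : Tendsto (fun k => ‖T ^ k‖ * B) atTop (𝓝 0) := by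
      have := hpow.mul_const B
      rwa [zero_mul] at this
    exact squeeze_zero_norm (fun k => by rw [Real.norm_eq_abs]; exact hgb k) h1
  have hMinv : Tendsto (fun j => (M j)⁻¹) U (𝓝 1) := by
    have h1 := (hA.Mt.mono_left hU).inv₀ one_ne_zero
    rwa [inv_one] at h1
  have hG1 : ∀ j, Gam (Y j) (fun φ => (starRingEnd ℂ) (Fj ε p (M j) (s j) φ)) = Γ j 1 := by
    intro j
    simp only [hΓ, Gm, pow_one]
  -- the hypothesis of the recursion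
  set ν : ℕ → ℝ := fun k => ‖((ContinuousLinearMap.adjoint T) ^ k) x‖ ^ 2 with hν
  have hrec := hR g ν (fun k => by positivity) hg0 (by
    intro k hk t
    have h1 : ∀ j, 0 ≤ t ^ 2 * ν k + 2 + t * (((M j)⁻¹) ^ k * ν k + γ j k)
        - t * (2 * ((M j)⁻¹) ^ (k + 1) * ν k + γ j (k + 1) / 2) - 2 * (M j)⁻¹ - γ j 1 / 2 := by
      intro j
      have h2 := hT H A L (s j) (ρ j) (Y j) (hA.ap.dat j) (Fj ε p (M j) (s j)) ((((M j)⁻¹ : ℝ) : ℂ) • T)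
        (hFc j) (hg1 j) (fun k => Fj_int ε p (M j) (s j) (Y j) T k (hA_int hA j k)) k
        (((-t : ℝ) : ℂ) • ((ContinuousLinearMap.adjoint T) ^ k) x) (-x) y
      rw [hG1 j] at h2
      exact ineq1 T (Γ j 1) (Γ j k) (Γ j (k + 1)) x y _ k ((M j)⁻¹) t hx hy hTx hyT
        (fun u => adj_pow T x k u) (hΓc j 1) (hΓc j (k + 1)) h2
    have h3 : Tendsto (fun j => t ^ 2 * ν k + 2 + t * (((M j)⁻¹) ^ k * ν k + γ j k)
        - t * (2 * ((M j)⁻¹) ^ (k + 1) * ν k + γ j (k + 1) / 2) - 2 * (M j)⁻¹ - γ j 1 / 2) U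
        (𝓝 (t ^ 2 * ν k + 2 + t * (1 ^ k * ν k + g k)
          - t * (2 * 1 ^ (k + 1) * ν k + g (k + 1) / 2) - 2 * 1 - g 1 / 2)) := by
      refine Tendsto.sub (Tendsto.sub (Tendsto.sub (Tendsto.add tendsto_const_nhds ?_) ?_) ?_) ?_
      · exact (((hMinv.pow k).mul_const _).add (hgl k)).const_mul t
      · exact ((((hMinv.pow (k + 1)).const_mul 2).mul_const _).add ((hgl (k + 1)).div_const 2)).const_mul t
      · exact hMinv.const_mul 2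
      · exact (hgl 1).div_const 2
    have h4 := ge_of_tendsto' h3 h1
    simp only [one_pow] at h4
    linarith)
  obtain ⟨hg1', hg2', hν1⟩ := hrec
  have hadj : (ContinuousLinearMap.adjoint T) x = 0 := by
    have h1 : ‖((ContinuousLinearMap.adjoint T) ^ 1) x‖ ^ 2 = 0 := hν1
    rw [pow_one] at h1
    exact norm_eq_zero.1 (pow_eq_zero_iff two_ne_zero |>.1 h1)
  refine ⟨?_, ?_, ?_⟩
  · intro u
    rw [← ContinuousLinearMap.adjoint_inner_left, hadj, inner_zero_left]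
  · -- the second inequality with `t = -1/2`
    have h1 : ∀ j, 0 ≤ (-(1 / 2)) ^ 2 * ‖T y‖ ^ 2 + 2 - 2 * (M j)⁻¹ - γ j 1 / 2
      + 2 * (-(1 / 2)) * ((M j)⁻¹) ^ 2 * ‖T y‖ ^ 2 + (-(1 / 2)) * γ j 2 / 2
      - (-(1 / 2)) * (M j)⁻¹ * ‖T y‖ ^ 2 - (-(1 / 2)) * γ j 1 := by
      intro j
      have h2 := hT H A L (s j) (ρ j) (Y j) (hA.ap.dat j) (Fj ε p (M j) (s j)) ((((M j)⁻¹ : ℝ) : ℂ) • T)
        (hFc j) (hg1 j) (fun k => Fj_int ε p (M j) (s j) (Y j) T k (hA_int hA j k)) 1 (-x) y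
        (((-(-(1 / 2)) : ℝ) : ℂ) • T y)
      rw [hG1 j] at h2
      exact ineq2 T (Γ j 1) x y (Γ j 2) ((M j)⁻¹) (-(1 / 2)) hx hy hTx hyT (hΓc j 1) (hΓc j 2) h2
    have h3 : Tendsto (fun j => (-(1 / 2)) ^ 2 * ‖T y‖ ^ 2 + 2 - 2 * (M j)⁻¹ - γ j 1 / 2
      + 2 * (-(1 / 2)) * ((M j)⁻¹) ^ 2 * ‖T y‖ ^ 2 + (-(1 / 2)) * γ j 2 / 2
      - (-(1 / 2)) * (M j)⁻¹ * ‖T y‖ ^ 2 - (-(1 / 2)) * γ j 1) U
        (𝓝 ((-(1 / 2)) ^ 2 * ‖T y‖ ^ 2 + 2 - 2 * 1 - g 1 / 2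
      + 2 * (-(1 / 2)) * 1 ^ 2 * ‖T y‖ ^ 2 + (-(1 / 2)) * g 2 / 2
      - (-(1 / 2)) * 1 * ‖T y‖ ^ 2 - (-(1 / 2)) * g 1)) := by
      refine Tendsto.sub (Tendsto.sub (Tendsto.add (Tendsto.add (Tendsto.sub
        (Tendsto.sub tendsto_const_nhds ?_) ?_) ?_) ?_) ?_) ?_
      · exact hMinv.const_mul 2
      · exact (hgl 1).div_const 2
      · exact ((hMinv.pow 2).const_mul _).mul_const _
      · exact ((hgl 2).const_mul _).div_const 2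
      · exact (hMinv.const_mul _).mul_const _
      · exact (hgl 1).const_mul _
    have h4 := ge_of_tendsto' h3 h1
    rw [hg1', hg2'] at h4
    have h5 : ‖T y‖ ^ 2 = 0 := le_antisymm (by linarith) (by positivity)
    exact norm_eq_zero.1 (pow_eq_zero_iff two_ne_zero |>.1 h5)
  · have h1 := hgl 1
    rw [hg1'] at h1
    exact h1

end ultra

end

end KERF

theorem t_KERF (hT : S_TOEPF) (hM : S_MEANF) (hR : S_REC) : S_KERF := by
  intro H _ _ _ A p ε T L K s ρ Y M₀ M hε hA hpow x y hx hy hTx hyT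
  have hmain := KERF.main_ultra hT hR A p ε T L K s ρ Y M₀ M hε hA hpow x y hx hy hTx hyT
  obtain ⟨h1, h2, -⟩ := hmain (Ultrafilter.of atTop) (Ultrafilter.of_le atTop)
  refine ⟨h1, h2, ?_⟩
  have hmean : ∀ j, mean (fun φ =>
      (inner ℂ (y - (((M j)⁻¹ : ℝ) * mo ε (p.eval (s j φ)) : ℂ) • x)
        (Y j φ (y - (((M j)⁻¹ : ℝ) * mo ε (p.eval (s j φ)) : ℂ) • x))).re
      + (1 - ‖(((M j)⁻¹ : ℝ) * mo ε (p.eval (s j φ)) : ℂ)‖ ^ 2) * (inner ℂ x (Y j φ x)).re) =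
      2 - 2 * (M j)⁻¹ -
        (inner ℂ x ((T ^ 1) (KERF.Gm (Y j) (KERF.Fj ε p (M j) (s j)) 1 x))).re / 2 := by
    intro j
    have hi : ∫ φ in (0 : ℝ)..(2 * Real.pi), KERF.Fj ε p (M j) (s j) φ • Y j φ =
        ((2 * Real.pi : ℝ) : ℂ) • ((((M j)⁻¹ : ℝ) : ℂ) • T) := by
      have := KERF.Fj_int ε p (M j) (s j) (Y j) T 1 (KERF.hA_int hA j 1)
      simpa only [pow_one] using this
    have h3 := hM H A L (s j) (ρ j) (Y j) (hA.ap.dat j) (KERF.Fj ε p (M j) (s j)) ((((M j)⁻¹ : ℝ) : ℂ) • T)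
      (KERF.hA_cont hε hA j) hi x y
    simp only [KERF.Fj] at h3
    rw [h3, hx, hy]
    have hxx : inner ℂ x x = (1 : ℂ) := by
      rw [inner_self_eq_norm_sq_to_K, hx]; simp
    have e1 : (inner ℂ y (((((M j)⁻¹ : ℝ) : ℂ) • T : H →L[ℂ] H) x)).re = 2 * (M j)⁻¹ := by
      rw [_root_.smul_apply, inner_smul_right, hyT, hxx, Complex.re_ofReal_mul]
      simp
      ring
    have hyx : y = (2⁻¹ : ℂ) • T x := by
      rw [hTx, smul_smul, inv_mul_cancel₀ two_ne_zero, one_smul]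
    have hG : Gam (Y j) (fun φ => (starRingEnd ℂ) ((((M j)⁻¹ : ℝ) : ℂ) * mo ε (p.eval (s j φ)))) =
        KERF.Gm (Y j) (KERF.Fj ε p (M j) (s j)) 1 := by
      simp only [KERF.Gm, pow_one, KERF.Fj]
    have hc := KERF.comm_Gm (hA.ap.dat j) (KERF.Fj ε p (M j) (s j)) (KERF.hA_cont hε hA j) 1 T (hA.comm j)
    have e2 : (inner ℂ x (Gam (Y j)
        (fun φ => (starRingEnd ℂ) ((((M j)⁻¹ : ℝ) : ℂ) * mo ε (p.eval (s j φ)))) y)).re =
        (inner ℂ x ((T ^ 1) (KERF.Gm (Y j) (KERF.Fj ε p (M j) (s j)) 1 x))).re / 2 := by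
      rw [hG, hyx, map_smul, inner_smul_right]
      have h0 := KERF.inner_pow_comm (k := 0) _ _ hc x x
      rw [pow_zero, zero_add, one_apply_eq_self] at h0
      rw [h0]
      have h1 : (2⁻¹ : ℂ) = ((2⁻¹ : ℝ) : ℂ) := by push_cast; rfl
      rw [h1, Complex.re_ofReal_mul]
      ring
    rw [e1, e2]
    ring
  simp only [hmean]
  rw [tendsto_iff_ultrafilter]
  intro U hU
  obtain ⟨-, -, h3⟩ := hmain U hU
  have hMinv : Tendsto (fun j => (M j)⁻¹) U (𝓝 1) := by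
    have h1 := (hA.Mt.mono_left hU).inv₀ one_ne_zero
    rwa [inv_one] at h1
  have h4 := ((tendsto_const_nhds (x := (2 : ℝ))).sub (hMinv.const_mul 2)).sub (h3.div_const 2)
  have h5 : (2 : ℝ) - 2 * 1 - 0 / 2 = 0 := by norm_num
  rwa [h5] at h4

end Pool.Agent.H243.CE
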