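import Pool.Agent.H243.CE.Stmt3

/-!
# CE41: existence of the Moebius image and its norm (helper643)
-/

set_option autoImplicit false

open MeasureTheory Set Filter Topology Polynomial

namespace Pool.Agent.H243.CE

namespace NORMT

open Q82.QR

lemma Bp_bd {ε : ℂ} (hε : ‖ε‖ < 1) (N : ℕ) {w : ℂ} (hw : ‖w‖ ≤ 1) :
    ‖(Bp ε N).eval w‖ ≤ 1 + ‖ε‖ ^ N / (1 - ‖ε‖) := by
  have h := congrArg (eval w) (Bp_mul ε N)
  simp only [eval_mul, eval_sub, eval_one, eval_C, eval_X, eval_pow] at h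
  set D : ℂ := 1 - (starRingEnd ℂ) ε * w with hD
  have h1e : 0 < 1 - ‖ε‖ := by linarith
  have hDn : 1 - ‖ε‖ ≤ ‖D‖ := by
    have h1 : ‖(1 : ℂ)‖ - ‖(starRingEnd ℂ) ε * w‖ ≤ ‖D‖ := norm_sub_norm_le _ _
    have h2 : ‖(starRingEnd ℂ) ε * w‖ ≤ ‖ε‖ * 1 := by
      rw [norm_mul, RCLike.norm_conj]
      exact mul_le_mul_of_nonneg_left hw (norm_nonneg _)
    rw [norm_one] at h1
    linarith
  have hD0 : 0 < ‖D‖ := by linarith
  have h1 : ‖w - ε‖ ≤ ‖D‖ := by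
    apply abs_le_of_sq_le_sq' _ (norm_nonneg _) |>.2
    have e1 : ‖w - ε‖ ^ 2 = Complex.normSq (w - ε) := (Complex.normSq_eq_norm_sq _).symm
    have e2 : ‖D‖ ^ 2 = Complex.normSq D := (Complex.normSq_eq_norm_sq _).symm
    have e3 : ‖ε‖ ^ 2 = Complex.normSq ε := (Complex.normSq_eq_norm_sq _).symm
    have e4 : ‖w‖ ^ 2 = Complex.normSq w := (Complex.normSq_eq_norm_sq _).symm
    have h5 : Complex.normSq D - Complex.normSq (w - ε) =
        (1 - Complex.normSq ε) * (1 - Complex.normSq w) := by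
      rw [hD]
      simp only [Complex.normSq_apply, Complex.sub_re, Complex.sub_im, Complex.mul_re,
        Complex.mul_im, Complex.conj_re, Complex.conj_im, Complex.one_re, Complex.one_im]
      ring
    have h6 : 0 ≤ 1 - Complex.normSq ε := by rw [← e3]; nlinarith [norm_nonneg ε]
    have h7 : 0 ≤ 1 - Complex.normSq w := by rw [← e4]; nlinarith [norm_nonneg w]
    rw [e1, e2]
    nlinarith [mul_nonneg h6 h7]
  have h2 : ‖((1 - ‖ε‖ ^ 2 : ℝ) : ℂ) * (starRingEnd ℂ) ε ^ N * w ^ (N + 1)‖ ≤ ‖ε‖ ^ N := by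
    rw [norm_mul, norm_mul, norm_pow, norm_pow, RCLike.norm_conj, Complex.norm_real]
    have e1 : ‖(1 - ‖ε‖ ^ 2 : ℝ)‖ ≤ 1 := by
      rw [Real.norm_eq_abs, abs_le]
      constructor <;> nlinarith [norm_nonneg ε]
    have e3 : ‖w‖ ^ (N + 1) ≤ 1 := pow_le_one₀ (norm_nonneg _) hw
    calc ‖(1 - ‖ε‖ ^ 2 : ℝ)‖ * ‖ε‖ ^ N * ‖w‖ ^ (N + 1) ≤ 1 * ‖ε‖ ^ N * 1 := by gcongr
      _ = ‖ε‖ ^ N := by ring
  have h3 : ‖(Bp ε N).eval w‖ * ‖D‖ ≤ ‖D‖ + ‖ε‖ ^ N := by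
    rw [← norm_mul, h]
    exact (norm_sub_le _ _).trans (add_le_add h1 h2)
  have h5 : ‖ε‖ ^ N ≤ ‖ε‖ ^ N / (1 - ‖ε‖) * ‖D‖ := by
    rw [div_mul_eq_mul_div, le_div_iff₀ h1e]
    exact mul_le_mul_of_nonneg_left hDn (by positivity)
  have h6 : ‖(Bp ε N).eval w‖ * ‖D‖ ≤ (1 + ‖ε‖ ^ N / (1 - ‖ε‖)) * ‖D‖ := by
    linarith
  exact le_of_mul_le_mul_right h6 hD0

end NORMT

open NORMT Q82.QR in
theorem t_NORMT : S_NORMT := by
  intro H _ _ _ _ A p ε hp hε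
  have : CompleteSpace H := FiniteDimensional.complete ℂ H
  set P : H →L[ℂ] H := aeval A p with hP
  -- the powers
  have hpow : ∀ m : ℕ, ‖P ^ m‖ ≤ 2 := by
    intro m
    have h1 := Pool.Agent.W753.CZ.crouzeix_bound A (p ^ m) 1 (by
      intro w hw
      rw [eval_pow, norm_pow]
      exact pow_le_one₀ (norm_nonneg _) (hp w hw))
    rw [map_pow, ← hP, mul_one] at h1
    exact h1
  set B : H →L[ℂ] H := (starRingEnd ℂ) ε • P with hB
  have hBn : ∀ m : ℕ, ‖B ^ m‖ ≤ 2 * ‖ε‖ ^ m := by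
    intro m
    rw [hB, _root_.smul_pow, norm_smul, norm_pow, RCLike.norm_conj, mul_comm]
    exact mul_le_mul_of_nonneg_right (hpow m) (by positivity)
  have hsum : Summable fun m : ℕ => B ^ m :=
    Summable.of_norm_bounded ((summable_geometric_of_lt_one (norm_nonneg ε) hε).mul_left 2) hBn
  set Q : H →L[ℂ] H := ∑' m : ℕ, B ^ m with hQ
  have e0 : Q = 1 + ∑' m : ℕ, B ^ (m + 1) := by
    rw [hQ, hsum.tsum_eq_zero_add, pow_zero]
  have e1 : Q = 1 + Q * B := by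
    have h1 : ∑' m : ℕ, B ^ (m + 1) = Q * B := by
      rw [hQ, ← hsum.tsum_mul_right]
      simp only [pow_succ]
    rw [← h1]
    exact e0
  have e2 : Q = 1 + B * Q := by
    have h1 : ∑' m : ℕ, B ^ (m + 1) = B * Q := by
      rw [hQ, ← hsum.tsum_mul_left]
      simp only [pow_succ']
    rw [← h1]
    exact e0
  have hq1 : Q * (1 - B) = 1 := by
    rw [mul_sub, mul_one, sub_eq_iff_eq_add]
    exact e1
  have hq2 : (1 - B) * Q = 1 := by
    rw [sub_mul, one_mul, sub_eq_iff_eq_add]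
    exact e2
  refine ⟨(P - ε • (1 : H →L[ℂ] H)) * Q, Q, ⟨hε, hq1, hq2, rfl⟩, ?_⟩
  -- the approximation
  have hlim : ∀ N : ℕ, ‖(P - ε • (1 : H →L[ℂ] H)) * Q‖ ≤
      2 * (1 + ‖ε‖ ^ N / (1 - ‖ε‖)) + ‖ε‖ ^ N * (2 * ‖Q‖) := by
    intro N
    set c : ℂ := ((1 - ‖ε‖ ^ 2 : ℝ) : ℂ) * (starRingEnd ℂ) ε ^ N with hc
    have hcn : ‖c‖ ≤ ‖ε‖ ^ N := by
      rw [hc, norm_mul, norm_pow, RCLike.norm_conj, Complex.norm_real]
      have e1 : ‖(1 - ‖ε‖ ^ 2 : ℝ)‖ ≤ 1 := by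
        rw [Real.norm_eq_abs, abs_le]
        constructor <;> nlinarith [norm_nonneg ε]
      calc ‖(1 - ‖ε‖ ^ 2 : ℝ)‖ * ‖ε‖ ^ N ≤ 1 * ‖ε‖ ^ N := by gcongr
        _ = ‖ε‖ ^ N := one_mul _
    have h1 := Pool.Agent.W753.CZ.crouzeix_bound A ((Bp ε N).comp p)
      (1 + ‖ε‖ ^ N / (1 - ‖ε‖)) (by
        intro w hw
        rw [eval_comp]
        exact Bp_bd hε N (hp w hw))
    rw [aeval_comp, ← hP] at h1
    have h2 : aeval P (Bp ε N) * (1 - B) = P - ε • (1 : H →L[ℂ] H) - c • P ^ (N + 1) := by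
      have e3 : (1 : H →L[ℂ] H) - B = aeval P (1 - C ((starRingEnd ℂ) ε) * X) := by
        rw [map_sub, map_mul, map_one, aeval_C, aeval_X, ← Algebra.smul_def]
      rw [e3, ← map_mul, Bp_mul, map_sub, map_sub, map_mul, aeval_X, aeval_C, aeval_C, map_pow,
        aeval_X, ← Algebra.smul_def, ← hc, Algebra.algebraMap_eq_smul_one]
    have h3 : (P - ε • (1 : H →L[ℂ] H)) * Q = aeval P (Bp ε N) + c • (P ^ (N + 1) * Q) := by
      have h4 := congrArg (fun Z => Z * Q) h2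
      simp only [mul_assoc, hq2, mul_one, sub_mul (P - ε • (1 : H →L[ℂ] H)), smul_mul_assoc] at h4
      rw [h4, sub_add_cancel]
    rw [h3]
    refine (norm_add_le _ _).trans (add_le_add h1 ?_)
    rw [norm_smul]
    refine mul_le_mul hcn ?_ (norm_nonneg _) (by positivity)
    exact (norm_mul_le _ _).trans (mul_le_mul_of_nonneg_right (hpow _) (norm_nonneg _))
  have ht0 : Tendsto (fun N : ℕ => ‖ε‖ ^ N) atTop (𝓝 0) :=
    tendsto_pow_atTop_nhds_zero_of_lt_one (norm_nonneg _) hε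
  have hT : Tendsto (fun N : ℕ => 2 * (1 + ‖ε‖ ^ N / (1 - ‖ε‖)) + ‖ε‖ ^ N * (2 * ‖Q‖)) atTop
      (𝓝 (2 * (1 + 0 / (1 - ‖ε‖)) + 0 * (2 * ‖Q‖))) :=
    (((ht0.div_const _).const_add 1).const_mul 2).add (ht0.mul_const _)
  have hfin := ge_of_tendsto' hT hlim
  simp only [zero_div, add_zero, mul_one, zero_mul] at hfin
  exact hfin

end Pool.Agent.H243.CE
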