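import Pool.Agent.H243.CE.Stmt3

/-!
# CE3-PTF: the pointwise inequality, abstract form
-/

set_option autoImplicit false

open MeasureTheory Set Filter Topology Polynomial

namespace Pool.Agent.H243.CE

namespace PTF

/-- Cauchy–Schwarz for a semidefinite form -/
lemma cs {a c : ℝ} {κ : ℂ} (ha : 0 ≤ a) (hc : 0 ≤ c)
    (h : ∀ z : ℂ, 0 ≤ c + ‖z‖ ^ 2 * a + ((starRingEnd ℂ) z * κ).re) : ‖κ‖ ^ 2 ≤ 4 * a * c := by
  have h1 : ∀ t : ℝ, 0 ≤ (‖κ‖ ^ 2 * a) * (t * t) + (-‖κ‖ ^ 2) * t + c := by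
    intro t
    have h2 := h (-(t : ℂ) * κ)
    have h3 : (starRingEnd ℂ) (-(t : ℂ) * κ) * κ = ((-t * ‖κ‖ ^ 2 : ℝ) : ℂ) := by
      rw [map_mul, map_neg, Complex.conj_ofReal, mul_assoc, ← Complex.normSq_eq_conj_mul_self,
        Complex.normSq_eq_norm_sq]
      push_cast
      ring
    have h4 : ‖-(t : ℂ) * κ‖ ^ 2 = t ^ 2 * ‖κ‖ ^ 2 := by
      rw [norm_mul, norm_neg, Complex.norm_real, mul_pow, Real.norm_eq_abs, sq_abs]
    rw [h3, h4, Complex.ofReal_re] at h2
    nlinarith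
  have h5 := discrim_le_zero h1
  rw [discrim] at h5
  rcases eq_or_lt_of_le (sq_nonneg ‖κ‖) with h6 | h6
  · rw [← h6]
    positivity
  · have h7 : ‖κ‖ ^ 2 * (‖κ‖ ^ 2 - 4 * a * c) ≤ 0 := by nlinarith
    have h8 : ‖κ‖ ^ 2 - 4 * a * c ≤ 0 := by
      by_contra hcon
      push Not at hcon
      have := mul_pos h6 hcon
      linarith
    linarith

end PTF

open PTF in
theorem t_PTF : S_PTF := by
  intro H _ _ _ A L sf ρf Yf hD x y hx hy hxy φ F a₀ b₀ hF ha₀ hb₀
  set s := sf φ with hs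
  set ρ := ρf φ with hρ
  set Y := Yf φ with hY
  set e : ℂ := Complex.exp (-φ * Complex.I) with he
  set e' : ℂ := Complex.exp (φ * Complex.I) with he'
  have hee : e * e' = 1 := by
    rw [he, he', ← Complex.exp_add]
    simp
  have he1 : ‖e‖ = 1 := by
    rw [he]
    have : (-(φ : ℂ) * Complex.I) = ((-φ : ℝ) : ℂ) * Complex.I := by push_cast; ring
    rw [this, Complex.norm_exp_ofReal_mul_I]
  have he1' : ‖e'‖ = 1 := by
    rw [he', Complex.norm_exp_ofReal_mul_I]
  have hconj : (starRingEnd ℂ) e = e' := by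
    rw [he, he', ← Complex.exp_conj]
    simp
  have hxx : inner ℂ x x = (1 : ℂ) := by
    rw [inner_self_eq_norm_sq_to_K, hx]; norm_num
  have hyy : inner ℂ y y = (1 : ℂ) := by
    rw [inner_self_eq_norm_sq_to_K, hy]; norm_num
  have hyx : inner ℂ y x = (0 : ℂ) := by
    rw [← inner_conj_symm, hxy, map_zero]
  set w : H := y - F • x with hw
  set P : H := a₀ + F • b₀ with hP
  -- the equation of `P`
  have hSP : s • P - A P = -F • w := by
    have h1 : s • P - A P = (s • a₀ - A a₀) + F • (s • b₀ - A b₀) := by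
      rw [hP, map_add, map_smul]
      module
    rw [h1, ha₀, hb₀, hw]
    module
  -- the form
  let b : H → H → ℂ := fun u v => e * (s * inner ℂ u v - inner ℂ u (A v))
  let q : H → ℝ := fun u => (b u u).re
  have hq0 : ∀ u, 0 ≤ q u := by
    intro u
    have h1 := hD.bpos φ u
    show 0 ≤ (e * (s * inner ℂ u u - inner ℂ u (A u))).re
    rw [inner_self_eq_norm_sq_to_K]
    exact h1
  have hL : ‖s‖ ≤ L := hD.bd φ
  have hqle : ∀ u : H, ‖u‖ = 1 → q u ≤ L + ‖A‖ := by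
    intro u hu
    have h1 : q u ≤ ‖b u u‖ := Complex.re_le_norm _
    have h2 : ‖b u u‖ ≤ L + ‖A‖ := by
      show ‖e * (s * inner ℂ u u - inner ℂ u (A u))‖ ≤ _
      rw [norm_mul, he1, one_mul]
      refine (norm_sub_le _ _).trans ?_
      have h3 : ‖s * inner ℂ u u‖ ≤ L := by
        rw [inner_self_eq_norm_sq_to_K, hu]
        simpa using hL
      have h4 : ‖(inner ℂ u (A u) : ℂ)‖ ≤ ‖A‖ := by
        refine (norm_inner_le_norm _ _).trans ?_
        rw [hu, one_mul]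
        have := A.le_opNorm u
        rwa [hu, mul_one] at this
      exact add_le_add h3 h4
    exact h1.trans h2
  let κ : H → ℂ := fun v => b v P + (starRingEnd ℂ) (b P v)
  have hκ : ∀ v, ‖κ v‖ ^ 2 ≤ 4 * q v * q P := by
    intro v
    apply cs (hq0 v) (hq0 P)
    intro z
    have h1 := hq0 (P + z • v)
    have h2 : b (P + z • v) (P + z • v) =
        b P P + (z * (starRingEnd ℂ) z) * b v v + (z * b P v + (starRingEnd ℂ) z * b v P) := by
      simp only [b]
      rw [map_add, map_smul]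
      simp only [inner_add_left, inner_add_right, inner_smul_left, inner_smul_right]
      ring
    have h3 : (z * b P v).re = ((starRingEnd ℂ) z * (starRingEnd ℂ) (b P v)).re := by
      rw [← map_mul, Complex.conj_re]
    have h4 : q (P + z • v) = q P + ‖z‖ ^ 2 * q v + ((starRingEnd ℂ) z * κ v).re := by
      show (b (P + z • v) (P + z • v)).re = (b P P).re + ‖z‖ ^ 2 * (b v v).re +
        ((starRingEnd ℂ) z * (b v P + (starRingEnd ℂ) (b P v))).re
      rw [h2, Complex.mul_conj, Complex.normSq_eq_norm_sq, Complex.add_re, Complex.add_re,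
        Complex.re_ofReal_mul, Complex.add_re, h3, mul_add, Complex.add_re]
      ring
    rw [← h4]
    exact h1
  -- the value of `κ`
  have hκv : ∀ v, κ v = -e * F * inner ℂ v w + e' * ((starRingEnd ℂ) s * inner ℂ v P - inner ℂ (A v) P) := by
    intro v
    have h1 : b v P = e * inner ℂ v (s • P - A P) := by
      simp only [b]
      rw [inner_sub_right, inner_smul_right]
    have h2 : (starRingEnd ℂ) (b P v) = e' * ((starRingEnd ℂ) s * inner ℂ v P - inner ℂ (A v) P) := by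
      simp only [b]
      rw [map_mul, map_sub, map_mul, hconj, inner_conj_symm, inner_conj_symm]
    show b v P + (starRingEnd ℂ) (b P v) = _
    rw [h1, h2, hSP, inner_smul_right]
    ring
  have hyw : inner ℂ y w = (1 : ℂ) := by
    rw [hw, inner_sub_right, inner_smul_right, hyy, hyx]; ring
  have hxw : inner ℂ x w = -F := by
    rw [hw, inner_sub_right, inner_smul_right, hxx, hxy]; ring
  have hcomb : F * κ y + κ x = e' * ((starRingEnd ℂ) s * (F * (inner ℂ y a₀ + F * inner ℂ y b₀) + (inner ℂ x a₀ + F * inner ℂ x b₀)) - (F * (inner ℂ (A y) a₀ + F * inner ℂ (A y) b₀) + (inner ℂ (A x) a₀ + F * inner ℂ (A x) b₀))) := by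
    rw [hκv, hκv, hyw, hxw]
    have h1 : ∀ u : H, (inner ℂ u P : ℂ) = inner ℂ u a₀ + F * inner ℂ u b₀ := by
      intro u
      rw [hP, inner_add_right, inner_smul_right]
    rw [h1, h1, h1, h1]
    ring
  have hq1 := hqle y hy
  have hq2 := hqle x hx
  have hLA : 0 ≤ L + ‖A‖ := add_nonneg ((norm_nonneg _).trans hL) (norm_nonneg _)
  have hmain : ‖(starRingEnd ℂ) s * (F * (inner ℂ y a₀ + F * inner ℂ y b₀) + (inner ℂ x a₀ + F * inner ℂ x b₀)) - (F * (inner ℂ (A y) a₀ + F * inner ℂ (A y) b₀) + (inner ℂ (A x) a₀ + F * inner ℂ (A x) b₀))‖ ^ 2 ≤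
      40 * (L + ‖A‖) * q P := by
    have h1 : ‖(starRingEnd ℂ) s * (F * (inner ℂ y a₀ + F * inner ℂ y b₀) + (inner ℂ x a₀ + F * inner ℂ x b₀)) - (F * (inner ℂ (A y) a₀ + F * inner ℂ (A y) b₀) + (inner ℂ (A x) a₀ + F * inner ℂ (A x) b₀))‖ = ‖F * κ y + κ x‖ := by
      rw [hcomb, norm_mul, he1', one_mul]
    rw [h1]
    have h2 : ‖F * κ y + κ x‖ ≤ 2 * ‖κ y‖ + ‖κ x‖ := by
      refine (norm_add_le _ _).trans ?_
      rw [norm_mul]
      have := mul_le_mul_of_nonneg_right hF (norm_nonneg (κ y))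
      linarith
    have h3 : ‖F * κ y + κ x‖ ^ 2 ≤ (2 * ‖κ y‖ + ‖κ x‖) ^ 2 :=
      pow_le_pow_left₀ (norm_nonneg _) h2 2
    have h4 : (2 * ‖κ y‖ + ‖κ x‖) ^ 2 ≤ 5 * (‖κ y‖ ^ 2 + ‖κ x‖ ^ 2) := by
      nlinarith [sq_nonneg (‖κ y‖ - 2 * ‖κ x‖)]
    have h5 := hκ y
    have h6 := hκ x
    have h7 : q y * q P ≤ (L + ‖A‖) * q P := mul_le_mul_of_nonneg_right hq1 (hq0 P)
    have h8 : q x * q P ≤ (L + ‖A‖) * q P := mul_le_mul_of_nonneg_right hq2 (hq0 P)
    nlinarith
  -- the value of `ρ q(P)`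
  have hρ0 : 0 ≤ ρ := hD.r0 φ
  have hρP : (ρ : ℂ) • P = -(e * F) • Y w := by
    have h1 : s • Y P - A (Y P) = ((ρ : ℂ) * e') • P := hD.eq φ P
    have h2 : A (Y P) = Y (A P) := by
      have := congrArg (fun B : H →L[ℂ] H => B P) (hD.comm φ)
      exact this
    have h3 : Y (s • P - A P) = ((ρ : ℂ) * e') • P := by
      rw [map_sub, map_smul, ← h2]
      exact h1
    rw [hSP, map_smul] at h3
    have h4 : (ρ : ℂ) • P = e • (((ρ : ℂ) * e') • P) := by
      rw [smul_smul]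
      congr 1
      linear_combination -(ρ : ℂ) * hee
    rw [h4, ← h3, smul_smul]
    congr 1
    ring
  have hρq : ρ * q P = ‖F‖ ^ 2 * (inner ℂ w (Y w)).re := by
    have h1 : ((ρ : ℂ)) * b P P = inner ℂ ((ρ : ℂ) • P) (-(e * F) • w) := by
      have h2 : b P P = e * inner ℂ P (s • P - A P) := by
        simp only [b]
        rw [inner_sub_right, inner_smul_right]
      rw [h2, hSP, inner_smul_left, Complex.conj_ofReal, inner_smul_right, inner_smul_right]
      ring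
    have h3 : ρ * q P = ((ρ : ℂ) * b P P).re := by
      rw [Complex.re_ofReal_mul]
    rw [h3, h1, hρP, inner_smul_left, inner_smul_right]
    have h4 : (starRingEnd ℂ) (-(e * F)) * (-(e * F) * inner ℂ (Y w) w) =
        ((‖F‖ ^ 2 : ℝ) : ℂ) * inner ℂ (Y w) w := by
      rw [← mul_assoc, ← Complex.normSq_eq_conj_mul_self, Complex.normSq_eq_norm_sq, norm_neg,
        norm_mul, he1, one_mul]
    rw [h4, Complex.re_ofReal_mul, ← inner_conj_symm, Complex.conj_re]
  have hpos := hD.pos φ w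
  have hF2 : ‖F‖ ^ 2 ≤ 4 := by nlinarith [norm_nonneg F]
  calc ρ * ‖(starRingEnd ℂ) s * (F * (inner ℂ y a₀ + F * inner ℂ y b₀) + (inner ℂ x a₀ + F * inner ℂ x b₀)) - (F * (inner ℂ (A y) a₀ + F * inner ℂ (A y) b₀) + (inner ℂ (A x) a₀ + F * inner ℂ (A x) b₀))‖ ^ 2
      ≤ ρ * (40 * (L + ‖A‖) * q P) := mul_le_mul_of_nonneg_left hmain hρ0
    _ = 40 * (L + ‖A‖) * (ρ * q P) := by ring
    _ = 40 * (L + ‖A‖) * (‖F‖ ^ 2 * (inner ℂ w (Y w)).re) := by rw [hρq]
    _ ≤ 40 * (L + ‖A‖) * (4 * (inner ℂ w (Y w)).re) := by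
      apply mul_le_mul_of_nonneg_left _ (by positivity)
      exact mul_le_mul_of_nonneg_right hF2 hpos
    _ = 160 * (L + ‖A‖) * (inner ℂ w (Y w)).re := by ring

end Pool.Agent.H243.CE
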