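import Pool.Agent.H243.CE.Stmt3

set_option autoImplicit false

open MeasureTheory Set Filter Topology Polynomial

namespace Pool.Agent.H243.CE

open Pool.Agent.W753.CZ (numRange)

namespace REDF

variable {H : Type} [NormedAddCommGroup H] [InnerProductSpace ℂ H]

/-- powers at an eigenvector -/
theorem pow_eig (A : H →L[ℂ] H) {ζ : ℂ} {v : H} (h : A v = ζ • v) (k : ℕ) :
    (A ^ k) v = ζ ^ k • v := by
  induction k with
  | zero => simp
  | succ k ih =>
    rw [pow_succ, mul_apply_eq_comp, h, map_smul, ih, smul_smul, pow_succ, mul_comm]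

theorem aeval_app (A : H →L[ℂ] H) (f : ℂ[X]) (u : H) :
    (aeval A f) u = ∑ k ∈ Finset.range (f.natDegree + 1), f.coeff k • (A ^ k) u := by
  rw [aeval_eq_sum_range, sum_apply]
  rfl

theorem aeval_eig (A : H →L[ℂ] H) {ζ : ℂ} {v : H} (h : A v = ζ • v) (f : ℂ[X]) :
    (aeval A f) v = f.eval ζ • v := by
  rw [aeval_app, eval_eq_sum_range, Finset.sum_smul]
  refine Finset.sum_congr rfl fun k _ => ?_
  rw [pow_eig A h, smul_smul]

theorem pow_inner (A : H →L[ℂ] H) {ζ : ℂ} {v : H}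
    (h : ∀ u, inner ℂ v (A u) = ζ * inner ℂ v u) (k : ℕ) (u : H) :
    inner ℂ v ((A ^ k) u) = ζ ^ k * inner ℂ v u := by
  induction k generalizing u with
  | zero => simp
  | succ k ih =>
    rw [pow_succ, mul_apply_eq_comp, ih, h, pow_succ]
    ring

theorem aeval_inner (A : H →L[ℂ] H) {ζ : ℂ} {v : H}
    (h : ∀ u, inner ℂ v (A u) = ζ * inner ℂ v u) (f : ℂ[X]) (u : H) :
    inner ℂ v ((aeval A f) u) = f.eval ζ * inner ℂ v u := by
  rw [aeval_app, eval_eq_sum_range, inner_sum, Finset.sum_mul]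
  refine Finset.sum_congr rfl fun k _ => ?_
  rw [inner_smul_right, pow_inner A h]
  ring

/-- the eigenvector is an eigenvector of the adjoint, too -/
theorem adj_eig (A : H →L[ℂ] H) {e ζ : ℂ} {v : H} (he : ‖e‖ = 1) (h : A v = ζ • v)
    (hq : ∀ u : H, 0 ≤ (e * (ζ * (‖u‖ : ℂ) ^ 2 - inner ℂ u (A u))).re) (u : H) :
    inner ℂ v (A u) = ζ * inner ℂ v u := by
  obtain ⟨D, hD⟩ : ∃ D : ℂ, D = e * (ζ * inner ℂ v u - inner ℂ v (A u)) := ⟨_, rfl⟩
  obtain ⟨Q, hQ⟩ : ∃ Q : ℂ, Q = e * (ζ * (‖u‖ : ℂ) ^ 2 - inner ℂ u (A u)) := ⟨_, rfl⟩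
  have key : ∀ c : ℂ, 0 ≤ (c * D).re + ‖c‖ ^ 2 * Q.re := by
    intro c
    have h1 := hq (v + c • u)
    have e1 : ((‖v + c • u‖ : ℂ)) ^ 2 = inner ℂ (v + c • u) (v + c • u) := by
      rw [inner_self_eq_norm_sq_to_K]
      rfl
    have e2 : ((‖u‖ : ℂ)) ^ 2 = inner ℂ u u := by
      rw [inner_self_eq_norm_sq_to_K]
      rfl
    have e3 : e * (ζ * (‖v + c • u‖ : ℂ) ^ 2 - inner ℂ (v + c • u) (A (v + c • u))) =
        c * D + (starRingEnd ℂ c * c) * Q := by
      rw [hD, hQ, e1, e2, map_add, map_smul, h]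
      simp only [inner_add_left, inner_add_right, inner_smul_left, inner_smul_right]
      ring
    rw [e3, Complex.add_re] at h1
    have e4 : (starRingEnd ℂ c * c) = ((‖c‖ ^ 2 : ℝ) : ℂ) := by
      rw [Complex.conj_mul']
      push_cast
      rfl
    rw [e4, Complex.re_ofReal_mul] at h1
    exact h1
  have hD0 : D = 0 := by
    by_contra hne
    have hDp : 0 < ‖D‖ ^ 2 := by
      have := norm_pos_iff.2 hne
      positivity
    have h2 : ∀ t : ℝ, 0 < t → 1 ≤ t * Q.re := by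
      intro t ht
      have h3 := key (-(t : ℂ) * starRingEnd ℂ D)
      have e5 : (-(t : ℂ) * starRingEnd ℂ D * D) = ((-(t * ‖D‖ ^ 2) : ℝ) : ℂ) := by
        rw [mul_assoc, Complex.conj_mul']
        push_cast
        ring
      have e6 : ‖-(t : ℂ) * starRingEnd ℂ D‖ = t * ‖D‖ := by
        rw [norm_mul, norm_neg, Complex.norm_real, RCLike.norm_conj, Real.norm_of_nonneg ht.le]
      rw [e5, e6, Complex.ofReal_re] at h3
      have h4 : 0 ≤ (t * ‖D‖ ^ 2) * (t * Q.re - 1) := by nlinarith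
      have h5 : 0 < t * ‖D‖ ^ 2 := by positivity
      have h6 := nonneg_of_mul_nonneg_right h4 h5
      linarith
    have h7 := h2 1 one_pos
    have hQp : 0 < Q.re := by linarith
    have h8 := h2 ((2 * Q.re)⁻¹) (by positivity)
    have e7 : (2 * Q.re)⁻¹ * Q.re = 1 / 2 := by field_simp
    rw [e7] at h8
    norm_num at h8
  rw [hD0] at hD
  have he0 : e ≠ 0 := by
    intro h9
    rw [h9, norm_zero] at he
    exact zero_ne_one he
  have h10 := (mul_eq_zero.1 hD.symm).resolve_left he0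
  exact (sub_eq_zero.1 h10).symm

/-- the Moebius transform is bounded on the disc -/
theorem mo_le {ε z : ℂ} (hε : ‖ε‖ < 1) (hz : ‖z‖ ≤ 1) :
    ‖z - ε‖ ^ 2 ≤ ‖1 - (starRingEnd ℂ) ε * z‖ ^ 2 := by
  have h1 : ‖1 - (starRingEnd ℂ) ε * z‖ ^ 2 - ‖z - ε‖ ^ 2 = (1 - ‖z‖ ^ 2) * (1 - ‖ε‖ ^ 2) := by
    rw [← Complex.normSq_eq_norm_sq, ← Complex.normSq_eq_norm_sq, ← Complex.normSq_eq_norm_sq,
      ← Complex.normSq_eq_norm_sq]
    simp only [Complex.normSq_apply, Complex.sub_re, Complex.sub_im, Complex.mul_re,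
      Complex.mul_im, Complex.conj_re, Complex.conj_im, Complex.one_re, Complex.one_im]
    ring
  have h2 : 0 ≤ (1 - ‖z‖ ^ 2) * (1 - ‖ε‖ ^ 2) := by
    have h3 : ‖z‖ ^ 2 ≤ 1 := pow_le_one₀ (norm_nonneg _) hz
    have h4 : ‖ε‖ ^ 2 ≤ 1 := pow_le_one₀ (norm_nonneg _) hε.le
    exact mul_nonneg (by linarith) (by linarith)
  linarith

theorem den_ne {ε z : ℂ} (hε : ‖ε‖ < 1) (hz : ‖z‖ ≤ 1) : 1 - (starRingEnd ℂ) ε * z ≠ 0 := by
  intro h
  have h1 : (starRingEnd ℂ) ε * z = 1 := (sub_eq_zero.1 h).symm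
  have h2 : ‖(starRingEnd ℂ) ε * z‖ = 1 := by rw [h1, norm_one]
  rw [norm_mul, RCLike.norm_conj] at h2
  have h3 : ‖ε‖ * ‖z‖ ≤ ‖ε‖ := mul_le_of_le_one_right (norm_nonneg _) hz
  linarith

theorem main (hN : S_NORMT) (hNE : S_NECASEF) (n : ℕ) : ∀ (H : Type) [NormedAddCommGroup H]
    [InnerProductSpace ℂ H] [FiniteDimensional ℂ H]
    (A : H →L[ℂ] H) (p : ℂ[X]) (ε : ℂ) (h : H), Module.finrank ℂ H = n →
    (∀ w ∈ numRange A, ‖p.eval w‖ ≤ 1) →
    ‖ε‖ < 1 → ‖h - (starRingEnd ℂ) ε • (aeval A p) h‖ = 1 → ‖(aeval A p) h - ε • h‖ = 2 →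
    1 ≤ p.natDegree ∧ (∃ c α : ℂ, p = C c * (X - C α) ^ p.natDegree) ∧ (p = X → ε = 0) := by
  induction n using Nat.strong_induction_on with
  | _ n ih =>
    intro H _ _ _ A p ε h hn hf hε hh1 hh2
    by_cases hA : NE A
    · exact hNE H A p ε h hA hf hε hh1 hh2
    · unfold NE at hA
      push Not at hA
      obtain ⟨e, ζ, v, he, hv, hq, hv0⟩ := hA
      have hadj := adj_eig A he hv hq
      have hnv : 0 < ‖v‖ := norm_pos_iff.2 hv0
      have hmemV : ∀ u : H, u ∈ (ℂ ∙ v)ᗮ ↔ inner ℂ v u = (0 : ℂ) := fun u =>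
        Submodule.mem_orthogonal_singleton_iff_inner_right
      have hinv : ∀ u : H, u ∈ (ℂ ∙ v)ᗮ → A u ∈ (ℂ ∙ v)ᗮ := by
        intro u hu
        rw [hmemV] at hu ⊢
        rw [hadj, hu, mul_zero]
      obtain ⟨V, hV⟩ : ∃ V : Submodule ℂ H, V = (ℂ ∙ v)ᗮ := ⟨_, rfl⟩
      rw [← hV] at hinv
      have hmemV' : ∀ u : H, u ∈ V ↔ inner ℂ v u = (0 : ℂ) := by
        intro u
        rw [hV]
        exact hmemV u
      obtain ⟨A', hA'⟩ : ∃ A' : V →L[ℂ] V, ∀ u : V, (A' u : H) = A u :=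
        ⟨(A.comp V.subtypeL).codRestrict V fun u => hinv u u.2, fun u => rfl⟩
      have hpow : ∀ (k : ℕ) (u : V), (((A' ^ k) u : V) : H) = (A ^ k) u := by
        intro k
        induction k with
        | zero => intro u; simp
        | succ k ihk =>
          intro u
          rw [pow_succ, pow_succ, mul_apply_eq_comp, mul_apply_eq_comp,
            ihk, hA']
      have haev : ∀ u : V, (((aeval A' p) u : V) : H) = (aeval A p) u := by
        intro u
        rw [aeval_app, aeval_app, Submodule.coe_sum]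
        refine Finset.sum_congr rfl fun k _ => ?_
        rw [Submodule.coe_smul, hpow]
      have hnr : ∀ w ∈ numRange A', ‖p.eval w‖ ≤ 1 := by
        rintro w ⟨u, hu, rfl⟩
        apply hf
        refine ⟨u, ?_, ?_⟩
        · rw [← hu]
          rfl
        · rw [Submodule.coe_inner, hA']
      have hlt : Module.finrank ℂ V < n := by
        rw [← hn]
        apply Submodule.finrank_lt
        intro htop
        have h1 : v ∈ V := by rw [htop]; exact Submodule.mem_top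
        rw [hmemV'] at h1
        exact hv0 (inner_self_eq_zero.1 h1)
      -- the decomposition of `h`
      have : Nontrivial H := ⟨⟨v, 0, hv0⟩⟩
      obtain ⟨M, Q, hM, hM2⟩ := hN H A p ε hf hε
      have hζ : ζ ∈ numRange A := by
        refine ⟨((‖v‖ : ℂ)⁻¹) • v, ?_, ?_⟩
        · rw [norm_smul, norm_inv, Complex.norm_real, norm_norm, inv_mul_cancel₀ hnv.ne']
        · rw [map_smul, hv, inner_smul_left, inner_smul_right, inner_smul_right,
            inner_self_eq_norm_sq_to_K]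
          have h1 : (‖v‖ : ℂ) ≠ 0 := by exact_mod_cast hnv.ne'
          rw [map_inv₀, Complex.conj_ofReal]
          show (‖v‖ : ℂ)⁻¹ * ((‖v‖ : ℂ)⁻¹ * (ζ * (‖v‖ : ℂ) ^ 2)) = ζ
          field_simp
      have hfζ := hf ζ hζ
      have hTv := aeval_eig A hv p
      have hTi := aeval_inner A hadj p
      have hM1 : ∀ u : H, (aeval A p) u - ε • u =
          M (u - (starRingEnd ℂ) ε • (aeval A p) u) := by
        intro u
        have h1 := congrArg (fun W : H →L[ℂ] H => W u) hM.q1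
        have h2 := congrArg (fun W : H →L[ℂ] H =>
          W (u - (starRingEnd ℂ) ε • (aeval A p) u)) hM.t
        have h3 : Q (u - (starRingEnd ℂ) ε • (aeval A p) u) = u := h1
        have h4 : M (u - (starRingEnd ℂ) ε • (aeval A p) u) =
          (aeval A p) (Q (u - (starRingEnd ℂ) ε • (aeval A p) u)) -
            ε • (Q (u - (starRingEnd ℂ) ε • (aeval A p) u)) := h2
        rw [h4, h3]
      obtain ⟨T, hT⟩ : ∃ T : H →L[ℂ] H, T = aeval A p := ⟨_, rfl⟩
      rw [← hT] at hh1 hh2 hTv hM1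
      have hTi' : ∀ u, inner ℂ v (T u) = p.eval ζ * inner ℂ v u := by
        intro u
        rw [hT]
        exact hTi u
      have hvv : (inner ℂ v v : ℂ) = ((‖v‖ ^ 2 : ℝ) : ℂ) := by
        rw [inner_self_eq_norm_sq_to_K]
        push_cast
        rfl
      obtain ⟨c, hc⟩ : ∃ c : ℂ, c = inner ℂ v h / ((‖v‖ ^ 2 : ℝ) : ℂ) := ⟨_, rfl⟩
      obtain ⟨h', hh'⟩ : ∃ h' : H, h' = h - c • v := ⟨_, rfl⟩
      have hn2 : ((‖v‖ ^ 2 : ℝ) : ℂ) ≠ 0 := by
        have : (0 : ℝ) < ‖v‖ ^ 2 := by positivity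
        exact_mod_cast this.ne'
      have hort : inner ℂ v h' = (0 : ℂ) := by
        rw [hh', inner_sub_right, inner_smul_right, hvv, hc, div_mul_cancel₀ _ hn2, sub_self]
      have hxd : h = c • v + h' := by rw [hh']; abel
      have hpy : ∀ (a : ℂ) (w : H), inner ℂ v w = (0 : ℂ) →
          ‖a • v + w‖ ^ 2 = ‖a‖ ^ 2 * ‖v‖ ^ 2 + ‖w‖ ^ 2 := by
        intro a w hw
        have h1 : inner ℂ (a • v) w = (0 : ℂ) := by rw [inner_smul_left, hw, mul_zero]
        have h2 := norm_add_sq_eq_norm_sq_add_norm_sq_of_inner_eq_zero (a • v) w h1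
        rw [norm_smul] at h2
        rw [pow_two, h2]
        ring
      have hTh' : inner ℂ v (T h') = (0 : ℂ) := by rw [hTi', hort, mul_zero]
      have hTh : T h = (c * p.eval ζ) • v + T h' := by
        conv_lhs => rw [hxd]
        rw [map_add, map_smul, hTv, smul_smul]
      have h1 : 1 = ‖c * (1 - (starRingEnd ℂ) ε * p.eval ζ)‖ ^ 2 * ‖v‖ ^ 2 +
          ‖h' - (starRingEnd ℂ) ε • T h'‖ ^ 2 := by
        rw [← hpy]
        · have e1 : (c * (1 - (starRingEnd ℂ) ε * p.eval ζ)) • v +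
              (h' - (starRingEnd ℂ) ε • T h') = h - (starRingEnd ℂ) ε • T h := by
            rw [hTh]
            conv_rhs => rw [hxd]
            module
          rw [e1, hh1, one_pow]
        · rw [inner_sub_right, inner_smul_right, hort, hTh', mul_zero, sub_zero]
      have h2 : (4 : ℝ) = ‖c * (p.eval ζ - ε)‖ ^ 2 * ‖v‖ ^ 2 + ‖T h' - ε • h'‖ ^ 2 := by
        rw [← hpy]
        · have e1 : (c * (p.eval ζ - ε)) • v + (T h' - ε • h') = T h - ε • h := by
            rw [hTh]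
            conv_rhs => rw [hxd]
            module
          rw [e1, hh2]
          norm_num
        · rw [inner_sub_right, inner_smul_right, hort, hTh', mul_zero, sub_zero]
      have h5 : ‖T h' - ε • h'‖ ≤ 2 * ‖h' - (starRingEnd ℂ) ε • T h'‖ := by
        rw [hM1]
        refine (M.le_opNorm _).trans ?_
        exact mul_le_mul_of_nonneg_right hM2 (norm_nonneg _)
      have h6 : ‖T h' - ε • h'‖ ^ 2 ≤ (2 * ‖h' - (starRingEnd ℂ) ε • T h'‖) ^ 2 :=
        pow_le_pow_left₀ (norm_nonneg _) h5 2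
      have h7 : ‖c * (p.eval ζ - ε)‖ ^ 2 ≤ ‖c * (1 - (starRingEnd ℂ) ε * p.eval ζ)‖ ^ 2 := by
        rw [norm_mul, norm_mul, mul_pow, mul_pow]
        exact mul_le_mul_of_nonneg_left (mo_le hε hfζ) (by positivity)
      have h8 : ‖c * (p.eval ζ - ε)‖ ^ 2 * ‖v‖ ^ 2 ≤
          ‖c * (1 - (starRingEnd ℂ) ε * p.eval ζ)‖ ^ 2 * ‖v‖ ^ 2 :=
        mul_le_mul_of_nonneg_right h7 (by positivity)
      have h9 : ‖c * (1 - (starRingEnd ℂ) ε * p.eval ζ)‖ ^ 2 * ‖v‖ ^ 2 ≤ 0 := by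
        have e1 : (2 * ‖h' - (starRingEnd ℂ) ε • T h'‖) ^ 2 =
            4 * ‖h' - (starRingEnd ℂ) ε • T h'‖ ^ 2 := by ring
        rw [e1] at h6
        linarith
      have hc0 : c = 0 := by
        by_contra hne
        have h10 := norm_pos_iff.2 (mul_ne_zero hne (den_ne hε hfζ))
        have h11 : 0 < ‖c * (1 - (starRingEnd ℂ) ε * p.eval ζ)‖ ^ 2 * ‖v‖ ^ 2 := by positivity
        linarith
      have hxV : h ∈ V := by
        rw [hmemV', hxd, hc0, zero_smul, zero_add]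
        exact hort
      refine ih _ hlt V A' p ε ⟨h, hxV⟩ rfl hnr hε ?_ ?_
      · have e1 : ((((⟨h, hxV⟩ : V) - (starRingEnd ℂ) ε • (aeval A' p) ⟨h, hxV⟩ : V)) : H) =
            h - (starRingEnd ℂ) ε • T h := by
          rw [Submodule.coe_sub, Submodule.coe_smul, haev, hT]
        rw [← hh1, ← e1]
        rfl
      · have e1 : (((aeval A' p) ⟨h, hxV⟩ - ε • (⟨h, hxV⟩ : V) : V) : H) = T h - ε • h := by
          rw [Submodule.coe_sub, Submodule.coe_smul, haev, hT]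
        rw [← hh2, ← e1]
        rfl

end REDF

theorem t_REDF (hN : S_NORMT) : S_REDF := by
  intro hNE H _ _ _ A p ε h hf hε h1 h2
  exact REDF.main hN hNE _ H A p ε h rfl hf hε h1 h2

end Pool.Agent.H243.CE
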