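import Pool.Agent.H243.CE.NeCaseM
import Pool.Agent.H243.CE.INTF
import Pool.Agent.H243.CE.APPROXM
import Pool.Agent.H243.CE.PTF
import Pool.Agent.H243.CE.NORMT
import Pool.Agent.H243.CE.TOEPF
import Pool.Agent.H243.CE.MEANF
import Pool.Agent.H243.CE.DNZM
import Pool.Agent.H243.CE.EPS
import Pool.Agent.H243.CE.DECAYF
import Pool.Agent.H243.CE.KERF
import Pool.Agent.H243.CE.IDEALF
import Pool.Agent.H243.CE.REDF
import Pool.Agent.H243.CE.EIG
import Pool.Agent.H243.CE.Q45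

/-!
# The equality case for Moebius images of polynomials, for all operators
-/

namespace Pool.Agent.H243.CE

theorem t_ALLCASEF : S_ALLCASEF :=
  t_REDF t_NORMT (t_NECASEF t_NORMT (t_APPROXM (t_APPROX t_DATUM t_UB) t_INTF) t_DECAYF
    (t_KERF t_TOEPF t_MEANF t_REC) t_MEANF t_PTF t_IDEALF t_DNZM t_EPS)

theorem t_Q45' : S_Q45 := t_Q45 t_ALLCASEF t_EIG

end Pool.Agent.H243.CE
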