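import Pool.Agent.H243.CE.Stmt4

/-!
# Equality cases: the scaled `q`-numerical range contains a disc (proof)
-/

set_option autoImplicit false

open MeasureTheory Set Filter Topology Polynomial

namespace Pool.Agent.H243.CE

namespace BALLQ

variable {H : Type} [NormedAddCommGroup H] [InnerProductSpace ℂ H]

theorem inner_comb {e₀ e₁ : H} (h00 : inner ℂ e₀ e₀ = (1 : ℂ)) (h11 : inner ℂ e₁ e₁ = (1 : ℂ))
    (h01 : inner ℂ e₀ e₁ = (0 : ℂ)) (h10 : inner ℂ e₁ e₀ = (0 : ℂ)) (a b c d : ℂ) :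
    inner ℂ (a • e₀ + b • e₁) (c • e₀ + d • e₁) =
      (starRingEnd ℂ) a * c + (starRingEnd ℂ) b * d := by
  simp only [inner_add_left, inner_add_right, inner_smul_left, inner_smul_right, h00, h11, h01, h10]
  ring

theorem norm_comb {e₀ e₁ : H} (h00 : inner ℂ e₀ e₀ = (1 : ℂ)) (h11 : inner ℂ e₁ e₁ = (1 : ℂ))
    (h01 : inner ℂ e₀ e₁ = (0 : ℂ)) (h10 : inner ℂ e₁ e₀ = (0 : ℂ)) (a b : ℂ) :
    ‖a • e₀ + b • e₁‖ ^ 2 = ‖a‖ ^ 2 + ‖b‖ ^ 2 := by
  have h1 : ((‖a • e₀ + b • e₁‖ ^ 2 : ℝ) : ℂ) = ((‖a‖ ^ 2 + ‖b‖ ^ 2 : ℝ) : ℂ) := by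
    have h2 := inner_comb h00 h11 h01 h10 a b a b
    rw [inner_self_eq_norm_sq_to_K, Complex.conj_mul', Complex.conj_mul'] at h2
    push_cast
    exact h2
  exact_mod_cast h1

theorem exists_angle (s t q r : ℝ) (hs : 0 ≤ s) (ht : 0 < t) (ht1 : t ≤ 1)
    (hqt : q * (1 + t ^ 2) = 2 * t) (hsq : s ^ 2 * q ^ 2 = 1 - q ^ 2) (τ : ℝ)
    (hτ : 0 ≤ τ) (hτr : τ ≤ r) :
    ∃ a b : ℝ, a ^ 2 + b ^ 2 = 1 ∧ 2 * t * r * a * (b + s * a) = τ := by
  have h2ts : 2 * t * s = 1 - t ^ 2 := by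
    have h1 : (2 * t * s) ^ 2 = (1 - t ^ 2) ^ 2 := by
      have h3 : (2 * t * s) ^ 2 = s ^ 2 * q ^ 2 * (1 + t ^ 2) ^ 2 := by
        rw [← hqt]
        ring
      have h4 : q ^ 2 * (1 + t ^ 2) ^ 2 = 4 * t ^ 2 := by
        rw [← mul_pow, hqt]
        ring
      rw [h3, hsq]
      linear_combination -h4
    have h5 : 0 ≤ 2 * t * s := by positivity
    have h6 : 0 ≤ 1 - t ^ 2 := by nlinarith
    exact (pow_left_inj₀ h5 h6 two_ne_zero).1 h1
  set g : ℝ → ℝ := fun θ => 2 * t * r * Real.cos θ * (Real.sin θ + s * Real.cos θ) with hg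
  have hgc : Continuous g := by
    rw [hg]
    fun_prop
  have hle : Real.arctan t ≤ Real.pi / 2 := (Real.arctan_lt_pi_div_two t).le
  have hg1 : g (Real.pi / 2) = 0 := by
    simp [hg]
  have hg2 : g (Real.arctan t) = r := by
    simp only [hg]
    rw [Real.cos_arctan, Real.sin_arctan]
    have hpos : 0 < 1 + t ^ 2 := by positivity
    have hsqrt : Real.sqrt (1 + t ^ 2) ^ 2 = 1 + t ^ 2 := Real.sq_sqrt hpos.le
    have hsp : 0 < Real.sqrt (1 + t ^ 2) := Real.sqrt_pos.2 hpos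
    have h7 : 2 * t * r * (1 / Real.sqrt (1 + t ^ 2)) *
        (t / Real.sqrt (1 + t ^ 2) + s * (1 / Real.sqrt (1 + t ^ 2))) =
        r * (2 * t ^ 2 + 2 * t * s) / Real.sqrt (1 + t ^ 2) ^ 2 := by
      field_simp
    rw [h7, hsqrt, h2ts]
    field_simp
    ring
  have hivt := intermediate_value_Icc' hle hgc.continuousOn
  rw [hg1, hg2] at hivt
  obtain ⟨θ, _, hθ⟩ := hivt ⟨hτ, hτr⟩
  refine ⟨Real.cos θ, Real.sin θ, Real.cos_sq_add_sin_sq θ, ?_⟩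
  exact hθ

end BALLQ

theorem t_BALLQ : S_BALLQ := by
  intro H _ _ A s t q r α e hs ht ht1 _ hqt hsq _ hB z hz
  have h00 : inner ℂ (e 0) (e 0) = (1 : ℂ) := by
    rw [inner_self_eq_norm_sq_to_K, hB.on.1 0]
    norm_num
  have h11 : inner ℂ (e 1) (e 1) = (1 : ℂ) := by
    rw [inner_self_eq_norm_sq_to_K, hB.on.1 1]
    norm_num
  have h01 : inner ℂ (e 0) (e 1) = (0 : ℂ) := hB.on.2 (by decide)
  have h10 : inner ℂ (e 1) (e 0) = (0 : ℂ) := hB.on.2 (by decide)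
  have hA0 : A (e 0) = α • e 0 + ((2 * t * r : ℝ) : ℂ) • e 1 := by
    have h1 := hB.sh 0
    have h2 : (A - α • (1 : H →L[ℂ] H)) (e 0) = A (e 0) - α • e 0 := by simp
    have h3 : (A - α • (1 : H →L[ℂ] H)) (e 0) = ((2 * t * r : ℝ) : ℂ) • e 1 := h1
    rw [h2] at h3
    rw [← h3]
    abel
  have hA1 : A (e 1) = α • e 1 := by
    have h1 := hB.last
    have h2 : (A - α • (1 : H →L[ℂ] H)) (e 1) = A (e 1) - α • e 1 := by simp
    have h3 : (A - α • (1 : H →L[ℂ] H)) (e 1) = 0 := h1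
    rw [h2] at h3
    exact sub_eq_zero.1 h3
  rw [Metric.mem_closedBall, dist_eq_norm] at hz
  obtain ⟨a, b, hab, hg⟩ := BALLQ.exists_angle s t q r hs ht ht1 hqt hsq ‖z - α‖ (norm_nonneg _) hz
  obtain ⟨k, hk, hkz⟩ : ∃ k : ℂ, ‖k‖ = 1 ∧ z - α = (‖z - α‖ : ℂ) * (starRingEnd ℂ) k := by
    by_cases h0 : z - α = 0
    · exact ⟨1, norm_one, by rw [h0]; simp⟩
    · refine ⟨(starRingEnd ℂ) ((z - α) / (‖z - α‖ : ℂ)), ?_, ?_⟩
      · rw [RCLike.norm_conj, norm_div]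
        have : ‖(‖z - α‖ : ℂ)‖ = ‖z - α‖ := by
          rw [Complex.norm_real, norm_norm]
        rw [this]
        exact div_self (norm_ne_zero_iff.2 h0)
      · rw [Complex.conj_conj, mul_div_cancel₀]
        exact_mod_cast norm_ne_zero_iff.2 h0
  have hkk : (starRingEnd ℂ) k * k = 1 := by
    rw [Complex.conj_mul', hk]
    norm_num
  refine ⟨(a : ℂ) • e 0 + ((b : ℂ) * k) • e 1,
    (-((s : ℂ) * b)) • e 0 + ((s : ℂ) * a * k) • e 1, ?_, ?_, ?_, ?_⟩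
  · have h1 := BALLQ.norm_comb h00 h11 h01 h10 (a : ℂ) ((b : ℂ) * k)
    rw [norm_mul, hk, mul_one, Complex.norm_real, Complex.norm_real, Real.norm_eq_abs,
      Real.norm_eq_abs, sq_abs, sq_abs, hab] at h1
    exact (pow_eq_one_iff_of_nonneg (norm_nonneg _) two_ne_zero).1 h1
  · rw [BALLQ.inner_comb h00 h11 h01 h10]
    simp only [map_neg, map_mul, Complex.conj_ofReal]
    linear_combination (s : ℂ) * a * b * hkk
  · have h1 := BALLQ.norm_comb h00 h11 h01 h10 (-((s : ℂ) * b)) ((s : ℂ) * a * k)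
    rw [norm_neg, norm_mul, norm_mul, norm_mul, hk, mul_one, Complex.norm_real, Complex.norm_real,
      Complex.norm_real, Real.norm_eq_abs, Real.norm_eq_abs, Real.norm_eq_abs, mul_pow, mul_pow,
      sq_abs, sq_abs, sq_abs] at h1
    have h2 : ‖(-((s : ℂ) * b)) • e 0 + ((s : ℂ) * a * k) • e 1‖ ^ 2 = s ^ 2 := by
      rw [h1]
      linear_combination s ^ 2 * hab
    exact (pow_left_inj₀ (norm_nonneg _) hs two_ne_zero).1 h2
  · have hAx : A ((a : ℂ) • e 0 + ((b : ℂ) * k) • e 1) =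
        ((a : ℂ) * α) • e 0 + ((a : ℂ) * ((2 * t * r : ℝ) : ℂ) + (b : ℂ) * k * α) • e 1 := by
      rw [map_add, map_smul, map_smul, hA0, hA1, smul_add, smul_smul, smul_smul, smul_smul, add_smul,
        add_assoc]
    rw [hAx, BALLQ.inner_comb h00 h11 h01 h10, BALLQ.inner_comb h00 h11 h01 h10]
    simp only [map_neg, map_mul, Complex.conj_ofReal]
    have habc : (a : ℂ) ^ 2 + (b : ℂ) ^ 2 = 1 := by exact_mod_cast hab
    have hgc : 2 * (t : ℂ) * r * a * (b + s * a) = (‖z - α‖ : ℂ) := by exact_mod_cast hg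
    have hz' : z = α + 2 * (t : ℂ) * r * a * (b + s * a) * (starRingEnd ℂ) k := by
      rw [hgc, ← hkz]
      ring
    rw [hz']
    push_cast
    linear_combination (-α) * habc - ((b : ℂ) ^ 2 * α + (s : ℂ) * a * b * α) * hkk

end Pool.Agent.H243.CE
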