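import Pool.Agent.H243.CE.Stmt2

set_option autoImplicit false

namespace Pool.Agent.H243.CE.BPOW

theorem pow_aux {H : Type} [NormedAddCommGroup H] [InnerProductSpace ℂ H] (b : H →L[ℂ] H) (N : ℕ)
    (w : ℕ → ℝ) (e : Fin (N + 1) → H) (hb : Block b N w e) :
    ∀ (j : ℕ) (hj : j < N + 1),
      (b ^ j) (e 0) = ((∏ i ∈ Finset.range j, w i : ℝ) : ℂ) • e ⟨j, hj⟩ := by
  intro j
  induction j with
  | zero =>
    intro hj
    rw [pow_zero, Finset.prod_range_zero, Complex.ofReal_one, one_smul]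
    rfl
  | succ j ih =>
    intro hj
    have h1 := hb.sh ⟨j, by omega⟩
    have h2 : (⟨j, by omega⟩ : Fin N).castSucc = (⟨j, by omega⟩ : Fin (N + 1)) := rfl
    have h3 : (⟨j, by omega⟩ : Fin N).succ = (⟨j + 1, hj⟩ : Fin (N + 1)) := rfl
    rw [h2, h3] at h1
    rw [pow_succ', ContinuousLinearMap.mul_apply, ih (by omega), map_smul, h1, smul_smul,
      Finset.prod_range_succ, Complex.ofReal_mul]

theorem prod_cw (N : ℕ) (hN : 1 ≤ N) : ∏ i ∈ Finset.range N, cw N i = 2 := by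
  obtain ⟨M, rfl⟩ : ∃ M, N = M + 1 := ⟨N - 1, by omega⟩
  unfold cw
  rw [Finset.prod_mul_distrib]
  have h1 : ∏ i ∈ Finset.range (M + 1), (if i = 0 then Real.sqrt 2 else 1) = Real.sqrt 2 := by
    rw [Finset.prod_ite_eq' (Finset.range (M + 1)) 0 (fun _ => Real.sqrt 2),
      if_pos (Finset.mem_range.2 (Nat.succ_pos M))]
  have h2 : ∏ i ∈ Finset.range (M + 1), (if i + 1 = M + 1 then Real.sqrt 2 else 1) =
      Real.sqrt 2 := by
    have h3 : ∏ i ∈ Finset.range (M + 1), (if i + 1 = M + 1 then Real.sqrt 2 else 1) =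
        ∏ i ∈ Finset.range (M + 1), (if i = M then Real.sqrt 2 else 1) := by
      refine Finset.prod_congr rfl fun i _ => ?_
      by_cases h : i = M
      · rw [if_pos (by omega), if_pos h]
      · rw [if_neg (by omega), if_neg h]
    rw [h3, Finset.prod_ite_eq' (Finset.range (M + 1)) M (fun _ => Real.sqrt 2),
      if_pos (Finset.mem_range.2 (Nat.lt_succ_self M))]
  rw [h1, h2]
  exact Real.mul_self_sqrt (by norm_num)

end Pool.Agent.H243.CE.BPOW

namespace Pool.Agent.H243.CE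

theorem t_BPOW : S_BPOW :=
  ⟨fun H _ _ b N w e hb => BPOW.pow_aux b N w e hb N (Nat.lt_succ_self N),
    fun N hN => BPOW.prod_cw N hN⟩

end Pool.Agent.H243.CE
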