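import Pool.Agent.H243.CE.Stmt2
import Pool.Agent.H243.CE.DISC

/-!
# (CE18) Crabb's theorem
-/

set_option autoImplicit false

open Pool.Agent.W753.CZ (numRange)
open Pool.Agent.H243.CE.DISC

namespace Pool.Agent.H243.CE.CRABB

section vec

variable {H : Type} [NormedAddCommGroup H] [InnerProductSpace ℂ H]

/-- vector valued polynomials -/
noncomputable def ev (A : ℕ → H) (M : ℕ) (w : ℂ) : H := ∑ k ∈ Finset.range M, w ^ k • A k

/-- the shift of the coefficients -/
def shf (A : ℕ → H) : ℕ → H
  | 0 => 0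
  | k + 1 => A k

lemma ev_shf (A : ℕ → H) (M : ℕ) (w : ℂ) : ev (shf A) (M + 1) w = w • ev A M w := by
  unfold ev
  rw [Finset.sum_range_succ', Finset.smul_sum]
  simp only [shf, smul_zero, add_zero]
  refine Finset.sum_congr rfl fun k _ => ?_
  rw [smul_smul, pow_succ']

lemma ev_add_one (A : ℕ → H) (M : ℕ) (w : ℂ) (h : A M = 0) : ev A (M + 1) w = ev A M w := by
  unfold ev
  rw [Finset.sum_range_succ, h, smul_zero, add_zero]

lemma ev_map (A : ℕ → H) (M : ℕ) (w : ℂ) (T : H →L[ℂ] H) :
    ev (fun k => T (A k)) M w = T (ev A M w) := by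
  unfold ev
  rw [map_sum]
  refine Finset.sum_congr rfl fun k _ => ?_
  rw [map_smul]

lemma coef_zero (C : ℕ → H) (M : ℕ) (h : ∀ w : ℂ, ‖w‖ = 1 → ev C M w = 0) :
    ∀ k, k < M → C k = 0 := by
  intro k hk
  obtain ⟨P, hP⟩ : ∃ P : Polynomial ℂ, P = ∑ l ∈ Finset.range M,
      Polynomial.monomial l (inner ℂ (C k) (C l)) := ⟨_, rfl⟩
  have hroot : ∀ w : ℂ, ‖w‖ = 1 → P.IsRoot w := by
    intro w hw
    rw [Polynomial.IsRoot, hP, Polynomial.eval_finsetSum]
    have h1 := congrArg (fun z => inner ℂ (C k) z) (h w hw)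
    simp only [inner_zero_right] at h1
    rw [← h1]
    unfold ev
    rw [inner_sum]
    refine Finset.sum_congr rfl fun l _ => ?_
    rw [Polynomial.eval_monomial, inner_smul_right, mul_comm]
  have hinf : (Metric.sphere (0 : ℂ) 1).Infinite := by
    refine (isPreconnected_sphere ?_ (0 : ℂ) 1).infinite_of_nontrivial ?_
    · rw [Complex.rank_real_complex]
      norm_num
    · refine ⟨1, ?_, -1, ?_, ?_⟩
      · simp
      · simp
      · norm_num
  have hP0 : P = 0 := by
    refine Polynomial.eq_zero_of_infinite_isRoot P (hinf.mono fun w hw => ?_)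
    exact hroot w (by simpa using hw)
  have h2 : P.coeff k = inner ℂ (C k) (C k) := by
    rw [hP, Polynomial.finsetSum_coeff]
    rw [Finset.sum_eq_single k]
    · rw [Polynomial.coeff_monomial, if_pos rfl]
    · intro l _ hl
      rw [Polynomial.coeff_monomial, if_neg hl]
    · intro hk'
      exact absurd (Finset.mem_range.2 hk) hk'
  rw [hP0, Polynomial.coeff_zero] at h2
  exact inner_self_eq_zero.1 h2.symm

/-- the two orthogonality relations for the power `S = b ^ N` -/
lemma facts (b : H →L[ℂ] H) (hb : ∀ u, ‖inner ℂ u (b u)‖ ≤ ‖u‖ ^ 2) (N : ℕ) (hN : 1 ≤ N)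
    (x y : H) (hx : ‖x‖ = 1) (hy1 : ‖y‖ = 1) (hy : (b ^ N) x = (2 : ℂ) • y) :
    inner ℂ x ((b ^ N) y) = (0 : ℂ) ∧ inner ℂ y ((b ^ N) y) = (0 : ℂ) := by
  obtain ⟨S, hS⟩ : ∃ S, S = b ^ N := ⟨_, rfl⟩
  rw [← hS] at hy ⊢
  have hxx : inner ℂ x x = (1 : ℂ) := by rw [inner_self_c, hx]; norm_num
  have hyy : inner ℂ y y = (1 : ℂ) := by rw [inner_self_c, hy1]; norm_num
  have hq : ∀ l : ℂ, ‖l‖ = 1 → (l ^ 2 * inner ℂ x (S y) + l * inner ℂ y (S y)).re ≤ 0 := by
    intro l hl
    have h1 := re_pow' b hb N hN l hl (x + l • y)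
    rw [← hS] at h1
    have hll : l * (starRingEnd ℂ) l = 1 := by
      rw [Complex.mul_conj, Complex.normSq_eq_norm_sq, hl]; norm_num
    have hns : ((‖x + l • y‖ ^ 2 : ℝ) : ℂ) = 2 + l * inner ℂ x y +
        (starRingEnd ℂ) (l * inner ℂ x y) := by
      rw [← inner_self_c, inner_add_left, inner_add_right, inner_add_right, inner_smul_left,
        inner_smul_left, inner_smul_right, inner_smul_right, hxx, hyy, map_mul, inner_conj_symm]
      linear_combination hll
    have hns' := congrArg Complex.re hns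
    rw [Complex.ofReal_re] at hns'
    have hin : l * inner ℂ (x + l • y) (S (x + l • y)) =
        2 * (l * inner ℂ x y) + 2 + (l ^ 2 * inner ℂ x (S y) + l * inner ℂ y (S y)) := by
      rw [map_add, map_smul, hy, inner_add_left, inner_add_right, inner_add_right,
        inner_smul_left, inner_smul_left, inner_smul_right, inner_smul_right, inner_smul_right,
        inner_smul_right, hyy]
      linear_combination (2 + l * inner ℂ y (S y)) * hll
    rw [hin, hns'] at h1
    simp only [Complex.add_re, Complex.mul_re, Complex.conj_re, Complex.re_ofNat,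
      Complex.im_ofNat] at h1 ⊢
    linarith
  have ha : inner ℂ x (S y) = (0 : ℂ) := by
    apply zero_of_rot
    intro l hl
    obtain ⟨k, hk1, hk2⟩ := exists_root 2 (by norm_num) l hl
    have h3 := hq k hk1
    have h4 := hq (-k) (by rw [norm_neg, hk1])
    rw [neg_sq, hk2, Complex.add_re] at h4
    rw [hk2, Complex.add_re] at h3
    have h5 : (-k * inner ℂ y (S y)).re = -(k * inner ℂ y (S y)).re := by
      rw [neg_mul, Complex.neg_re]
    rw [h5] at h4
    linarith
  refine ⟨ha, ?_⟩
  apply zero_of_rot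
  intro l hl
  have h3 := hq l hl
  rw [ha, mul_zero, zero_add] at h3
  exact h3

/-- the form vanishes at `v(w)` -/
lemma form_zero (b : H →L[ℂ] H) (hb : ∀ u, ‖inner ℂ u (b u)‖ ≤ ‖u‖ ^ 2) (N : ℕ) (hN : 1 ≤ N)
    (x y : H) (hx : ‖x‖ = 1) (hy1 : ‖y‖ = 1) (hy : (b ^ N) x = (2 : ℂ) • y) (w : ℂ)
    (hw : ‖w‖ = 1) :
    (inner ℂ (g b N w (x + w ^ N • y))
      (g b N w (x + w ^ N • y) - w • b (g b N w (x + w ^ N • y)))).re = 0 := by
  obtain ⟨ha, hc⟩ := facts b hb N hN x y hx hy1 hy
  obtain ⟨n, hn⟩ : ∃ n, n = x + w ^ N • y := ⟨_, rfl⟩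
  rw [← hn]
  have hxx : inner ℂ x x = (1 : ℂ) := by rw [inner_self_c, hx]; norm_num
  have hyy : inner ℂ y y = (1 : ℂ) := by rw [inner_self_c, hy1]; norm_num
  have hκ : w ^ N * (starRingEnd ℂ) (w ^ N) = 1 := by
    rw [Complex.mul_conj, Complex.normSq_eq_norm_sq, norm_pow, hw]; norm_num
  have hg : ∀ z : ℂ, ∀ v : H, g (w • b) N z v = g b N (w * z) v := by
    intro z v
    unfold g
    refine Finset.sum_congr rfl fun m _ => ?_
    rw [smul_pow, smul_apply, smul_smul, mul_pow, mul_comm]
  obtain ⟨ζ, hζ⟩ := prim N hN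
  have h1 := congrArg Complex.re (pearcy (w • b) N hN ζ hζ n)
  have h2 : (inner ℂ n (n - ((w • b) ^ N) n)).re = 0 := by
    have e1 : inner ℂ n n = 2 + w ^ N * inner ℂ x y +
        (starRingEnd ℂ) (w ^ N * inner ℂ x y) := by
      rw [hn, inner_add_left, inner_add_right, inner_add_right, inner_smul_left,
        inner_smul_left, inner_smul_right, inner_smul_right, hxx, hyy, map_mul, inner_conj_symm]
      linear_combination hκ
    have e2 : w ^ N * inner ℂ n ((b ^ N) n) = 2 * (w ^ N * inner ℂ x y) + 2 := by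
      rw [hn, map_add, map_smul, hy, inner_add_left, inner_add_right, inner_add_right,
        inner_smul_left, inner_smul_left, inner_smul_right, inner_smul_right, inner_smul_right,
        inner_smul_right, hyy, ha, hc]
      linear_combination 2 * hκ
    rw [smul_pow, smul_apply, inner_sub_right, inner_smul_right, e1, e2]
    simp only [Complex.add_re, Complex.sub_re, Complex.mul_re, Complex.conj_re, Complex.re_ofNat,
      Complex.im_ofNat, zero_mul, sub_zero]
    ring
  rw [Complex.re_sum, Complex.mul_re, h2] at h1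
  simp only [Complex.natCast_im, zero_mul, mul_zero, sub_zero] at h1
  have h3 := (Finset.sum_eq_zero_iff_of_nonneg (fun j _ =>
    re_nonneg (w • b) (smul_bound b hb w hw) _ (unit_pow hN hζ j) _)).1 h1 0
      (Finset.mem_range.2 hN)
  rw [pow_zero, one_smul, hg, mul_one] at h3
  exact h3

/-- null vectors of the positive form -/
lemma null [CompleteSpace H] (c : H →L[ℂ] H) (hc : ∀ u, 0 ≤ (inner ℂ u (u - c u)).re) (u : H)
    (h0 : (inner ℂ u (u - c u)).re = 0) :
    (2 : ℂ) • u = c u + ContinuousLinearMap.adjoint c u := by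
  have key : ∀ v : H, (inner ℂ v ((2 : ℂ) • u - (c u + ContinuousLinearMap.adjoint c u))).re
      = 0 := by
    intro v
    have e : ∀ t : ℝ, (inner ℂ (u + (t : ℂ) • v) (u + (t : ℂ) • v - c (u + (t : ℂ) • v))).re =
        (inner ℂ u (u - c u)).re +
        t * (inner ℂ v ((2 : ℂ) • u - (c u + ContinuousLinearMap.adjoint c u))).re +
        t ^ 2 * (inner ℂ v (v - c v)).re := by
      intro t
      have e1 : (inner ℂ v (ContinuousLinearMap.adjoint c u)).re = (inner ℂ u (c v)).re := by
        rw [ContinuousLinearMap.adjoint_inner_right, ← inner_conj_symm, Complex.conj_re]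
      have e2 : (inner ℂ v u).re = (inner ℂ u v).re := by
        rw [← inner_conj_symm, Complex.conj_re]
      rw [map_add, map_smul]
      simp only [inner_add_left, inner_add_right, inner_sub_right, inner_smul_left,
        inner_smul_right, Complex.add_re, Complex.sub_re, Complex.mul_re, Complex.conj_ofReal,
        Complex.ofReal_re, Complex.ofReal_im, zero_mul, sub_zero, Complex.re_ofNat,
        Complex.im_ofNat, e1, e2]
      ring
    have h1 : ∀ t : ℝ, 0 ≤ t * (inner ℂ v ((2 : ℂ) • u -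
        (c u + ContinuousLinearMap.adjoint c u))).re + t ^ 2 * (inner ℂ v (v - c v)).re := by
      intro t
      have h2 := hc (u + (t : ℂ) • v)
      rw [e t, h0, zero_add] at h2
      exact h2
    obtain ⟨β, hβ⟩ : ∃ β, β = (inner ℂ v ((2 : ℂ) • u -
        (c u + ContinuousLinearMap.adjoint c u))).re := ⟨_, rfl⟩
    obtain ⟨γ, hγ⟩ : ∃ γ, γ = (inner ℂ v (v - c v)).re := ⟨_, rfl⟩
    rw [← hβ, ← hγ] at h1
    rw [← hβ]
    have hγ0 : 0 ≤ γ := hγ ▸ hc v
    have h2 := h1 (-(β / (γ + 1)))
    have hg1 : 0 < γ + 1 := by linarith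
    have h3 : -(β / (γ + 1)) * β + (-(β / (γ + 1))) ^ 2 * γ = -(β ^ 2) / (γ + 1) ^ 2 := by
      field_simp
      ring
    rw [h3, neg_div] at h2
    have h4 : β ^ 2 / (γ + 1) ^ 2 ≤ 0 := by linarith
    have h5 : β ^ 2 ≤ 0 := by
      have := (div_le_iff₀ (by positivity : 0 < (γ + 1) ^ 2)).1 h4
      linarith
    nlinarith [sq_nonneg β]
  have h1 := key ((2 : ℂ) • u - (c u + ContinuousLinearMap.adjoint c u))
  rw [inner_self_c, Complex.ofReal_re] at h1
  have h2 : ‖(2 : ℂ) • u - (c u + ContinuousLinearMap.adjoint c u)‖ = 0 := by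
    nlinarith [sq_nonneg ‖(2 : ℂ) • u - (c u + ContinuousLinearMap.adjoint c u)‖]
  exact sub_eq_zero.1 (norm_eq_zero.1 h2)

/-- the coefficients of `v(w)` -/
noncomputable def co (b : H →L[ℂ] H) (N : ℕ) (x : H) (l : ℕ) : H :=
  (if l < N then (1 : ℂ) else if l < 2 * N then 1 / 2 else 0) • (b ^ l) x

lemma g_eq (b : H →L[ℂ] H) (N : ℕ) (x y : H) (hy : (b ^ N) x = (2 : ℂ) • y) (w : ℂ) :
    g b N w (x + w ^ N • y) = ev (co b N x) (2 * N) w := by
  have hy2 : y = (1 / 2 : ℂ) • (b ^ N) x := by
    rw [hy, smul_smul]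
    norm_num
  unfold g ev
  rw [two_mul, Finset.sum_range_add]
  simp only [map_add, smul_add]
  rw [Finset.sum_add_distrib]
  congr 1
  · refine Finset.sum_congr rfl fun l hl => ?_
    rw [co, if_pos (Finset.mem_range.1 hl), one_smul]
  · refine Finset.sum_congr rfl fun l hl => ?_
    have hl' := Finset.mem_range.1 hl
    rw [co, if_neg (by omega), if_pos (by omega), hy2, map_smul, map_smul, smul_smul, smul_smul,
      smul_smul, add_comm N l, pow_add, pow_add b, mul_apply_eq_comp]

lemma rel [CompleteSpace H] (b : H →L[ℂ] H) (hb : ∀ u, ‖inner ℂ u (b u)‖ ≤ ‖u‖ ^ 2) (N : ℕ)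
    (hN : 1 ≤ N) (x y : H) (hx : ‖x‖ = 1) (hy1 : ‖y‖ = 1) (hy : (b ^ N) x = (2 : ℂ) • y) :
    ∀ k, k < 2 * N + 2 → (2 : ℂ) • shf (co b N x) k - shf (shf fun l => b (co b N x l)) k -
      ContinuousLinearMap.adjoint b (co b N x k) = 0 := by
  refine coef_zero _ (2 * N + 2) fun w hw => ?_
  have hform := form_zero b hb N hN x y hx hy1 hy w hw
  rw [g_eq b N x y hy w] at hform
  have hnull := null (w • b) (fun u => by
    have := re_nonneg b hb w hw u
    simpa using this) (ev (co b N x) (2 * N) w) (by simpa using hform)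
  have hadj : ContinuousLinearMap.adjoint (w • b) (ev (co b N x) (2 * N) w) =
      (starRingEnd ℂ) w • ContinuousLinearMap.adjoint b (ev (co b N x) (2 * N) w) := by
    rw [map_smulₛₗ]
    rfl
  rw [hadj, smul_apply] at hnull
  have hww : w * (starRingEnd ℂ) w = 1 := by
    rw [Complex.mul_conj, Complex.normSq_eq_norm_sq, hw]; norm_num
  have hlast : co b N x (2 * N) = 0 := by
    rw [co, if_neg (by omega), if_neg (by omega), zero_smul]
  have hlast1 : co b N x (2 * N + 1) = 0 := by
    rw [co, if_neg (by omega), if_neg (by omega), zero_smul]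
  have e1 : ev (shf (co b N x)) (2 * N + 2) w = w • ev (co b N x) (2 * N) w := by
    rw [ev_shf, ev_add_one _ _ _ hlast]
  have e2 : ev (shf (shf fun l => b (co b N x l))) (2 * N + 2) w =
      w • w • b (ev (co b N x) (2 * N) w) := by
    rw [ev_shf, ev_shf, ev_map]
  have e3 : ev (fun l => ContinuousLinearMap.adjoint b (co b N x l)) (2 * N + 2) w =
      ContinuousLinearMap.adjoint b (ev (co b N x) (2 * N) w) := by
    rw [ev_add_one _ _ _ (by rw [hlast1, map_zero]), ev_add_one _ _ _ (by rw [hlast, map_zero]),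
      ev_map]
  have e4 : ev (fun k => (2 : ℂ) • shf (co b N x) k - shf (shf fun l => b (co b N x l)) k -
      ContinuousLinearMap.adjoint b (co b N x k)) (2 * N + 2) w =
      (2 : ℂ) • ev (shf (co b N x)) (2 * N + 2) w -
        ev (shf (shf fun l => b (co b N x l))) (2 * N + 2) w -
        ev (fun l => ContinuousLinearMap.adjoint b (co b N x l)) (2 * N + 2) w := by
    unfold ev
    rw [Finset.smul_sum, ← Finset.sum_sub_distrib, ← Finset.sum_sub_distrib]
    refine Finset.sum_congr rfl fun k _ => ?_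
    rw [smul_sub, smul_sub, smul_comm]
  rw [e4, e1, e2, e3]
  have e5 : ContinuousLinearMap.adjoint b (ev (co b N x) (2 * N) w) =
      w • (starRingEnd ℂ) w • ContinuousLinearMap.adjoint b (ev (co b N x) (2 * N) w) := by
    rw [smul_smul, hww, one_smul]
  rw [e5, smul_comm (2 : ℂ) w, hnull, smul_add]
  abel

/-- the action of the adjoint on the orbit of `x` -/
lemma orbit [CompleteSpace H] (b : H →L[ℂ] H) (hb : ∀ u, ‖inner ℂ u (b u)‖ ≤ ‖u‖ ^ 2) (N : ℕ)
    (hN : 1 ≤ N) (x : H) (hx : ‖x‖ = 1) (h2 : ‖(b ^ N) x‖ = 2) :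
    ContinuousLinearMap.adjoint b x = 0 ∧ b ((b ^ N) x) = 0 ∧
      ∀ m, m < N → ContinuousLinearMap.adjoint b ((b ^ (m + 1)) x) =
        (((cw N m) ^ 2 : ℝ) : ℂ) • (b ^ m) x := by
  obtain ⟨y, hy⟩ : ∃ y : H, (b ^ N) x = (2 : ℂ) • y := ⟨(2 : ℂ)⁻¹ • (b ^ N) x, by
    rw [smul_smul, mul_inv_cancel₀ (by norm_num), one_smul]⟩
  have hy1 : ‖y‖ = 1 := by
    rw [hy, norm_smul] at h2
    have : ‖(2 : ℂ)‖ = 2 := by simp
    rw [this] at h2
    linarith
  have hr := rel b hb N hN x y hx hy1 hy
  have hs2 : Real.sqrt 2 ^ 2 = 2 := Real.sq_sqrt (by norm_num)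
  have c0 : co b N x 0 = x := by
    rw [co, if_pos (by omega), pow_zero, one_smul]
    rfl
  have r0 : ContinuousLinearMap.adjoint b x = 0 := by
    have h := hr 0 (by omega)
    simp only [shf, smul_zero, c0, zero_sub, neg_eq_zero] at h
    simpa using h
  have r1 : ContinuousLinearMap.adjoint b (co b N x 1) = (2 : ℂ) • x := by
    have h := hr 1 (by omega)
    simp only [shf, c0, sub_zero] at h
    exact (sub_eq_zero.1 h).symm
  have r2 : ∀ k, k < 2 * N → ContinuousLinearMap.adjoint b (co b N x (k + 2)) =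
      (2 : ℂ) • co b N x (k + 1) - b (co b N x k) := by
    intro k hk
    have h := hr (k + 2) (by omega)
    simp only [shf] at h
    exact (sub_eq_zero.1 h).symm
  have bs : ∀ k, b ((b ^ k) x) = (b ^ (k + 1)) x := by
    intro k
    rw [pow_succ' b k, mul_apply_eq_comp]
  refine ⟨r0, ?_, ?_⟩
  · rcases Nat.lt_or_ge 1 N with h1 | h1
    · -- N ≥ 2
      have h := r2 (N - 1) (by omega)
      have e1 : N - 1 + 2 = N + 1 := by omega
      have e2 : N - 1 + 1 = N := by omega
      rw [e1, e2, co, co, co, if_neg (by omega), if_pos (by omega), if_neg (by omega),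
        if_pos (by omega), if_pos (by omega), one_smul, bs, e2, smul_smul] at h
      have e3 : (2 : ℂ) * (1 / 2) = 1 := by norm_num
      rw [e3, one_smul, sub_self, map_smul] at h
      have h3 : ContinuousLinearMap.adjoint b ((b ^ (N + 1)) x) = 0 := by
        rcases smul_eq_zero.1 h with h4 | h4
        · norm_num at h4
        · exact h4
      rw [bs]
      have h5 : inner ℂ ((b ^ (N + 1)) x) ((b ^ (N + 1)) x) = (0 : ℂ) := by
        have h6 : inner ℂ (ContinuousLinearMap.adjoint b ((b ^ (N + 1)) x)) ((b ^ N) x) =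
            inner ℂ ((b ^ (N + 1)) x) (b ((b ^ N) x)) :=
          ContinuousLinearMap.adjoint_inner_left b _ _
        rw [h3, inner_zero_left, bs] at h6
        exact h6.symm
      exact inner_self_eq_zero.1 h5
    · have hN1 : N = 1 := by omega
      subst hN1
      have h := r2 1 (by omega)
      rw [co, co, co, if_neg (by omega), if_neg (by omega), if_neg (by omega), if_neg (by omega),
        if_neg (by omega), if_pos (by omega), zero_smul, zero_smul, map_zero, smul_zero,
        zero_sub, map_smul] at h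
      have h3 := neg_eq_zero.1 h.symm
      rcases smul_eq_zero.1 h3 with h4 | h4
      · norm_num at h4
      · exact h4
  · intro m hm
    rcases m with _ | j
    · rcases Nat.lt_or_ge 1 N with h1 | h1
      · have h3 := r1
        rw [co, if_pos h1, one_smul] at h3
        rw [zero_add, h3, cw, if_pos rfl, if_neg (by omega), mul_one, hs2, pow_zero]
        norm_num
      · have hN1 : N = 1 := by omega
        subst hN1
        have h3 := r1
        rw [co, if_neg (by omega), if_pos (by omega), map_smul] at h3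
        have h4 : ContinuousLinearMap.adjoint b ((b ^ 1) x) = (2 : ℂ) • (2 : ℂ) • x := by
          rw [← h3, smul_smul]
          norm_num
        rw [zero_add, h4, cw, if_pos rfl, if_pos rfl, mul_pow, hs2, pow_zero, smul_smul]
        norm_num
    · have h3 := r2 j (by omega)
      have cj : co b N x j = (b ^ j) x := by rw [co, if_pos (by omega), one_smul]
      have cj1 : co b N x (j + 1) = (b ^ (j + 1)) x := by rw [co, if_pos (by omega), one_smul]
      rw [cj, cj1, bs, two_smul, add_sub_cancel_right] at h3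
      rcases Nat.lt_or_ge (j + 2) N with h1 | h1
      · rw [co, if_pos h1, one_smul] at h3
        rw [h3, cw, if_neg (by omega), if_neg (by omega)]
        norm_num
      · have e1 : j + 1 + 1 = N := by omega
        rw [co, if_neg (by omega), if_pos (by omega), map_smul] at h3
        have h4 : ContinuousLinearMap.adjoint b ((b ^ (j + 1 + 1)) x) =
            (2 : ℂ) • (b ^ (j + 1)) x := by
          rw [← h3, smul_smul]
          norm_num
        rw [h4, cw, if_neg (by omega), if_pos e1, one_mul, hs2]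
        norm_num

end vec

end Pool.Agent.H243.CE.CRABB

namespace Pool.Agent.H243.CE

open CRABB in
theorem t_CRABB : S_CRABB := by
  intro H _ _ _ b N x hN hw hx h2
  have hb := inner_bound b hw
  obtain ⟨r0, rl, rm⟩ := orbit b hb N hN x hx h2
  have hcw : ∀ j, 0 < cw N j := by
    intro j
    unfold cw
    have h1 : 0 < Real.sqrt 2 := by positivity
    split_ifs <;> simp [h1]
  obtain ⟨W, hW⟩ : ∃ W : ℕ → ℝ, W = fun m => ∏ i ∈ Finset.range m, cw N i := ⟨_, rfl⟩
  have W0 : W 0 = 1 := by rw [hW]; simp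
  have Ws : ∀ m, W (m + 1) = W m * cw N m := by
    intro m
    rw [hW]
    exact Finset.prod_range_succ _ _
  have Wp : ∀ m, 0 < W m := by
    intro m
    rw [hW]
    exact Finset.prod_pos fun i _ => hcw i
  have Wc : ∀ m, ((W m : ℝ) : ℂ) ≠ 0 := fun m => by exact_mod_cast (Wp m).ne'
  have Cc : ∀ m, ((cw N m : ℝ) : ℂ) ≠ 0 := fun m => by exact_mod_cast (hcw m).ne'
  obtain ⟨f, hf⟩ : ∃ f : ℕ → H, f = fun m => ((W m : ℝ) : ℂ)⁻¹ • (b ^ m) x := ⟨_, rfl⟩
  have f0 : f 0 = x := by
    rw [hf]
    simp only [W0, pow_zero, Complex.ofReal_one, inv_one, one_smul]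
    rfl
  have bs : ∀ k, b ((b ^ k) x) = (b ^ (k + 1)) x := by
    intro k
    rw [pow_succ' b k, mul_apply_eq_comp]
  have fsh : ∀ m, b (f m) = ((cw N m : ℝ) : ℂ) • f (m + 1) := by
    intro m
    rw [hf]
    simp only
    rw [map_smul, bs, smul_smul, Ws, Complex.ofReal_mul]
    congr 1
    have := Wc m
    have := Cc m
    field_simp
  have fl : b (f N) = 0 := by
    rw [hf]
    simp only
    rw [map_smul, rl, smul_zero]
  have fad : ∀ m, m < N → ∀ u, inner ℂ (f (m + 1)) (b u) =
      ((cw N m : ℝ) : ℂ) * inner ℂ (f m) u := by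
    intro m hm u
    rw [hf]
    simp only
    rw [inner_smul_left, inner_smul_left, ← ContinuousLinearMap.adjoint_inner_left, rm m hm,
      inner_smul_left, Ws]
    simp only [map_inv₀, map_mul, Complex.conj_ofReal, Complex.ofReal_mul, Complex.ofReal_pow,
      map_pow]
    have := Wc m
    have := Cc m
    field_simp
  have fad0 : ∀ u, inner ℂ (f 0) (b u) = (0 : ℂ) := by
    intro u
    rw [f0, ← ContinuousLinearMap.adjoint_inner_left, r0, inner_zero_left]
  have frec : ∀ i j, i < N → ((cw N j : ℝ) : ℂ) * inner ℂ (f (i + 1)) (f (j + 1)) =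
      ((cw N i : ℝ) : ℂ) * inner ℂ (f i) (f j) := by
    intro i j hi
    rw [← fad i hi, fsh, inner_smul_right]
  have fnorm : ∀ i, i ≤ N → inner ℂ (f i) (f i) = (1 : ℂ) := by
    intro i
    induction i with
    | zero =>
      intro _
      rw [f0, inner_self_c, hx]
      norm_num
    | succ i ih =>
      intro hi
      have h := frec i i (by omega)
      rw [ih (by omega)] at h
      exact mul_left_cancel₀ (Cc i) h
  have forth : ∀ i, i ≤ N → ∀ j, i < j → inner ℂ (f i) (f j) = (0 : ℂ) := by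
    intro i
    induction i with
    | zero =>
      intro _ j hj
      obtain ⟨k, rfl⟩ : ∃ k, j = k + 1 := ⟨j - 1, by omega⟩
      have h := fad0 (f k)
      rw [fsh, inner_smul_right] at h
      exact (mul_eq_zero.1 h).resolve_left (Cc k)
    | succ i ih =>
      intro hi j hj
      obtain ⟨k, rfl⟩ : ∃ k, j = k + 1 := ⟨j - 1, by omega⟩
      have h := frec i k (by omega)
      rw [ih (by omega) k (by omega), mul_zero] at h
      exact (mul_eq_zero.1 h).resolve_left (Cc k)
  have hfN : (b ^ N) x = ((W N : ℝ) : ℂ) • f N := by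
    rw [hf]
    simp only
    rw [smul_smul, mul_inv_cancel₀ (Wc N), one_smul]
  have hWN : W N = 2 := by
    have h3 : ‖f N‖ = 1 := by
      have h4 := fnorm N le_rfl
      rw [inner_self_c] at h4
      have h5 : ‖f N‖ ^ 2 = 1 := by exact_mod_cast h4
      nlinarith [norm_nonneg (f N)]
    rw [hfN, norm_smul, h3, mul_one, Complex.norm_real, Real.norm_of_nonneg (Wp N).le] at h2
    exact h2
  refine ⟨fun i => f i, ⟨?_, ?_, ?_, ?_, ?_⟩, f0, ?_⟩
  · rw [orthonormal_iff_ite]
    intro i j
    rcases lt_trichotomy (i : ℕ) (j : ℕ) with h | h | h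
    · rw [if_neg (fun hij => by rw [hij] at h; exact lt_irrefl _ h)]
      exact forth i (by omega) j h
    · have hij : i = j := Fin.ext h
      rw [if_pos hij, hij]
      exact fnorm j (by omega)
    · rw [if_neg (fun hij => by rw [hij] at h; exact lt_irrefl _ h)]
      have h5 := forth j (by omega) i h
      rw [← inner_conj_symm, h5, map_zero]
  · intro j
    exact fsh j
  · exact fl
  · intro j u
    exact fad j j.2 u
  · exact fad0
  · rw [hfN, hWN]
    norm_num [Fin.val_last]

end Pool.Agent.H243.CE
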