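import Pool.Agent.H243.CE.Stmt

/-!
Project CE, task DATUM (helper52): curves around the numerical range.
-/

set_option autoImplicit false

open MeasureTheory Set Filter Topology Complex

namespace Pool.Agent.H243.CE

open Pool.Agent.W753.CZ (numRange)

namespace DATUM

open Pool.Agent.W753.CZ

open Polynomial in
/-- The datum of an envelope curve surrounding the numerical range. -/
theorem curve_datum {H : Type} [NormedAddCommGroup H] [InnerProductSpace ℂ H] [CompleteSpace H]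
    (A : H →L[ℂ] H) (Hf H1 H2 : ℝ → ℝ) (h1 : ∀ φ, HasDerivAt Hf (H1 φ) φ)
    (h2 : ∀ φ, HasDerivAt H1 (H2 φ) φ) (h2c : Continuous H2) (hp0 : Hf (2 * Real.pi) = Hf 0)
    (hp1 : H1 (2 * Real.pi) = H1 0) (hρ : ∀ φ, 0 ≤ Hf φ + H2 φ) (c : ℝ) (hc : 0 < c)
    (hcoer : ∀ (φ : ℝ) (u : H), (exp (-φ * I) * inner ℂ u (A u)).re ≤ (Hf φ - c) * ‖u‖ ^ 2)
    (L : ℝ) (hmass : ∫ φ in (0 : ℝ)..(2 * Real.pi), Hf φ ≤ L) (hbd : ∀ φ, ‖sg Hf H1 φ‖ ≤ L) :
    ∃ Y : ℝ → H →L[ℂ] H, Datum A L (sg Hf H1) (fun φ => Hf φ + H2 φ) Y := by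
  set π2 : ℝ := 2 * Real.pi with hπ2
  have hπ : (0 : ℝ) < π2 := by rw [hπ2]; positivity
  have hHc : Continuous Hf := continuous_iff_continuousAt.mpr fun φ => (h1 φ).continuousAt
  have hH1c : Continuous H1 := continuous_iff_continuousAt.mpr fun φ => (h2 φ).continuousAt
  set β : ℝ → ℂ := fun φ => (Hf φ : ℂ) + (H1 φ : ℂ) * I with hβ
  set B : ℝ → H →L[ℂ] H := fun φ => β φ • (1 : H →L[ℂ] H) - exp (-φ * I) • A with hB
  set B' : ℝ → H →L[ℂ] H := fun φ => ((H1 φ : ℂ) + (H2 φ : ℂ) * I) • (1 : H →L[ℂ] H)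
    - (-I * exp (-φ * I)) • A with hB'
  set ρ : ℝ → ℂ := fun φ => ((Hf φ + H2 φ : ℝ) : ℂ) with hρd
  have hder : ∀ φ, HasDerivAt B (B' φ) φ := by
    intro φ
    have e1 : HasDerivAt β ((H1 φ : ℂ) + (H2 φ : ℂ) * I) φ :=
      (h1 φ).ofReal_comp.add ((h2 φ).ofReal_comp.mul_const I)
    exact (e1.smul_const (1 : H →L[ℂ] H)).sub ((hasDerivAt_expI' φ).smul_const A)
  have hB'c : Continuous B' := by
    rw [hB']
    fun_prop
  have hBc : Continuous B := continuous_iff_continuousAt.mpr fun φ => (hder φ).continuousAt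
  have hper : B π2 = B 0 := by
    rw [hB, hβ]
    simp only
    rw [hp0, hp1]
    have : exp (-(π2 : ℂ) * I) = exp (-((0 : ℝ) : ℂ) * I) := by
      rw [hπ2]
      push_cast
      rw [neg_mul, Complex.exp_neg, Complex.exp_two_pi_mul_I]
      simp
    rw [this]
  have hreB : ∀ φ u, c * ‖u‖ ^ 2 ≤ (inner ℂ u (B φ u)).re := by
    intro φ u
    have e : (inner ℂ u (B φ u)).re = Hf φ * ‖u‖ ^ 2 - (exp (-φ * I) * inner ℂ u (A u)).re := by
      rw [hB, hβ]
      simp only [sub_apply, smul_apply, inner_sub_right, inner_smul_right, sub_re]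
      have e1 : inner ℂ u ((1 : H →L[ℂ] H) u) = ((‖u‖ ^ 2 : ℝ) : ℂ) := by
        rw [one_apply_eq_self, inner_self_eq_norm_sq_to_K]
        norm_cast
      have e2 : (((Hf φ : ℂ) + (H1 φ : ℂ) * I) * ((‖u‖ ^ 2 : ℝ) : ℂ)).re = Hf φ * ‖u‖ ^ 2 := by
        rw [mul_comm, re_ofReal_mul]
        simp
        ring
      rw [e1, e2]
    rw [e]
    have := hcoer φ u
    linarith
  have hunit : ∀ t ∈ Icc (0 : ℝ) 1, ∀ φ, IsUnit ((1 - t) • (1 : H →L[ℂ] H) + t • B φ) := by
    intro t ht φ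
    have hmin : 0 < min 1 c := lt_min one_pos hc
    apply ContinuousLinearMap.isUnit_of_forall_le_norm_inner_map _ (c := ⟨min 1 c, hmin.le⟩) hmin
    intro u
    have e0 : (inner ℂ u (((1 - t) • (1 : H →L[ℂ] H) + t • B φ) u)).re =
        (1 - t) * ‖u‖ ^ 2 + t * (inner ℂ u (B φ u)).re := by
      rw [add_apply, smul_apply, smul_apply, inner_add_right, one_apply_eq_self,
        add_re, ← Complex.coe_smul, ← Complex.coe_smul, inner_smul_right, inner_smul_right,
        re_ofReal_mul, re_ofReal_mul, inner_self_eq_norm_sq_to_K]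
      norm_cast
    have e1 : min 1 c * ‖u‖ ^ 2 ≤ (inner ℂ u (((1 - t) • (1 : H →L[ℂ] H) + t • B φ) u)).re := by
      rw [e0]
      have h3 := hreB φ u
      have h4 : min 1 c ≤ 1 := min_le_left _ _
      have h5 : min 1 c ≤ c := min_le_right _ _
      have h6 := sq_nonneg ‖u‖
      have h7 : min 1 c * ‖u‖ ^ 2 ≤ c * ‖u‖ ^ 2 := by gcongr
      have h8 : min 1 c * ‖u‖ ^ 2 ≤ 1 * ‖u‖ ^ 2 := by gcongr
      nlinarith [ht.1, ht.2]
    calc ‖u‖ ^ 2 * min 1 c = min 1 c * ‖u‖ ^ 2 := mul_comm _ _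
      _ ≤ _ := e1
      _ ≤ ‖inner ℂ u (((1 - t) • (1 : H →L[ℂ] H) + t • B φ) u)‖ := re_le_norm _
      _ = _ := norm_inner_symm _ _
  have hunitB : ∀ φ, IsUnit (B φ) := by
    intro φ
    have := hunit 1 (by simp) φ
    simpa using this
  set N : ℝ → H →L[ℂ] H := fun φ => Ring.inverse (B φ) with hN
  have hBN : ∀ φ, B φ * N φ = 1 := fun φ => Ring.mul_inverse_cancel _ (hunitB φ)
  have hNB : ∀ φ, N φ * B φ = 1 := fun φ => Ring.inverse_mul_cancel _ (hunitB φ)
  have hNc : Continuous N := by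
    rw [continuous_iff_continuousAt]
    intro φ
    obtain ⟨u, hu⟩ := hunitB φ
    have h1 : ContinuousAt Ring.inverse (B φ) := by
      have := NormedRing.inverse_continuousAt u
      rw [hu] at this
      exact this
    exact h1.comp hBc.continuousAt
  set X : ℝ → H →L[ℂ] H := fun φ => ρ φ • N φ with hX
  have hXc : Continuous X := by
    have : Continuous ρ := by rw [hρd]; fun_prop
    exact this.smul hNc
  have hXre : ∀ φ u, 0 ≤ (inner ℂ u (X φ u)).re := by
    intro φ u
    rw [hX, hρd]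
    simp only
    rw [smul_apply, inner_smul_right, re_ofReal_mul]
    apply mul_nonneg (hρ φ)
    have h3 := hreB φ (N φ u)
    have h4 : B φ (N φ u) = u := by
      have := congrArg (fun Y : H →L[ℂ] H => Y u) (hBN φ)
      simpa using this
    rw [h4] at h3
    have h5 : (inner ℂ u (N φ u)).re = (inner ℂ (N φ u) u).re := inner_re_symm (𝕜 := ℂ) _ _
    rw [h5]
    exact le_trans (by positivity) h3
  have hBB' : ∀ φ, B' φ = (I * ρ φ) • (1 : H →L[ℂ] H) - I • B φ := by
    intro φ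
    rw [hB', hB, hβ, hρd]
    simp only
    push_cast
    rw [smul_sub, smul_smul, smul_smul, sub_sub_eq_add_sub, add_comm _ ((I * exp (-φ * I)) • A),
      add_sub_assoc, ← sub_smul]
    rw [neg_mul, neg_smul, sub_neg_eq_add, add_comm]
    congr 2
    linear_combination (H1 φ : ℂ) * I_sq
  have hlog : ∫ φ in (0 : ℝ)..π2, B' φ * N φ = 0 := by
    apply logder_zero B B' 0 π2 hder hB'c hper hunit
    intro φ
    rw [hBB']
    exact (((Commute.one_left _).smul_left _)).sub_left ((Commute.refl _).smul_left _)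
  have hBN' : ∀ φ, B' φ * N φ = I • X φ - I • (1 : H →L[ℂ] H) := by
    intro φ
    rw [hBB' φ, sub_mul, smul_mul_assoc, smul_mul_assoc, one_mul, hBN, hX]
    simp only
    rw [smul_smul]
  have hXint : ∫ φ in (0 : ℝ)..π2, X φ = (π2 : ℂ) • (1 : H →L[ℂ] H) := by
    have e1 : ∫ φ in (0 : ℝ)..π2, (I • X φ - I • (1 : H →L[ℂ] H)) = 0 := by
      rw [← hlog]
      exact intervalIntegral.integral_congr fun φ _ => (hBN' φ).symm
    have hi1 : IntervalIntegrable (fun φ => I • X φ) volume 0 π2 :=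
      Continuous.intervalIntegrable (by fun_prop) _ _
    rw [intervalIntegral.integral_sub hi1
      (continuous_const.intervalIntegrable _ _), intervalIntegral.integral_smul,
      intervalIntegral.integral_const, sub_zero] at e1
    have e2 : I • (∫ φ in (0 : ℝ)..π2, X φ) = I • ((π2 : ℂ) • (1 : H →L[ℂ] H)) := by
      rw [sub_eq_zero.mp e1, smul_comm, Complex.coe_smul]
    have e3 := congrArg (fun Y => (-I) • Y) e2
    simpa [smul_smul] using e3
  set s : ℝ → ℂ := sg Hf H1 with hs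
  have hsd : ∀ φ : ℝ, HasDerivAt s (I * exp (φ * I) * ρ φ) φ := sg_deriv Hf H1 H2 h1 h2
  have hsc : Continuous s := continuous_iff_continuousAt.mpr fun φ => (hsd φ).continuousAt
  have hsper : s π2 = s 0 := by
    rw [hs]
    unfold sg
    rw [hp0, hp1, hπ2]
    push_cast
    rw [Complex.exp_two_pi_mul_I]
    simp
  have hρc : Continuous ρ := by rw [hρd]; fun_prop
  have hexpc : Continuous (fun φ : ℝ => exp ((φ : ℂ) * I)) := by fun_prop
  have hmom0 : ∀ n : ℕ, ∫ φ in (0 : ℝ)..π2, s φ ^ n * ρ φ * exp (φ * I) = 0 := by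
    intro n
    have hd : ∀ φ ∈ uIcc (0 : ℝ) π2, HasDerivAt (fun φ => -I * (s φ ^ (n + 1) / ((n : ℂ) + 1)))
        (s φ ^ n * ρ φ * exp (φ * I)) φ := by
      intro φ _
      have := (((hsd φ).pow (n + 1)).div_const ((n : ℂ) + 1)).const_mul (-I)
      refine this.congr_deriv ?_
      have hn : (n : ℂ) + 1 ≠ 0 := Nat.cast_add_one_ne_zero n
      rw [Nat.add_sub_cancel]
      push_cast
      calc -I * (((n : ℂ) + 1) * s φ ^ n * (I * exp (φ * I) * ρ φ) / ((n : ℂ) + 1)) =
            (-(I ^ 2)) * (s φ ^ n * ρ φ * exp (φ * I)) * (((n : ℂ) + 1) / ((n : ℂ) + 1)) := by ring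
        _ = _ := by rw [div_self hn, I_sq]; ring
    rw [intervalIntegral.integral_eq_sub_of_hasDerivAt hd
      (by apply Continuous.intervalIntegrable; fun_prop)]
    rw [hsper, sub_self]
  have hsN : ∀ φ, s φ • N φ = exp (φ * I) • (1 : H →L[ℂ] H) + A * N φ := by
    intro φ
    have e1 : s φ • (1 : H →L[ℂ] H) - A = exp (φ * I) • B φ := by
      rw [hB, hs]
      unfold sg
      simp only
      rw [smul_sub, smul_smul, smul_smul, ← Complex.exp_add, neg_mul, add_neg_cancel,
        Complex.exp_zero, one_smul]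
    have e2 : (s φ • (1 : H →L[ℂ] H) - A) * N φ = (exp (φ * I) • B φ) * N φ := by rw [e1]
    rw [sub_mul, smul_mul_assoc, smul_mul_assoc, one_mul, hBN] at e2
    rw [← e2]
    abel
  have hmon : ∀ n : ℕ, ∫ φ in (0 : ℝ)..π2, s φ ^ n • X φ = (π2 : ℂ) • A ^ n := by
    intro n
    induction n with
    | zero => simpa using hXint
    | succ n ih =>
      have e1 : ∀ φ, s φ ^ (n + 1) • X φ = (s φ ^ n * ρ φ * exp (φ * I)) • (1 : H →L[ℂ] H)
          + A * (s φ ^ n • X φ) := by
        intro φ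
        have : s φ ^ (n + 1) • X φ = (s φ ^ n * ρ φ) • (s φ • N φ) := by
          show s φ ^ (n + 1) • (ρ φ • N φ) = _
          rw [smul_smul, smul_smul]
          congr 1
          ring
        rw [this, hsN, smul_add, smul_smul]
        show _ = _ + A * (s φ ^ n • (ρ φ • N φ))
        rw [smul_smul, mul_smul_comm]
      rw [intervalIntegral.integral_congr (fun φ _ => e1 φ), intervalIntegral.integral_add
        (by apply Continuous.intervalIntegrable; fun_prop)
        (by apply Continuous.intervalIntegrable; fun_prop)]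
      have e2 : ∫ φ in (0 : ℝ)..π2, (s φ ^ n * ρ φ * exp (φ * I)) • (1 : H →L[ℂ] H) = 0 := by
        rw [intervalIntegral.integral_smul_const, hmom0, zero_smul]
      have e3 : ∫ φ in (0 : ℝ)..π2, A * (s φ ^ n • X φ) = A * ((π2 : ℂ) • A ^ n) := by
        rw [← ih]
        exact ContinuousLinearMap.intervalIntegral_comp_comm
          (ContinuousLinearMap.mul ℂ (H →L[ℂ] H) A)
          (by apply Continuous.intervalIntegrable; fun_prop)
      rw [e2, e3, zero_add, mul_smul_comm, pow_succ']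
  have hpoly : ∀ q : ℂ[X], ∫ φ in (0 : ℝ)..π2, q.eval (s φ) • X φ = (π2 : ℂ) • aeval A q := by
    intro q
    induction q using Polynomial.induction_on' with
    | add q r hq hr =>
      simp only [eval_add, add_smul, map_add, smul_add]
      rw [intervalIntegral.integral_add (by apply Continuous.intervalIntegrable; fun_prop)
        (by apply Continuous.intervalIntegrable; fun_prop), hq, hr]
    | monomial n a =>
      simp only [eval_monomial, aeval_monomial, mul_smul]
      rw [intervalIntegral.integral_smul, hmon, smul_comm, Algebra.algebraMap_eq_smul_one,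
        smul_mul_assoc, one_mul]
  have hcm : ∀ φ, A * X φ = X φ * A := by
    intro φ
    have e1 : Commute A (B φ) := by
      rw [hB]
      exact ((Commute.one_right A).smul_right _).sub_right ((Commute.refl A).smul_right _)
    have e2 : Commute A (N φ) := by
      show A * N φ = N φ * A
      calc A * N φ = (N φ * B φ) * (A * N φ) := by rw [hNB, one_mul]
        _ = N φ * (B φ * A) * N φ := by simp only [mul_assoc]
        _ = N φ * (A * B φ) * N φ := by rw [e1.eq]
        _ = N φ * A * (B φ * N φ) := by simp only [mul_assoc]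
        _ = N φ * A := by rw [hBN, mul_one]
    exact (e2.smul_right (ρ φ)).eq
  have hsB : ∀ φ, s φ • (1 : H →L[ℂ] H) - A = exp (φ * I) • B φ := by
    intro φ
    rw [hB, hs]
    unfold sg
    simp only
    rw [smul_sub, smul_smul, smul_smul, ← Complex.exp_add, neg_mul, add_neg_cancel,
      Complex.exp_zero, one_smul]
  have hexp1 : ∀ φ : ℝ, exp (-φ * I) * exp (φ * I) = 1 := by
    intro φ
    rw [← Complex.exp_add, neg_mul, neg_add_cancel, Complex.exp_zero]
  refine ⟨X, hsc, by fun_prop, hXc, hρ, hXre, hcm, ?_, ?_, hpoly, ?_, hbd⟩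
  · intro φ u
    have e1 : s φ • X φ u - A (X φ u) = ((s φ • (1 : H →L[ℂ] H) - A) * X φ) u := by
      simp
    have e2 : (s φ • (1 : H →L[ℂ] H) - A) * X φ = (ρ φ * exp (φ * I)) • (1 : H →L[ℂ] H) := by
      rw [hsB]
      show (exp (φ * I) • B φ) * (ρ φ • N φ) = _
      rw [smul_mul_assoc, mul_smul_comm, hBN, smul_smul, mul_comm]
    rw [e1, e2]
    simp [hρd]
  · intro φ u
    have e1 : exp (-φ * I) * (s φ * (‖u‖ : ℂ) ^ 2 - inner ℂ u (A u)) = inner ℂ u (B φ u) := by
      have e2 : inner ℂ u ((s φ • (1 : H →L[ℂ] H) - A) u) = s φ * (‖u‖ : ℂ) ^ 2 - inner ℂ u (A u) := by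
        rw [sub_apply, smul_apply, one_apply_eq_self, inner_sub_right, inner_smul_right,
          inner_self_eq_norm_sq_to_K]
        rfl
      rw [← e2, hsB, smul_apply, inner_smul_right, ← mul_assoc, hexp1, one_mul]
    rw [e1]
    exact le_trans (by positivity) (hreB φ u)
  · have e1 : ∫ φ in (0 : ℝ)..π2, (Hf φ + H2 φ) =
        (∫ φ in (0 : ℝ)..π2, Hf φ) + ∫ φ in (0 : ℝ)..π2, H2 φ :=
      intervalIntegral.integral_add (hHc.intervalIntegrable _ _) (h2c.intervalIntegrable _ _)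
    have e2 : ∫ φ in (0 : ℝ)..π2, H2 φ = H1 π2 - H1 0 :=
      intervalIntegral.integral_eq_sub_of_hasDerivAt (fun φ _ => h2 φ)
        (h2c.intervalIntegrable _ _)
    rw [e1, e2, hp1, sub_self, add_zero]
    exact hmass

end DATUM

open DATUM Pool.Agent.W753.CZ in
/-- (CE1) existence of the curves -/
theorem t_DATUM : S_DATUM := by
  intro H _ _ _ _ A
  set W := Pool.Agent.W753.CZ.numRange A with hWd
  set R := ‖A‖ with hR
  have hR0 : 0 ≤ R := norm_nonneg _
  have hW : ∀ w ∈ W, ‖w‖ ≤ R := numRange_norm A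
  have hne : W.Nonempty := numRange_nonempty A
  have hconv : Convex ℝ W := H640R2.PhaseMu.toeplitz_hausdorff A
  obtain ⟨hb, hL, hper, hcos⟩ := supp_props hW hne
  have hnum : ∀ (φ : ℝ) (u : H), (Complex.exp (-φ * Complex.I) * inner ℂ u (A u)).re ≤
      supp W φ * ‖u‖ ^ 2 := by
    intro φ u
    by_cases hu : u = 0
    · simp [hu]
    have hn : ‖u‖ ≠ 0 := norm_ne_zero_iff.mpr hu
    set x : H := ((‖u‖⁻¹ : ℝ) : ℂ) • u with hx
    have hx1 : ‖x‖ = 1 := by
      rw [hx, norm_smul, Complex.norm_real, norm_inv, norm_norm, inv_mul_cancel₀ hn]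
    have h1 := le_supp hW φ (w := inner ℂ x (A x)) ⟨x, hx1, rfl⟩
    have h2 : inner ℂ x (A x) = (((‖u‖⁻¹) ^ 2 : ℝ) : ℂ) * inner ℂ u (A u) := by
      rw [hx, map_smul, inner_smul_left, inner_smul_right, Complex.conj_ofReal]
      push_cast
      ring
    rw [h2, mul_left_comm, Complex.re_ofReal_mul] at h1
    have h3 : 0 < ‖u‖ ^ 2 := by positivity
    calc (Complex.exp (-φ * Complex.I) * inner ℂ u (A u)).re =
        ((‖u‖⁻¹) ^ 2 * (Complex.exp (-φ * Complex.I) * inner ℂ u (A u)).re) * ‖u‖ ^ 2 := by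
          field_simp
      _ ≤ supp W φ * ‖u‖ ^ 2 := by gcongr
  have hpi := Real.pi_pos
  refine ⟨2 * Real.pi * (7 * R + 1) + 7 * R + 3, by positivity, ?_⟩
  intro δ hδ0 hδ1
  obtain ⟨Hf, H1, H2, h1, h2, h2c, hp0, hp1, hρ, hlow, hup⟩ :=
    smooth_support (supp W) R hR0 hb hL hper hcos δ hδ0 hδ1
  have hnear : ∀ φ, Metric.infDist (sg Hf H1 φ) W ≤ (6 * R + 1) * δ := by
    intro φ
    apply near_convex hW hne hconv _ (by positivity)
    intro ψ
    exact (curve_support Hf H1 H2 h1 h2 hp0 hρ φ ψ).trans (hup ψ)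
  have hHle : ∀ φ, Hf φ ≤ 7 * R + 1 := by
    intro φ
    have e1 := hup φ
    have e2 := (abs_le.mp (hb φ)).2
    have e3 : (6 * R + 1) * δ ≤ (6 * R + 1) * 1 := by gcongr
    linarith
  have hHc : Continuous Hf := continuous_iff_continuousAt.mpr fun φ => (h1 φ).continuousAt
  have hmass : ∫ φ in (0 : ℝ)..(2 * Real.pi), Hf φ ≤ 2 * Real.pi * (7 * R + 1) + 7 * R + 3 := by
    have e1 : ∫ φ in (0 : ℝ)..(2 * Real.pi), Hf φ ≤
        ∫ φ in (0 : ℝ)..(2 * Real.pi), (7 * R + 1) :=
      intervalIntegral.integral_mono_on (by positivity) (hHc.intervalIntegrable _ _)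
        (continuous_const.intervalIntegrable _ _) (fun φ _ => hHle φ)
    rw [intervalIntegral.integral_const, sub_zero, smul_eq_mul] at e1
    linarith
  have hbd : ∀ φ, ‖sg Hf H1 φ‖ ≤ 2 * Real.pi * (7 * R + 1) + 7 * R + 3 := by
    intro φ
    have e3 : (6 * R + 1) * δ ≤ (6 * R + 1) * 1 := by gcongr
    have e4 : Metric.infDist (sg Hf H1 φ) W < 6 * R + 2 := by
      linarith [hnear φ]
    obtain ⟨w, hw, hd⟩ := (Metric.infDist_lt_iff hne).1 e4
    have e5 : ‖sg Hf H1 φ‖ ≤ ‖w‖ + dist (sg Hf H1 φ) w := by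
      rw [dist_eq_norm]
      calc ‖sg Hf H1 φ‖ = ‖w + (sg Hf H1 φ - w)‖ := by ring_nf
        _ ≤ _ := norm_add_le _ _
    have e6 := hW w hw
    have e7 : 0 ≤ 2 * Real.pi * (7 * R + 1) := by positivity
    linarith
  obtain ⟨Y, hY⟩ := curve_datum A Hf H1 H2 h1 h2 h2c
    (by have := hp0 0; rwa [zero_add] at this)
    (by have := hp1 0; rwa [zero_add] at this) hρ ((2 * R + 1) * δ) (by positivity)
    (fun φ u => by
      refine (hnum φ u).trans ?_
      gcongr
      linarith [hlow φ]) _ hmass hbd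
  refine ⟨_, _, Y, hY, fun φ => (hnear φ).trans ?_⟩
  have e7 : 0 ≤ 2 * Real.pi * (7 * R + 1) := by positivity
  exact mul_le_mul_of_nonneg_right (by linarith) hδ0.le

end Pool.Agent.H243.CE
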