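import Pool.Agent.H243.CE.Stmt

/-!
(CE10) The polynomial `Dp` does not vanish: comparison of degrees.
-/

set_option autoImplicit false

open MeasureTheory Set Filter Topology Polynomial

namespace Pool.Agent.H243.CE

namespace DNZ

variable {H : Type} [NormedAddCommGroup H] [InnerProductSpace ℂ H]

theorem psi_natDegree (A : H →L[ℂ] H) (f : ℂ[X]) (u v : H) :
    (psi A f u v).natDegree ≤ f.natDegree - 1 := by
  unfold psi
  refine natDegree_sum_le_of_forall_le _ _ fun k hk => ?_
  rw [Finset.mem_range] at hk
  refine (natDegree_C_mul_le _ _).trans ?_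
  refine natDegree_sum_le_of_forall_le _ _ fun i hi => ?_
  rw [Finset.mem_range] at hi
  refine (natDegree_C_mul_X_pow_le _ _).trans ?_
  omega

theorem psi_coeff (A : H →L[ℂ] H) (f : ℂ[X]) (hN : 1 ≤ f.natDegree) (u v : H) :
    (psi A f u v).coeff (f.natDegree - 1) = f.coeff f.natDegree * inner ℂ u v := by
  have hin : ∀ k, k ≤ f.natDegree → (∑ i ∈ Finset.range k,
      C (inner ℂ u ((A ^ (k - 1 - i)) v)) * X ^ i : ℂ[X]).coeff (f.natDegree - 1) =
      if k = f.natDegree then inner ℂ u v else 0 := by
    intro k hk
    rw [finsetSum_coeff]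
    by_cases h : k = f.natDegree
    · rw [if_pos h]
      subst h
      rw [Finset.sum_eq_single_of_mem (f.natDegree - 1) (Finset.mem_range.2 (by omega))]
      · rw [coeff_C_mul, coeff_X_pow, if_pos rfl, mul_one, Nat.sub_self, pow_zero]
        rfl
      · intro i _ hne
        rw [coeff_C_mul, coeff_X_pow, if_neg (Ne.symm hne), mul_zero]
    · rw [if_neg h]
      refine Finset.sum_eq_zero fun i hi => ?_
      rw [Finset.mem_range] at hi
      rw [coeff_C_mul, coeff_X_pow, if_neg (by omega), mul_zero]
  unfold psi
  rw [finsetSum_coeff, Finset.sum_eq_single_of_mem f.natDegree (Finset.mem_range.2 (by omega))]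
  · rw [coeff_C_mul, hin _ le_rfl, if_pos rfl]
  · intro k hk hne
    rw [Finset.mem_range] at hk
    rw [coeff_C_mul, hin k (by omega), if_neg hne, mul_zero]

end DNZ

open DNZ in
/-- (CE10) the polynomial `Dp` does not vanish -/
theorem t_DNZ : S_DNZ := by
  intro H _ _ A f x y hx hy hN h0
  have hf0 : f ≠ 0 := by
    rintro rfl
    rw [natDegree_zero] at hN
    omega
  have ha : f.coeff f.natDegree ≠ 0 := by
    rw [coeff_natDegree]
    exact leadingCoeff_ne_zero.2 hf0
  have hexp : f ^ 2 * psi A f y x + f * (psi A f y y + psi A f x x) + psi A f x y = 0 := by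
    rw [← h0]
    unfold Dp
    ring
  have hq : (f * (psi A f y y + psi A f x x)).natDegree ≤ f.natDegree + (f.natDegree - 1) := by
    refine natDegree_mul_le.trans (Nat.add_le_add_left ?_ _)
    exact (natDegree_add_le _ _).trans (max_le (psi_natDegree _ _ _ _) (psi_natDegree _ _ _ _))
  have hxy := psi_natDegree A f x y
  by_cases hyx : psi A f y x = 0
  · rw [hyx, mul_zero, zero_add] at hexp
    have hc : (psi A f y y + psi A f x x).coeff (f.natDegree - 1) ≠ 0 := by
      rw [coeff_add, psi_coeff A f hN, psi_coeff A f hN, inner_self_eq_norm_sq_to_K,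
        inner_self_eq_norm_sq_to_K, hx, hy]
      have h2 : f.coeff f.natDegree * (((1 : ℝ) : ℂ)) ^ 2 +
          f.coeff f.natDegree * (((1 : ℝ) : ℂ)) ^ 2 = 2 * f.coeff f.natDegree := by
        push_cast
        ring
      intro h3
      apply mul_ne_zero two_ne_zero ha
      rw [← h2]
      exact h3
    have hne : psi A f y y + psi A f x x ≠ 0 := by
      intro h
      rw [h, coeff_zero] at hc
      exact hc rfl
    have h3 : f * (psi A f y y + psi A f x x) = -psi A f x y := eq_neg_of_add_eq_zero_left hexp
    have h4 := congrArg natDegree h3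
    rw [natDegree_neg, natDegree_mul hf0 hne] at h4
    omega
  · have h3 : f ^ 2 * psi A f y x = -(f * (psi A f y y + psi A f x x) + psi A f x y) := by
      rw [add_assoc] at hexp
      exact eq_neg_of_add_eq_zero_left hexp
    have h4 := congrArg natDegree h3
    rw [natDegree_neg, natDegree_mul (pow_ne_zero 2 hf0) hyx, natDegree_pow] at h4
    have h5 := natDegree_add_le (f * (psi A f y y + psi A f x x)) (psi A f x y)
    have h6 := max_le hq (hxy.trans (Nat.le_add_left (f.natDegree - 1) f.natDegree))
    omega

end Pool.Agent.H243.CE
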