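import Pool.Agent.H243.CE.All
import Pool.Agent.H243.CE.CRABB
import Pool.Agent.H243.CE.BPOW

/-!
# The equality case for `q = 1`, with the structure of the operator
-/

set_option autoImplicit false

open MeasureTheory Set Filter Topology Polynomial

namespace Pool.Agent.H243.CE

open Pool.Agent.W753.CZ (numRange)

noncomputable section

theorem block_smul {H : Type} [NormedAddCommGroup H] [InnerProductSpace ℂ H] {b B : H →L[ℂ] H}
    {N : ℕ} {w : ℕ → ℝ} {e : Fin (N + 1) → H} (r : ℝ) (hB : B = ((r : ℝ) : ℂ) • b)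
    (h : Block b N w e) : Block B N (fun j => r * w j) e where
  on := h.on
  sh j := by
    rw [hB, _root_.smul_apply, h.sh j, smul_smul, Complex.ofReal_mul]
  last := by rw [hB, _root_.smul_apply, h.last, smul_zero]
  ad j u := by
    rw [hB, _root_.smul_apply, inner_smul_right, h.ad j u, Complex.ofReal_mul]
    ring
  ad0 u := by rw [hB, _root_.smul_apply, inner_smul_right, h.ad0 u, mul_zero]

theorem exists_root' {N : ℕ} (hN : 1 ≤ N) {a : ℝ} (ha : 0 < a) : ∃ r : ℝ, 0 < r ∧ r ^ N = a := by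
  refine ⟨a ^ ((N : ℝ)⁻¹), by positivity, ?_⟩
  rw [← Real.rpow_natCast, ← Real.rpow_mul ha.le, inv_mul_cancel₀ (by positivity), Real.rpow_one]

/-- the norm is attained -/
theorem exists_attain {E : Type} [NormedAddCommGroup E] [InnerProductSpace ℂ E]
    [FiniteDimensional ℂ E] [Nontrivial E] (T : E →L[ℂ] E) : ∃ x : E, ‖x‖ = 1 ∧ ‖T x‖ = ‖T‖ := by
  have : ProperSpace E := FiniteDimensional.proper ℂ E
  obtain ⟨x0, hx0⟩ := exists_norm_eq E zero_le_one
  obtain ⟨x, hx, hmax⟩ := (isCompact_sphere (0 : E) 1).exists_isMaxOn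
    ⟨x0, by rw [mem_sphere_zero_iff_norm]; exact hx0⟩ (f := fun x => ‖T x‖)
    (T.continuous.norm.continuousOn)
  rw [mem_sphere_zero_iff_norm] at hx
  refine ⟨x, hx, le_antisymm ?_ ?_⟩
  · have := T.le_opNorm x
    rwa [hx, mul_one] at this
  · refine T.opNorm_le_of_unit_norm (norm_nonneg _) fun z hz => ?_
    exact hmax (by rw [mem_sphere_zero_iff_norm]; exact hz)

theorem one_case {E : Type} [NormedAddCommGroup E] [InnerProductSpace ℂ E]
    [FiniteDimensional ℂ E] (A : E →L[ℂ] E) (p : ℂ[X]) (x : E)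
    (hp : ∀ w ∈ numRange A, ‖p.eval w‖ ≤ 1) (hx : ‖x‖ = 1) (hpx : ‖(aeval A p) x‖ = 2) :
    ∃ (N : ℕ) (c α : ℂ) (r : ℝ) (e : Fin (N + 1) → E), 1 ≤ N ∧ p = C c * (X - C α) ^ N ∧ 0 < r ∧
      ‖c‖ * r ^ N = 1 ∧ numRange A = Metric.closedBall α r ∧
      Block (A - α • (1 : E →L[ℂ] E)) N (fun j => r * cw N j) e := by
  have : CompleteSpace E := FiniteDimensional.complete ℂ E
  obtain ⟨hN, c, α, hpc⟩ := t_ALLCASE E A p x hp hx hpx
  set N := p.natDegree with hNd
  have hc0 : c ≠ 0 := by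
    rintro rfl
    have h0 : p.natDegree = 0 := by
      rw [hpc, C_0, zero_mul]; exact natDegree_zero
    omega
  have hcn : 0 < ‖c‖ := norm_pos_iff.2 hc0
  obtain ⟨r, hr0, hrN⟩ := exists_root' hN (inv_pos.2 hcn)
  have hcr : ‖c‖ * r ^ N = 1 := by rw [hrN, mul_inv_cancel₀ hcn.ne']
  have hrc : (r : ℂ) ≠ 0 := by exact_mod_cast hr0.ne'
  set b : E →L[ℂ] E := ((r⁻¹ : ℝ) : ℂ) • (A - α • (1 : E →L[ℂ] E)) with hb
  have hAb : A - α • (1 : E →L[ℂ] E) = ((r : ℝ) : ℂ) • b := by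
    rw [hb, smul_smul, ← Complex.ofReal_mul, mul_inv_cancel₀ hr0.ne', Complex.ofReal_one, one_smul]
  have hev : ∀ w : ℂ, ‖p.eval w‖ = ‖c‖ * ‖w - α‖ ^ N := by
    intro w
    rw [hpc]
    simp [norm_pow]
  have hball : ∀ w : ℂ, ‖p.eval w‖ ≤ 1 → ‖w - α‖ ≤ r := by
    intro w hw
    rw [hev, ← hcr] at hw
    have h1 : ‖w - α‖ ^ N ≤ r ^ N := le_of_mul_le_mul_left hw hcn
    exact le_of_pow_le_pow_left₀ (by omega) hr0.le h1
  have hbu : ∀ u : E, ‖u‖ = 1 → inner ℂ u (b u) = ((r⁻¹ : ℝ) : ℂ) * (inner ℂ u (A u) - α) := by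
    intro u hu
    have huu : inner ℂ u u = (1 : ℂ) := by
      rw [inner_self_eq_norm_sq_to_K, hu]; norm_num
    rw [hb, _root_.smul_apply, inner_smul_right, _root_.sub_apply, inner_sub_right,
      _root_.smul_apply, one_apply_eq_self, inner_smul_right, huu, mul_one]
  have hbw : ∀ w ∈ numRange b, ‖w‖ ≤ 1 := by
    rintro w ⟨u, hu, rfl⟩
    rw [hbu u hu, norm_mul, Complex.norm_real, Real.norm_of_nonneg (by positivity)]
    have h1 := hball _ (hp _ ⟨u, hu, rfl⟩)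
    rw [inv_mul_le_iff₀ hr0, mul_one]
    exact h1
  have hpA : aeval A p = c • (A - α • (1 : E →L[ℂ] E)) ^ N := by
    conv_lhs => rw [hpc]
    rw [map_mul, map_pow, map_sub, aeval_X, aeval_C, aeval_C, ← Algebra.smul_def,
      Algebra.algebraMap_eq_smul_one]
  have hbN : ‖(b ^ N) x‖ = 2 := by
    have h1 : (aeval A p) x = (c * (r : ℂ) ^ N) • (b ^ N) x := by
      rw [hpA, hAb, _root_.smul_pow, smul_smul, _root_.smul_apply]
    have h2 : ‖c * (r : ℂ) ^ N‖ = 1 := by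
      rw [norm_mul, norm_pow, Complex.norm_real, Real.norm_of_nonneg hr0.le, hcr]
    rw [h1, norm_smul, h2, one_mul] at hpx
    exact hpx
  obtain ⟨e, he, -, -⟩ := t_CRABB E b N x hN hbw hx hbN
  have hdisc := t_DISC E b N x hN hbw hx hbN
  refine ⟨N, c, α, r, e, hN, hpc, hr0, hcr, ?_, block_smul r hAb he⟩
  apply Set.Subset.antisymm
  · intro w hw
    rw [mem_closedBall_iff_norm]
    exact hball w (hp w hw)
  · intro w hw
    rw [mem_closedBall_iff_norm] at hw
    have h1 : ((r⁻¹ : ℝ) : ℂ) * (w - α) ∈ numRange b := by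
      rw [hdisc, mem_closedBall_zero_iff, norm_mul, Complex.norm_real,
        Real.norm_of_nonneg (by positivity), inv_mul_le_iff₀ hr0, mul_one]
      exact hw
    obtain ⟨u, hu, huw⟩ := h1
    refine ⟨u, hu, ?_⟩
    have h2 : inner ℂ u (b u) = ((r⁻¹ : ℝ) : ℂ) * (w - α) := huw
    rw [hbu u hu] at h2
    have hr' : ((r⁻¹ : ℝ) : ℂ) ≠ 0 := by
      rw [Complex.ofReal_ne_zero]; positivity
    have h3 := mul_left_cancel₀ hr' h2
    have h4 : inner ℂ u (A u) = w := by linear_combination h3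
    exact h4

end

end Pool.Agent.H243.CE
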