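import Pool.Agent.H243.CE.Stmt

/-!
An elementary inequality on compact sets.
-/

set_option autoImplicit false

open MeasureTheory Set Filter Topology Polynomial

namespace Pool.Agent.H243.CE

namespace GB

/-- the cofactor -/
noncomputable def Hf (f D N : ℂ[X]) (ζ : ℂ) : ℂ :=
  f.eval ζ * ∑ k ∈ Finset.range (f.natDegree + 1), (starRingEnd ℂ) (f.coeff k) *
    (∑ i ∈ Finset.range k, ((starRingEnd ℂ) ζ * D.eval ζ) ^ i * N.eval ζ ^ (k - 1 - i)) *
      D.eval ζ ^ (f.natDegree - k)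

lemma conj_eval (f : ℂ[X]) (ζ : ℂ) : (starRingEnd ℂ) (f.eval ζ) =
    ∑ k ∈ Finset.range (f.natDegree + 1), (starRingEnd ℂ) (f.coeff k) * (starRingEnd ℂ) ζ ^ k := by
  rw [eval_eq_sum_range, map_sum]
  simp only [map_mul, map_pow]

lemma Gp_eq (f D N : ℂ[X]) (ζ : ℂ) : (Gp f D N).eval ζ =
    D.eval ζ ^ f.natDegree * (1 - ((‖f.eval ζ‖ ^ 2 : ℝ) : ℂ)) +
      ((starRingEnd ℂ) ζ * D.eval ζ - N.eval ζ) * Hf f D N ζ := by
  have h1 : ((‖f.eval ζ‖ ^ 2 : ℝ) : ℂ) = f.eval ζ * (starRingEnd ℂ) (f.eval ζ) := by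
    rw [Complex.mul_conj, Complex.normSq_eq_norm_sq]
  have h2 : ∀ k ∈ Finset.range (f.natDegree + 1),
      (starRingEnd ℂ) (f.coeff k) * (starRingEnd ℂ) ζ ^ k * D.eval ζ ^ f.natDegree =
      (starRingEnd ℂ) (f.coeff k) * ((starRingEnd ℂ) ζ * D.eval ζ) ^ k *
        D.eval ζ ^ (f.natDegree - k) := by
    intro k hk
    have h3 : f.natDegree = k + (f.natDegree - k) := by
      have := Finset.mem_range.1 hk
      omega
    conv_lhs => rw [h3, pow_add]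
    rw [mul_pow]
    ring
  have h4 : D.eval ζ ^ f.natDegree * (starRingEnd ℂ) (f.eval ζ) =
      ∑ k ∈ Finset.range (f.natDegree + 1),
        (starRingEnd ℂ) (f.coeff k) * ((starRingEnd ℂ) ζ * D.eval ζ) ^ k *
        D.eval ζ ^ (f.natDegree - k) := by
    rw [conj_eval, mul_comm, Finset.sum_mul]
    exact Finset.sum_congr rfl h2
  have h5 : (Gp f D N).eval ζ = D.eval ζ ^ f.natDegree - f.eval ζ *
      ∑ k ∈ Finset.range (f.natDegree + 1), (starRingEnd ℂ) (f.coeff k) * N.eval ζ ^ k *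
        D.eval ζ ^ (f.natDegree - k) := by
    unfold Gp
    rw [eval_sub, eval_pow, eval_mul, eval_finsetSum]
    simp only [eval_mul, eval_C, eval_pow]
  have h6 : ((starRingEnd ℂ) ζ * D.eval ζ - N.eval ζ) * Hf f D N ζ = f.eval ζ *
      ∑ k ∈ Finset.range (f.natDegree + 1), (starRingEnd ℂ) (f.coeff k) *
        (((starRingEnd ℂ) ζ * D.eval ζ) ^ k - N.eval ζ ^ k) * D.eval ζ ^ (f.natDegree - k) := by
    unfold Hf
    rw [mul_left_comm, Finset.mul_sum]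
    congr 1
    refine Finset.sum_congr rfl fun k _ => ?_
    rw [← geom_sum₂_mul]
    ring
  rw [h1, mul_sub, mul_one, mul_left_comm, h4, h5, h6]
  simp only [mul_sub, sub_mul, Finset.sum_sub_distrib]
  ring

lemma cont_Hf (f D N : ℂ[X]) : Continuous (Hf f D N) := by
  unfold Hf
  have hf := f.continuous
  have hD := D.continuous
  have hN := N.continuous
  refine hf.mul (continuous_finsetSum _ fun k _ => ?_)
  refine (continuous_const.mul (continuous_finsetSum _ fun i _ => ?_)).mul (hD.pow _)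
  exact ((Complex.continuous_conj.mul hD).pow _).mul (hN.pow _)

end GB

theorem t_GB : S_GB := by
  intro f D N L
  have hf := f.continuous
  have hD := D.continuous
  obtain ⟨B1, hB1⟩ := (isCompact_closedBall (0 : ℂ) L).exists_bound_of_continuousOn
    (f := fun ζ : ℂ => D.eval ζ ^ f.natDegree) (hD.pow _).continuousOn
  obtain ⟨B2, hB2⟩ := (isCompact_closedBall (0 : ℂ) L).exists_bound_of_continuousOn
    (GB.cont_Hf f D N).continuousOn
  obtain ⟨B3, hB3⟩ := (isCompact_closedBall (0 : ℂ) L).exists_bound_of_continuousOn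
    (f := fun ζ : ℂ => 1 - ‖f.eval ζ‖ ^ 2) (continuous_const.sub (hf.norm.pow 2)).continuousOn
  refine ⟨2 * B1 ^ 2 * |B3| + 2 * B2 ^ 2, by positivity, fun ζ hζ => ?_⟩
  have hm : ζ ∈ Metric.closedBall (0 : ℂ) L := by
    rw [mem_closedBall_zero_iff]
    exact hζ
  have h1 := hB1 ζ hm
  have h2 := hB2 ζ hm
  have h3 := hB3 ζ hm
  rw [Real.norm_eq_abs] at h3
  set a : ℝ := ‖(starRingEnd ℂ) ζ * D.eval ζ - N.eval ζ‖ with ha
  set b : ℝ := |1 - ‖f.eval ζ‖ ^ 2| with hb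
  have ha0 : 0 ≤ a := norm_nonneg _
  have hb0 : 0 ≤ b := abs_nonneg _
  have h4 : ‖(1 - ((‖f.eval ζ‖ ^ 2 : ℝ) : ℂ))‖ = b := by
    rw [hb, ← Complex.ofReal_one, ← Complex.ofReal_sub, Complex.norm_real, Real.norm_eq_abs]
  have h5 : ‖(Gp f D N).eval ζ‖ ≤ B1 * b + a * B2 := by
    rw [GB.Gp_eq]
    refine (norm_add_le _ _).trans ?_
    rw [norm_mul, norm_mul, h4]
    exact add_le_add (mul_le_mul_of_nonneg_right h1 hb0) (mul_le_mul_of_nonneg_left h2 ha0)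
  have h6 : ‖(Gp f D N).eval ζ‖ ^ 2 ≤ (B1 * b + a * B2) ^ 2 :=
    pow_le_pow_left₀ (norm_nonneg _) h5 2
  have h7 : b ≤ |B3| := h3.trans (le_abs_self _)
  have h8 : b ^ 2 ≤ |B3| * b := by nlinarith
  have h9 : 0 ≤ B1 ^ 2 := sq_nonneg _
  have h10 : 0 ≤ B2 ^ 2 := sq_nonneg _
  have h11 : 0 ≤ |B3| := abs_nonneg _
  calc ‖(Gp f D N).eval ζ‖ ^ 2 ≤ (B1 * b + a * B2) ^ 2 := h6
    _ ≤ 2 * B1 ^ 2 * b ^ 2 + 2 * B2 ^ 2 * a ^ 2 := by nlinarith [sq_nonneg (B1 * b - a * B2)]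
    _ ≤ 2 * B1 ^ 2 * (|B3| * b) + 2 * B2 ^ 2 * a ^ 2 := by
        have := mul_le_mul_of_nonneg_left h8 h9
        linarith
    _ ≤ (2 * B1 ^ 2 * |B3| + 2 * B2 ^ 2) * (a ^ 2 + b) := by
        have e1 : 0 ≤ B1 ^ 2 * |B3| * a ^ 2 := by positivity
        have e2 : 0 ≤ B2 ^ 2 * b := by positivity
        nlinarith

end Pool.Agent.H243.CE
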