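import Pool.Agent.H243.CE.Stmt

/-! # (CE13) polynomials which are small in `L²` annihilate `y` (helper30) -/

set_option autoImplicit false

open MeasureTheory Set Filter Topology Polynomial

namespace Pool.Agent.H243.CE

noncomputable section

namespace IDEAL

variable {H : Type} [NormedAddCommGroup H] [InnerProductSpace ℂ H]

theorem comm_aeval {A B : H →L[ℂ] H} (h : A * B = B * A) (f : ℂ[X]) :
    (aeval A f) * B = B * (aeval A f) := by
  induction f using Polynomial.induction_on' with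
  | add p q hp hq => rw [map_add, add_mul, mul_add, hp, hq]
  | monomial n a =>
    have h1 : Commute A B := h
    have h2 : Commute (A ^ n) B := h1.pow_left n
    rw [aeval_monomial, Algebra.algebraMap_eq_smul_one, smul_mul_assoc, one_mul,
      smul_mul_assoc, mul_smul_comm, h2.eq]

/-- expansion of the form -/
theorem expand (B : H →L[ℂ] H) (u x : H) (t : ℝ) (μ : ℂ) (h : inner ℂ x (B u) = (0 : ℂ)) :
    (inner ℂ ((t : ℂ) • u - μ • x) (B ((t : ℂ) • u - μ • x))).re =
      t ^ 2 * (inner ℂ u (B u)).re + ‖μ‖ ^ 2 * (inner ℂ x (B x)).re -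
        t * (μ * inner ℂ u (B x)).re := by
  have h1 : inner ℂ ((t : ℂ) • u - μ • x) (B ((t : ℂ) • u - μ • x)) =
      ((t ^ 2 : ℝ) : ℂ) * inner ℂ u (B u) + ((‖μ‖ ^ 2 : ℝ) : ℂ) * inner ℂ x (B x) -
        (t : ℂ) * (μ * inner ℂ u (B x)) := by
    rw [map_sub, map_smul, map_smul, inner_sub_left, inner_sub_right, inner_sub_right,
      inner_smul_left, inner_smul_left, inner_smul_left, inner_smul_left, inner_smul_right,
      inner_smul_right, inner_smul_right, inner_smul_right, h, Complex.conj_ofReal]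
    have h2 := Complex.conj_mul' μ
    push_cast
    rw [← h2]
    ring
  rw [h1, Complex.sub_re, Complex.add_re, Complex.re_ofReal_mul, Complex.re_ofReal_mul,
    Complex.re_ofReal_mul]

/-- mean values of the kernel -/
theorem mean_re [CompleteSpace H] {Y : ℝ → H →L[ℂ] H} (hY : Continuous Y) {h : ℝ → ℂ}
    (hh : Continuous h) (u v : H) :
    mean (fun φ => (h φ * inner ℂ u (Y φ v)).re) = (inner ℂ u (Gam Y h v)).re := by
  unfold mean Gam
  have e1 : inner ℂ u (((((2 * Real.pi : ℝ) : ℂ)⁻¹ • ∫ φ in (0 : ℝ)..(2 * Real.pi), h φ • Y φ) :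
      H →L[ℂ] H) v) = ((2 * Real.pi : ℝ) : ℂ)⁻¹ *
        ∫ φ in (0 : ℝ)..(2 * Real.pi), h φ * inner ℂ u (Y φ v) := by
    rw [ContinuousLinearMap.smul_apply, inner_smul_right]
    congr 1
    have h1 := ((innerSL ℂ u).comp (ContinuousLinearMap.apply ℂ H v)).intervalIntegral_comp_comm
      (f := fun φ => h φ • Y φ) (μ := volume) (a := 0) (b := 2 * Real.pi)
      ((hh.smul hY).intervalIntegrable _ _)
    simp only [ContinuousLinearMap.comp_apply, ContinuousLinearMap.apply_apply,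
      innerSL_apply_apply, ContinuousLinearMap.smul_apply, inner_smul_right] at h1
    exact h1.symm
  rw [e1, ← Complex.ofReal_inv, Complex.re_ofReal_mul]
  congr 1
  have h2 := Complex.reCLM.intervalIntegral_comp_comm
    (f := fun φ => h φ * inner ℂ u (Y φ v)) (μ := volume) (a := 0) (b := 2 * Real.pi)
    ((hh.mul (continuous_const.inner (hY.clm_apply continuous_const))).intervalIntegrable _ _)
  simp only [Complex.reCLM_apply] at h2
  exact h2

variable {A : H →L[ℂ] H} {L : ℝ} {s : ℝ → ℂ} {ρ : ℝ → ℝ} {Y : ℝ → H →L[ℂ] H}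

theorem gam_eval (D : Datum A L s ρ Y) (g : ℂ[X]) : Gam Y (fun φ => g.eval (s φ)) = aeval A g := by
  unfold Gam
  rw [D.int g, smul_smul, inv_mul_cancel₀, one_smul]
  have := Real.pi_pos
  exact_mod_cast (by positivity : (2 * Real.pi : ℝ) ≠ 0)

theorem mean_nonneg {h : ℝ → ℝ} (hh : ∀ φ, 0 ≤ h φ) : 0 ≤ mean h := by
  unfold mean
  refine mul_nonneg (by positivity) ?_
  exact intervalIntegral.integral_nonneg (by positivity) fun φ _ => hh φ

theorem mean_mono {h k : ℝ → ℝ} (ch : Continuous h) (ck : Continuous k) (hk : ∀ φ, h φ ≤ k φ) :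
    mean h ≤ mean k := by
  unfold mean
  refine mul_le_mul_of_nonneg_left ?_ (by positivity)
  exact intervalIntegral.integral_mono (by positivity) (ch.intervalIntegrable _ _)
    (ck.intervalIntegrable _ _) hk

theorem mean_comb {h k l : ℝ → ℝ} (ch : Continuous h) (ck : Continuous k) (cl : Continuous l)
    (a b c : ℝ) : mean (fun φ => a * h φ + b * k φ - c * l φ) =
      a * mean h + b * mean k - c * mean l := by
  unfold mean
  rw [intervalIntegral.integral_sub, intervalIntegral.integral_add,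
    intervalIntegral.integral_const_mul, intervalIntegral.integral_const_mul,
    intervalIntegral.integral_const_mul]
  · ring
  · exact (continuous_const.mul ch).intervalIntegrable _ _
  · exact (continuous_const.mul ck).intervalIntegrable _ _
  · exact ((continuous_const.mul ch).add (continuous_const.mul ck)).intervalIntegrable _ _
  · exact (continuous_const.mul cl).intervalIntegrable _ _

theorem cont_inner (hY : Continuous Y) (u v : H) : Continuous fun φ => inner ℂ u (Y φ v) :=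
  continuous_const.inner (hY.clm_apply continuous_const)

theorem cont_eval (hs : Continuous s) (g : ℂ[X]) : Continuous fun φ => g.eval (s φ) :=
  g.continuous.comp hs

/-- the main inequality -/
theorem main_ineq [CompleteSpace H] (D : Datum A L s ρ Y) (f g : ℂ[X]) (x v : H)
    (hx : ∀ u : H, inner ℂ x ((aeval A f) u) = (0 : ℂ)) (t : ℝ) :
    t * ‖(inner ℂ ((aeval A f) v) ((aeval A g) x) : ℂ)‖ ^ 2 ≤
      t ^ 2 * ‖(aeval A f) v‖ ^ 2 +
        ‖(inner ℂ ((aeval A f) v) ((aeval A g) x) : ℂ)‖ ^ 2 * J x s Y g := by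
  obtain ⟨u, hu⟩ : ∃ u, u = (aeval A f) v := ⟨_, rfl⟩
  obtain ⟨z, hz⟩ : ∃ z : ℂ, z = inner ℂ u ((aeval A g) x) := ⟨_, rfl⟩
  have h0 : ∀ φ, inner ℂ x (Y φ u) = (0 : ℂ) := by
    intro φ
    have h1 : (aeval A f) * Y φ = Y φ * (aeval A f) := comm_aeval (D.comm φ) f
    have h2 : Y φ u = (aeval A f) (Y φ v) := by
      rw [hu]
      exact (congrArg (fun B : H →L[ℂ] H => B v) h1).symm
    rw [h2]
    exact hx _
  have hpt : ∀ φ, 0 ≤ t ^ 2 * (inner ℂ u (Y φ u)).re +
      ‖z‖ ^ 2 * (‖g.eval (s φ)‖ ^ 2 * (inner ℂ x (Y φ x)).re) -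
        t * (((starRingEnd ℂ) z * g.eval (s φ)) * inner ℂ u (Y φ x)).re := by
    intro φ
    have h1 := D.pos φ ((t : ℂ) • u - ((starRingEnd ℂ) z * g.eval (s φ)) • x)
    rw [expand (Y φ) u x t _ (h0 φ), norm_mul, RCLike.norm_conj, mul_pow] at h1
    rw [← mul_assoc (‖z‖ ^ 2)]
    exact h1
  have c1 : Continuous fun φ => (inner ℂ u (Y φ u)).re :=
    Complex.continuous_re.comp (cont_inner D.Yc u u)
  have c2 : Continuous fun φ => ‖g.eval (s φ)‖ ^ 2 * (inner ℂ x (Y φ x)).re :=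
    ((cont_eval D.sc g).norm.pow 2).mul (Complex.continuous_re.comp (cont_inner D.Yc x x))
  have c3 : Continuous fun φ =>
      (((starRingEnd ℂ) z * g.eval (s φ)) * inner ℂ u (Y φ x)).re :=
    Complex.continuous_re.comp
      ((continuous_const.mul (cont_eval D.sc g)).mul (cont_inner D.Yc u x))
  have h3 := mean_nonneg hpt
  rw [mean_comb c1 c2 c3] at h3
  have m1 : mean (fun φ => (inner ℂ u (Y φ u)).re) = ‖u‖ ^ 2 := by
    have h4 := mean_re D.Yc (h := fun φ => (1 : ℂ[X]).eval (s φ))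
      (cont_eval D.sc 1) u u
    rw [gam_eval D 1, map_one] at h4
    simp only [eval_one, one_mul, ContinuousLinearMap.one_apply] at h4
    rw [h4, inner_self_eq_norm_sq_to_K]
    norm_cast
  have m3 : mean (fun φ => (((starRingEnd ℂ) z * g.eval (s φ)) * inner ℂ u (Y φ x)).re) =
      ‖z‖ ^ 2 := by
    have h4 := mean_re D.Yc (h := fun φ => (C ((starRingEnd ℂ) z) * g : ℂ[X]).eval (s φ))
      (cont_eval D.sc _) u x
    rw [gam_eval D, map_mul, aeval_C] at h4
    simp only [eval_mul, eval_C] at h4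
    rw [h4, ContinuousLinearMap.mul_apply, Algebra.algebraMap_eq_smul_one,
      ContinuousLinearMap.smul_apply, ContinuousLinearMap.one_apply, inner_smul_right, ← hz,
      Complex.conj_mul']
    norm_cast
  rw [m1, m3] at h3
  have hJ : mean (fun φ => ‖g.eval (s φ)‖ ^ 2 * (inner ℂ x (Y φ x)).re) = J x s Y g := rfl
  rw [hJ] at h3
  rw [← hu, ← hz]
  linarith

theorem orth [CompleteSpace H] {f : ℂ[X]} {C₀ : ℝ} {s : ℕ → ℝ → ℂ} {ρ : ℕ → ℝ → ℝ}
    {Y : ℕ → ℝ → H →L[ℂ] H} {M : ℕ → ℝ} (hA : Approx A f L C₀ s ρ Y M) (x : H)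
    (hx : ∀ u : H, inner ℂ x ((aeval A f) u) = (0 : ℂ)) (g : ℂ[X])
    (hg : Tendsto (fun j => J x (s j) (Y j) g) atTop (𝓝 0)) (v : H) :
    inner ℂ ((aeval A f) v) ((aeval A g) x) = (0 : ℂ) := by
  obtain ⟨z, hz⟩ : ∃ z : ℂ, z = inner ℂ ((aeval A f) v) ((aeval A g) x) := ⟨_, rfl⟩
  obtain ⟨n, hn⟩ : ∃ n : ℝ, n = ‖(aeval A f) v‖ ^ 2 := ⟨_, rfl⟩
  have h1 : ∀ t : ℝ, t * ‖z‖ ^ 2 ≤ t ^ 2 * n := by
    intro t
    have h2 : ∀ j, t * ‖z‖ ^ 2 ≤ t ^ 2 * n + ‖z‖ ^ 2 * J x (s j) (Y j) g := by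
      intro j
      have := main_ineq (hA.dat j) f g x v hx t
      rw [← hz, ← hn] at this
      exact this
    have h3 : Tendsto (fun j => t ^ 2 * n + ‖z‖ ^ 2 * J x (s j) (Y j) g) atTop
        (𝓝 (t ^ 2 * n + ‖z‖ ^ 2 * 0)) := (hg.const_mul _).const_add _
    rw [mul_zero, add_zero] at h3
    exact ge_of_tendsto' h3 h2
  have hn0 : 0 ≤ n := by rw [hn]; positivity
  rw [← hz]
  by_contra hne
  have hzp : 0 < ‖z‖ ^ 2 := by positivity
  have h4 := h1 (‖z‖ ^ 2 / (2 * (n + 1)))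
  have h5 : ‖z‖ ^ 2 / (2 * (n + 1)) * ‖z‖ ^ 2 ≤ (‖z‖ ^ 2 / (2 * (n + 1))) ^ 2 * n := h4
  have h6 : (‖z‖ ^ 2 / (2 * (n + 1))) ^ 2 * n =
      ‖z‖ ^ 2 / (2 * (n + 1)) * ‖z‖ ^ 2 * (n / (2 * (n + 1))) := by
    ring
  rw [h6] at h5
  have h7 : n / (2 * (n + 1)) < 1 := by
    rw [div_lt_one (by positivity)]
    linarith
  have h8 : 0 < ‖z‖ ^ 2 / (2 * (n + 1)) * ‖z‖ ^ 2 := by positivity
  nlinarith

end IDEAL

open IDEAL

theorem t_IDEAL : S_IDEAL := by
  intro H _ _ _ A f L C₀ s ρ Y M hA x y hxy hx g hg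
  -- the product with f is small as well
  have hgf : Tendsto (fun j => J x (s j) (Y j) (g * f)) atTop (𝓝 0) := by
    have h4 : Tendsto (fun j => 4 * J x (s j) (Y j) g) atTop (𝓝 0) := by
      simpa using hg.const_mul 4
    refine tendsto_of_tendsto_of_tendsto_of_le_of_le tendsto_const_nhds h4 (fun j => ?_)
      (fun j => ?_)
    · exact mean_nonneg fun φ => mul_nonneg (by positivity) ((hA.dat j).pos φ x)
    · have c2 : ∀ g : ℂ[X], Continuous fun φ =>
          ‖g.eval (s j φ)‖ ^ 2 * (inner ℂ x (Y j φ x)).re := fun g =>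
        ((cont_eval (hA.dat j).sc g).norm.pow 2).mul
          (Complex.continuous_re.comp (cont_inner (hA.dat j).Yc x x))
      have h5 : mean (fun φ => 4 * (‖g.eval (s j φ)‖ ^ 2 * (inner ℂ x (Y j φ x)).re)) =
          4 * J x (s j) (Y j) g := by
        unfold J mean
        rw [intervalIntegral.integral_const_mul]
        ring
      simp only
      rw [← h5]
      refine mean_mono (c2 _) (continuous_const.mul (c2 g)) fun φ => ?_
      rw [eval_mul, norm_mul, mul_pow]
      have h6 := (hA.dat j).pos φ x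
      have h7 : ‖f.eval (s j φ)‖ ^ 2 ≤ 4 := by
        have h8 := (hA.fb j φ).trans (hA.M2 j)
        have h9 := norm_nonneg (f.eval (s j φ))
        nlinarith
      calc ‖g.eval (s j φ)‖ ^ 2 * ‖f.eval (s j φ)‖ ^ 2 * (inner ℂ x (Y j φ x)).re
          ≤ ‖g.eval (s j φ)‖ ^ 2 * 4 * (inner ℂ x (Y j φ x)).re := by gcongr
        _ = _ := by ring
  have h1 := orth hA x hx (g * f) hgf ((aeval A g) x)
  have h2 : (aeval A (g * f)) x = (2 : ℂ) • (aeval A g) y := by
    rw [map_mul, ContinuousLinearMap.mul_apply, hxy, map_smul]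
  have h3 : (aeval A f) ((aeval A g) x) = (2 : ℂ) • (aeval A g) y := by
    rw [← h2, mul_comm, map_mul, ContinuousLinearMap.mul_apply]
  rw [h2, h3, inner_self_eq_zero, smul_eq_zero] at h1
  rcases h1 with h1 | h1
  · exact absurd h1 two_ne_zero
  · exact h1

end

end Pool.Agent.H243.CE
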