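import Pool.Agent.H243.CE.Stmt

/-!
# The polynomial `Gp` is small in `L²`
-/

set_option autoImplicit false

open MeasureTheory Set Filter Topology Polynomial

namespace Pool.Agent.H243.CE

open Pool.Agent.W753.CZ (numRange)

noncomputable section

variable {H : Type} [NormedAddCommGroup H] [InnerProductSpace ℂ H]

theorem mean_mono {f g : ℝ → ℝ} (hf : Continuous f) (hg : Continuous g) (h : ∀ φ, f φ ≤ g φ) :
    mean f ≤ mean g := by
  unfold mean
  refine mul_le_mul_of_nonneg_left ?_ (by positivity)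
  exact intervalIntegral.integral_mono_on (by positivity) (hf.intervalIntegrable _ _)
    (hg.intervalIntegrable _ _) (fun φ _ => h φ)

theorem mean_nonneg {f : ℝ → ℝ} (h : ∀ φ, 0 ≤ f φ) : 0 ≤ mean f := by
  unfold mean
  refine mul_nonneg (by positivity) ?_
  exact intervalIntegral.integral_nonneg (by positivity) (fun φ _ => h φ)

theorem mean_add {f g : ℝ → ℝ} (hf : Continuous f) (hg : Continuous g) :
    mean (fun φ => f φ + g φ) = mean f + mean g := by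
  unfold mean
  rw [intervalIntegral.integral_add (hf.intervalIntegrable _ _) (hg.intervalIntegrable _ _),
    mul_add]

theorem mean_const_mul (c : ℝ) (f : ℝ → ℝ) : mean (fun φ => c * f φ) = c * mean f := by
  unfold mean
  rw [intervalIntegral.integral_const_mul]
  ring

section

variable {A : H →L[ℂ] H} {L : ℝ} {s : ℝ → ℂ} {ρ : ℝ → ℝ} {Y : ℝ → H →L[ℂ] H}

theorem cont_q (hD : Datum A L s ρ Y) {u v : ℝ → H} (hu : Continuous u) (hv : Continuous v) :
    Continuous (fun φ => (inner ℂ (u φ) (Y φ (v φ))).re) := by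
  have := hD.Yc
  exact Complex.continuous_re.comp (hu.inner (this.clm_apply hv))

theorem q_sub (hD : Datum A L s ρ Y) (φ : ℝ) (u v : H) :
    (inner ℂ (u - v) (Y φ (u - v))).re ≤
      2 * (inner ℂ u (Y φ u)).re + 2 * (inner ℂ v (Y φ v)).re := by
  have h := hD.pos φ (u + v)
  simp only [map_sub, map_add, inner_sub_left, inner_sub_right, inner_add_left, inner_add_right,
    Complex.add_re, Complex.sub_re] at h ⊢
  linarith

theorem q_smul (φ : ℝ) (c : ℂ) (u : H) :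
    (inner ℂ (c • u) (Y φ (c • u))).re = ‖c‖ ^ 2 * (inner ℂ u (Y φ u)).re := by
  rw [map_smul, inner_smul_left, inner_smul_right, ← mul_assoc, mul_comm ((starRingEnd ℂ) c) c,
    Complex.mul_conj, Complex.normSq_eq_norm_sq, Complex.re_ofReal_mul]

end

theorem t_JG (hM : S_MEAN) (hP : S_PT) (hG : S_GB) [CompleteSpace H] {A : H →L[ℂ] H} {f : ℂ[X]}
    {L C : ℝ} {s : ℕ → ℝ → ℂ} {ρ : ℕ → ℝ → ℝ} {Y : ℕ → ℝ → H →L[ℂ] H} {M : ℕ → ℝ}
    (hA : Approx A f L C s ρ Y M) {x y : H} (hx : ‖x‖ = 1) (hy : ‖y‖ = 1)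
    (hxy : inner ℂ x y = (0 : ℂ)) (hTx : (aeval A f) x = (2 : ℂ) • y) (hTy : (aeval A f) y = 0)
    (hlim : Tendsto (fun j => mean (fun φ =>
      (inner ℂ (y - (((M j)⁻¹ : ℝ) * f.eval (s j φ) : ℂ) • x)
        (Y j φ (y - (((M j)⁻¹ : ℝ) * f.eval (s j φ) : ℂ) • x))).re
      + (1 - ‖(((M j)⁻¹ : ℝ) * f.eval (s j φ) : ℂ)‖ ^ 2) * (inner ℂ x (Y j φ x)).re))
      atTop (𝓝 0)) :
    Tendsto (fun j => J x (s j) (Y j) (Gp f (Dp A f x y) (Np A f x y))) atTop (𝓝 0) := by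
  obtain ⟨K, hK0, hK⟩ := hG f (Dp A f x y) (Np A f x y) L
  set C1 : ℝ := C * (160 * (L + ‖A‖)) with hC1
  have hC10 : 0 ≤ C1 := by
    have := hA.L0
    have := hA.C0
    positivity
  set K' : ℝ := K * (2 * C1 + 1) with hK'
  have hK'0 : 0 ≤ K' := by positivity
  have hν : ∀ j, mean (fun φ => (inner ℂ x (Y j φ x)).re) = 1 := by
    intro j
    have h := hM H A L (s j) (ρ j) (Y j) (hA.dat j) 0 x 0
    simp only [eval_zero, zero_smul, sub_zero, map_zero, inner_zero_left, Complex.zero_re,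
      norm_zero, zero_add, inner_zero_right, hx] at h
    norm_num at h
    exact h
  -- pointwise estimate
  have hpt : ∀ j φ, ‖(Gp f (Dp A f x y) (Np A f x y)).eval (s j φ)‖ ^ 2 *
      (inner ℂ x (Y j φ x)).re ≤
      K' * (((inner ℂ (y - (((M j)⁻¹ : ℝ) * f.eval (s j φ) : ℂ) • x)
        (Y j φ (y - (((M j)⁻¹ : ℝ) * f.eval (s j φ) : ℂ) • x))).re
      + (1 - ‖(((M j)⁻¹ : ℝ) * f.eval (s j φ) : ℂ)‖ ^ 2) * (inner ℂ x (Y j φ x)).re)
      + ((M j - 1) ^ 2 + (M j ^ 2 - 1)) * (inner ℂ x (Y j φ x)).re) := by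
    intro j φ
    have hD := hA.dat j
    have hM1 := hA.M1 j
    have hM2 := hA.M2 j
    have hM0 : 0 < M j := by linarith
    set F : ℂ := f.eval (s j φ) with hF
    set z : ℂ := (((M j)⁻¹ : ℝ) * F : ℂ) with hz
    have hFz : F = (M j : ℂ) * z := by
      rw [hz, ← mul_assoc, ← Complex.ofReal_mul, mul_inv_cancel₀ hM0.ne', Complex.ofReal_one,
        one_mul]
    have hFn : ‖F‖ ≤ M j := hA.fb j φ
    have hFM : ‖F‖ = M j * ‖z‖ := by
      rw [hFz, norm_mul, Complex.norm_real, Real.norm_of_nonneg hM0.le]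
    have hz1 : ‖z‖ ≤ 1 := by
      rw [hFM] at hFn
      by_contra hc
      push Not at hc
      nlinarith
    have hz0 : 0 ≤ ‖z‖ := norm_nonneg z
    have hz2 : ‖z‖ ^ 2 ≤ 1 := by nlinarith
    set a : ℝ := (inner ℂ (y - z • x) (Y j φ (y - z • x))).re with ha
    set ν : ℝ := (inner ℂ x (Y j φ x)).re with hνd
    have ha0 : 0 ≤ a := hD.pos φ _
    have hν0 : 0 ≤ ν := hD.pos φ _
    have hr0 : 0 ≤ ρ j φ := hD.r0 φ
    -- `ν ≤ C ρ`
    have hνρ : ν ≤ C * ρ j φ := by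
      have h1 : ν ≤ ‖Y j φ x‖ := by
        calc ν ≤ ‖inner ℂ x (Y j φ x)‖ := Complex.re_le_norm _
          _ ≤ ‖x‖ * ‖Y j φ x‖ := norm_inner_le_norm _ _
          _ = ‖Y j φ x‖ := by rw [hx, one_mul]
      have h2 := hA.ub j φ (Y j φ x)
      rw [hD.eq φ x, norm_smul, norm_mul, Complex.norm_real, Real.norm_of_nonneg hr0,
        Complex.norm_exp_ofReal_mul_I, mul_one, hx, mul_one] at h2
      exact h1.trans h2
    set w' : H := y - F • x with hw'
    have hw'e : w' = (y - z • x) - (((M j - 1 : ℝ) : ℂ) * z) • x := by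
      rw [hw', hFz]
      push_cast
      module
    have hq' : (inner ℂ w' (Y j φ w')).re ≤ 2 * a + 2 * ((M j - 1) ^ 2 * ν) := by
      rw [hw'e]
      refine (q_sub hD φ _ _).trans ?_
      rw [q_smul, norm_mul, Complex.norm_real, Real.norm_of_nonneg (by linarith : 0 ≤ M j - 1)]
      have h3 : ((M j - 1) * ‖z‖) ^ 2 * ν ≤ (M j - 1) ^ 2 * ν := by
        rw [mul_pow]
        have := mul_le_mul_of_nonneg_left hz2 (sq_nonneg (M j - 1))
        nlinarith
      linarith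
    have hE := hP H A L (s j) (ρ j) (Y j) hD f x y hx hy hxy hTx hTy φ (by linarith)
    set E : ℝ := ‖(starRingEnd ℂ) (s j φ) * (Dp A f x y).eval (s j φ) -
      (Np A f x y).eval (s j φ)‖ ^ 2 with hEd
    have hE0 : 0 ≤ E := by positivity
    have hEν : E * ν ≤ C1 * (2 * a + 2 * ((M j - 1) ^ 2 * ν)) := by
      calc E * ν ≤ E * (C * ρ j φ) := by gcongr
        _ = C * (ρ j φ * E) := by ring
        _ ≤ C * (160 * (L + ‖A‖) * (inner ℂ w' (Y j φ w')).re) := by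
            have := hA.C0
            gcongr
        _ = C1 * (inner ℂ w' (Y j φ w')).re := by rw [hC1]; ring
        _ ≤ _ := by gcongr
    have h1F : |1 - ‖F‖ ^ 2| ≤ (1 - ‖z‖ ^ 2) + (M j ^ 2 - 1) := by
      have e1 : 1 - ‖F‖ ^ 2 = (1 - ‖z‖ ^ 2) - (M j ^ 2 - 1) * ‖z‖ ^ 2 := by rw [hFM]; ring
      have h4 : 0 ≤ M j ^ 2 - 1 := by nlinarith
      have h5 : (M j ^ 2 - 1) * ‖z‖ ^ 2 ≤ M j ^ 2 - 1 := by nlinarith
      have h6 : 0 ≤ (M j ^ 2 - 1) * ‖z‖ ^ 2 := by positivity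
      rw [e1, abs_le]
      constructor <;> nlinarith
    have hKp := hK (s j φ) (hD.bd φ)
    have h1Fν : |1 - ‖F‖ ^ 2| * ν ≤ (1 - ‖z‖ ^ 2) * ν + (M j ^ 2 - 1) * ν := by
      rw [← add_mul]; gcongr
    calc ‖(Gp f (Dp A f x y) (Np A f x y)).eval (s j φ)‖ ^ 2 * ν
        ≤ (K * (E + |1 - ‖F‖ ^ 2|)) * ν := by gcongr
      _ = K * (E * ν + |1 - ‖F‖ ^ 2| * ν) := by ring
      _ ≤ K * (C1 * (2 * a + 2 * ((M j - 1) ^ 2 * ν)) +
          ((1 - ‖z‖ ^ 2) * ν + (M j ^ 2 - 1) * ν)) := by gcongr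
      _ ≤ K' * ((a + (1 - ‖z‖ ^ 2) * ν) + ((M j - 1) ^ 2 + (M j ^ 2 - 1)) * ν) := by
          rw [hK', mul_assoc K (2 * C1 + 1)]
          refine mul_le_mul_of_nonneg_left ?_ hK0
          have g1 : 0 ≤ (1 - ‖z‖ ^ 2) * ν := mul_nonneg (by linarith) hν0
          have g2 : 0 ≤ (M j ^ 2 - 1) * ν := mul_nonneg (by nlinarith) hν0
          have g3 : 0 ≤ (M j - 1) ^ 2 * ν := by positivity
          have g4 := mul_nonneg hC10 g1
          have g5 := mul_nonneg hC10 g2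
          nlinarith
  have hcont : ∀ j, Continuous (fun φ => ‖(Gp f (Dp A f x y) (Np A f x y)).eval (s j φ)‖ ^ 2 *
      (inner ℂ x (Y j φ x)).re) := by
    intro j
    have h1 := cont_q (hA.dat j) (continuous_const (y := x)) (continuous_const (y := x))
    have h2 : Continuous (fun φ => (Gp f (Dp A f x y) (Np A f x y)).eval (s j φ)) :=
      (Polynomial.continuous _).comp (hA.dat j).sc
    exact (h2.norm.pow 2).mul h1
  have hzc : ∀ j, Continuous (fun φ => (((M j)⁻¹ : ℝ) * f.eval (s j φ) : ℂ)) := by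
    intro j
    exact continuous_const.mul ((Polynomial.continuous _).comp (hA.dat j).sc)
  have hcont2 : ∀ j, Continuous (fun φ =>
      (inner ℂ (y - (((M j)⁻¹ : ℝ) * f.eval (s j φ) : ℂ) • x)
        (Y j φ (y - (((M j)⁻¹ : ℝ) * f.eval (s j φ) : ℂ) • x))).re
      + (1 - ‖(((M j)⁻¹ : ℝ) * f.eval (s j φ) : ℂ)‖ ^ 2) * (inner ℂ x (Y j φ x)).re) := by
    intro j
    have h1 := cont_q (hA.dat j) (continuous_const (y := x)) (continuous_const (y := x))
    have h2 : Continuous (fun φ => y - (((M j)⁻¹ : ℝ) * f.eval (s j φ) : ℂ) • x) :=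
      continuous_const.sub ((hzc j).smul continuous_const)
    exact (cont_q (hA.dat j) h2 h2).add
      ((continuous_const.sub ((hzc j).norm.pow 2)).mul h1)
  have hcont3 : ∀ j, Continuous (fun φ => ((M j - 1) ^ 2 + (M j ^ 2 - 1)) *
      (inner ℂ x (Y j φ x)).re) := by
    intro j
    exact continuous_const.mul (cont_q (hA.dat j) (continuous_const (y := x))
      (continuous_const (y := x)))
  have hle : ∀ j, J x (s j) (Y j) (Gp f (Dp A f x y) (Np A f x y)) ≤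
      K' * (mean (fun φ =>
      (inner ℂ (y - (((M j)⁻¹ : ℝ) * f.eval (s j φ) : ℂ) • x)
        (Y j φ (y - (((M j)⁻¹ : ℝ) * f.eval (s j φ) : ℂ) • x))).re
      + (1 - ‖(((M j)⁻¹ : ℝ) * f.eval (s j φ) : ℂ)‖ ^ 2) * (inner ℂ x (Y j φ x)).re)
      + ((M j - 1) ^ 2 + (M j ^ 2 - 1))) := by
    intro j
    unfold J
    have hc : Continuous (fun φ => K' * (((inner ℂ (y - (((M j)⁻¹ : ℝ) * f.eval (s j φ) : ℂ) • x)
        (Y j φ (y - (((M j)⁻¹ : ℝ) * f.eval (s j φ) : ℂ) • x))).re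
      + (1 - ‖(((M j)⁻¹ : ℝ) * f.eval (s j φ) : ℂ)‖ ^ 2) * (inner ℂ x (Y j φ x)).re)
      + ((M j - 1) ^ 2 + (M j ^ 2 - 1)) * (inner ℂ x (Y j φ x)).re)) :=
      continuous_const.mul ((hcont2 j).add (hcont3 j))
    refine (mean_mono (hcont j) hc (hpt j)).trans (le_of_eq ?_)
    rw [mean_const_mul, mean_add (hcont2 j) (hcont3 j), mean_const_mul, hν j, mul_one]
  have h0 : ∀ j, 0 ≤ J x (s j) (Y j) (Gp f (Dp A f x y) (Np A f x y)) := by
    intro j
    unfold J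
    exact mean_nonneg fun φ => mul_nonneg (by positivity) ((hA.dat j).pos φ x)
  have hMt := hA.Mt
  have hup : Tendsto (fun j => K' * (mean (fun φ =>
      (inner ℂ (y - (((M j)⁻¹ : ℝ) * f.eval (s j φ) : ℂ) • x)
        (Y j φ (y - (((M j)⁻¹ : ℝ) * f.eval (s j φ) : ℂ) • x))).re
      + (1 - ‖(((M j)⁻¹ : ℝ) * f.eval (s j φ) : ℂ)‖ ^ 2) * (inner ℂ x (Y j φ x)).re)
      + ((M j - 1) ^ 2 + (M j ^ 2 - 1)))) atTop (𝓝 (K' * (0 + ((1 - 1) ^ 2 + (1 ^ 2 - 1))))) :=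
    ((hlim.add (((hMt.sub_const 1).pow 2).add ((hMt.pow 2).sub_const 1)))).const_mul K'
  have e0 : K' * (0 + ((1 - 1) ^ 2 + (1 ^ 2 - 1)) : ℝ) = 0 := by norm_num
  rw [e0] at hup
  exact squeeze_zero h0 hle hup

end

end Pool.Agent.H243.CE
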