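import Pool.Agent.H243.CE.Stmt3
import Pool.Agent.H243.CE.JG
import Pool.Agent.H243.CE.PT

/-!
# The polynomial `Gp p Dm Nm` is small in `L²`
-/

set_option autoImplicit false

open MeasureTheory Set Filter Topology Polynomial

namespace Pool.Agent.H243.CE

open Pool.Agent.W753.CZ (numRange)

noncomputable section

variable {H : Type} [NormedAddCommGroup H] [InnerProductSpace ℂ H]

/-- `|1 - conj ε z|² - |z - ε|² = (1 - |ε|²)(1 - |z|²)` -/
theorem mo_id (ε z : ℂ) :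
    ‖1 - (starRingEnd ℂ) ε * z‖ ^ 2 - ‖z - ε‖ ^ 2 = (1 - ‖ε‖ ^ 2) * (1 - ‖z‖ ^ 2) := by
  rw [← Complex.normSq_eq_norm_sq, ← Complex.normSq_eq_norm_sq, ← Complex.normSq_eq_norm_sq,
    ← Complex.normSq_eq_norm_sq]
  simp only [Complex.normSq_apply, Complex.sub_re, Complex.sub_im, Complex.mul_re,
    Complex.mul_im, Complex.conj_re, Complex.conj_im, Complex.one_re, Complex.one_im]
  ring

theorem t_JGM (hM : S_MEANF) (hP : S_PTF) (hG : S_GB) [CompleteSpace H] {A : H →L[ℂ] H} {p : ℂ[X]}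
    {ε : ℂ} {T : H →L[ℂ] H}
    {L K0 : ℝ} {s : ℕ → ℝ → ℂ} {ρ : ℕ → ℝ → ℝ} {Y : ℕ → ℝ → H →L[ℂ] H} {M M' : ℕ → ℝ}
    (hε : ‖ε‖ < 1)
    (hA : ApproxM A p ε T L K0 s ρ Y M M') {x y : H} (hx : ‖x‖ = 1) (hy : ‖y‖ = 1)
    (hxy : inner ℂ x y = (0 : ℂ)) (hPy : (aeval A p) y = ε • y)
    (hPx : (aeval A p) (x + (2 * (starRingEnd ℂ) ε) • y) = ε • x + (2 : ℂ) • y)
    (hlim : Tendsto (fun j => mean (fun φ =>
      (inner ℂ (y - (((M' j)⁻¹ : ℝ) * mo ε (p.eval (s j φ)) : ℂ) • x)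
        (Y j φ (y - (((M' j)⁻¹ : ℝ) * mo ε (p.eval (s j φ)) : ℂ) • x))).re
      + (1 - ‖(((M' j)⁻¹ : ℝ) * mo ε (p.eval (s j φ)) : ℂ)‖ ^ 2) * (inner ℂ x (Y j φ x)).re))
      atTop (𝓝 0)) :
    Tendsto (fun j => J x (s j) (Y j) (Gp p (Dm A p ε x y) (Nm A p ε x y))) atTop (𝓝 0) := by
  obtain ⟨K, hK0, hK⟩ := hG p (Dm A p ε x y) (Nm A p ε x y) L
  set κ : ℝ := 1 - ‖ε‖ ^ 2 with hκ
  have hκ0 : 0 < κ := by
    have := norm_nonneg ε
    nlinarith
  set C1 : ℝ := K0 * (64 * (160 * (L + ‖A‖))) with hC1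
  have hC10 : 0 ≤ C1 := by
    have := hA.ap.L0
    have := hA.ap.C0
    positivity
  set K' : ℝ := K * (2 * C1 + 4 / κ) with hK'
  have hK'0 : 0 ≤ K' := by positivity
  have hden : ∀ j φ, ‖ε‖ * ‖p.eval (s j φ)‖ ≤ (1 + ‖ε‖) / 2 := fun j φ =>
    (mul_le_mul_of_nonneg_left (hA.ap.fb j φ) (norm_nonneg ε)).trans (hA.eM j)
  have hden0 : ∀ j φ, 1 - (starRingEnd ℂ) ε * p.eval (s j φ) ≠ 0 := by
    intro j φ h
    have h1 : (starRingEnd ℂ) ε * p.eval (s j φ) = 1 := (sub_eq_zero.1 h).symm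
    have h2 := congrArg norm h1
    rw [norm_mul, RCLike.norm_conj, norm_one] at h2
    have h3 := hden j φ
    linarith
  have hν : ∀ j, mean (fun φ => (inner ℂ x (Y j φ x)).re) = 1 := by
    intro j
    have h := hM H A L (s j) (ρ j) (Y j) (hA.ap.dat j) (fun _ => 0) 0 continuous_const
      (by simp) x 0
    simp only [zero_smul, sub_zero, map_zero, inner_zero_left, Complex.zero_re,
      norm_zero, zero_add, inner_zero_right, hx] at h
    norm_num at h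
    exact h
  -- pointwise estimate
  have hpt : ∀ j φ, ‖(Gp p (Dm A p ε x y) (Nm A p ε x y)).eval (s j φ)‖ ^ 2 *
      (inner ℂ x (Y j φ x)).re ≤
      K' * (((inner ℂ (y - (((M' j)⁻¹ : ℝ) * mo ε (p.eval (s j φ)) : ℂ) • x)
        (Y j φ (y - (((M' j)⁻¹ : ℝ) * mo ε (p.eval (s j φ)) : ℂ) • x))).re
      + (1 - ‖(((M' j)⁻¹ : ℝ) * mo ε (p.eval (s j φ)) : ℂ)‖ ^ 2) * (inner ℂ x (Y j φ x)).re)
      + ((M' j - 1) ^ 2 + (M' j ^ 2 - 1)) * (inner ℂ x (Y j φ x)).re) := by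
    intro j φ
    have hD := hA.ap.dat j
    have hM1 := hA.M1 j
    have hM2 := hA.M2 j
    have hM0 : 0 < M' j := by linarith
    set pv : ℂ := p.eval (s j φ) with hpv
    set F : ℂ := mo ε pv with hF
    set d : ℂ := 1 - (starRingEnd ℂ) ε * pv with hd
    have hd0 : d ≠ 0 := hden0 j φ
    have hFd : F * d = pv - ε := by
      rw [hF, mo, ← hd]; field_simp
    have hd2 : ‖d‖ ≤ 2 := by
      rw [hd]
      refine (norm_sub_le _ _).trans ?_
      rw [norm_mul, RCLike.norm_conj, norm_one]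
      have := hden j φ
      linarith
    set z : ℂ := (((M' j)⁻¹ : ℝ) * F : ℂ) with hz
    have hFz : F = (M' j : ℂ) * z := by
      rw [hz, ← mul_assoc, ← Complex.ofReal_mul, mul_inv_cancel₀ hM0.ne', Complex.ofReal_one,
        one_mul]
    have hFn : ‖F‖ ≤ M' j := hA.Fb j φ
    have hFM : ‖F‖ = M' j * ‖z‖ := by
      rw [hFz, norm_mul, Complex.norm_real, Real.norm_of_nonneg hM0.le]
    have hz1 : ‖z‖ ≤ 1 := by
      rw [hFM] at hFn
      by_contra hc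
      push Not at hc
      nlinarith
    have hz0 : 0 ≤ ‖z‖ := norm_nonneg z
    have hz2 : ‖z‖ ^ 2 ≤ 1 := by nlinarith
    set a : ℝ := (inner ℂ (y - z • x) (Y j φ (y - z • x))).re with ha
    set ν : ℝ := (inner ℂ x (Y j φ x)).re with hνd
    have ha0 : 0 ≤ a := hD.pos φ _
    have hν0 : 0 ≤ ν := hD.pos φ _
    have hr0 : 0 ≤ ρ j φ := hD.r0 φ
    -- `ν ≤ K0 ρ`
    have hνρ : ν ≤ K0 * ρ j φ := by
      have h1 : ν ≤ ‖Y j φ x‖ := by
        calc ν ≤ ‖inner ℂ x (Y j φ x)‖ := Complex.re_le_norm _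
          _ ≤ ‖x‖ * ‖Y j φ x‖ := norm_inner_le_norm _ _
          _ = ‖Y j φ x‖ := by rw [hx, one_mul]
      have h2 := hA.ap.ub j φ (Y j φ x)
      rw [hD.eq φ x, norm_smul, norm_mul, Complex.norm_real, Real.norm_of_nonneg hr0,
        Complex.norm_exp_ofReal_mul_I, mul_one, hx, mul_one] at h2
      exact h1.trans h2
    set w' : H := y - F • x with hw'
    have hw'e : w' = (y - z • x) - (((M' j - 1 : ℝ) : ℂ) * z) • x := by
      rw [hw', hFz]
      push_cast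
      module
    have hq' : (inner ℂ w' (Y j φ w')).re ≤ 2 * a + 2 * ((M' j - 1) ^ 2 * ν) := by
      rw [hw'e]
      refine (q_sub hD φ _ _).trans ?_
      rw [q_smul, norm_mul, Complex.norm_real, Real.norm_of_nonneg (by linarith : 0 ≤ M' j - 1)]
      have h3 : ((M' j - 1) * ‖z‖) ^ 2 * ν ≤ (M' j - 1) ^ 2 * ν := by
        rw [mul_pow]
        have := mul_le_mul_of_nonneg_left hz2 (sq_nonneg (M' j - 1))
        nlinarith
      linarith
    -- the vectors `R y`, `R x'`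
    set x' : H := x + (2 * (starRingEnd ℂ) ε) • y with hx'
    set R : H →L[ℂ] H := PT.R A p (s j φ) with hR
    have hRe : ∀ v : H, s j φ • R v - A (R v) = pv • v - (aeval A p) v := by
      intro v
      have h1 := congrArg (fun B : H →L[ℂ] H => B v) (PT.R_eq A p (s j φ))
      simp only [mul_apply_eq_comp, _root_.sub_apply] at h1
      simp only [Algebra.algebraMap_eq_smul_one, _root_.smul_apply,
        one_apply_eq_self] at h1
      exact h1
    have hpsi : ∀ u v : H, (psi A p u v).eval (s j φ) = inner ℂ u (R v) := fun u v =>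
      PT.psi_eval A p (s j φ) u v
    set va : H := d⁻¹ • R y with hva
    set vb : H := d⁻¹ • R x' with hvb
    have hea : s j φ • va - A va = F • y := by
      have h1 : s j φ • va - A va = d⁻¹ • (s j φ • R y - A (R y)) := by
        rw [hva, map_smul]; module
      rw [h1, hRe, hPy, ← sub_smul, smul_smul, ← hFd]
      congr 1
      field_simp
    have heb : s j φ • vb - A vb = F • x - (2 : ℂ) • y := by
      have h1 : s j φ • vb - A vb = d⁻¹ • (s j φ • R x' - A (R x')) := by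
        rw [hvb, map_smul]; module
      have h2 : pv • x' - (ε • x + (2 : ℂ) • y) = d • (F • x - (2 : ℂ) • y) := by
        have e1 : d • (F • x - (2 : ℂ) • y) = (F * d) • x - (2 * d) • y := by module
        rw [e1, hFd, hx', hd]
        module
      rw [h1, hRe, hPx, h2, smul_smul, inv_mul_cancel₀ hd0, one_smul]
    have hE := hP H A L (s j) (ρ j) (Y j) hD x y hx hy hxy φ F va vb (by linarith) hea heb
    set DD : ℂ := F * (inner ℂ y va + F * inner ℂ y vb) + (inner ℂ x va + F * inner ℂ x vb) with hDD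
    set NN : ℂ := F * (inner ℂ (A y) va + F * inner ℂ (A y) vb) +
            (inner ℂ (A x) va + F * inner ℂ (A x) vb) with hNN
    have hia : ∀ u : H, inner ℂ u va = d⁻¹ * (psi A p u y).eval (s j φ) := by
      intro u; rw [hva, inner_smul_right, hpsi]
    have hib : ∀ u : H, inner ℂ u vb = d⁻¹ * (psi A p u x').eval (s j φ) := by
      intro u; rw [hvb, inner_smul_right, hpsi]
    have hFn' : F = (pv - ε) * d⁻¹ := by rw [← hFd]; field_simp
    have hDm : (Dm A p ε x y).eval (s j φ) = d ^ 3 * DD := by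
      rw [hDD, hia, hib, hia, hib, hFn']
      simp only [Dm, eval_add, eval_sub, eval_mul, eval_pow, eval_C, eval_one]
      rw [← hpv, ← hd, ← hx']
      field_simp
      ring
    have hNm : (Nm A p ε x y).eval (s j φ) = d ^ 3 * NN := by
      rw [hNN, hia, hib, hia, hib, hFn']
      simp only [Nm, eval_add, eval_sub, eval_mul, eval_pow, eval_C, eval_one]
      rw [← hpv, ← hd, ← hx']
      field_simp
      ring
    set E : ℝ := ‖(starRingEnd ℂ) (s j φ) * (Dm A p ε x y).eval (s j φ) -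
      (Nm A p ε x y).eval (s j φ)‖ ^ 2 with hEd
    have hE0 : 0 ≤ E := by positivity
    have hEE : E ≤ 64 * ‖(starRingEnd ℂ) (s j φ) * DD - NN‖ ^ 2 := by
      have e1 : (starRingEnd ℂ) (s j φ) * (Dm A p ε x y).eval (s j φ) -
          (Nm A p ε x y).eval (s j φ) = d ^ 3 * ((starRingEnd ℂ) (s j φ) * DD - NN) := by
        rw [hDm, hNm]; ring
      rw [hEd, e1, norm_mul, norm_pow, mul_pow, ← pow_mul]
      have e2 : ‖d‖ ^ (3 * 2) ≤ 2 ^ (3 * 2) := pow_le_pow_left₀ (norm_nonneg d) hd2 _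
      have e3 : (2 : ℝ) ^ (3 * 2) = 64 := by norm_num
      rw [e3] at e2
      gcongr
    have hEν : E * ν ≤ C1 * (2 * a + 2 * ((M' j - 1) ^ 2 * ν)) := by
      have hK00 := hA.ap.C0
      calc E * ν ≤ E * (K0 * ρ j φ) := by gcongr
        _ = K0 * (ρ j φ * E) := by ring
        _ ≤ K0 * (ρ j φ * (64 * ‖(starRingEnd ℂ) (s j φ) * DD - NN‖ ^ 2)) := by gcongr
        _ = K0 * (64 * (ρ j φ * ‖(starRingEnd ℂ) (s j φ) * DD - NN‖ ^ 2)) := by ring
        _ ≤ K0 * (64 * (160 * (L + ‖A‖) * (inner ℂ w' (Y j φ w')).re)) := by gcongr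
        _ = C1 * (inner ℂ w' (Y j φ w')).re := by rw [hC1]; ring
        _ ≤ _ := by gcongr
    have h1F : |1 - ‖F‖ ^ 2| ≤ (1 - ‖z‖ ^ 2) + (M' j ^ 2 - 1) := by
      have e1 : 1 - ‖F‖ ^ 2 = (1 - ‖z‖ ^ 2) - (M' j ^ 2 - 1) * ‖z‖ ^ 2 := by rw [hFM]; ring
      have h4 : 0 ≤ M' j ^ 2 - 1 := by nlinarith
      have h5 : (M' j ^ 2 - 1) * ‖z‖ ^ 2 ≤ M' j ^ 2 - 1 := by nlinarith
      have h6 : 0 ≤ (M' j ^ 2 - 1) * ‖z‖ ^ 2 := by positivity
      rw [e1, abs_le]
      constructor <;> nlinarith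
    have h1p : |1 - ‖pv‖ ^ 2| ≤ 4 / κ * |1 - ‖F‖ ^ 2| := by
      have e1 := mo_id ε pv
      rw [← hd, ← hFd, norm_mul, mul_pow, ← hκ] at e1
      have e2 : 1 - ‖pv‖ ^ 2 = ‖d‖ ^ 2 / κ * (1 - ‖F‖ ^ 2) := by
        field_simp
        linarith
      rw [e2, abs_mul, abs_of_nonneg (by positivity : 0 ≤ ‖d‖ ^ 2 / κ)]
      have e3 : ‖d‖ ^ 2 ≤ 4 := by nlinarith [norm_nonneg d]
      gcongr
    have hKp := hK (s j φ) (hD.bd φ)
    have h1Fν : |1 - ‖pv‖ ^ 2| * ν ≤ 4 / κ * ((1 - ‖z‖ ^ 2) * ν + (M' j ^ 2 - 1) * ν) := by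
      rw [← add_mul, ← mul_assoc]
      gcongr
      exact h1p.trans (by gcongr)
    have hK4 : 0 ≤ 4 / κ := by positivity
    calc ‖(Gp p (Dm A p ε x y) (Nm A p ε x y)).eval (s j φ)‖ ^ 2 * ν
        ≤ (K * (E + |1 - ‖pv‖ ^ 2|)) * ν := by gcongr
      _ = K * (E * ν + |1 - ‖pv‖ ^ 2| * ν) := by ring
      _ ≤ K * (C1 * (2 * a + 2 * ((M' j - 1) ^ 2 * ν)) +
          4 / κ * ((1 - ‖z‖ ^ 2) * ν + (M' j ^ 2 - 1) * ν)) := by gcongr
      _ ≤ K' * ((a + (1 - ‖z‖ ^ 2) * ν) + ((M' j - 1) ^ 2 + (M' j ^ 2 - 1)) * ν) := by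
          rw [hK', mul_assoc K (2 * C1 + 4 / κ)]
          refine mul_le_mul_of_nonneg_left ?_ hK0
          have g1 : 0 ≤ (1 - ‖z‖ ^ 2) * ν := mul_nonneg (by linarith) hν0
          have g2 : 0 ≤ (M' j ^ 2 - 1) * ν := mul_nonneg (by nlinarith) hν0
          have g3 : 0 ≤ (M' j - 1) ^ 2 * ν := by positivity
          have g4 := mul_nonneg hC10 g1
          have g5 := mul_nonneg hC10 g2
          have g6 := mul_nonneg hK4 ha0
          have g7 := mul_nonneg hK4 g3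
          nlinarith
  have hmc : ∀ j, Continuous (fun φ => mo ε (p.eval (s j φ))) := by
    intro j
    have h1 : Continuous (fun φ => p.eval (s j φ)) :=
      (Polynomial.continuous _).comp (hA.ap.dat j).sc
    exact (h1.sub continuous_const).div (continuous_const.sub (continuous_const.mul h1))
      (hden0 j)
  have hcont : ∀ j, Continuous (fun φ => ‖(Gp p (Dm A p ε x y) (Nm A p ε x y)).eval (s j φ)‖ ^ 2 *
      (inner ℂ x (Y j φ x)).re) := by
    intro j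
    have h1 := cont_q (hA.ap.dat j) (continuous_const (y := x)) (continuous_const (y := x))
    have h2 : Continuous (fun φ => (Gp p (Dm A p ε x y) (Nm A p ε x y)).eval (s j φ)) :=
      (Polynomial.continuous _).comp (hA.ap.dat j).sc
    exact (h2.norm.pow 2).mul h1
  have hzc : ∀ j, Continuous (fun φ => (((M' j)⁻¹ : ℝ) * mo ε (p.eval (s j φ)) : ℂ)) := by
    intro j
    exact continuous_const.mul (hmc j)
  have hcont2 : ∀ j, Continuous (fun φ =>
      (inner ℂ (y - (((M' j)⁻¹ : ℝ) * mo ε (p.eval (s j φ)) : ℂ) • x)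
        (Y j φ (y - (((M' j)⁻¹ : ℝ) * mo ε (p.eval (s j φ)) : ℂ) • x))).re
      + (1 - ‖(((M' j)⁻¹ : ℝ) * mo ε (p.eval (s j φ)) : ℂ)‖ ^ 2) * (inner ℂ x (Y j φ x)).re) := by
    intro j
    have h1 := cont_q (hA.ap.dat j) (continuous_const (y := x)) (continuous_const (y := x))
    have h2 : Continuous (fun φ => y - (((M' j)⁻¹ : ℝ) * mo ε (p.eval (s j φ)) : ℂ) • x) :=
      continuous_const.sub ((hzc j).smul continuous_const)
    exact (cont_q (hA.ap.dat j) h2 h2).add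
      ((continuous_const.sub ((hzc j).norm.pow 2)).mul h1)
  have hcont3 : ∀ j, Continuous (fun φ => ((M' j - 1) ^ 2 + (M' j ^ 2 - 1)) *
      (inner ℂ x (Y j φ x)).re) := by
    intro j
    exact continuous_const.mul (cont_q (hA.ap.dat j) (continuous_const (y := x))
      (continuous_const (y := x)))
  have hle : ∀ j, J x (s j) (Y j) (Gp p (Dm A p ε x y) (Nm A p ε x y)) ≤
      K' * (mean (fun φ =>
      (inner ℂ (y - (((M' j)⁻¹ : ℝ) * mo ε (p.eval (s j φ)) : ℂ) • x)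
        (Y j φ (y - (((M' j)⁻¹ : ℝ) * mo ε (p.eval (s j φ)) : ℂ) • x))).re
      + (1 - ‖(((M' j)⁻¹ : ℝ) * mo ε (p.eval (s j φ)) : ℂ)‖ ^ 2) * (inner ℂ x (Y j φ x)).re)
      + ((M' j - 1) ^ 2 + (M' j ^ 2 - 1))) := by
    intro j
    unfold J
    have hc : Continuous (fun φ => K' * (((inner ℂ (y - (((M' j)⁻¹ : ℝ) *
        mo ε (p.eval (s j φ)) : ℂ) • x)
        (Y j φ (y - (((M' j)⁻¹ : ℝ) * mo ε (p.eval (s j φ)) : ℂ) • x))).re
      + (1 - ‖(((M' j)⁻¹ : ℝ) * mo ε (p.eval (s j φ)) : ℂ)‖ ^ 2) * (inner ℂ x (Y j φ x)).re)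
      + ((M' j - 1) ^ 2 + (M' j ^ 2 - 1)) * (inner ℂ x (Y j φ x)).re)) :=
      continuous_const.mul ((hcont2 j).add (hcont3 j))
    refine (mean_mono (hcont j) hc (hpt j)).trans (le_of_eq ?_)
    rw [mean_const_mul, mean_add (hcont2 j) (hcont3 j), mean_const_mul, hν j, mul_one]
  have h0 : ∀ j, 0 ≤ J x (s j) (Y j) (Gp p (Dm A p ε x y) (Nm A p ε x y)) := by
    intro j
    unfold J
    exact mean_nonneg fun φ => mul_nonneg (by positivity) ((hA.ap.dat j).pos φ x)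
  have hMt := hA.Mt
  have hup : Tendsto (fun j => K' * (mean (fun φ =>
      (inner ℂ (y - (((M' j)⁻¹ : ℝ) * mo ε (p.eval (s j φ)) : ℂ) • x)
        (Y j φ (y - (((M' j)⁻¹ : ℝ) * mo ε (p.eval (s j φ)) : ℂ) • x))).re
      + (1 - ‖(((M' j)⁻¹ : ℝ) * mo ε (p.eval (s j φ)) : ℂ)‖ ^ 2) * (inner ℂ x (Y j φ x)).re)
      + ((M' j - 1) ^ 2 + (M' j ^ 2 - 1)))) atTop (𝓝 (K' * (0 + ((1 - 1) ^ 2 + (1 ^ 2 - 1))))) :=
    ((hlim.add (((hMt.sub_const 1).pow 2).add ((hMt.pow 2).sub_const 1)))).const_mul K'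
  have e0 : K' * (0 + ((1 - 1) ^ 2 + (1 ^ 2 - 1)) : ℝ) = 0 := by norm_num
  rw [e0] at hup
  exact squeeze_zero h0 hle hup

end

end Pool.Agent.H243.CE
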