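import Pool.Agent.H243.CE.Stmt

/-!
# (CE3) an exact mean value
-/

set_option autoImplicit false

open MeasureTheory Set Filter Topology Polynomial

namespace Pool.Agent.H243.CE

noncomputable section

namespace MEAN

variable {H : Type} [NormedAddCommGroup H] [InnerProductSpace ℂ H]

/-- the real linear functional `T ↦ Re ⟨u, T v⟩` -/
def Lf (u v : H) : (H →L[ℂ] H) →L[ℝ] ℝ :=
  Complex.reCLM.comp (((innerSL ℂ u).comp (ContinuousLinearMap.apply ℂ H v)).restrictScalars ℝ)

theorem Lf_apply (u v : H) (T : H →L[ℂ] H) : Lf u v T = (inner ℂ u (T v)).re := rfl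

theorem int_Gam [CompleteSpace H] {Y : ℝ → H →L[ℂ] H} (hY : Continuous Y) {h : ℝ → ℂ} (hh : Continuous h) (u v : H) :
    (2 * Real.pi)⁻¹ * ∫ φ in (0 : ℝ)..(2 * Real.pi), (inner ℂ u ((h φ • Y φ) v)).re =
      (inner ℂ u (Gam Y h v)).re := by
  have h1 : ∫ φ in (0 : ℝ)..(2 * Real.pi), (inner ℂ u ((h φ • Y φ) v)).re =
      (inner ℂ u ((∫ φ in (0 : ℝ)..(2 * Real.pi), h φ • Y φ) v)).re := by
    have h2 := (Lf u v).intervalIntegral_comp_comm (μ := volume) (a := 0) (b := 2 * Real.pi)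
      (f := fun φ => h φ • Y φ) ((hh.smul hY).intervalIntegrable _ _)
    exact h2
  rw [h1]
  unfold Gam
  rw [smul_apply, inner_smul_right, ← Complex.ofReal_inv,
    Complex.re_ofReal_mul]

theorem Gam_poly {A : H →L[ℂ] H} {L : ℝ} {s : ℝ → ℂ} {ρ : ℝ → ℝ} {Y : ℝ → H →L[ℂ] H}
    (D : Datum A L s ρ Y) (q : ℂ[X]) : Gam Y (fun φ => q.eval (s φ)) = aeval A q := by
  unfold Gam
  rw [D.int q, smul_smul, inv_mul_cancel₀, one_smul]
  have : (2 * Real.pi : ℝ) ≠ 0 := by positivity
  exact_mod_cast this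

theorem pointwise (T : H →L[ℂ] H) (z : ℂ) (x y : H) :
    (inner ℂ (y - z • x) (T (y - z • x))).re + (1 - ‖z‖ ^ 2) * (inner ℂ x (T x)).re =
      (inner ℂ y (T y)).re + (inner ℂ x (T x)).re - (inner ℂ y ((z • T) x)).re -
        (inner ℂ x (((starRingEnd ℂ) z • T) y)).re := by
  rw [smul_apply, smul_apply, map_sub, map_smul,
    inner_sub_left, inner_sub_right, inner_sub_right, inner_smul_right, inner_smul_left,
    inner_smul_left, inner_smul_right, inner_smul_right]
  have h1 : ‖z‖ ^ 2 = z.re ^ 2 + z.im ^ 2 := by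
    rw [← Complex.normSq_eq_norm_sq, Complex.normSq_apply]
    ring
  rw [h1]
  simp only [Complex.sub_re, Complex.mul_re, Complex.mul_im, Complex.conj_re, Complex.conj_im]
  ring

end MEAN

open MEAN

theorem t_MEAN : S_MEAN := by
  intro H _ _ _ A L s ρ Y D g x y
  have hg : Continuous fun φ => g.eval (s φ) := g.continuous.comp D.sc
  have hgc : Continuous fun φ => (starRingEnd ℂ) (g.eval (s φ)) := Complex.continuous_conj.comp hg
  have hco : Continuous fun _ : ℝ => (1 : ℂ) := continuous_const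
  have hci : ∀ (u v : H) (h : ℝ → ℂ), Continuous h →
      Continuous fun φ => (inner ℂ u ((h φ • Y φ) v)).re := by
    intro u v h hh
    exact (Lf u v).continuous.comp (hh.smul D.Yc)
  have h1 : Gam Y (fun _ => (1 : ℂ)) = 1 := by
    have h2 := Gam_poly D 1
    simp only [eval_one, map_one] at h2
    exact h2
  have e1 := int_Gam D.Yc hco y y
  have e2 := int_Gam D.Yc hco x x
  have e3 := int_Gam D.Yc hg y x
  have e4 := int_Gam D.Yc hgc x y
  rw [h1, one_apply_eq_self] at e1 e2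
  rw [Gam_poly D g] at e3
  have n1 : ∀ u : H, (inner ℂ u u).re = ‖u‖ ^ 2 := fun u => by
    rw [inner_self_eq_norm_sq_to_K]
    norm_cast
  rw [n1] at e1 e2
  unfold mean
  have hint : ∫ φ in (0 : ℝ)..(2 * Real.pi),
      ((inner ℂ (y - g.eval (s φ) • x) (Y φ (y - g.eval (s φ) • x))).re
        + (1 - ‖g.eval (s φ)‖ ^ 2) * (inner ℂ x (Y φ x)).re) =
      (∫ φ in (0 : ℝ)..(2 * Real.pi), (inner ℂ y (((1 : ℂ) • Y φ) y)).re) +
      (∫ φ in (0 : ℝ)..(2 * Real.pi), (inner ℂ x (((1 : ℂ) • Y φ) x)).re) -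
      (∫ φ in (0 : ℝ)..(2 * Real.pi), (inner ℂ y ((g.eval (s φ) • Y φ) x)).re) -
      (∫ φ in (0 : ℝ)..(2 * Real.pi),
        (inner ℂ x (((starRingEnd ℂ) (g.eval (s φ)) • Y φ) y)).re) := by
    have i1 := (hci y y _ hco).intervalIntegrable (μ := volume) 0 (2 * Real.pi)
    have i2 := (hci x x _ hco).intervalIntegrable (μ := volume) 0 (2 * Real.pi)
    have i3 := (hci y x _ hg).intervalIntegrable (μ := volume) 0 (2 * Real.pi)
    have i4 := (hci x y _ hgc).intervalIntegrable (μ := volume) 0 (2 * Real.pi)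
    rw [← intervalIntegral.integral_add i1 i2, ← intervalIntegral.integral_sub (i1.add i2) i3,
      ← intervalIntegral.integral_sub ((i1.add i2).sub i3) i4]
    refine intervalIntegral.integral_congr fun φ _ => ?_
    simp only [one_smul]
    exact pointwise (Y φ) (g.eval (s φ)) x y
  rw [hint, mul_sub, mul_sub, mul_add, e1, e2, e3, e4]

end

end Pool.Agent.H243.CE
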