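import Pool.Agent.H243.CE.Stmt

/-!
# Equality cases in Crouzeix's inequality, task CE-REC (helper225): the real recursion
-/

set_option autoImplicit false

open MeasureTheory Set Filter Topology Polynomial

namespace Pool.Agent.H243.CE

/-- (CE4) the real recursion -/
theorem t_REC : S_REC := by
  intro γ ν hν hγ h
  have h0 : γ 1 ≤ 0 := by
    have := h 1 le_rfl 0
    linarith
  have hstep : ∀ k, 1 ≤ k → γ (k + 1) ≤ 2 * γ k - γ 1 := by
    intro k hk
    have := h k hk 1
    linarith
  have hle : ∀ k, γ (k + 1) ≤ γ 1 := by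
    intro k
    induction k with
    | zero => exact le_rfl
    | succ k ih =>
      have := hstep (k + 1) (by omega)
      linarith
  have hlim : ∀ j : ℕ, Tendsto (fun k => γ (k + j)) atTop (𝓝 0) := fun j =>
    hγ.comp (tendsto_add_atTop_nat j)
  have h1 : γ 1 = 0 := by
    apply le_antisymm h0
    exact le_of_tendsto' (hlim 1) hle
  have hβ : ∀ k, 1 ≤ k → ν k - γ k + γ (k + 1) / 2 = 0 := by
    intro k hk
    obtain ⟨β, hβ⟩ : ∃ β, β = ν k - γ k + γ (k + 1) / 2 := ⟨_, rfl⟩
    rw [← hβ]
    have h2 : ∀ t : ℝ, 0 ≤ t ^ 2 * ν k - t * β := by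
      intro t
      have := h k hk t
      rw [← hβ, h1] at this
      linarith
    by_contra hne
    -- take `t = β / (2 (ν k + 1))`
    have hn := hν k
    have hpos : 0 < ν k + 1 := by linarith
    have h3 := h2 (β / (2 * (ν k + 1)))
    have h4 : (β / (2 * (ν k + 1))) ^ 2 * ν k - β / (2 * (ν k + 1)) * β =
        -(β ^ 2 * (ν k + 2) / (4 * (ν k + 1) ^ 2)) := by
      field_simp
      ring
    rw [h4] at h3
    have h5 : 0 < β ^ 2 * (ν k + 2) / (4 * (ν k + 1) ^ 2) := by
      have : 0 < β ^ 2 := by positivity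
      positivity
    linarith
  have hrec : ∀ k, 1 ≤ k → γ (k + 1) = 2 * (γ k - ν k) := by
    intro k hk
    have := hβ k hk
    linarith
  have h2 : γ 2 = -2 * ν 1 := by
    have := hrec 1 le_rfl
    rw [h1] at this
    linarith
  have hν1 := hν 1
  have hle2 : ∀ k, γ (k + 2) ≤ γ 2 := by
    intro k
    induction k with
    | zero => exact le_rfl
    | succ k ih =>
      have h3 := hrec (k + 2) (by omega)
      have h4 := hν (k + 2)
      have h5 : γ (k + 1 + 2) = γ (k + 2 + 1) := by rw [show k + 1 + 2 = k + 2 + 1 by omega]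
      rw [h5, h3]
      linarith
  have h3 : 0 ≤ γ 2 := le_of_tendsto' (hlim 2) hle2
  have h4 : ν 1 = 0 := by linarith
  exact ⟨h1, by rw [h2, h4]; ring, h4⟩

end Pool.Agent.H243.CE
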