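import Pool.Agent.H243.CE.Stmt

/-! # Toeplitz positivity of the kernel -/

set_option autoImplicit false

open MeasureTheory Set Filter Topology Polynomial

namespace Pool.Agent.H243.CE

namespace TOEP

variable {H : Type} [NormedAddCommGroup H] [InnerProductSpace ℂ H] [CompleteSpace H]

lemma hre (Y : ℝ → H →L[ℂ] H) (hY : Continuous Y) (x : ℝ) (v u : H) :
    ∫ φ in (0 : ℝ)..x, (inner ℂ v (Y φ u)).re =
      (inner ℂ v ((∫ φ in (0 : ℝ)..x, Y φ) u)).re := by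
  have e1 := ContinuousLinearMap.intervalIntegral_comp_comm
    ((innerSL ℂ v).comp (ContinuousLinearMap.apply ℂ H u)) (f := Y) (a := (0 : ℝ)) (b := x)
    (μ := volume) (hY.intervalIntegrable _ _)
  have hYc : Continuous (fun φ => inner ℂ v (Y φ u)) := by fun_prop
  have e2 := ContinuousLinearMap.intervalIntegral_comp_comm Complex.reCLM
    (f := fun φ => inner ℂ v (Y φ u)) (a := (0 : ℝ)) (b := x) (μ := volume)
    (hYc.intervalIntegrable _ _)
  have e3 : ∫ φ in (0 : ℝ)..x, inner ℂ v (Y φ u) =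
      inner ℂ v ((∫ φ in (0 : ℝ)..x, Y φ) u) := e1
  rw [← e3]
  exact e2

omit [CompleteSpace H] in
lemma hrec (Y : ℝ → H →L[ℂ] H) (hY : Continuous Y) (x : ℝ) (v u : H) :
    IntervalIntegrable (fun φ => (inner ℂ v (Y φ u)).re) volume 0 x := by
  apply Continuous.intervalIntegrable
  have hYc : Continuous (fun φ => inner ℂ v (Y φ u)) := by fun_prop
  exact Complex.continuous_re.comp hYc

end TOEP

open TOEP in
theorem t_TOEP : S_TOEP := by
  intro H _ _ _ A L s ρ Y hD g hg k a b c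
  have hπ : (0 : ℝ) < 2 * Real.pi := by positivity
  obtain ⟨p2, hp2⟩ : ∃ p2 : ℝ, p2 = 2 * Real.pi := ⟨_, rfl⟩
  have hπ2 : 0 < p2 := by rw [hp2]; exact hπ
  have hπc : (p2 : ℂ) ≠ 0 := by exact_mod_cast hπ2.ne'
  have hint := hD.int
  simp only [← hp2] at hint
  obtain ⟨z, hz⟩ : ∃ z : ℝ → ℂ, z = fun φ => g.eval (s φ) := ⟨_, rfl⟩
  have hzv : ∀ φ, g.eval (s φ) = z φ := fun φ => by rw [hz]
  have hsc := hD.sc
  have hYc := hD.Yc
  have hzc : Continuous z := by rw [hz]; fun_prop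
  have hz1 : ∀ φ, ‖z φ‖ ≤ 1 := fun φ => by rw [← hzv]; exact hg φ
  have hTn : ∀ n : ℕ, ∫ φ in (0 : ℝ)..p2, z φ ^ n • Y φ = (p2 : ℂ) • (aeval A g) ^ n := by
    intro n
    have := hint (g ^ n)
    rw [map_pow] at this
    rw [← this]
    apply intervalIntegral.integral_congr
    intro φ _
    simp only [eval_pow, hzv]
  have hX1 : ∫ φ in (0 : ℝ)..p2, Y φ = (p2 : ℂ) • (1 : H →L[ℂ] H) := by
    have := hTn 0
    simpa using this
  have hGn : ∀ n : ℕ, ∫ φ in (0 : ℝ)..p2, star (z φ) ^ n • Y φ =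
      (p2 : ℂ) • Gam Y (fun φ => (starRingEnd ℂ) (g.eval (s φ)) ^ n) := by
    intro n
    unfold Gam
    rw [← hp2, smul_smul, mul_inv_cancel₀ hπc, one_smul]
    apply intervalIntegral.integral_congr
    intro φ _
    simp only [hzv]
    rfl
  have hG1 : Gam Y (fun φ => (starRingEnd ℂ) (g.eval (s φ))) =
      Gam Y (fun φ => (starRingEnd ℂ) (g.eval (s φ)) ^ 1) := by
    simp only [pow_one]
  rw [hG1]
  have hzk : ∀ n : ℕ, Continuous (fun φ => z φ ^ n • Y φ) := fun n => by fun_prop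
  have hstarc : Continuous (fun φ => star (z φ)) := hzc.star
  have hwk : ∀ n : ℕ, Continuous (fun φ => star (z φ) ^ n • Y φ) := fun n => by fun_prop
  have h0 : 0 ≤ ∫ φ in (0 : ℝ)..p2, ((inner ℂ a (Y φ a)).re + (inner ℂ b (Y φ b)).re
      + (inner ℂ c (Y φ c)).re
      + ((inner ℂ b ((z φ ^ k • Y φ) a)).re + (inner ℂ a ((star (z φ) ^ k • Y φ) b)).re)
      + ((inner ℂ c ((z φ ^ (k + 1) • Y φ) a)).re
        + (inner ℂ a ((star (z φ) ^ (k + 1) • Y φ) c)).re)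
      + ((inner ℂ c ((z φ ^ 1 • Y φ) b)).re + (inner ℂ b ((star (z φ) ^ 1 • Y φ) c)).re)) :=
    intervalIntegral.integral_nonneg hπ2.le
      (fun φ _ => Pool.Agent.W753.CZ.sos_nonneg (Y φ) (hD.pos φ) (z φ) (hz1 φ) k a b c)
  rw [Pool.Agent.W753.CZ.int9 (hrec _ hYc _ a a) (hrec _ hYc _ b b) (hrec _ hYc _ c c)
    (hrec _ (hzk k) _ b a)
    (hrec _ (hwk k) _ a b) (hrec _ (hzk (k + 1)) _ c a) (hrec _ (hwk (k + 1)) _ a c)
    (hrec _ (hzk 1) _ c b) (hrec _ (hwk 1) _ b c),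
    hre _ hYc, hre _ hYc, hre _ hYc, hre _ (hzk k), hre _ (hwk k), hre _ (hzk (k + 1)),
    hre _ (hwk (k + 1)), hre _ (hzk 1), hre _ (hwk 1), hX1, hTn, hGn, hTn, hGn, hTn, hGn] at h0
  have hs1 : ∀ (Z : H →L[ℂ] H) (v u : H), (inner ℂ v (((p2 : ℂ) • Z) u)).re =
      p2 * (inner ℂ v (Z u)).re := by
    intro Z v u
    rw [smul_apply, inner_smul_right, Complex.re_ofReal_mul]
  have hs2 : ∀ v : H, (inner ℂ v ((1 : H →L[ℂ] H) v)).re = ‖v‖ ^ 2 := by
    intro v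
    rw [one_apply_eq_self, inner_self_eq_norm_sq_to_K]
    norm_cast
  simp only [hs1, hs2] at h0
  have h1 : 0 ≤ p2 * (‖a‖ ^ 2 + ‖b‖ ^ 2 + ‖c‖ ^ 2 +
      ((inner ℂ b (((aeval A g) ^ k) a)).re + (inner ℂ a ((Gam Y (fun φ =>
        (starRingEnd ℂ) (g.eval (s φ)) ^ k)) b)).re) +
      ((inner ℂ c (((aeval A g) ^ (k + 1)) a)).re + (inner ℂ a ((Gam Y (fun φ =>
        (starRingEnd ℂ) (g.eval (s φ)) ^ (k + 1))) c)).re) +
      ((inner ℂ c (((aeval A g) ^ 1) b)).re + (inner ℂ b ((Gam Y (fun φ =>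
        (starRingEnd ℂ) (g.eval (s φ)) ^ 1)) c)).re)) := by
    refine h0.trans (le_of_eq ?_)
    ring
  have h2 := nonneg_of_mul_nonneg_right h1 hπ2
  rw [pow_one (aeval A g)] at h2
  exact h2

end Pool.Agent.H243.CE
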