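import Pool.Agent.H243.CE.Stmt

set_option autoImplicit false

open MeasureTheory Set Filter Topology Polynomial

namespace Pool.Agent.H243.CE

theorem t_UB : S_UB := by
  intro H _ _ _ A hNE L
  have : ProperSpace H := FiniteDimensional.proper ℂ H
  set K : Set (ℂ × ℂ × H) := {p | ‖p.1‖ = 1 ∧ ‖p.2.1‖ ≤ L ∧ ‖p.2.2‖ = 1 ∧
    ∀ w : H, 0 ≤ (p.1 * (p.2.1 * (‖w‖ : ℂ) ^ 2 - inner ℂ w (A w))).re} with hK
  have hcl : IsClosed K := by
    have h1 : IsClosed {p : ℂ × ℂ × H | ‖p.1‖ = 1} :=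
      isClosed_eq continuous_fst.norm continuous_const
    have h2 : IsClosed {p : ℂ × ℂ × H | ‖p.2.1‖ ≤ L} :=
      isClosed_le (continuous_fst.comp continuous_snd).norm continuous_const
    have h3 : IsClosed {p : ℂ × ℂ × H | ‖p.2.2‖ = 1} :=
      isClosed_eq (continuous_snd.comp continuous_snd).norm continuous_const
    have h4 : IsClosed {p : ℂ × ℂ × H | ∀ w : H,
        0 ≤ (p.1 * (p.2.1 * (‖w‖ : ℂ) ^ 2 - inner ℂ w (A w))).re} := by
      rw [Set.ofPred_forall]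
      refine isClosed_iInter fun w => ?_
      refine isClosed_le continuous_const (Complex.continuous_re.comp ?_)
      exact continuous_fst.mul (((continuous_fst.comp continuous_snd).mul continuous_const).sub
        continuous_const)
    exact h1.inter (h2.inter (h3.inter h4))
  have hsub : K ⊆ Metric.closedBall (0:ℂ) 1 ×ˢ (Metric.closedBall (0:ℂ) L ×ˢ
      Metric.closedBall (0:H) 1) := by
    rintro ⟨e, ζ, u⟩ ⟨h1, h2, h3, -⟩
    simp only [mem_prod, mem_closedBall_zero_iff]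
    exact ⟨h1.le, h2, h3.le⟩
  have hcomp : IsCompact K := ((isCompact_closedBall _ _).prod
    ((isCompact_closedBall _ _).prod (isCompact_closedBall _ _))).of_isClosed_subset hcl hsub
  have key : ∃ m : ℝ, 0 < m ∧ ∀ p ∈ K, m ≤ ‖p.2.1 • p.2.2 - A p.2.2‖ := by
    rcases K.eq_empty_or_nonempty with h | h
    · exact ⟨1, one_pos, by rw [h]; simp⟩
    · have hc : Continuous fun p : ℂ × ℂ × H => ‖p.2.1 • p.2.2 - A p.2.2‖ := by
        refine (Continuous.sub ?_ ?_).norm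
        · exact (continuous_fst.comp continuous_snd).smul (continuous_snd.comp continuous_snd)
        · exact A.continuous.comp (continuous_snd.comp continuous_snd)
      obtain ⟨p, hp, hmin⟩ := hcomp.exists_isMinOn h hc.continuousOn
      refine ⟨‖p.2.1 • p.2.2 - A p.2.2‖, ?_, fun q hq => hmin hq⟩
      rw [norm_pos_iff]
      intro h0
      obtain ⟨e, ζ, u⟩ := p
      obtain ⟨h1, h2, h3, h4⟩ := hp
      have h5 : A u = ζ • u := (sub_eq_zero.1 h0).symm
      have h6 := hNE e ζ u h1 h5 h4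
      simp only at h3
      rw [h6, norm_zero] at h3
      exact zero_ne_one h3
  obtain ⟨m, hm, hmin⟩ := key
  refine ⟨m⁻¹, inv_pos.2 hm, fun e ζ he hζ hpos u => ?_⟩
  by_cases hu : u = 0
  · rw [hu]
    simp
  have hun : 0 < ‖u‖ := norm_pos_iff.2 hu
  have h1 : ‖((‖u‖ : ℂ)⁻¹) • u‖ = 1 := by
    rw [norm_smul, norm_inv, Complex.norm_real, norm_norm, inv_mul_cancel₀ hun.ne']
  have h2 := hmin (e, ζ, ((‖u‖ : ℂ)⁻¹) • u) ⟨he, hζ, h1, hpos⟩
  have h3 : ζ • ((‖u‖ : ℂ)⁻¹) • u - A (((‖u‖ : ℂ)⁻¹) • u) =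
      ((‖u‖ : ℂ)⁻¹) • (ζ • u - A u) := by
    rw [map_smul, smul_sub, smul_comm]
  simp only at h2
  rw [h3, norm_smul, norm_inv, Complex.norm_real, norm_norm] at h2
  rw [inv_mul_eq_div, le_div_iff₀ hm]
  rw [inv_mul_eq_div, le_div_iff₀ hun] at h2
  linarith

end Pool.Agent.H243.CE
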