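import Pool.Agent.H243.CE.Stmt

/-!
# Equality cases in Crouzeix's inequality: no polynomial except zero is small (`S_ZERO`)
-/

set_option autoImplicit false

open MeasureTheory Set Filter Topology Polynomial

namespace Pool.Agent.H243.CE

namespace ZERO

variable {H : Type} [NormedAddCommGroup H] [InnerProductSpace ℂ H]

/-- An annihilating polynomial has a root which is an eigenvalue. -/
theorem exists_eig (A : H →L[ℂ] H) {y : H} (hy : y ≠ 0) : ∀ (n : ℕ) (g : ℂ[X]),
    g.natDegree ≤ n → g ≠ 0 → (aeval A g) y = 0 →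
    ∃ (β : ℂ) (u : H), u ≠ 0 ∧ A u = β • u ∧ (X - C β) ∣ g := by
  intro n
  induction n with
  | zero =>
    intro g hn hg h0
    exfalso
    rw [eq_C_of_natDegree_le_zero hn] at h0 hg
    rw [aeval_C, Algebra.algebraMap_eq_smul_one] at h0
    have h1 : g.coeff 0 • y = 0 := h0
    rcases smul_eq_zero.1 h1 with h2 | h2
    · exact hg (by rw [h2, C_0])
    · exact hy h2
  | succ n ih =>
    intro g hn hg h0
    by_cases hd : g.natDegree ≤ n
    · exact ih g hd hg h0
    · have hdeg : g.degree ≠ 0 := by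
        intro hc
        have := natDegree_eq_zero_iff_degree_le_zero.2 hc.le
        omega
      obtain ⟨β, hβ⟩ := IsAlgClosed.exists_root g hdeg
      obtain ⟨g1, hg1⟩ := dvd_iff_isRoot.2 hβ
      have hg10 : g1 ≠ 0 := by
        rintro rfl
        exact hg (by rw [hg1, mul_zero])
      have hdeg1 : g1.natDegree ≤ n := by
        rw [hg1, natDegree_mul (X_sub_C_ne_zero β) hg10, natDegree_X_sub_C] at hn
        omega
      by_cases hu : (aeval A g1) y = 0
      · obtain ⟨β', u, h1, h2, h3⟩ := ih g1 hdeg1 hg10 hu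
        exact ⟨β', u, h1, h2, h3.trans (by rw [hg1]; exact dvd_mul_left _ _)⟩
      · refine ⟨β, (aeval A g1) y, hu, ?_, ⟨g1, hg1⟩⟩
        rw [hg1, map_mul, map_sub, aeval_X, aeval_C, Algebra.algebraMap_eq_smul_one] at h0
        have h1 : A ((aeval A g1) y) - β • ((aeval A g1) y) = 0 := h0
        exact sub_eq_zero.1 h1

theorem cont_int {A : H →L[ℂ] H} {L : ℝ} {s : ℝ → ℂ} {ρ : ℝ → ℝ} {Y : ℝ → H →L[ℂ] H}
    (hD : Datum A L s ρ Y) (x : H) (g : ℂ[X]) :
    Continuous fun φ => ‖g.eval (s φ)‖ ^ 2 * (inner ℂ x (Y φ x)).re := by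
  have h1 : Continuous fun φ => g.eval (s φ) := g.continuous.comp hD.sc
  have h2 : Continuous fun φ => Y φ x := hD.Yc.clm_apply continuous_const
  exact (h1.norm.pow 2).mul (Complex.continuous_re.comp (continuous_const.inner h2))

theorem J_nonneg {A : H →L[ℂ] H} {L : ℝ} {s : ℝ → ℂ} {ρ : ℝ → ℝ} {Y : ℝ → H →L[ℂ] H}
    (hD : Datum A L s ρ Y) (x : H) (g : ℂ[X]) : 0 ≤ J x s Y g := by
  unfold J mean
  refine mul_nonneg (by positivity) ?_
  refine intervalIntegral.integral_nonneg (by positivity) fun φ _ => ?_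
  exact mul_nonneg (by positivity) (hD.pos φ x)

theorem J_le {A : H →L[ℂ] H} {L : ℝ} {s : ℝ → ℂ} {ρ : ℝ → ℝ} {Y : ℝ → H →L[ℂ] H}
    (hD : Datum A L s ρ Y) (x : H) (g g1 : ℂ[X]) (K : ℝ)
    (h : ∀ φ, ‖g1.eval (s φ)‖ ^ 2 ≤ K * ‖g.eval (s φ)‖ ^ 2) :
    J x s Y g1 ≤ K * J x s Y g := by
  unfold J mean
  have h1 : ∫ φ in (0 : ℝ)..(2 * Real.pi), ‖g1.eval (s φ)‖ ^ 2 * (inner ℂ x (Y φ x)).re ≤
      ∫ φ in (0 : ℝ)..(2 * Real.pi), K * (‖g.eval (s φ)‖ ^ 2 * (inner ℂ x (Y φ x)).re) := by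
    refine intervalIntegral.integral_mono_on (by positivity : (0 : ℝ) ≤ 2 * Real.pi)
      ((cont_int hD x g1).intervalIntegrable _ _)
      ((continuous_const.mul (cont_int hD x g)).intervalIntegrable _ _) fun φ _ => ?_
    rw [← mul_assoc]
    exact mul_le_mul_of_nonneg_right (h φ) (hD.pos φ x)
  rw [intervalIntegral.integral_const_mul] at h1
  calc (2 * Real.pi)⁻¹ * ∫ φ in (0 : ℝ)..(2 * Real.pi),
        ‖g1.eval (s φ)‖ ^ 2 * (inner ℂ x (Y φ x)).re
      ≤ (2 * Real.pi)⁻¹ * (K * ∫ φ in (0 : ℝ)..(2 * Real.pi),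
        ‖g.eval (s φ)‖ ^ 2 * (inner ℂ x (Y φ x)).re) :=
        mul_le_mul_of_nonneg_left h1 (by positivity)
    _ = _ := by ring

end ZERO

theorem t_ZERO : S_ZERO := by
  intro H _ _ _ A f L C s ρ Y M hA x y hy hId
  have main : ∀ (n : ℕ) (g : ℂ[X]), g.natDegree ≤ n →
      Tendsto (fun j => J x (s j) (Y j) g) atTop (𝓝 0) → g = 0 := by
    intro n
    induction n with
    | zero =>
      intro g hn hg
      by_contra hg0
      obtain ⟨β, u, hu, hAu, g1, hg1⟩ := ZERO.exists_eig A hy 0 g hn hg0 (hId g hg)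
      have hg10 : g1 ≠ 0 := by
        rintro rfl
        exact hg0 (by rw [hg1, mul_zero])
      rw [hg1, natDegree_mul (X_sub_C_ne_zero β) hg10, natDegree_X_sub_C] at hn
      omega
    | succ n ih =>
      intro g hn hg
      by_contra hg0
      obtain ⟨β, u, hu, hAu, g1, hg1⟩ := ZERO.exists_eig A hy (n + 1) g hn hg0 (hId g hg)
      have hg10 : g1 ≠ 0 := by
        rintro rfl
        exact hg0 (by rw [hg1, mul_zero])
      have hn1 : g1.natDegree ≤ n := by
        rw [hg1, natDegree_mul (X_sub_C_ne_zero β) hg10, natDegree_X_sub_C] at hn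
        omega
      refine hg10 (ih g1 hn1 ?_)
      have hdist : ∀ j φ, 1 ≤ C * ‖s j φ - β‖ := by
        intro j φ
        have h1 := hA.ub j φ u
        rw [hAu, ← sub_smul, norm_smul, ← mul_assoc] at h1
        have h2 : 0 < ‖u‖ := norm_pos_iff.2 hu
        by_contra hc
        rw [not_le] at hc
        have h3 := mul_lt_mul_of_pos_right hc h2
        linarith
      have hle : ∀ j, J x (s j) (Y j) g1 ≤ C ^ 2 * J x (s j) (Y j) g := by
        intro j
        refine ZERO.J_le (hA.dat j) x g g1 (C ^ 2) fun φ => ?_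
        rw [hg1, eval_mul, eval_sub, eval_X, eval_C, norm_mul, mul_pow, ← mul_assoc, ← mul_pow]
        have h4 : (1 : ℝ) ≤ (C * ‖s j φ - β‖) ^ 2 := one_le_pow₀ (hdist j φ)
        have h5 : (0 : ℝ) ≤ ‖g1.eval (s j φ)‖ ^ 2 := by positivity
        nlinarith [mul_le_mul_of_nonneg_right h4 h5]
      refine squeeze_zero (fun j => ZERO.J_nonneg (hA.dat j) x g1) hle ?_
      have h6 := hg.const_mul (C ^ 2)
      rwa [mul_zero] at h6
  intro g hg
  exact main g.natDegree g le_rfl hg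

end Pool.Agent.H243.CE
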