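import Pool.Agent.H243.CE.JG
import Pool.Agent.H243.CE.DATUM
import Pool.Agent.H243.CE.TOEP
import Pool.Agent.H243.CE.MEAN
import Pool.Agent.H243.CE.REC
import Pool.Agent.H243.CE.UB
import Pool.Agent.H243.CE.DECAY
import Pool.Agent.H243.CE.APPROX
import Pool.Agent.H243.CE.DNZ
import Pool.Agent.H243.CE.GB
import Pool.Agent.H243.CE.ALG
import Pool.Agent.H243.CE.IDEAL
import Pool.Agent.H243.CE.ZERO
import Pool.Agent.H243.CE.RED

/-!
# The equality case of Crouzeix's inequality
-/

set_option autoImplicit false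

open MeasureTheory Set Filter Topology Polynomial

namespace Pool.Agent.H243.CE

open Pool.Agent.W753.CZ (numRange)

noncomputable section

/-- an operator of norm at most two at a vector where the norm is attained -/
theorem attain {H : Type} [NormedAddCommGroup H] [InnerProductSpace ℂ H] [CompleteSpace H]
    (T : H →L[ℂ] H) (hT : ‖T‖ ≤ 2) {x y : H} (hx : ‖x‖ = 1) (hy : ‖y‖ = 1)
    (hTx : T x = (2 : ℂ) • y) (u : H) : inner ℂ y (T u) = 2 * inner ℂ x u := by
  have hadj : ContinuousLinearMap.adjoint T y = (2 : ℂ) • x := by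
    have hn : ‖ContinuousLinearMap.adjoint T y‖ ≤ 2 := by
      calc ‖ContinuousLinearMap.adjoint T y‖ ≤ ‖ContinuousLinearMap.adjoint T‖ * ‖y‖ :=
            ContinuousLinearMap.le_opNorm _ _
        _ = ‖T‖ := by rw [hy, mul_one]; exact LinearIsometryEquiv.norm_map _ _
        _ ≤ 2 := hT
    have h1 : inner ℂ (ContinuousLinearMap.adjoint T y) x = (2 : ℂ) := by
      rw [ContinuousLinearMap.adjoint_inner_left, hTx, inner_smul_right, inner_self_eq_norm_sq_to_K,
        hy]
      norm_num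
    have h2 : ‖ContinuousLinearMap.adjoint T y - (2 : ℂ) • x‖ ^ 2 ≤ 0 := by
      rw [@norm_sub_sq ℂ, inner_smul_right, h1, norm_smul, hx]
      have : RCLike.re ((2 : ℂ) * 2) = 4 := by norm_num
      rw [this]
      have h3 : ‖(2 : ℂ)‖ = 2 := by norm_num
      rw [h3]
      nlinarith [norm_nonneg (ContinuousLinearMap.adjoint T y)]
    have h4 : ‖ContinuousLinearMap.adjoint T y - (2 : ℂ) • x‖ = 0 := by
      have := sq_nonneg ‖ContinuousLinearMap.adjoint T y - (2 : ℂ) • x‖
      nlinarith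
    exact sub_eq_zero.1 (norm_eq_zero.1 h4)
  rw [← ContinuousLinearMap.adjoint_inner_left, hadj, inner_smul_left]
  have h5 : (starRingEnd ℂ) (2 : ℂ) = 2 := Complex.conj_ofNat 2
  rw [h5]

theorem t_NECASE (hP : S_PT) (hKer : S_KER) : S_NECASE := by
  intro H _ _ _ A f x hNE hf hx hTx
  have : CompleteSpace H := FiniteDimensional.complete ℂ H
  have : Nontrivial H := by
    refine ⟨x, 0, ?_⟩
    intro h
    rw [h, norm_zero] at hx
    exact zero_ne_one hx
  have hdeg : 1 ≤ f.natDegree := by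
    by_contra hc
    have h0 : f.natDegree = 0 := by omega
    rw [Polynomial.eq_C_of_natDegree_eq_zero h0] at hTx hf
    have hw : inner ℂ x (A x) ∈ numRange A := ⟨x, hx, rfl⟩
    have h1 := hf _ hw
    rw [eval_C] at h1
    rw [aeval_C, Algebra.algebraMap_eq_smul_one] at hTx
    simp only [smul_apply, one_apply_eq_self, norm_smul, hx,
      mul_one] at hTx
    linarith
  refine ⟨hdeg, ?_⟩
  set T : H →L[ℂ] H := aeval A f with hT
  set y : H := (2 : ℂ)⁻¹ • T x with hy
  have hTx2 : T x = (2 : ℂ) • y := by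
    rw [hy, smul_smul]; norm_num
  have hy1 : ‖y‖ = 1 := by
    rw [hy, norm_smul, hTx]; norm_num
  have hTn : ‖T‖ ≤ 2 := by
    have := Pool.Agent.W753.CZ.crouzeix_bound A f 1 hf
    simpa using this
  have hadj := attain T hTn hx hy1 hTx2
  obtain ⟨L, C, s, ρ, Y, M, hA⟩ := t_APPROX t_DATUM t_UB H A f hNE hf
  have hdec := t_DECAY H A f hNE hf hdeg
  obtain ⟨hxT, hTy, hlim⟩ := hKer H A f L C s ρ Y M hA hdec x y hx hy1 hTx2 hadj
  have hxy : inner ℂ x y = (0 : ℂ) := by
    have := hxT x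
    rw [← hT, hTx2, inner_smul_right] at this
    simpa using this
  have hJ := t_JG t_MEAN hP t_GB hA hx hy1 hxy hTx2 hTy hlim
  have hy0 : y ≠ 0 := by
    intro h
    rw [h, norm_zero] at hy1
    exact zero_ne_one hy1
  have hI := t_IDEAL H A f L C s ρ Y M hA x y hTx2 hxT
  have hG := t_ZERO H A f L C s ρ Y M hA x y hy0 hI _ hJ
  exact t_ALG f (Dp A f x y) (Np A f x y) hdeg (t_DNZ H A f x y hx hy1 hdeg) hG

end

end Pool.Agent.H243.CE
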