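import Pool.Agent.H243.CE.JGM
import Pool.Agent.H243.CE.All

/-!
# The equality case for Moebius images of polynomials
-/

set_option autoImplicit false

open MeasureTheory Set Filter Topology Polynomial

namespace Pool.Agent.H243.CE

open Pool.Agent.W753.CZ (numRange)

noncomputable section

theorem t_NECASEF (hN : S_NORMT) (hAp : S_APPROXM) (hDe : S_DECAYF) (hK : S_KERF) (hM : S_MEANF)
    (hP : S_PTF) (hI : S_IDEALF) (hDz : S_DNZM) (hE : S_EPS) : S_NECASEF := by
  intro H _ _ _ A p ε h hNE hp hε hx hTx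
  have : CompleteSpace H := FiniteDimensional.complete ℂ H
  have : Nontrivial H := by
    refine ⟨h, 0, ?_⟩
    intro h0
    rw [h0, map_zero, smul_zero, sub_zero, norm_zero] at hx
    exact zero_ne_one hx
  have hdeg : 1 ≤ p.natDegree := by
    by_contra hc
    have h0 : p.natDegree = 0 := by omega
    obtain ⟨c, rfl⟩ : ∃ c : ℂ, p = C c := ⟨p.coeff 0, Polynomial.eq_C_of_natDegree_eq_zero h0⟩
    obtain ⟨w, hw⟩ := Pool.Agent.W753.CZ.numRange_nonempty A
    have h1 := hp _ hw
    rw [eval_C] at h1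
    have e1 : (aeval A (C c)) h = c • h := by
      rw [aeval_C, Algebra.algebraMap_eq_smul_one]; rfl
    have e2 : h - (starRingEnd ℂ) ε • c • h = (1 - (starRingEnd ℂ) ε * c) • h := by module
    have e3 : c • h - ε • h = (c - ε) • h := by module
    rw [e1, e2, norm_smul] at hx
    rw [e1, e3, norm_smul] at hTx
    have h2 := mo_id ε c
    have h3 : 0 ≤ (1 - ‖ε‖ ^ 2) * (1 - ‖c‖ ^ 2) := by
      have := norm_nonneg ε
      have := norm_nonneg c
      apply mul_nonneg <;> nlinarith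
    have h4 : ‖c - ε‖ ≤ ‖1 - (starRingEnd ℂ) ε * c‖ := by
      apply abs_le_of_sq_le_sq' _ (norm_nonneg _) |>.2
      linarith
    have h5 := mul_le_mul_of_nonneg_right h4 (norm_nonneg h)
    rw [hTx, hx] at h5
    linarith
  refine ⟨hdeg, ?_⟩
  obtain ⟨T, Q, hMob, hTn⟩ := hN H A p ε hp hε
  set P : H →L[ℂ] H := aeval A p with hPd
  set x : H := h - (starRingEnd ℂ) ε • P h with hxd
  have hcommP : ∀ v : H, Q (v - (starRingEnd ℂ) ε • P v) = v := by
    intro v
    have := congrArg (fun B : H →L[ℂ] H => B v) hMob.q1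
    simpa using this
  have hTv : ∀ v : H, T (v - (starRingEnd ℂ) ε • P v) = P v - ε • v := by
    intro v
    rw [hMob.t, mul_apply_eq_comp, hcommP]
    simp [hPd]
  set y : H := (2 : ℂ)⁻¹ • T x with hy
  have hTx2 : T x = (2 : ℂ) • y := by
    rw [hy, smul_smul]; norm_num
  have hTxn : ‖T x‖ = 2 := by rw [hxd, hTv, hTx]
  have hy1 : ‖y‖ = 1 := by
    rw [hy, norm_smul, hTxn]; norm_num
  have hadj := attain T hTn hx hy1 hTx2
  obtain ⟨L, K, s, ρ, Y, M, M', hA⟩ := hAp H A p ε T Q hNE hp hMob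
  have hdec := hDe H A p ε T Q hNE hp hdeg hMob
  obtain ⟨hxT, hTy, hlim⟩ := hK H A p ε T L K s ρ Y M M' hε hA hdec x y hx hy1 hTx2 hadj
  have hxy : inner ℂ x y = (0 : ℂ) := by
    have := hxT x
    rw [hTx2, inner_smul_right] at this
    simpa using this
  -- commutation of `P` and `Q`
  have hQP : ∀ v : H, P v - ε • v = T v - (starRingEnd ℂ) ε • P (T v) := by
    intro v
    have h1 : P * Q = Q * P := by
      have h2 : P * (1 - (starRingEnd ℂ) ε • P) = (1 - (starRingEnd ℂ) ε • P) * P := by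
        rw [mul_sub, sub_mul, mul_one, one_mul, mul_smul_comm, smul_mul_assoc]
      calc P * Q = (Q * (1 - (starRingEnd ℂ) ε • P)) * (P * Q) := by rw [hMob.q1, one_mul]
        _ = Q * ((1 - (starRingEnd ℂ) ε • P) * P) * Q := by simp only [mul_assoc]
        _ = Q * (P * (1 - (starRingEnd ℂ) ε • P)) * Q := by rw [h2]
        _ = Q * P * ((1 - (starRingEnd ℂ) ε • P) * Q) := by simp only [mul_assoc]
        _ = Q * P := by rw [hMob.q2, mul_one]
    have h3 : (1 - (starRingEnd ℂ) ε • P) * T = P - ε • (1 : H →L[ℂ] H) := by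
      rw [hMob.t]
      have h4 : (1 - (starRingEnd ℂ) ε • P) * (P - ε • (1 : H →L[ℂ] H)) =
          (P - ε • (1 : H →L[ℂ] H)) * (1 - (starRingEnd ℂ) ε • P) := by
        simp only [mul_sub, sub_mul, mul_one, one_mul, mul_smul_comm, smul_mul_assoc]
        module
      rw [← mul_assoc, h4, mul_assoc, hMob.q2, mul_one]
    have h5 := congrArg (fun B : H →L[ℂ] H => B v) h3
    simp only [mul_apply_eq_comp, _root_.sub_apply, _root_.smul_apply, one_apply_eq_self] at h5
    exact h5.symm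
  have hPy : P y = ε • y := by
    have h1 := hQP y
    rw [hTy, map_zero, smul_zero, sub_zero] at h1
    exact sub_eq_zero.1 h1
  have hPx : P (x + (2 * (starRingEnd ℂ) ε) • y) = ε • x + (2 : ℂ) • y := by
    have h1 := hQP x
    rw [hTx2, map_smul, hPy] at h1
    have h2 : P x = ε • x + ((2 : ℂ) • y - (starRingEnd ℂ) ε • (2 : ℂ) • ε • y) := by
      rw [← h1]; abel
    rw [map_add, map_smul, hPy, h2]
    module
  have hJ := t_JGM hM hP t_GB hε hA hx hy1 hxy hPy hPx hlim
  have hy0 : y ≠ 0 := by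
    intro h0
    rw [h0, norm_zero] at hy1
    exact zero_ne_one hy1
  have hId := hI H A p ε T L K s ρ Y M M' hε hA x y hTx2 hxT
  have hG := t_ZERO H A p L K s ρ Y M hA.ap x y hy0 hId _ hJ
  refine ⟨t_ALG p (Dm A p ε x y) (Nm A p ε x y) hdeg (hDz H A p ε x y hx hy1 hxy hε hdeg) hG, ?_⟩
  intro hpX
  rw [hpX] at hG
  exact hE H A ε x y hx hy1 hxy hε hG

end

end Pool.Agent.H243.CE
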