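import Pool.Agent.H243.CE.Stmt3

/-!
# (CE43) the equality case for `|q| = 4/5`: orthogonality
-/

set_option autoImplicit false

open Polynomial

namespace Pool.Agent.H243.CE.Q45

open Pool.Agent.W753.CZ (numRange)

variable {H : Type} [NormedAddCommGroup H] [InnerProductSpace ℂ H]

theorem inner_bound (b : H →L[ℂ] H) (h : ∀ w ∈ numRange b, ‖w‖ ≤ 1) (u : H) :
    ‖inner ℂ u (b u)‖ ≤ ‖u‖ ^ 2 := by
  by_cases hu : u = 0
  · subst hu; simp
  have hn : 0 < ‖u‖ := norm_pos_iff.mpr hu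
  have hnc : ((‖u‖ : ℝ) : ℂ) ≠ 0 := by exact_mod_cast hn.ne'
  have h1 : ‖(((‖u‖ : ℝ) : ℂ)⁻¹ • u)‖ = 1 := by
    rw [norm_smul, norm_inv, Complex.norm_real, Real.norm_of_nonneg hn.le]
    field_simp
  have h2 := h _ ⟨_, h1, rfl⟩
  rw [map_smul, inner_smul_left, inner_smul_right, norm_mul, norm_mul] at h2
  simp only [map_inv₀, Complex.conj_ofReal, norm_inv, Complex.norm_real,
    Real.norm_of_nonneg hn.le] at h2
  have h3 : ‖u‖⁻¹ * (‖u‖⁻¹ * ‖inner ℂ u (b u)‖) = ‖inner ℂ u (b u)‖ / ‖u‖ ^ 2 := by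
    field_simp
  rw [h3, div_le_one (by positivity)] at h2
  exact h2

theorem re_nonneg (b : H →L[ℂ] H) (hb : ∀ u, ‖inner ℂ u (b u)‖ ≤ ‖u‖ ^ 2) (w : ℂ)
    (hw : ‖w‖ = 1) (u : H) : 0 ≤ (inner ℂ u (u - w • b u)).re := by
  rw [inner_sub_right, inner_smul_right, Complex.sub_re]
  have h1 : (inner ℂ u u).re = ‖u‖ ^ 2 := by
    rw [inner_self_eq_norm_sq_to_K]
    norm_cast
  have h2 : (w * inner ℂ u (b u)).re ≤ ‖u‖ ^ 2 := by
    refine (Complex.re_le_norm _).trans ?_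
    rw [norm_mul, hw, one_mul]
    exact hb u
  rw [h1]; linarith

/-- the partial geometric sums -/
noncomputable def g (b : H →L[ℂ] H) (N : ℕ) (w : ℂ) (v : H) : H :=
  ∑ m ∈ Finset.range N, w ^ m • (b ^ m) v

theorem g_tel (b : H →L[ℂ] H) (N : ℕ) (w : ℂ) (v : H) :
    g b N w v - w • b (g b N w v) = v - w ^ N • (b ^ N) v := by
  unfold g
  rw [map_sum, Finset.smul_sum, ← Finset.sum_sub_distrib]
  have : ∀ m ∈ Finset.range N, w ^ m • (b ^ m) v - w • b (w ^ m • (b ^ m) v) =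
      w ^ m • (b ^ m) v - w ^ (m + 1) • (b ^ (m + 1)) v := by
    intro m _
    rw [map_smul, smul_smul, ← pow_succ', pow_succ' b m]
    rfl
  rw [Finset.sum_congr rfl this, Finset.sum_range_sub' (fun m => w ^ m • (b ^ m) v)]
  simp

theorem g_sum (b : H →L[ℂ] H) (N : ℕ) (hN : 1 ≤ N) (ζ : ℂ) (hζ : IsPrimitiveRoot ζ N) (v : H) :
    ∑ j ∈ Finset.range N, g b N (ζ ^ j) v = (N : ℂ) • v := by
  unfold g
  rw [Finset.sum_comm]
  have hz : ∀ m ∈ Finset.range N, ∑ j ∈ Finset.range N, (ζ ^ j) ^ m • (b ^ m) v =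
      if m = 0 then (N : ℂ) • v else 0 := by
    intro m hm
    rw [Finset.mem_range] at hm
    rw [← Finset.sum_smul]
    split_ifs with h0
    · subst h0; simp
    · have h1 : ∑ j ∈ Finset.range N, (ζ ^ j) ^ m = ∑ j ∈ Finset.range N, (ζ ^ m) ^ j :=
        Finset.sum_congr rfl (fun j _ => by rw [← pow_mul, ← pow_mul, mul_comm])
      have h2 : ζ ^ m ≠ 1 := hζ.pow_ne_one_of_pos_of_lt h0 hm
      have h3 := mul_geom_sum (ζ ^ m) N
      rw [← pow_mul, mul_comm m N, pow_mul, hζ.pow_eq_one, one_pow, sub_self] at h3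
      have h4 : ∑ j ∈ Finset.range N, (ζ ^ m) ^ j = 0 := by
        rcases mul_eq_zero.mp h3 with h | h
        · exact absurd (sub_eq_zero.mp h) h2
        · exact h
      rw [h1, h4, zero_smul]
  rw [Finset.sum_congr rfl hz, Finset.sum_ite_eq' (Finset.range N) 0]
  rw [if_pos (Finset.mem_range.mpr hN)]

theorem pearcy (b : H →L[ℂ] H) (N : ℕ) (hN : 1 ≤ N) (ζ : ℂ) (hζ : IsPrimitiveRoot ζ N) (v : H) :
    ∑ j ∈ Finset.range N, inner ℂ (g b N (ζ ^ j) v)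
      (g b N (ζ ^ j) v - ζ ^ j • b (g b N (ζ ^ j) v)) = (N : ℂ) * inner ℂ v (v - (b ^ N) v) := by
  have h1 : ∀ j ∈ Finset.range N, inner ℂ (g b N (ζ ^ j) v)
      (g b N (ζ ^ j) v - ζ ^ j • b (g b N (ζ ^ j) v)) =
      inner ℂ (g b N (ζ ^ j) v) (v - (b ^ N) v) := by
    intro j _
    rw [g_tel, ← pow_mul, mul_comm j N, pow_mul, hζ.pow_eq_one, one_pow, one_smul]
  rw [Finset.sum_congr rfl h1, ← sum_inner, g_sum b N hN ζ hζ, inner_smul_left,
    Complex.conj_natCast]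

theorem exists_root (N : ℕ) (hN : 1 ≤ N) (l : ℂ) (hl : ‖l‖ = 1) : ∃ k : ℂ, ‖k‖ = 1 ∧ k ^ N = l := by
  obtain ⟨k, hk⟩ := IsAlgClosed.exists_pow_nat_eq l (n := N) (by omega)
  refine ⟨k, ?_, hk⟩
  have h1 : ‖k‖ ^ N = 1 := by rw [← norm_pow, hk, hl]
  exact (pow_eq_one_iff_of_nonneg (norm_nonneg k) (by omega)).mp h1

theorem prim (N : ℕ) (hN : 1 ≤ N) : ∃ ζ : ℂ, IsPrimitiveRoot ζ N :=
  ⟨_, Complex.isPrimitiveRoot_exp N (by omega)⟩

theorem unit_pow {ζ : ℂ} {N : ℕ} (hN : 1 ≤ N) (hζ : IsPrimitiveRoot ζ N) (j : ℕ) :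
    ‖ζ ^ j‖ = 1 := by
  have h1 : ‖ζ‖ ^ N = 1 := by rw [← norm_pow, hζ.pow_eq_one, norm_one]
  have h2 : ‖ζ‖ = 1 := (pow_eq_one_iff_of_nonneg (norm_nonneg ζ) (by omega)).mp h1
  rw [norm_pow, h2, one_pow]

theorem re_pow (b : H →L[ℂ] H) (hb : ∀ u, ‖inner ℂ u (b u)‖ ≤ ‖u‖ ^ 2) (N : ℕ) (hN : 1 ≤ N)
    (v : H) : (inner ℂ v ((b ^ N) v)).re ≤ ‖v‖ ^ 2 := by
  obtain ⟨ζ, hζ⟩ := prim N hN
  have h1 := congrArg Complex.re (pearcy b N hN ζ hζ v)
  rw [Complex.re_sum] at h1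
  have h2 : 0 ≤ ∑ j ∈ Finset.range N, (inner ℂ (g b N (ζ ^ j) v)
      (g b N (ζ ^ j) v - ζ ^ j • b (g b N (ζ ^ j) v))).re :=
    Finset.sum_nonneg fun j _ => re_nonneg b hb _ (unit_pow hN hζ j) _
  rw [h1] at h2
  have h3 : ((N : ℂ) * inner ℂ v (v - (b ^ N) v)).re = N * (inner ℂ v (v - (b ^ N) v)).re := by
    rw [Complex.mul_re]; simp
  rw [h3] at h2
  have hNp : (0 : ℝ) < N := by exact_mod_cast hN
  have h4 : 0 ≤ (inner ℂ v (v - (b ^ N) v)).re := nonneg_of_mul_nonneg_right h2 hNp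
  rw [inner_sub_right, Complex.sub_re, inner_self_eq_norm_sq_to_K] at h4
  have h5 : (((‖v‖ : ℝ) : ℂ) ^ 2).re = ‖v‖ ^ 2 := by norm_cast
  have h6 : ((RCLike.ofReal ‖v‖ : ℂ) ^ 2).re = ‖v‖ ^ 2 := h5
  rw [h6] at h4
  linarith

theorem smul_bound (b : H →L[ℂ] H) (hb : ∀ u, ‖inner ℂ u (b u)‖ ≤ ‖u‖ ^ 2) (k : ℂ)
    (hk : ‖k‖ = 1) (u : H) : ‖inner ℂ u ((k • b) u)‖ ≤ ‖u‖ ^ 2 := by
  rw [smul_apply, inner_smul_right, norm_mul, hk, one_mul]
  exact hb u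

theorem re_pow' (b : H →L[ℂ] H) (hb : ∀ u, ‖inner ℂ u (b u)‖ ≤ ‖u‖ ^ 2) (N : ℕ) (hN : 1 ≤ N)
    (l : ℂ) (hl : ‖l‖ = 1) (v : H) : (l * inner ℂ v ((b ^ N) v)).re ≤ ‖v‖ ^ 2 := by
  obtain ⟨k, hk1, hk2⟩ := exists_root N hN l hl
  have h1 := re_pow (k • b) (smul_bound b hb k hk1) N hN v
  rw [_root_.smul_pow, hk2, smul_apply, inner_smul_right] at h1
  exact h1

theorem pow_bound (b : H →L[ℂ] H) (hb : ∀ u, ‖inner ℂ u (b u)‖ ≤ ‖u‖ ^ 2) (N : ℕ) (hN : 1 ≤ N)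
    (v : H) : ‖inner ℂ v ((b ^ N) v)‖ ≤ ‖v‖ ^ 2 := by
  set a := inner ℂ v ((b ^ N) v) with ha
  by_cases h0 : a = 0
  · rw [h0]; simp
  have hn : 0 < ‖a‖ := norm_pos_iff.mpr h0
  have hnc : ((‖a‖ : ℝ) : ℂ) ≠ 0 := by exact_mod_cast hn.ne'
  have h1 := re_pow' b hb N hN ((starRingEnd ℂ) a / ((‖a‖ : ℝ) : ℂ)) (by
    rw [norm_div, RCLike.norm_conj, Complex.norm_real, Real.norm_of_nonneg hn.le]
    field_simp) v
  rw [← ha] at h1
  have h2 : (starRingEnd ℂ) a / ((‖a‖ : ℝ) : ℂ) * a = ((‖a‖ : ℝ) : ℂ) := by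
    have : (starRingEnd ℂ) a * a = ((‖a‖ : ℝ) : ℂ) ^ 2 := Complex.conj_mul' a
    field_simp
    linear_combination this
  rw [h2, Complex.ofReal_re] at h1
  exact h1

theorem inner_self_c (v : H) : inner ℂ v v = ((‖v‖ ^ 2 : ℝ) : ℂ) := by
  rw [inner_self_eq_norm_sq_to_K]
  norm_cast


lemma aeval_eigen (A : H →L[ℂ] H) (p : ℂ[X]) {μ : ℂ} {u : H} (h : A u = μ • u) :
    (aeval A p) u = p.eval μ • u := by
  have hpow : ∀ n : ℕ, (A ^ n) u = μ ^ n • u := by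
    intro n
    induction n with
    | zero => simp
    | succ n ih =>
      rw [pow_succ]
      show (A ^ n) (A u) = _
      rw [h, map_smul, ih, smul_smul, pow_succ']
  induction p using Polynomial.induction_on' with
  | add p r hp hr =>
    rw [map_add, eval_add, add_smul, ← hp, ← hr]
    rfl
  | monomial n a =>
    rw [aeval_monomial, eval_monomial, ← Algebra.smul_def, smul_apply, hpow, smul_smul]

/-- an eigenvalue of `p(A)` is the image of an eigenvalue of `A` -/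
lemma exists_common [FiniteDimensional ℂ H] (A : H →L[ℂ] H) (p : ℂ[X]) {m : ℂ} {x : H}
    (hx : x ≠ 0) (h : (aeval A p) x = m • x) :
    ∃ (μ : ℂ) (u : H), ‖u‖ = 1 ∧ A u = μ • u ∧ p.eval μ = m := by
  set P := aeval A p with hP
  have hcomm : ∀ v, P (A v) = A (P v) := by
    intro v
    have h1 : Commute (aeval A X) (aeval A p) := (Commute.all X p).map (aeval A)
    rw [aeval_X] at h1
    have h2 := congrArg (fun T : H →L[ℂ] H => T v) h1.eq
    exact h2.symm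
  let V : Submodule ℂ H := Module.End.eigenspace (P : H →ₗ[ℂ] H) m
  have hmem : ∀ v : H, v ∈ V ↔ P v = m • v := fun v => Module.End.mem_eigenspace_iff
  have hV : ∀ v ∈ V, (A : H →ₗ[ℂ] H) v ∈ V := by
    intro v hv
    rw [hmem] at hv ⊢
    show P (A v) = m • A v
    rw [hcomm, hv, map_smul]
  let A' : V →ₗ[ℂ] V := (A : H →ₗ[ℂ] H).restrict hV
  have hnt : Nontrivial V := ⟨⟨⟨x, (hmem x).2 h⟩, 0, fun h0 => hx (congrArg Subtype.val h0)⟩⟩
  obtain ⟨μ, hμ⟩ := Module.End.exists_eigenvalue A'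
  obtain ⟨u, hu⟩ := hμ.exists_hasEigenvector
  have hu1 : A (u : H) = μ • (u : H) := congrArg Subtype.val hu.apply_eq_smul
  have hu0 : (u : H) ≠ 0 := fun h0 => hu.2 (Subtype.ext h0)
  have hun : ‖(u : H)‖ ≠ 0 := norm_ne_zero_iff.2 hu0
  refine ⟨μ, ((‖(u : H)‖⁻¹ : ℝ) : ℂ) • (u : H), ?_, ?_, ?_⟩
  · rw [norm_smul, Complex.norm_real, norm_inv, norm_norm, inv_mul_cancel₀ hun]
  · rw [map_smul, hu1, smul_comm]
  · have h1 := aeval_eigen A p hu1
    rw [← hP, (hmem _).1 u.2] at h1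
    have h2 : (p.eval μ - m) • (u : H) = 0 := by rw [sub_smul, ← h1, sub_self]
    rcases smul_eq_zero.1 h2 with h3 | h3
    · exact sub_eq_zero.1 h3
    · exact absurd h3 hu0

/-- the parameter of the Moebius transform -/
lemma exists_eps {m : ℂ} (h0 : m ≠ 0) (h1 : ‖m‖ < 1) : ∃ ε : ℂ, ε ≠ 0 ∧ ‖ε‖ < 1 ∧
    m - 2 * ε + ε ^ 2 * (starRingEnd ℂ) m = 0 := by
  have hn : 0 < ‖m‖ := norm_pos_iff.2 h0
  set r : ℝ := Real.sqrt (1 - ‖m‖ ^ 2) with hr
  have hr2 : r ^ 2 = 1 - ‖m‖ ^ 2 := Real.sq_sqrt (by nlinarith)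
  have hr0 : 0 < r := Real.sqrt_pos.2 (by nlinarith)
  have hr1 : r < 1 := by nlinarith
  have hc : (starRingEnd ℂ) m ≠ 0 := by
    intro h
    exact h0 ((map_eq_zero _).1 h)
  have hmm : m * (starRingEnd ℂ) m = ((1 - r ^ 2 : ℝ) : ℂ) := by
    rw [Complex.mul_conj, Complex.normSq_eq_norm_sq, hr2]
    congr 1
    ring
  refine ⟨((1 - r : ℝ) : ℂ) / (starRingEnd ℂ) m, ?_, ?_, ?_⟩
  · refine div_ne_zero ?_ hc
    exact_mod_cast (by linarith : (1 : ℝ) - r ≠ 0)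
  · rw [norm_div, RCLike.norm_conj, Complex.norm_real, Real.norm_of_nonneg (by linarith),
      div_lt_one hn]
    nlinarith
  · have h2 : ((1 - r : ℝ) : ℂ) / (starRingEnd ℂ) m * (starRingEnd ℂ) m = ((1 - r : ℝ) : ℂ) :=
      div_mul_cancel₀ _ hc
    have h3 : (m - 2 * (((1 - r : ℝ) : ℂ) / (starRingEnd ℂ) m) +
        (((1 - r : ℝ) : ℂ) / (starRingEnd ℂ) m) ^ 2 * (starRingEnd ℂ) m) *
        (starRingEnd ℂ) m = 0 := by
      calc _ = m * (starRingEnd ℂ) m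
            - 2 * (((1 - r : ℝ) : ℂ) / (starRingEnd ℂ) m * (starRingEnd ℂ) m) +
            (((1 - r : ℝ) : ℂ) / (starRingEnd ℂ) m * (starRingEnd ℂ) m) ^ 2 := by ring
        _ = 0 := by
          rw [h2, hmm]
          push_cast
          ring
    exact (mul_eq_zero.1 h3).resolve_right hc

/-- if `|c (z - α)^N| ≤ 1` on the numerical range of `B`, then `c (B - α)^N` has numerical range in
the unit disc -/
lemma range_pow (B : H →L[ℂ] H) (p : ℂ[X]) (c α : ℂ) (N : ℕ) (hN : 1 ≤ N)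
    (hp : p = C c * (X - C α) ^ N) (hc : c ≠ 0) (hB : ∀ w ∈ numRange B, ‖p.eval w‖ ≤ 1) :
    ∀ w ∈ numRange (aeval B p), ‖w‖ ≤ 1 := by
  have hcn : 0 < ‖c‖ := norm_pos_iff.2 hc
  obtain ⟨r, hr0, hr⟩ : ∃ r : ℝ, 0 < r ∧ ‖c‖ * r ^ N = 1 := by
    refine ⟨(‖c‖⁻¹) ^ ((N : ℝ)⁻¹), Real.rpow_pos_of_pos (inv_pos.2 hcn) _, ?_⟩
    rw [Real.rpow_inv_natCast_pow (inv_pos.2 hcn).le (by omega), mul_inv_cancel₀ hcn.ne']
  set b0 : H →L[ℂ] H := ((r⁻¹ : ℝ) : ℂ) • (B - α • (1 : H →L[ℂ] H)) with hb0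
  have hB0 : B - α • (1 : H →L[ℂ] H) = ((r : ℝ) : ℂ) • b0 := by
    rw [hb0, smul_smul, ← Complex.ofReal_mul, mul_inv_cancel₀ hr0.ne', Complex.ofReal_one, one_smul]
  have hnr : ∀ w ∈ numRange b0, ‖w‖ ≤ 1 := by
    rintro w ⟨u, hu, rfl⟩
    have h1 := hB _ ⟨u, hu, rfl⟩
    rw [hp, eval_mul, eval_C, eval_pow, eval_sub, eval_X, eval_C, norm_mul, norm_pow] at h1
    have h2 : ‖inner ℂ u (B u) - α‖ ≤ r := by
      by_contra hcon
      push Not at hcon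
      have h3 : r ^ N < ‖inner ℂ u (B u) - α‖ ^ N := pow_lt_pow_left₀ hcon hr0.le (by omega)
      nlinarith
    have h4 : inner ℂ u (b0 u) = ((r⁻¹ : ℝ) : ℂ) * (inner ℂ u (B u) - α) := by
      have h5 : b0 u = ((r⁻¹ : ℝ) : ℂ) • (B u - α • u) := rfl
      rw [h5, inner_smul_right, inner_sub_right, inner_smul_right, inner_self_c, hu]
      simp
    rw [h4, norm_mul, Complex.norm_real, Real.norm_of_nonneg (by positivity)]
    rw [inv_mul_le_iff₀ hr0, mul_one]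
    exact h2
  have hpB : aeval B p = (c * ((r : ℝ) : ℂ) ^ N) • b0 ^ N := by
    rw [hp, map_mul, aeval_C, map_pow, map_sub, aeval_X, aeval_C, ← Algebra.smul_def,
      Algebra.algebraMap_eq_smul_one, hB0, _root_.smul_pow, smul_smul]
  rintro w ⟨u, hu, rfl⟩
  have h6 := pow_bound b0 (inner_bound b0 hnr) N hN u
  rw [hpB, smul_apply, inner_smul_right, norm_mul, norm_mul, norm_pow, Complex.norm_real,
    Real.norm_of_nonneg hr0.le, hr, one_mul]
  rw [hu] at h6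
  linarith

end Pool.Agent.H243.CE.Q45

namespace Pool.Agent.H243.CE

open Pool.Agent.W753.CZ (numRange)
open Q82.QR Q45

theorem t_Q45 (hAll : S_ALLCASEF) (hE : S_EIG) : S_Q45 := by
  unfold S_Q45
  intro E _ _ _ _ A p hBd hdim hdeg hns x hx hPx
  have hCS : CompleteSpace E := FiniteDimensional.complete ℂ E
  have ht0 : (0 : ℝ) < 1 / 2 := by norm_num
  have hq0 : (0 : ℝ) < 4 / 5 := by norm_num
  have hs0 : (0 : ℝ) ≤ 3 / 4 := by norm_num
  have hqt : (4 / 5 : ℝ) * (1 + (1 / 2) ^ 2) = 2 * (1 / 2) := by norm_num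
  have hsq : (3 / 4 : ℝ) ^ 2 * (4 / 5) ^ 2 = 1 - (4 / 5) ^ 2 := by norm_num
  set P : E →L[ℂ] E := aeval A p with hP
  set m : ℂ := inner ℂ x (P x) with hm
  have hx0 : x ≠ 0 := by
    intro h
    rw [h, norm_zero] at hx
    exact zero_ne_one hx
  have hxx : inner ℂ x x = (1 : ℂ) := by
    rw [inner_self_c, hx]
    norm_num
  have hPP : inner ℂ (P x) (P x) = (1 : ℂ) := by
    rw [inner_self_c, hPx]
    norm_num
  have hPxx : inner ℂ (P x) x = (starRingEnd ℂ) m := by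
    rw [hm, inner_conj_symm]
  by_contra hne
  have hm0 : m ≠ 0 := by
    intro h
    rw [hPxx, h, map_zero] at hne
    exact hne rfl
  have hm1 : ‖m‖ ≤ 1 := by
    have := norm_inner_le_norm (𝕜 := ℂ) x (P x)
    rw [hx, hPx, mul_one] at this
    exact this
  have hm2 : ‖m‖ < 1 := by
    rcases hm1.lt_or_eq with h | h
    · exact h
    · exfalso
      have h1 : P x = m • x := by
        rw [← sub_eq_zero, ← norm_eq_zero, ← sq_eq_zero_iff]
        have h2 : ((‖P x - m • x‖ ^ 2 : ℝ) : ℂ) = 0 := by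
          rw [← inner_self_c, inner_sub_left, inner_sub_right, inner_sub_right, inner_smul_left,
            inner_smul_right, inner_smul_left, inner_smul_right, hPP, hPxx, ← hm, hxx, mul_one,
            Complex.mul_conj, mul_comm ((starRingEnd ℂ) m) m, Complex.mul_conj,
            Complex.normSq_eq_norm_sq, h]
          norm_num
        exact_mod_cast h2
      obtain ⟨μ, u, hu1, hu2, hu3⟩ := exists_common A p hx0 h1
      have h3 := hE E A p (3 / 4) (by norm_num) hBd hdim hdeg hns μ u hu1 hu2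
      rw [hu3, h] at h3
      exact lt_irrefl _ h3
  obtain ⟨ε, hε0, hε1, hεq⟩ := exists_eps hm0 hm2
  set a : E := P x - ε • x with ha
  set b : E := x - (starRingEnd ℂ) ε • P x with hb
  have hba : inner ℂ b a = (0 : ℂ) := by
    rw [hb, ha, inner_sub_left, inner_sub_right, inner_sub_right, inner_smul_left,
      inner_smul_right, inner_smul_left, inner_smul_right, ← hm, hxx, hPP, hPxx,
      Complex.conj_conj]
    linear_combination hεq
  have hb0 : b ≠ 0 := by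
    intro h
    have h1 : x = (starRingEnd ℂ) ε • P x := sub_eq_zero.1 h
    have h2 := congrArg norm h1
    rw [norm_smul, RCLike.norm_conj, hx, hPx, mul_one] at h2
    linarith
  have hbn : 0 < ‖b‖ := norm_pos_iff.2 hb0
  have hab : ‖a‖ = ‖b‖ := by
    have h1 : ((‖a‖ ^ 2 : ℝ) : ℂ) = ((‖b‖ ^ 2 : ℝ) : ℂ) := by
      rw [← inner_self_c, ← inner_self_c, ha, hb]
      simp only [inner_sub_left, inner_sub_right, inner_smul_left, inner_smul_right, hPP, hPxx,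
        hxx, Complex.conj_conj, ← hm]
      ring
    have h2 : ‖a‖ ^ 2 = ‖b‖ ^ 2 := by exact_mod_cast h1
    exact (pow_left_inj₀ (norm_nonneg _) (norm_nonneg _) two_ne_zero).1 h2
  have han : 0 < ‖a‖ := by rw [hab]; exact hbn
  set y : E := ((‖a‖⁻¹ : ℝ) : ℂ) • a with hy
  have hyn : ‖y‖ = 1 := by
    rw [hy, norm_smul, Complex.norm_real, norm_inv, norm_norm, inv_mul_cancel₀ han.ne']
  have hya : inner ℂ y a = ((‖a‖ : ℝ) : ℂ) := by
    rw [hy, inner_smul_left, Complex.conj_ofReal, inner_self_c, ← Complex.ofReal_mul]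
    congr 1
    field_simp
  have hyb : inner ℂ y b = (0 : ℂ) := by
    rw [hy, inner_smul_left, ← inner_conj_symm, hba, map_zero, mul_zero]
  have hSa : S (1 / 2)⁻¹ y a = (2 : ℂ) • a := by
    rw [S_apply, hya, hy, smul_smul, mul_assoc, ← Complex.ofReal_mul, mul_inv_cancel₀ han.ne',
      Complex.ofReal_one, mul_one]
    push_cast
    module
  have hSb : S (1 / 2)⁻¹ y b = b := by
    rw [S_apply, hyb, mul_zero, zero_smul, add_zero]
  have hVU : S (1 / 2) y * S (1 / 2)⁻¹ y = 1 := S_mul _ _ (mul_inv_cancel₀ ht0.ne') _ hyn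
  have hUV : S (1 / 2)⁻¹ y * S (1 / 2) y = 1 := S_mul _ _ (inv_mul_cancel₀ ht0.ne') _ hyn
  set U : E →L[ℂ] E := S (1 / 2)⁻¹ y with hU
  set V : E →L[ℂ] E := S (1 / 2) y with hV
  set B : E →L[ℂ] E := U * A * V with hB
  have hnr : ∀ w ∈ numRange B, ‖p.eval w‖ ≤ 1 := by
    rintro w ⟨u, hu, rfl⟩
    exact range_sub hs0 ht0 hq0 hqt hsq hBd (fun _ => hdim) y hyn u hu
  have hpB : aeval B p = U * P * V := by
    have h1 := aeval_conj (A := A) hVU p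
    rw [hUV, mul_one] at h1
    exact h1.symm
  have hpBU : ∀ v, (aeval B p) (U v) = U (P v) := by
    intro v
    rw [hpB]
    show U (P (V (U v))) = U (P v)
    have h1 : V (U v) = v := by
      show (V * U) v = v
      rw [hVU]
      rfl
    rw [h1]
  have hbc : ((‖b‖⁻¹ : ℝ) : ℂ) ≠ 0 := by exact_mod_cast (inv_pos.2 hbn).ne'
  set h : E := ((‖b‖⁻¹ : ℝ) : ℂ) • U x with hh
  have e1 : h - (starRingEnd ℂ) ε • (aeval B p) h = ((‖b‖⁻¹ : ℝ) : ℂ) • b := by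
    rw [hh, map_smul, hpBU, smul_comm, ← smul_sub, ← map_smul, ← map_sub, ← hb, hSb]
  have e2 : (aeval B p) h - ε • h = ((‖b‖⁻¹ : ℝ) : ℂ) • (2 : ℂ) • a := by
    rw [hh, map_smul, hpBU, smul_comm ε, ← smul_sub, ← map_smul, ← map_sub, ← ha, hSa]
  have n1 : ‖h - (starRingEnd ℂ) ε • (aeval B p) h‖ = 1 := by
    rw [e1, norm_smul, Complex.norm_real, norm_inv, norm_norm, inv_mul_cancel₀ hbn.ne']
  have n2 : ‖(aeval B p) h - ε • h‖ = 2 := by
    rw [e2, norm_smul, norm_smul, Complex.norm_real, norm_inv, norm_norm, hab,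
      mul_left_comm, inv_mul_cancel₀ hbn.ne', mul_one]
    simp
  obtain ⟨hN, ⟨c, α, hpc⟩, -⟩ := hAll E B p ε h hnr hε1 n1 n2
  have hc : c ≠ 0 := by
    rintro rfl
    rw [C_0, zero_mul] at hpc
    rw [hpc, natDegree_zero] at hdeg
    omega
  have hX : aeval (aeval B p) (X : ℂ[X]) = aeval B p := aeval_X _
  obtain ⟨-, -, h3⟩ := hAll E (aeval B p) X ε h (by
    intro w hw
    rw [eval_X]
    exact range_pow B p c α p.natDegree hN hpc hc hnr w hw) hε1 (by rw [hX]; exact n1)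
    (by rw [hX]; exact n2)
  exact hε0 (h3 rfl)

end Pool.Agent.H243.CE
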