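import Pool.Agent.H243.CE.Stmt2

/-!
# The equality case for `|q| < 1` (CE21)
-/

set_option autoImplicit false

open Set Polynomial

namespace Pool.Agent.H243.CE

open Pool.Agent.W753.CZ (numRange)

noncomputable section

namespace QCASE

/-! ### the vector with constant products -/

/-- the coefficients -/
def co (N j : ℕ) : ℝ := if j = 0 ∨ j = N then (Real.sqrt (2 * N))⁻¹ else (Real.sqrt N)⁻¹

theorem co_sq {N : ℕ} (hN : 0 < N) (j : ℕ) : co N j ^ 2 =
    if j = 0 ∨ j = N then ((2 : ℝ) * N)⁻¹ else (N : ℝ)⁻¹ := by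
  have h0 : (0 : ℝ) < N := by exact_mod_cast hN
  unfold co
  split_ifs
  · rw [inv_pow, Real.sq_sqrt (by positivity)]
  · rw [inv_pow, Real.sq_sqrt h0.le]

theorem co_zero (N : ℕ) : co N 0 = (Real.sqrt (2 * N))⁻¹ := by
  unfold co; rw [if_pos (Or.inl rfl)]

theorem co_last (N : ℕ) : co N N = (Real.sqrt (2 * N))⁻¹ := by
  unfold co; rw [if_pos (Or.inr rfl)]

theorem co_mid {N j : ℕ} (h0 : j ≠ 0) (hN : j ≠ N) : co N j = (Real.sqrt N)⁻¹ := by
  unfold co; rw [if_neg (by tauto)]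

theorem co_prod {N : ℕ} (hN : 2 ≤ N) (j : ℕ) (hj : j < N) :
    co N j * cw N j * co N (j + 1) = (N : ℝ)⁻¹ := by
  have h0 : (0 : ℝ) < N := by exact_mod_cast (by omega : 0 < N)
  have hs : Real.sqrt (2 * N) = Real.sqrt 2 * Real.sqrt N := Real.sqrt_mul zero_le_two _
  have h2 : Real.sqrt 2 ≠ 0 := (Real.sqrt_pos.2 two_pos).ne'
  have hNs : Real.sqrt N ≠ 0 := (Real.sqrt_pos.2 h0).ne'
  have hNN : Real.sqrt N * Real.sqrt N = N := Real.mul_self_sqrt h0.le
  have hNN' : (N : ℝ) = Real.sqrt N * Real.sqrt N := hNN.symm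
  by_cases hj0 : j = 0
  · subst hj0
    rw [co_zero, co_mid (by omega) (by omega), hs]
    unfold cw
    rw [if_pos rfl, if_neg (by omega), mul_one]
    conv_rhs => rw [hNN']
    field_simp
  · by_cases hjN : j + 1 = N
    · rw [co_mid hj0 (by omega), hjN, co_last, hs]
      unfold cw
      rw [if_neg hj0, if_pos hjN, one_mul]
      conv_rhs => rw [hNN']
      field_simp
    · rw [co_mid hj0 (by omega), co_mid (by omega) hjN]
      unfold cw
      rw [if_neg hj0, if_neg hjN]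
      conv_rhs => rw [hNN']
      field_simp

theorem co_sum {N : ℕ} (hN : 1 ≤ N) : ∑ j : Fin (N + 1), co N j ^ 2 = 1 := by
  have h0 : (0 : ℝ) < N := by exact_mod_cast (by omega : 0 < N)
  rw [Fin.sum_univ_castSucc]
  obtain ⟨M, rfl⟩ : ∃ M, N = M + 1 := ⟨N - 1, by omega⟩
  rw [Fin.sum_univ_succ]
  have h1 : ∀ i : Fin M, co (M + 1) (i.succ.castSucc : Fin (M + 1 + 1)) ^ 2 =
      ((M + 1 : ℕ) : ℝ)⁻¹ := by
    intro i
    have hi := i.2
    rw [co_sq (by omega), if_neg]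
    simp only [Fin.val_castSucc, Fin.val_succ]
    omega
  have h2 : co (M + 1) ((0 : Fin (M + 1)).castSucc : Fin (M + 1 + 1)) ^ 2 =
      (2 * ((M + 1 : ℕ) : ℝ))⁻¹ := by
    rw [co_sq (by omega)]
    exact if_pos (Or.inl rfl)
  have h3 : co (M + 1) (Fin.last (M + 1) : Fin (M + 1 + 1)) ^ 2 =
      (2 * ((M + 1 : ℕ) : ℝ))⁻¹ := by
    rw [co_sq (by omega)]
    exact if_pos (Or.inr rfl)
  rw [Finset.sum_congr rfl fun i _ => h1 i, Finset.sum_const, Finset.card_univ, Fintype.card_fin,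
    h2, h3, nsmul_eq_mul]
  push_cast at h0 ⊢
  field_simp
  ring

variable {H : Type} [NormedAddCommGroup H] [InnerProductSpace ℂ H]

/-- a unit vector at which the numerical range touches the unit circle -/
theorem exists_u {b : H →L[ℂ] H} {N : ℕ} (hN : 2 ≤ N) {e : Fin (N + 1) → H}
    (h : Block b N (cw N) e) : ∃ u : H, ‖u‖ = 1 ∧ inner ℂ u (b u) = (1 : ℂ) ∧
      (∀ j : Fin (N + 1), inner ℂ (e j) u = ((co N j : ℝ) : ℂ)) := by
  set u : H := ∑ j : Fin (N + 1), ((co N j : ℝ) : ℂ) • e j with hu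
  have h1 : ∀ j : Fin (N + 1), inner ℂ (e j) u = ((co N j : ℝ) : ℂ) := fun j =>
    h.on.inner_right_fintype _ j
  have h1' : ∀ j : Fin (N + 1), inner ℂ u (e j) = ((co N j : ℝ) : ℂ) := fun j => by
    rw [← inner_conj_symm, h1, Complex.conj_ofReal]
  refine ⟨u, ?_, ?_, h1⟩
  · have h2 : inner ℂ u u = ((1 : ℝ) : ℂ) := by
      conv_lhs => rw [hu, sum_inner]
      rw [Finset.sum_congr rfl fun j _ => by rw [inner_smul_left, h1, Complex.conj_ofReal]]
      rw [← co_sum (by omega : 1 ≤ N)]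
      push_cast
      exact Finset.sum_congr rfl fun j _ => by ring
    rw [inner_self_eq_norm_sq_to_K] at h2
    have h3 : ‖u‖ ^ 2 = 1 := by
      apply Complex.ofReal_injective
      rw [← h2]
      push_cast
      rfl
    exact (pow_eq_one_iff_of_nonneg (norm_nonneg _) two_ne_zero).1 h3
  · have h4 : b u = ∑ j : Fin N, (((co N j * cw N j : ℝ)) : ℂ) • e j.succ := by
      rw [hu, map_sum, Fin.sum_univ_castSucc, map_smul, h.last, smul_zero, add_zero]
      refine Finset.sum_congr rfl fun j _ => ?_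
      rw [map_smul, h.sh, smul_smul]
      push_cast
      rfl
    rw [h4, inner_sum]
    have h5 : ∀ j : Fin N, inner ℂ u ((((co N j * cw N j : ℝ)) : ℂ) • e j.succ) =
        (((N : ℝ)⁻¹ : ℝ) : ℂ) := by
      intro j
      rw [inner_smul_right, h1', ← Complex.ofReal_mul, Fin.val_succ, co_prod hN j j.2]
    rw [Finset.sum_congr rfl fun j _ => h5 j, Finset.sum_const, Finset.card_univ,
      Fintype.card_fin, nsmul_eq_mul]
    have h0 : (N : ℂ) ≠ 0 := by exact_mod_cast (by omega : N ≠ 0)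
    push_cast
    exact mul_inv_cancel₀ h0

/-- a direction -/
theorem exists_dir (z : ℂ) (ρ : ℝ) (hρ : 0 ≤ ρ) : ∃ ω : ℂ, ‖ω‖ = 1 ∧ ‖z + ω * ρ‖ = ‖z‖ + ρ := by
  by_cases hz : z = 0
  · exact ⟨1, norm_one, by rw [hz, zero_add, one_mul, norm_zero, zero_add, Complex.norm_real,
      Real.norm_of_nonneg hρ]⟩
  · have hn : ‖z‖ ≠ 0 := norm_ne_zero_iff.2 hz
    refine ⟨z / ‖z‖, ?_, ?_⟩
    · rw [norm_div, Complex.norm_real, norm_norm, div_self hn]
    · have e : z + z / ‖z‖ * ρ = z * (((1 + ρ / ‖z‖ : ℝ)) : ℂ) := by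
        have : (‖z‖ : ℂ) ≠ 0 := by exact_mod_cast hn
        push_cast
        field_simp
      rw [e, norm_mul, Complex.norm_real, Real.norm_of_nonneg (by positivity)]
      field_simp

/-- the contradiction for `N ≥ 2` -/
theorem key {A : H →L[ℂ] H} {s t q r : ℝ} {α : ℂ} (hR : S_REP) (hs : 0 < s) (ht : 0 < t)
    (ht1 : t < 1) (hq : 0 < q) (h1 : q * (1 + t ^ 2) = 2 * t) (h2 : s ^ 2 * q ^ 2 = 1 - q ^ 2)
    (hr : 0 < r)
    (hb : ∀ x v : H, ‖x‖ = 1 → inner ℂ v x = (0 : ℂ) → ‖v‖ = s →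
      ‖inner ℂ x (A x) + inner ℂ v (A x) - α‖ ≤ r) {y u : H} (hy : ‖y‖ = 1) (hu : ‖u‖ = 1)
    (hyu : ‖(inner ℂ y u : ℂ)‖ ^ 2 < 1 / 2)
    (hB : inner ℂ u ((Q82.QR.S t⁻¹ y * A * Q82.QR.S t y) u) = α + r)
    (hne : (Q82.QR.S t⁻¹ y * A * Q82.QR.S t y) u ≠ (α + r) • u) : False := by
  obtain ⟨x, v, hx, hvx, hvs, huB, hv1, hv2⟩ := hR H A s t q hs.le ht hq h1 h2 y u hy hu
  have hvs' : ‖v‖ < s := by
    refine lt_of_le_of_ne hvs fun h => ?_
    rcases hv1 h with h3 | h3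
    · exact ht1.ne h3
    · exact hyu.ne h3
  set c0 : ℂ := inner ℂ x (A x) with hc0
  set d : H := A x - c0 • x with hd
  have hxx : inner ℂ x x = (1 : ℂ) := by
    rw [inner_self_eq_norm_sq_to_K, hx]; simp
  have hxd : inner ℂ x d = (0 : ℂ) := by
    rw [hd, inner_sub_right, inner_smul_right, hxx, ← hc0]; ring
  have hdx : inner ℂ d x = (0 : ℂ) := by
    rw [← inner_conj_symm, hxd, map_zero]
  have hAx : A x = d + c0 • x := by rw [hd]; abel
  by_cases hd0 : d = 0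
  · have h3 : A x = c0 • x := by rw [hAx, hd0, zero_add]
    have h4 := hv2 c0 h3
    have h5 : c0 = α + r := by
      rw [h4, inner_smul_right, inner_self_eq_norm_sq_to_K, hu] at hB
      simpa using hB
    exact hne (by rw [h4, h5])
  · have hdn : 0 < ‖d‖ := norm_pos_iff.2 hd0
    have hdA : inner ℂ d (A x) = ((‖d‖ ^ 2 : ℝ) : ℂ) := by
      rw [hAx, inner_add_right, inner_smul_right, hdx, inner_self_eq_norm_sq_to_K]
      push_cast
      simp
    have hvA : inner ℂ v (A x) = inner ℂ v d := by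
      rw [hAx, inner_add_right, inner_smul_right, hvx]; ring
    obtain ⟨ω, hω1, hω2⟩ := exists_dir (c0 - α) (s * ‖d‖) (by positivity)
    have h3 := hb x (((starRingEnd ℂ) ω * ((s / ‖d‖ : ℝ) : ℂ)) • d) hx
      (by rw [inner_smul_left, hdx, mul_zero])
      (by
        rw [norm_smul, norm_mul, RCLike.norm_conj, hω1, one_mul, Complex.norm_real,
          Real.norm_of_nonneg (by positivity)]
        field_simp)
    rw [inner_smul_left, map_mul, Complex.conj_conj, Complex.conj_ofReal, hdA, ← hc0] at h3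
    have e1 : c0 + ω * ((s / ‖d‖ : ℝ) : ℂ) * ((‖d‖ ^ 2 : ℝ) : ℂ) - α =
        c0 - α + ω * ((s * ‖d‖ : ℝ) : ℂ) := by
      have : (‖d‖ : ℂ) ≠ 0 := by exact_mod_cast hdn.ne'
      push_cast
      field_simp
      ring
    rw [e1, hω2] at h3
    have h4 : r ≤ ‖c0 - α‖ + ‖v‖ * ‖d‖ := by
      have h5 : ((r : ℝ) : ℂ) = (c0 - α) + inner ℂ v d := by
        rw [← hvA]
        linear_combination huB - hB
      calc r = ‖((r : ℝ) : ℂ)‖ := by rw [Complex.norm_real, Real.norm_of_nonneg hr.le]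
        _ ≤ ‖c0 - α‖ + ‖(inner ℂ v d : ℂ)‖ := by rw [h5]; exact norm_add_le _ _
        _ ≤ _ := by gcongr; exact norm_inner_le_norm _ _
    have h6 : ‖v‖ * ‖d‖ < s * ‖d‖ := mul_lt_mul_of_pos_right hvs' hdn
    linarith

end QCASE

open QCASE in
theorem QCASE.core (hAll : S_ALLCASE) (hC : S_CRABB) (hR : S_REP) (E : Type)
    [NormedAddCommGroup E] [InnerProductSpace ℂ E] [FiniteDimensional ℂ E]
    [Nontrivial E] (A : E →L[ℂ] E) (p : ℂ[X]) (s t q : ℝ) (hs : 0 < s) (ht : 0 < t) (ht1 : t < 1)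
    (hq : 0 < q) (h1 : q * (1 + t ^ 2) = 2 * t) (h2 : s ^ 2 * q ^ 2 = 1 - q ^ 2)
    (hBd : Q82.QR.Bd A s p 1)
    (hdim : ∀ x : E, ‖x‖ = 1 → ∃ v : E, ‖v‖ = 1 ∧ inner ℂ v x = (0 : ℂ))
    (x : E) (hx : ‖x‖ = 1) (hPx : ‖(aeval A p) x‖ = 2 * t)
    (horth : inner ℂ ((aeval A p) x) x = (0 : ℂ)) :
    ∃ (c α : ℂ) (r : ℝ) (e : Fin 2 → E), p = C c * (X - C α) ∧ 0 < r ∧ ‖c‖ * r = 1 ∧
      Block (A - α • (1 : E →L[ℂ] E)) 1 (fun _ => 2 * t * r) e := by
  set P : E →L[ℂ] E := aeval A p with hP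
  have ht2 : (0 : ℝ) < 2 * t := by linarith
  have ht2' : ((2 * t : ℝ) : ℂ) ≠ 0 := by exact_mod_cast ht2.ne'
  set y : E := (((2 * t)⁻¹ : ℝ) : ℂ) • P x with hy
  have hPy : P x = ((2 * t : ℝ) : ℂ) • y := by
    rw [hy, smul_smul, ← Complex.ofReal_mul, mul_inv_cancel₀ ht2.ne', Complex.ofReal_one,
      one_smul]
  have hy1 : ‖y‖ = 1 := by
    rw [hy, norm_smul, hPx, Complex.norm_real, Real.norm_of_nonneg (by positivity)]
    field_simp
  have hyx : inner ℂ y x = (0 : ℂ) := by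
    rw [hy, inner_smul_left, horth, mul_zero]
  have hyy : inner ℂ y y = (1 : ℂ) := by
    rw [inner_self_eq_norm_sq_to_K, hy1]; simp
  -- the similarity
  set U : E →L[ℂ] E := Q82.QR.S t⁻¹ y with hU
  set V : E →L[ℂ] E := Q82.QR.S t y with hV
  have hUV : U * V = 1 := Q82.QR.S_mul _ _ (inv_mul_cancel₀ ht.ne') _ hy1
  have hVU : V * U = 1 := Q82.QR.S_mul _ _ (mul_inv_cancel₀ ht.ne') _ hy1
  have hVx : V x = x := by
    rw [hV, Q82.QR.S_apply, hyx, mul_zero, zero_smul, add_zero]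
  have hUx : U x = x := by
    rw [hU, Q82.QR.S_apply, hyx, mul_zero, zero_smul, add_zero]
  have hVy : V y = (t : ℂ) • y := by
    rw [hV, Q82.QR.S_apply, hyy, mul_one]
    push_cast
    rw [sub_smul, one_smul]
    abel
  have hUy : U y = ((t⁻¹ : ℝ) : ℂ) • y := by
    rw [hU, Q82.QR.S_apply, hyy, mul_one]
    push_cast
    rw [sub_smul, one_smul]
    abel
  set B : E →L[ℂ] E := U * A * V with hB
  have hBp : aeval B p = U * P * V := by
    rw [hP, Q82.QR.aeval_conj hVU, hUV, mul_one]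
  have hBpx : (aeval B p) x = (2 : ℂ) • y := by
    rw [hBp]
    show U (P (V x)) = _
    rw [hVx, hPy, map_smul, hUy, smul_smul]
    congr 1
    have : (t : ℂ) ≠ 0 := by exact_mod_cast ht.ne'
    push_cast
    field_simp
  have hBr : ∀ w ∈ numRange B, ‖p.eval w‖ ≤ 1 := by
    rintro w ⟨u, hu, rfl⟩
    exact Q82.QR.range_sub hs.le ht hq h1 h2 hBd (fun _ => hdim) y hy1 u hu
  obtain ⟨hN1, c, α, hp⟩ := hAll E B p x hBr hx (by
    rw [hBpx, norm_smul, hy1, mul_one]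
    norm_num)
  generalize hN : p.natDegree = N at hN1 hp
  have hc0 : c ≠ 0 := by
    rintro rfl
    rw [hp, C_0, zero_mul, natDegree_zero] at hN
    omega
  have hcn : 0 < ‖c‖ := norm_pos_iff.2 hc0
  -- the radius
  obtain ⟨r, hr, hrN⟩ : ∃ r : ℝ, 0 < r ∧ ‖c‖ * r ^ N = 1 := by
    refine ⟨(‖c‖⁻¹) ^ ((N : ℝ)⁻¹), by positivity, ?_⟩
    rw [Real.rpow_inv_natCast_pow (by positivity) (by omega), mul_inv_cancel₀ hcn.ne']
  have hrC : (r : ℂ) ≠ 0 := by exact_mod_cast hr.ne'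
  have hin : ∀ w : ℂ, ‖p.eval w‖ ≤ 1 → ‖w - α‖ ≤ r := by
    intro w hw
    rw [hp, eval_mul, eval_C, eval_pow, eval_sub, eval_X, eval_C, norm_mul, norm_pow, ← hrN] at hw
    have h3 : ‖w - α‖ ^ N ≤ r ^ N := le_of_mul_le_mul_left hw hcn
    exact (pow_le_pow_iff_left₀ (norm_nonneg _) hr.le (by omega)).1 h3
  set b : E →L[ℂ] E := ((r⁻¹ : ℝ) : ℂ) • (B - α • (1 : E →L[ℂ] E)) with hb
  have hbu : ∀ u : E, b u = ((r⁻¹ : ℝ) : ℂ) • (B u - α • u) := fun u => rfl
  have hbr : ∀ w ∈ numRange b, ‖w‖ ≤ 1 := by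
    rintro w ⟨u, hu, rfl⟩
    have h3 := hin _ (hBr _ ⟨u, hu, rfl⟩)
    have huu : inner ℂ u u = (1 : ℂ) := by
      rw [inner_self_eq_norm_sq_to_K, hu]; simp
    rw [hbu, inner_smul_right, inner_sub_right, inner_smul_right, huu, mul_one, norm_mul,
      Complex.norm_real, Real.norm_of_nonneg (by positivity), inv_mul_le_iff₀ hr, mul_one]
    exact h3
  have hBN : aeval B p = c • (B - α • (1 : E →L[ℂ] E)) ^ N := by
    rw [hp, map_mul, aeval_C, map_pow, map_sub, aeval_X, aeval_C, Algebra.algebraMap_eq_smul_one,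
      Algebra.algebraMap_eq_smul_one, smul_mul_assoc, one_mul]
  have hbN : (b ^ N) x = (((r⁻¹ : ℝ) : ℂ) ^ N * c⁻¹) • ((2 : ℂ) • y) := by
    rw [hb, _root_.smul_pow, ← hBpx, hBN]
    show ((r⁻¹ : ℝ) : ℂ) ^ N • ((B - α • (1 : E →L[ℂ] E)) ^ N) x =
      (((r⁻¹ : ℝ) : ℂ) ^ N * c⁻¹) • (c • ((B - α • (1 : E →L[ℂ] E)) ^ N) x)
    rw [smul_smul, mul_assoc, inv_mul_cancel₀ hc0, mul_one]
  set κ : ℂ := ((r⁻¹ : ℝ) : ℂ) ^ N * c⁻¹ with hκ
  have hκ1 : ‖κ‖ = 1 := by
    rw [hκ, norm_mul, norm_pow, Complex.norm_real, Real.norm_of_nonneg (by positivity), norm_inv,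
      inv_pow, ← mul_inv, mul_comm, hrN, inv_one]
  have hκ0 : κ ≠ 0 := norm_ne_zero_iff.1 (by rw [hκ1]; exact one_ne_zero)
  obtain ⟨e, he, he0, heN⟩ := hC E b N x hN1 hbr hx (by
    rw [hbN, norm_smul, norm_smul, hκ1, hy1]
    norm_num)
  have hel : e (Fin.last N) = κ • y := by
    have h3 : (2 : ℂ) • e (Fin.last N) = (2 : ℂ) • (κ • y) := by
      rw [← heN, hbN]
      exact smul_comm _ _ _
    exact smul_right_injective E (two_ne_zero : (2 : ℂ) ≠ 0) h3
  -- `N = 1`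
  have hN2 : N = 1 := by
    by_contra hcon
    have hN2 : 2 ≤ N := by omega
    obtain ⟨u, hu, hubu, hue⟩ := exists_u hN2 he
    refine key (α := α) hR hs ht ht1 hq h1 h2 hr (fun x v hx hv hvs => hin _ (hBd x v hx hv hvs))
      hy1 hu ?_ ?_ ?_
    · have h3 : y = κ⁻¹ • e (Fin.last N) := by
        rw [hel, smul_smul, inv_mul_cancel₀ hκ0, one_smul]
      rw [h3, inner_smul_left, norm_mul, RCLike.norm_conj, norm_inv, hκ1, inv_one, one_mul, hue,
        Complex.norm_real, Real.norm_eq_abs, sq_abs, Fin.val_last, co_sq (by omega),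
        if_pos (Or.inr rfl)]
      have h4 : (2 : ℝ) ≤ N := by exact_mod_cast hN2
      rw [inv_lt_comm₀ (by positivity) (by norm_num)]
      linarith
    · have huu : inner ℂ u u = (1 : ℂ) := by
        rw [inner_self_eq_norm_sq_to_K, hu]; simp
      rw [hbu, inner_smul_right, inner_sub_right, inner_smul_right, huu, mul_one] at hubu
      have h3 : (r : ℂ) * (((r⁻¹ : ℝ) : ℂ) * (inner ℂ u (B u) - α)) = r * 1 := by rw [hubu]
      rw [← mul_assoc, ← Complex.ofReal_mul, mul_inv_cancel₀ hr.ne', Complex.ofReal_one, one_mul,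
        mul_one] at h3
      show inner ℂ u (B u) = α + r
      rw [← h3]; ring
    · intro h3
      have h3' : B u = (α + r) • u := h3
      have h4 : b u = u := by
        rw [hbu, h3', add_smul, add_sub_cancel_left, smul_smul, ← Complex.ofReal_mul,
          inv_mul_cancel₀ hr.ne', Complex.ofReal_one, one_smul]
      have h5 := he.ad0 u
      rw [h4, hue] at h5
      have h6 : co N 0 = 0 := by exact_mod_cast h5
      rw [co_zero] at h6
      have h7 : (0 : ℝ) < Real.sqrt (2 * N) := Real.sqrt_pos.2 (by positivity)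
      exact (inv_pos.2 h7).ne' h6
  subst hN2
  have hcw : cw 1 0 = 2 := by
    unfold cw
    rw [if_pos rfl, if_pos rfl]
    exact Real.mul_self_sqrt zero_le_two
  have he1 : e 1 = κ • y := hel
  have hVe1 : V (e 1) = (t : ℂ) • e 1 := by
    rw [he1, map_smul, hVy, smul_comm]
  have hUe1 : U (e 1) = ((t⁻¹ : ℝ) : ℂ) • e 1 := by
    rw [he1, map_smul, hUy, smul_comm]
  have hVe0 : V (e 0) = e 0 := by rw [he0, hVx]
  have hUe0 : U (e 0) = e 0 := by rw [he0, hUx]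
  -- the operator `A - α`
  have hAα : ∀ u : E, (A - α • (1 : E →L[ℂ] E)) u = (r : ℂ) • V (b (U u)) := by
    intro u
    have h3 : V (B (U u)) = A u := by
      have e1 : V * B * U = A := by
        calc V * (U * A * V) * U = (V * U) * A * (V * U) := by simp only [mul_assoc]
          _ = A := by rw [hVU, one_mul, mul_one]
      exact congrArg (fun T : E →L[ℂ] E => T u) e1
    have h4 : V (U u) = u := congrArg (fun T : E →L[ℂ] E => T u) hVU
    rw [hbu, map_smul, map_sub, map_smul, h3, h4, smul_smul, ← Complex.ofReal_mul,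
      mul_inv_cancel₀ hr.ne', Complex.ofReal_one, one_smul]
    rfl
  have hsh : b (e 0) = ((2 : ℝ) : ℂ) • e 1 := by
    have h3 := he.sh 0
    rw [show ((0 : Fin 1) : ℕ) = 0 from rfl, hcw] at h3
    exact h3
  have hlast : b (e 1) = 0 := he.last
  have had : ∀ u : E, inner ℂ (e 1) (b u) = ((2 : ℝ) : ℂ) * inner ℂ (e 0) u := by
    intro u
    have h3 := he.ad 0 u
    rw [show ((0 : Fin 1) : ℕ) = 0 from rfl, hcw] at h3
    exact h3
  refine ⟨c, α, r, e, by rw [hp, pow_one], hr, by rw [← hrN, pow_one], ⟨he.on, ?_, ?_, ?_, ?_⟩⟩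
  · intro j
    obtain rfl : j = 0 := Subsingleton.elim _ _
    show (A - α • (1 : E →L[ℂ] E)) (e 0) = ((2 * t * r : ℝ) : ℂ) • e 1
    rw [hAα, hUe0, hsh, map_smul, hVe1, smul_smul, smul_smul]
    congr 1
    push_cast
    ring
  · show (A - α • (1 : E →L[ℂ] E)) (e 1) = 0
    rw [hAα, hUe1, map_smul, hlast, smul_zero, map_zero, smul_zero]
  · intro j u
    obtain rfl : j = 0 := Subsingleton.elim _ _
    show inner ℂ (e 1) ((A - α • (1 : E →L[ℂ] E)) u) = ((2 * t * r : ℝ) : ℂ) * inner ℂ (e 0) u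
    rw [hAα, inner_smul_right, hV, ← Q82.QR.S_symm, ← hV, hVe1, inner_smul_left, had, hU,
      ← Q82.QR.S_symm, ← hU, hUe0, Complex.conj_ofReal]
    push_cast
    ring
  · intro u
    show inner ℂ (e 0) ((A - α • (1 : E →L[ℂ] E)) u) = (0 : ℂ)
    rw [hAα, inner_smul_right, hV, ← Q82.QR.S_symm, ← hV, hVe0, he.ad0, mul_zero]

end

theorem t_QCASE (hAll : S_ALLCASE) (hC : S_CRABB) (hO : S_QORTH) (hR : S_REP) : S_QCASE := by
  intro E _ _ _ _ A p s t q hs ht ht1 hq h1 h2 hBd hdim h2t x hx hPx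
  have horth := hO E A p s t q hs.le ht hq h1 h2 hBd (fun _ => hdim) h2t x hx hPx
  exact QCASE.core hAll hC hR E A p s t q hs ht ht1 hq h1 h2 hBd hdim x hx hPx horth

end Pool.Agent.H243.CE
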