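import Pool.Agent.H243.CE.Stmt2

/-!
# (CE20) points of the numerical range of the similar operator
-/

set_option autoImplicit false

open MeasureTheory Set Filter Topology Polynomial

namespace Pool.Agent.H243.CE

open Pool.Agent.W753.CZ (numRange)

theorem REP.eq_case {t q s a : ℝ} (ht0 : 0 < t) (hq : q * (1 + t ^ 2) = 2 * t)
    (hsq : s ^ 2 * q ^ 2 = 1 - q ^ 2)
    (h : (1 + (t ^ 2 - 1) * a) * (1 + ((t⁻¹) ^ 2 - 1) * a) = 1 + s ^ 2) : t = 1 ∨ a = 1 / 2 := by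
  have h1 : (1 + (t ^ 2 - 1) * a) * (t ^ 2 + (1 - t ^ 2) * a) = t ^ 2 * (1 + s ^ 2) := by
    have e : t ^ 2 + (1 - t ^ 2) * a = t ^ 2 * (1 + ((t⁻¹) ^ 2 - 1) * a) := by
      field_simp
    rw [e, ← h]; ring
  have h2 : q ^ 2 * (1 + s ^ 2) = 1 := by linarith
  have h3 : q ^ 2 * (1 + t ^ 2) ^ 2 = 4 * t ^ 2 := by
    have : (q * (1 + t ^ 2)) ^ 2 = (2 * t) ^ 2 := by rw [hq]
    linarith [this, mul_pow q (1 + t ^ 2) 2, mul_pow (2 : ℝ) t 2]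
  have hqpos : q ^ 2 ≠ 0 := by
    intro h0
    rw [h0, zero_mul] at h2
    exact zero_ne_one h2
  have h4 : q ^ 2 * (4 * ((1 + (t ^ 2 - 1) * a) * (t ^ 2 + (1 - t ^ 2) * a))) = q ^ 2 * (1 + t ^ 2) ^ 2 := by
    rw [h1, h3]
    have : q ^ 2 * (4 * (t ^ 2 * (1 + s ^ 2))) = 4 * t ^ 2 * (q ^ 2 * (1 + s ^ 2)) := by ring
    rw [this, h2, mul_one]
  have h5 := mul_left_cancel₀ hqpos h4
  have h6 : ((1 - t ^ 2) * (1 - 2 * a)) ^ 2 = 0 := by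
    have e : ((1 - t ^ 2) * (1 - 2 * a)) ^ 2 = (1 + t ^ 2) ^ 2 -
        4 * ((1 + (t ^ 2 - 1) * a) * (t ^ 2 + (1 - t ^ 2) * a)) := by ring
    rw [e, h5, sub_self]
  have h7 := (pow_eq_zero_iff two_ne_zero).1 h6
  rcases mul_eq_zero.1 h7 with h8 | h8
  · left
    have h9 : (t - 1) * (t + 1) = 0 := by linarith
    rcases mul_eq_zero.1 h9 with h10 | h10
    · linarith
    · linarith
  · right; linarith

open Q82.QR in
theorem t_REP : S_REP := by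
  intro H _ _ A s t q hs ht0 hq0 hq hsq y u hy hu
  set w := S t y u with hw
  set z := S t⁻¹ y u with hz
  have h1 : inner ℂ u ((S t⁻¹ y * A * S t y) u) = inner ℂ z (A w) := by
    rw [hz, S_symm]; rfl
  have hSS : S t⁻¹ y w = u := by
    have : S t⁻¹ y (S t y u) = (S t⁻¹ y * S t y) u := rfl
    rw [hw, this, S_mul _ _ (inv_mul_cancel₀ ht0.ne') _ hy]
    rfl
  have h2 : inner ℂ z w = (1 : ℂ) := by
    rw [hz, S_symm, hSS, inner_self_eq_norm_sq_to_K, hu]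
    simp
  have hwn : ‖w‖ ≠ 0 := by
    intro h0
    rw [norm_eq_zero.1 h0, inner_zero_right] at h2
    exact zero_ne_one h2
  have hk := kantorovich ht0 hq hy hu
  rw [← hw, ← hz] at hk
  have hwsq : ‖w‖ ^ 2 = 1 + (t ^ 2 - 1) * ‖(inner ℂ y u : ℂ)‖ ^ 2 := by
    rw [hw, S_norm_sq _ _ _ hy, hu]; norm_num
  have hzsq : ‖z‖ ^ 2 = 1 + ((t⁻¹) ^ 2 - 1) * ‖(inner ℂ y u : ℂ)‖ ^ 2 := by
    rw [hz, S_norm_sq _ _ _ hy, hu]; norm_num
  set x : H := ((‖w‖⁻¹ : ℝ) : ℂ) • w with hx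
  have hx1 : ‖x‖ = 1 := by
    rw [hx, norm_smul, Complex.norm_real, norm_inv, norm_norm, inv_mul_cancel₀ hwn]
  have hwx : w = ((‖w‖ : ℝ) : ℂ) • x := by
    rw [hx, smul_smul, ← Complex.ofReal_mul, mul_inv_cancel₀ hwn, Complex.ofReal_one, one_smul]
  have hzx : inner ℂ (((‖w‖ : ℝ) : ℂ) • z) x = (1 : ℂ) := by
    rw [inner_smul_left, Complex.conj_ofReal, ← inner_smul_right, ← hwx, h2]
  set v : H := ((‖w‖ : ℝ) : ℂ) • z - x with hv
  have hxx : inner ℂ x x = (1 : ℂ) := by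
    rw [inner_self_eq_norm_sq_to_K, hx1]; simp
  have hvx : inner ℂ v x = (0 : ℂ) := by
    rw [hv, inner_sub_left, hzx, hxx, sub_self]
  have hvsq : ‖v‖ ^ 2 = ‖w‖ ^ 2 * ‖z‖ ^ 2 - 1 := by
    rw [hv, norm_sub_sq (𝕜 := ℂ), hzx, hx1, norm_smul, Complex.norm_real, norm_norm]
    simp only [RCLike.one_re]
    ring
  have hvn : ‖v‖ ≤ s := by
    apply abs_le_of_sq_le_sq' _ hs |>.2
    rw [hvsq]
    have h3 : q ^ 2 * (‖w‖ ^ 2 * ‖z‖ ^ 2 - 1) ≤ q ^ 2 * s ^ 2 := by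
      have e : q ^ 2 * s ^ 2 = 1 - q ^ 2 := by rw [← hsq]; ring
      rw [e]
      linarith
    exact le_of_mul_le_mul_left h3 (by positivity)
  refine ⟨x, v, hx1, hvx, hvn, ?_, ?_, ?_⟩
  · rw [h1]
    have e : inner ℂ (((‖w‖ : ℝ) : ℂ) • z) (A x) = ((‖w‖ : ℝ) : ℂ) * inner ℂ z (A x) := by
      rw [inner_smul_left, Complex.conj_ofReal]
    rw [hv, inner_sub_left, e]
    conv_lhs => rw [hwx]
    rw [map_smul, inner_smul_right]
    ring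
  · intro hvs
    apply REP.eq_case ht0 hq hsq
    rw [← hwsq, ← hzsq, ← hvs, hvsq]
    ring
  · intro μ hμ
    have e : (S t⁻¹ y * A * S t y) u = S t⁻¹ y (A w) := rfl
    have e2 : A w = μ • w := by
      rw [hwx, map_smul, hμ, smul_comm]
    rw [e, e2, map_smul, hSS]

end Pool.Agent.H243.CE
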