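import Pool.Agent.H243.CE.Stmt2

/-!
# CE2-SMALLQ: strict inequality for `|q| < 4/5`
-/

set_option autoImplicit false
set_option linter.all false

open MeasureTheory Set Filter Topology Polynomial

namespace Pool.Agent.H243.CE

noncomputable section

namespace SMALLQ

/-- the local lemma -/
theorem local_lem {p : ℂ[X]} (hp : 1 ≤ p.natDegree) {μ η : ℂ} (hη : η ≠ 0) {K θ₀ : ℝ}
    (hθ₀ : 0 < θ₀) (h : ∀ ω : ℂ, ‖ω‖ = 1 → ∀ θ : ℝ, 0 < θ → θ < θ₀ →
      ∃ z : ℂ, ‖p.eval z‖ ≤ 1 ∧ ‖z - μ - (θ : ℂ) * η * ω‖ ≤ K * θ ^ 2) : ‖p.eval μ‖ < 1 := by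
  by_contra hcon
  push Not at hcon
  set a := p.eval μ with ha
  have ha0 : a ≠ 0 := by
    intro h0
    rw [h0, norm_zero] at hcon
    linarith
  set r : ℂ[X] := p - C a with hr
  have hr0 : r ≠ 0 := by
    intro h0
    rw [hr, sub_eq_zero] at h0
    rw [h0, natDegree_C] at hp
    omega
  obtain ⟨g, hg, hg'⟩ := exists_eq_pow_rootMultiplicity_mul_and_not_dvd r hr0 μ
  set m := rootMultiplicity μ r with hm
  have hm1 : 0 < m := by
    rw [hm, rootMultiplicity_pos hr0, IsRoot.def, hr, eval_sub, eval_C, ← ha, sub_self]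
  have hκ : g.eval μ ≠ 0 := by
    intro h0
    exact hg' (dvd_iff_isRoot.2 h0)
  set c : ℂ := (starRingEnd ℂ) a * g.eval μ * η ^ m with hc
  have hc0 : c ≠ 0 := mul_ne_zero (mul_ne_zero (by rwa [Ne, map_eq_zero]) hκ) (pow_ne_zero _ hη)
  have hcn : (‖c‖ : ℂ) ≠ 0 := by
    rw [Ne, Complex.ofReal_eq_zero, norm_eq_zero]; exact hc0
  obtain ⟨ω, hω⟩ := IsAlgClosed.exists_pow_nat_eq ((starRingEnd ℂ) c / ‖c‖) hm1
  have hω1 : ‖ω‖ = 1 := by
    have h1 := congrArg norm hω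
    rw [norm_pow, norm_div, RCLike.norm_conj, Complex.norm_real, norm_norm,
      div_self (norm_ne_zero_iff.2 hc0)] at h1
    exact (pow_eq_one_iff_of_nonneg (norm_nonneg _) hm1.ne').1 h1
  have key : (starRingEnd ℂ) a * ((η * ω) ^ m * g.eval μ) = (‖c‖ : ℂ) := by
    have e1 : (starRingEnd ℂ) a * ((η * ω) ^ m * g.eval μ) = c * ω ^ m := by
      rw [hc, mul_pow]; ring
    rw [e1, hω, mul_div_assoc', Complex.mul_conj, Complex.normSq_eq_norm_sq]
    push_cast
    field_simp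
  -- the sequence
  set θ : ℕ → ℝ := fun n => θ₀ / (n + 2) with hθ
  have hθ1 : ∀ n, 0 < θ n := fun n => by rw [hθ]; positivity
  have hθ2 : ∀ n, θ n < θ₀ := fun n => by
    rw [hθ]
    show θ₀ / ((n : ℝ) + 2) < θ₀
    rw [div_lt_iff₀ (by positivity)]
    have : (0 : ℝ) ≤ n := Nat.cast_nonneg n
    nlinarith
  have hθ3 : Tendsto θ atTop (𝓝 0) := by
    have h1 : Tendsto (fun n : ℕ => (n : ℝ) + 2) atTop atTop :=
      tendsto_atTop_add_const_right _ _ tendsto_natCast_atTop_atTop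
    exact h1.const_div_atTop θ₀
  choose z hz1 hz2 using fun n => h ω hω1 (θ n) (hθ1 n) (hθ2 n)
  set w : ℕ → ℂ := fun n => (z n - μ) / (θ n : ℂ) with hw
  have hθc : ∀ n, ((θ n : ℝ) : ℂ) ≠ 0 := fun n => by
    rw [Ne, Complex.ofReal_eq_zero]; exact (hθ1 n).ne'
  have hw1 : Tendsto w atTop (𝓝 (η * ω)) := by
    rw [tendsto_iff_norm_sub_tendsto_zero]
    have h1 : ∀ n, ‖w n - η * ω‖ ≤ K * θ n := by
      intro n
      have e : w n - η * ω = (z n - μ - (θ n : ℂ) * η * ω) / (θ n : ℂ) := by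
        rw [hw]
        have := hθc n
        field_simp
      rw [e, norm_div, Complex.norm_real, Real.norm_of_nonneg (hθ1 n).le, div_le_iff₀ (hθ1 n)]
      calc _ ≤ K * θ n ^ 2 := hz2 n
        _ = K * θ n * θ n := by ring
    have h2 : Tendsto (fun n => K * θ n) atTop (𝓝 0) := by
      simpa using hθ3.const_mul K
    exact squeeze_zero (fun n => norm_nonneg _) h1 h2
  have hz3 : ∀ n, z n = μ + (θ n : ℂ) * w n := by
    intro n
    rw [hw]
    have := hθc n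
    field_simp
    ring
  have hz4 : Tendsto z atTop (𝓝 μ) := by
    have h1 : Tendsto (fun n => ((θ n : ℝ) : ℂ)) atTop (𝓝 0) := by
      have := (Complex.continuous_ofReal.tendsto 0).comp hθ3
      rwa [Complex.ofReal_zero] at this
    have h2 := (h1.mul hw1).const_add μ
    rw [zero_mul, add_zero] at h2
    exact h2.congr (fun n => (hz3 n).symm)
  have hlim : Tendsto (fun n => ((starRingEnd ℂ) a * (w n ^ m * g.eval (z n))).re) atTop
      (𝓝 ‖c‖) := by
    have h1 : Tendsto (fun n => (starRingEnd ℂ) a * (w n ^ m * g.eval (z n))) atTop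
        (𝓝 ((starRingEnd ℂ) a * ((η * ω) ^ m * g.eval μ))) := by
      refine Tendsto.const_mul _ ((hw1.pow m).mul ?_)
      exact (g.continuous.tendsto μ).comp hz4
    rw [key] at h1
    have h2 := (Complex.continuous_re.tendsto _).comp h1
    rw [Complex.ofReal_re] at h2
    exact h2
  have hcpos : 0 < ‖c‖ := norm_pos_iff.2 hc0
  obtain ⟨n, hn⟩ := (hlim.eventually (lt_mem_nhds hcpos)).exists
  have e1 : p.eval (z n) = a + (θ n : ℂ) ^ m * (w n ^ m * g.eval (z n)) := by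
    have h1 : r.eval (z n) = (z n - μ) ^ m * g.eval (z n) := by
      rw [hg, eval_mul, eval_pow, eval_sub, eval_X, eval_C]
    rw [hr, eval_sub, eval_C] at h1
    have h2 : z n - μ = (θ n : ℂ) * w n := by rw [hz3 n]; ring
    rw [h2, mul_pow] at h1
    linear_combination h1
  have e2 : ((starRingEnd ℂ) a * p.eval (z n)).re = ‖a‖ ^ 2 + θ n ^ m *
      ((starRingEnd ℂ) a * (w n ^ m * g.eval (z n))).re := by
    rw [e1, mul_add, Complex.add_re]
    congr 1
    · rw [mul_comm, Complex.mul_conj, Complex.normSq_eq_norm_sq, Complex.ofReal_re]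
    · have e3 : (starRingEnd ℂ) a * ((θ n : ℂ) ^ m * (w n ^ m * g.eval (z n))) =
          ((θ n ^ m : ℝ) : ℂ) * ((starRingEnd ℂ) a * (w n ^ m * g.eval (z n))) := by
        push_cast; ring
      rw [e3, Complex.re_ofReal_mul]
  have e4 : ((starRingEnd ℂ) a * p.eval (z n)).re ≤ ‖a‖ := by
    refine (Complex.re_le_norm _).trans ?_
    rw [norm_mul, RCLike.norm_conj]
    exact mul_le_of_le_one_right (norm_nonneg _) (hz1 n)
  have e5 : 0 < θ n ^ m * ((starRingEnd ℂ) a * (w n ^ m * g.eval (z n))).re :=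
    mul_pos (pow_pos (hθ1 n) m) hn
  nlinarith

end SMALLQ

open SMALLQ in
theorem t_SMALLQ (hE : S_EIG) : S_SMALLQ := by
  intro E _ _ _ _ A p s hs hB hdim hp hA
  have hs0 : 0 < s := by linarith
  haveI : ProperSpace E := FiniteDimensional.proper ℂ E
  set F : E × E → ℝ := fun q => ‖p.eval (inner ℂ q.1 (A q.1) + inner ℂ q.2 (A q.1))‖ with hF
  have hFc : Continuous F := by
    rw [hF]
    refine (p.continuous.comp ?_).norm
    exact (continuous_fst.inner (A.continuous.comp continuous_fst)).add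
      (continuous_snd.inner (A.continuous.comp continuous_fst))
  set Kc : Set (E × E) := {q | ‖q.1‖ = 1 ∧ inner ℂ q.2 q.1 = (0 : ℂ) ∧ ‖q.2‖ = 3 / 4} with hK
  have hKcl : IsClosed Kc := by
    refine (isClosed_eq continuous_fst.norm continuous_const).inter
      ((isClosed_eq (continuous_snd.inner continuous_fst) continuous_const).inter
        (isClosed_eq continuous_snd.norm continuous_const))
  have hKb : Bornology.IsBounded Kc := by
    rw [isBounded_iff_forall_norm_le]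
    refine ⟨1, ?_⟩
    rintro ⟨x, v⟩ ⟨h1, -, h3⟩
    rw [Prod.norm_def]
    have h1' : ‖x‖ = 1 := h1
    have h3' : ‖v‖ = 3 / 4 := h3
    exact max_le (by rw [h1']) (by rw [h3']; norm_num)
  have hKc : IsCompact Kc := Metric.isCompact_of_isClosed_isBounded hKcl hKb
  have hKne : Kc.Nonempty := by
    obtain ⟨x, hx⟩ := exists_norm_eq E (zero_le_one' ℝ)
    obtain ⟨v, hv, hvx⟩ := hdim x hx
    refine ⟨(x, ((3 / 4 : ℝ) : ℂ) • v), hx, ?_, ?_⟩
    · show inner ℂ (((3 / 4 : ℝ) : ℂ) • v) x = (0 : ℂ)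
      rw [inner_smul_left, hvx, mul_zero]
    · show ‖((3 / 4 : ℝ) : ℂ) • v‖ = 3 / 4
      rw [norm_smul, Complex.norm_real, hv, mul_one, Real.norm_of_nonneg (by norm_num)]
  obtain ⟨⟨x₀, v₀⟩, hq0, hmax⟩ := hKc.exists_isMaxOn hKne hFc.continuousOn
  obtain ⟨hx0, hv0x, hv0⟩ := hq0
  have hx0 : ‖x₀‖ = 1 := hx0
  have hv0x : inner ℂ v₀ x₀ = (0 : ℂ) := hv0x
  have hv0 : ‖v₀‖ = 3 / 4 := hv0
  have hM : Q82.QR.Bd A (3 / 4) p (F (x₀, v₀)) := by
    intro x v hx hvx hv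
    exact hmax (show (x, v) ∈ Kc from ⟨hx, hvx, hv⟩)
  have hmb := Q82.QR.main_bound (A := A) (p := p) (M := F (x₀, v₀)) (s := 3 / 4) (t := 1 / 2)
    (q := 4 / 5) (by norm_num) (by norm_num) (by norm_num) (by norm_num) (by norm_num)
    (norm_nonneg _) hM (fun _ => hdim)
  have hmax1 : max (1 : ℝ) (2 * (1 / 2)) = 1 := by norm_num
  rw [hmax1, one_mul] at hmb
  refine hmb.trans_lt ?_
  -- the claim `M' < 1`
  show ‖p.eval (inner ℂ x₀ (A x₀) + inner ℂ v₀ (A x₀))‖ < 1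
  have hxx : inner ℂ x₀ x₀ = (1 : ℂ) := by
    rw [inner_self_eq_norm_sq_to_K, hx0]; simp
  set c₀ : ℂ := inner ℂ x₀ (A x₀) with hc0
  set d : E := A x₀ - c₀ • x₀ with hd
  have hAd : A x₀ = c₀ • x₀ + d := by rw [hd]; abel
  have hxd : inner ℂ x₀ d = (0 : ℂ) := by
    rw [hd, inner_sub_right, inner_smul_right, hxx, ← hc0, mul_one, sub_self]
  have hdx : inner ℂ d x₀ = (0 : ℂ) := by rw [← inner_conj_symm, hxd, map_zero]
  have hv0d : inner ℂ v₀ (A x₀) = inner ℂ v₀ d := by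
    rw [hAd, inner_add_right, inner_smul_right, hv0x, mul_zero, zero_add]
  rw [hv0d]
  by_cases hd0 : d = 0
  · rw [hd0, inner_zero_right, add_zero]
    refine hE E A p s hs0 hB hdim hp hA c₀ x₀ hx0 ?_
    rw [hAd, hd0, add_zero]
  · have hdn : ‖d‖ ≠ 0 := norm_ne_zero_iff.2 hd0
    have hdp : 0 < ‖d‖ := norm_pos_iff.2 hd0
    have hdnc : ((‖d‖ : ℝ) : ℂ) ≠ 0 := by rwa [Ne, Complex.ofReal_eq_zero]
    have hdisc : ∀ ζ : ℂ, ‖ζ‖ ≤ s * ‖d‖ → ‖p.eval (c₀ + ζ)‖ ≤ 1 := by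
      intro ζ hζ
      have h1 := Q82.QR.disc_point (A := A) (p := p) (M := 1) hs0.le hB (fun _ => hdim) x₀
        (((starRingEnd ℂ) ζ * (((‖d‖ ^ 2)⁻¹ : ℝ) : ℂ)) • d) hx0 (by
          rw [inner_smul_left, hdx, mul_zero]) (by
          rw [norm_smul, norm_mul, RCLike.norm_conj, Complex.norm_real,
            Real.norm_of_nonneg (by positivity)]
          have e : ‖ζ‖ * (‖d‖ ^ 2)⁻¹ * ‖d‖ = ‖ζ‖ / ‖d‖ := by field_simp
          rw [e, div_le_iff₀ hdp]
          exact hζ)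
      have h2 : inner ℂ (((starRingEnd ℂ) ζ * (((‖d‖ ^ 2)⁻¹ : ℝ) : ℂ)) • d) (A x₀) = ζ := by
        rw [inner_smul_left, hAd, inner_add_right, inner_smul_right, hdx, mul_zero, zero_add,
          inner_self_eq_norm_sq_to_K, map_mul, Complex.conj_conj, Complex.conj_ofReal]
        show ζ * (((‖d‖ ^ 2)⁻¹ : ℝ) : ℂ) * ((‖d‖ : ℝ) : ℂ) ^ 2 = ζ
        push_cast
        field_simp
      rw [h2] at h1
      exact h1
    set r : ℝ := (s - 3 / 4) * ‖d‖ with hr
    have hr0 : 0 < r := mul_pos (by linarith) hdp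
    refine local_lem hp (η := 1) one_ne_zero (K := 0) (θ₀ := r) hr0 ?_
    intro ω hω θ hθ hθr
    refine ⟨c₀ + (inner ℂ v₀ d + (θ : ℂ) * ω), hdisc _ ?_, ?_⟩
    · refine (norm_add_le _ _).trans ?_
      have h3 : ‖(inner ℂ v₀ d : ℂ)‖ ≤ ‖v₀‖ * ‖d‖ := norm_inner_le_norm _ _
      rw [hv0] at h3
      rw [norm_mul, hω, Complex.norm_real, Real.norm_of_nonneg hθ.le, mul_one]
      rw [hr] at hθr
      linarith
    · have e : c₀ + (inner ℂ v₀ d + (θ : ℂ) * ω) - (c₀ + inner ℂ v₀ d) - (θ : ℂ) * 1 * ω = 0 := by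
        ring
      rw [e, norm_zero, zero_mul]

end

end Pool.Agent.H243.CE
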