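import Pool.Graph.R_seed8.W753.CZ.Crouzeix
import Pool.Graph.R_pool_sql_team_seeded_3997aac3.Q82.QMoeb

/-!
# Equality cases in Crouzeix's inequality: definitions and the statements of the pieces

`A` is an operator, `f` a polynomial with `|f| ≤ 1` on the numerical range `W(A)`, `T = f(A)`,
`T x = 2 y` with unit vectors `x`, `y`.
-/

set_option autoImplicit false

open MeasureTheory Set Filter Topology Polynomial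

namespace Pool.Agent.H243.CE

open Pool.Agent.W753.CZ (numRange)

noncomputable section

section defs

variable {H : Type} [NormedAddCommGroup H] [InnerProductSpace ℂ H]

/-- A curve `s` around the numerical range of `A`, with normal direction `exp (i φ)` at `s φ` and
length element `ρ φ dφ`, and the kernel `Y φ = ρ φ exp (i φ) (s φ - A)⁻¹` (whose real part is
positive). -/
structure Datum (A : H →L[ℂ] H) (L : ℝ) (s : ℝ → ℂ) (ρ : ℝ → ℝ) (Y : ℝ → H →L[ℂ] H) : Prop where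
  sc : Continuous s
  rc : Continuous ρ
  Yc : Continuous Y
  r0 : ∀ φ, 0 ≤ ρ φ
  pos : ∀ (φ : ℝ) (u : H), 0 ≤ (inner ℂ u (Y φ u)).re
  comm : ∀ φ, A * Y φ = Y φ * A
  eq : ∀ (φ : ℝ) (u : H), s φ • Y φ u - A (Y φ u) = ((ρ φ : ℂ) * Complex.exp (φ * Complex.I)) • u
  bpos : ∀ (φ : ℝ) (u : H),
    0 ≤ (Complex.exp (-φ * Complex.I) * (s φ * (‖u‖ : ℂ) ^ 2 - inner ℂ u (A u))).re
  int : ∀ q : ℂ[X], ∫ φ in (0 : ℝ)..(2 * Real.pi), q.eval (s φ) • Y φ =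
    ((2 * Real.pi : ℝ) : ℂ) • aeval A q
  mass : ∫ φ in (0 : ℝ)..(2 * Real.pi), ρ φ ≤ L
  bd : ∀ φ, ‖s φ‖ ≤ L

/-- A sequence of curves which come close to the numerical range, with `|f| ≤ M j` on the `j`-th
curve, `M j → 1`, and resolvents bounded by `C`. -/
structure Approx (A : H →L[ℂ] H) (f : ℂ[X]) (L C : ℝ) (s : ℕ → ℝ → ℂ) (ρ : ℕ → ℝ → ℝ)
    (Y : ℕ → ℝ → H →L[ℂ] H) (M : ℕ → ℝ) : Prop where
  L0 : 0 < L
  C0 : 0 < C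
  dat : ∀ j, Datum A L (s j) (ρ j) (Y j)
  M1 : ∀ j, 1 ≤ M j
  M2 : ∀ j, M j ≤ 2
  Mt : Tendsto M atTop (𝓝 1)
  fb : ∀ j φ, ‖f.eval (s j φ)‖ ≤ M j
  ub : ∀ j φ (u : H), ‖u‖ ≤ C * ‖s j φ • u - A u‖

/-- the operator `(1/2π) ∫ h Y` -/
def Gam (Y : ℝ → H →L[ℂ] H) (h : ℝ → ℂ) : H →L[ℂ] H :=
  ((2 * Real.pi : ℝ) : ℂ)⁻¹ • ∫ φ in (0 : ℝ)..(2 * Real.pi), h φ • Y φ

/-- the mean value over a period -/
def mean (h : ℝ → ℝ) : ℝ := (2 * Real.pi)⁻¹ * ∫ φ in (0 : ℝ)..(2 * Real.pi), h φ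

/-- `(1/2π) ∫ |g(s)|² Re ⟨x, Y x⟩` -/
def J (x : H) (s : ℝ → ℂ) (Y : ℝ → H →L[ℂ] H) (g : ℂ[X]) : ℝ :=
  mean fun φ => ‖g.eval (s φ)‖ ^ 2 * (inner ℂ x (Y φ x)).re

/-- no eigenvalue of `A` lies on a supporting line of the numerical range -/
def NE (A : H →L[ℂ] H) : Prop :=
  ∀ (e ζ : ℂ) (v : H), ‖e‖ = 1 → A v = ζ • v →
    (∀ u : H, 0 ≤ (e * (ζ * (‖u‖ : ℂ) ^ 2 - inner ℂ u (A u))).re) → v = 0

/-- the polynomial `ζ ↦ ⟨u, R(ζ) v⟩`, where `(ζ - A) R(ζ) = f(ζ) - f(A)` -/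
def psi (A : H →L[ℂ] H) (f : ℂ[X]) (u v : H) : ℂ[X] :=
  ∑ k ∈ Finset.range (f.natDegree + 1), C (f.coeff k) *
    ∑ i ∈ Finset.range k, C (inner ℂ u ((A ^ (k - 1 - i)) v)) * X ^ i

def Dp (A : H →L[ℂ] H) (f : ℂ[X]) (x y : H) : ℂ[X] :=
  f * (psi A f y y + f * psi A f y x) + (psi A f x y + f * psi A f x x)

def Np (A : H →L[ℂ] H) (f : ℂ[X]) (x y : H) : ℂ[X] :=
  f * (psi A f (A y) y + f * psi A f (A y) x) + (psi A f (A x) y + f * psi A f (A x) x)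

/-- the polynomial that vanishes where `conj ζ = N(ζ)/D(ζ)` and `|f(ζ)| = 1` -/
def Gp (f D N : ℂ[X]) : ℂ[X] :=
  D ^ f.natDegree - f * ∑ k ∈ Finset.range (f.natDegree + 1),
    C ((starRingEnd ℂ) (f.coeff k)) * N ^ k * D ^ (f.natDegree - k)

end defs

/-- (CE1) existence of the curves -/
def S_DATUM : Prop :=
  ∀ (H : Type) [NormedAddCommGroup H] [InnerProductSpace ℂ H] [CompleteSpace H] [Nontrivial H]
    (A : H →L[ℂ] H), ∃ L : ℝ, 0 < L ∧ ∀ δ : ℝ, 0 < δ → δ ≤ 1 →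
      ∃ (s : ℝ → ℂ) (ρ : ℝ → ℝ) (Y : ℝ → H →L[ℂ] H), Datum A L s ρ Y ∧
        ∀ φ, Metric.infDist (s φ) (numRange A) ≤ L * δ

/-- (CE2) Toeplitz positivity on the indices `0, k, k+1` -/
def S_TOEP : Prop :=
  ∀ (H : Type) [NormedAddCommGroup H] [InnerProductSpace ℂ H] [CompleteSpace H]
    (A : H →L[ℂ] H) (L : ℝ) (s : ℝ → ℂ) (ρ : ℝ → ℝ) (Y : ℝ → H →L[ℂ] H), Datum A L s ρ Y →
    ∀ g : ℂ[X], (∀ φ, ‖g.eval (s φ)‖ ≤ 1) → ∀ (k : ℕ) (a b c : H),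
      0 ≤ ‖a‖ ^ 2 + ‖b‖ ^ 2 + ‖c‖ ^ 2
        + ((inner ℂ b ((aeval A g ^ k) a)).re
          + (inner ℂ a (Gam Y (fun φ => (starRingEnd ℂ) (g.eval (s φ)) ^ k) b)).re)
        + ((inner ℂ c ((aeval A g ^ (k + 1)) a)).re
          + (inner ℂ a (Gam Y (fun φ => (starRingEnd ℂ) (g.eval (s φ)) ^ (k + 1)) c)).re)
        + ((inner ℂ c ((aeval A g) b)).re
          + (inner ℂ b (Gam Y (fun φ => (starRingEnd ℂ) (g.eval (s φ))) c)).re)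

/-- (CE3) an exact mean value -/
def S_MEAN : Prop :=
  ∀ (H : Type) [NormedAddCommGroup H] [InnerProductSpace ℂ H] [CompleteSpace H]
    (A : H →L[ℂ] H) (L : ℝ) (s : ℝ → ℂ) (ρ : ℝ → ℝ) (Y : ℝ → H →L[ℂ] H), Datum A L s ρ Y →
    ∀ (g : ℂ[X]) (x y : H),
      mean (fun φ => (inner ℂ (y - g.eval (s φ) • x) (Y φ (y - g.eval (s φ) • x))).re
        + (1 - ‖g.eval (s φ)‖ ^ 2) * (inner ℂ x (Y φ x)).re) =
      ‖y‖ ^ 2 + ‖x‖ ^ 2 - (inner ℂ y ((aeval A g) x)).re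
        - (inner ℂ x (Gam Y (fun φ => (starRingEnd ℂ) (g.eval (s φ))) y)).re

/-- (CE4) the real recursion -/
def S_REC : Prop :=
  ∀ (γ ν : ℕ → ℝ), (∀ k, 0 ≤ ν k) → Tendsto γ atTop (𝓝 0) →
    (∀ k, 1 ≤ k → ∀ t : ℝ, 0 ≤ t ^ 2 * ν k - t * (ν k - γ k + γ (k + 1) / 2) - γ 1 / 2) →
    γ 1 = 0 ∧ γ 2 = 0 ∧ ν 1 = 0

/-- (CE5) uniform bound for the resolvents -/
def S_UB : Prop :=
  ∀ (H : Type) [NormedAddCommGroup H] [InnerProductSpace ℂ H] [FiniteDimensional ℂ H]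
    (A : H →L[ℂ] H), NE A → ∀ L : ℝ, ∃ C : ℝ, 0 < C ∧ ∀ e ζ : ℂ, ‖e‖ = 1 → ‖ζ‖ ≤ L →
      (∀ u : H, 0 ≤ (e * (ζ * (‖u‖ : ℂ) ^ 2 - inner ℂ u (A u))).re) →
      ∀ u : H, ‖u‖ ≤ C * ‖ζ • u - A u‖

/-- (CE6) decay of the powers of `f(A)` -/
def S_DECAY : Prop :=
  ∀ (H : Type) [NormedAddCommGroup H] [InnerProductSpace ℂ H] [FiniteDimensional ℂ H]
    [Nontrivial H] (A : H →L[ℂ] H) (f : ℂ[X]), NE A → (∀ w ∈ numRange A, ‖f.eval w‖ ≤ 1) →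
    1 ≤ f.natDegree → Tendsto (fun k : ℕ => ‖(aeval A f) ^ k‖) atTop (𝓝 0)

/-- (CE7) the approximating sequence -/
def S_APPROX : Prop :=
  ∀ (H : Type) [NormedAddCommGroup H] [InnerProductSpace ℂ H] [FiniteDimensional ℂ H]
    [Nontrivial H] (A : H →L[ℂ] H) (f : ℂ[X]), NE A → (∀ w ∈ numRange A, ‖f.eval w‖ ≤ 1) →
    ∃ (L C : ℝ) (s : ℕ → ℝ → ℂ) (ρ : ℕ → ℝ → ℝ) (Y : ℕ → ℝ → H →L[ℂ] H) (M : ℕ → ℝ),
      Approx A f L C s ρ Y M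

/-- (CE8) the kernel relations at a maximal vector -/
def S_KER : Prop :=
  ∀ (H : Type) [NormedAddCommGroup H] [InnerProductSpace ℂ H] [CompleteSpace H]
    (A : H →L[ℂ] H) (f : ℂ[X]) (L C : ℝ) (s : ℕ → ℝ → ℂ) (ρ : ℕ → ℝ → ℝ)
    (Y : ℕ → ℝ → H →L[ℂ] H) (M : ℕ → ℝ), Approx A f L C s ρ Y M →
    Tendsto (fun k : ℕ => ‖(aeval A f) ^ k‖) atTop (𝓝 0) →
    ∀ x y : H, ‖x‖ = 1 → ‖y‖ = 1 → (aeval A f) x = (2 : ℂ) • y →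
    (∀ u : H, inner ℂ y ((aeval A f) u) = 2 * inner ℂ x u) →
    (∀ u : H, inner ℂ x ((aeval A f) u) = (0 : ℂ)) ∧ (aeval A f) y = 0 ∧
    Tendsto (fun j => mean (fun φ =>
      (inner ℂ (y - (((M j)⁻¹ : ℝ) * f.eval (s j φ) : ℂ) • x)
        (Y j φ (y - (((M j)⁻¹ : ℝ) * f.eval (s j φ) : ℂ) • x))).re
      + (1 - ‖(((M j)⁻¹ : ℝ) * f.eval (s j φ) : ℂ)‖ ^ 2) * (inner ℂ x (Y j φ x)).re))
      atTop (𝓝 0)

/-- (CE9) the pointwise inequality for the rational Schwarz function -/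
def S_PT : Prop :=
  ∀ (H : Type) [NormedAddCommGroup H] [InnerProductSpace ℂ H] [CompleteSpace H]
    (A : H →L[ℂ] H) (L : ℝ) (s : ℝ → ℂ) (ρ : ℝ → ℝ) (Y : ℝ → H →L[ℂ] H), Datum A L s ρ Y →
    ∀ (f : ℂ[X]) (x y : H), ‖x‖ = 1 → ‖y‖ = 1 → inner ℂ x y = (0 : ℂ) →
      (aeval A f) x = (2 : ℂ) • y → (aeval A f) y = 0 → ∀ φ, ‖f.eval (s φ)‖ ≤ 2 →
      ρ φ * ‖(starRingEnd ℂ) (s φ) * (Dp A f x y).eval (s φ) - (Np A f x y).eval (s φ)‖ ^ 2 ≤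
        160 * (L + ‖A‖) *
          (inner ℂ (y - f.eval (s φ) • x) (Y φ (y - f.eval (s φ) • x))).re

/-- (CE10) the polynomial `Dp` does not vanish -/
def S_DNZ : Prop :=
  ∀ (H : Type) [NormedAddCommGroup H] [InnerProductSpace ℂ H] (A : H →L[ℂ] H) (f : ℂ[X])
    (x y : H), ‖x‖ = 1 → ‖y‖ = 1 → 1 ≤ f.natDegree → Dp A f x y ≠ 0

/-- (CE11) the polynomial `Gp` is small where `conj ζ D(ζ) - N(ζ)` and `1 - |f(ζ)|²` are small -/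
def S_GB : Prop :=
  ∀ (f D N : ℂ[X]) (L : ℝ), ∃ K : ℝ, 0 ≤ K ∧ ∀ ζ : ℂ, ‖ζ‖ ≤ L →
    ‖(Gp f D N).eval ζ‖ ^ 2 ≤
      K * (‖(starRingEnd ℂ) ζ * D.eval ζ - N.eval ζ‖ ^ 2 + |1 - ‖f.eval ζ‖ ^ 2|)

/-- (CE12) algebra: if `Gp` vanishes, then `f` has one zero only -/
def S_ALG : Prop :=
  ∀ f D N : ℂ[X], 1 ≤ f.natDegree → D ≠ 0 → Gp f D N = 0 →
    ∃ c α : ℂ, f = C c * (X - C α) ^ f.natDegree

/-- (CE13) polynomials which are small in `L²` annihilate `y` -/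
def S_IDEAL : Prop :=
  ∀ (H : Type) [NormedAddCommGroup H] [InnerProductSpace ℂ H] [CompleteSpace H]
    (A : H →L[ℂ] H) (f : ℂ[X]) (L C : ℝ) (s : ℕ → ℝ → ℂ) (ρ : ℕ → ℝ → ℝ)
    (Y : ℕ → ℝ → H →L[ℂ] H) (M : ℕ → ℝ), Approx A f L C s ρ Y M →
    ∀ x y : H, (aeval A f) x = (2 : ℂ) • y →
    (∀ u : H, inner ℂ x ((aeval A f) u) = (0 : ℂ)) →
    ∀ g : ℂ[X], Tendsto (fun j => J x (s j) (Y j) g) atTop (𝓝 0) → (aeval A g) y = 0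

/-- (CE14) no polynomial except zero is small in `L²` -/
def S_ZERO : Prop :=
  ∀ (H : Type) [NormedAddCommGroup H] [InnerProductSpace ℂ H] [CompleteSpace H]
    (A : H →L[ℂ] H) (f : ℂ[X]) (L C : ℝ) (s : ℕ → ℝ → ℂ) (ρ : ℕ → ℝ → ℝ)
    (Y : ℕ → ℝ → H →L[ℂ] H) (M : ℕ → ℝ), Approx A f L C s ρ Y M →
    ∀ x y : H, y ≠ 0 →
    (∀ g : ℂ[X], Tendsto (fun j => J x (s j) (Y j) g) atTop (𝓝 0) → (aeval A g) y = 0) →
    ∀ g : ℂ[X], Tendsto (fun j => J x (s j) (Y j) g) atTop (𝓝 0) → g = 0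

/-- the equality case for operators without eigenvalues on the boundary -/
def S_NECASE : Prop :=
  ∀ (H : Type) [NormedAddCommGroup H] [InnerProductSpace ℂ H] [FiniteDimensional ℂ H]
    (A : H →L[ℂ] H) (f : ℂ[X]) (x : H), NE A → (∀ w ∈ numRange A, ‖f.eval w‖ ≤ 1) →
    ‖x‖ = 1 → ‖(aeval A f) x‖ = 2 →
    1 ≤ f.natDegree ∧ ∃ c α : ℂ, f = C c * (X - C α) ^ f.natDegree

/-- the equality case for all operators -/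
def S_ALLCASE : Prop :=
  ∀ (H : Type) [NormedAddCommGroup H] [InnerProductSpace ℂ H] [FiniteDimensional ℂ H]
    (A : H →L[ℂ] H) (f : ℂ[X]) (x : H), (∀ w ∈ numRange A, ‖f.eval w‖ ≤ 1) →
    ‖x‖ = 1 → ‖(aeval A f) x‖ = 2 →
    1 ≤ f.natDegree ∧ ∃ c α : ℂ, f = C c * (X - C α) ^ f.natDegree

/-- (CE15) reduction to operators without eigenvalues on the boundary -/
def S_RED : Prop := S_NECASE → S_ALLCASE

/-- (CE16) the numerical range is a disc -/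
def S_DISC : Prop :=
  ∀ (H : Type) [NormedAddCommGroup H] [InnerProductSpace ℂ H] (b : H →L[ℂ] H) (N : ℕ) (x : H),
    1 ≤ N → (∀ w ∈ numRange b, ‖w‖ ≤ 1) → ‖x‖ = 1 → ‖(b ^ N) x‖ = 2 →
    numRange b = Metric.closedBall 0 1

/-- (CE17) orthogonality of `x` and `P x` for maximal vectors, `q < 1` included -/
def S_QORTH : Prop :=
  ∀ (E : Type) [NormedAddCommGroup E] [InnerProductSpace ℂ E] [FiniteDimensional ℂ E]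
    [Nontrivial E] (A : E →L[ℂ] E) (p : ℂ[X]) (s t q : ℝ), 0 ≤ s → 0 < t → 0 < q →
    q * (1 + t ^ 2) = 2 * t → s ^ 2 * q ^ 2 = 1 - q ^ 2 → Q82.QR.Bd A s p 1 →
    (s ≠ 0 → ∀ x : E, ‖x‖ = 1 → ∃ v : E, ‖v‖ = 1 ∧ inner ℂ v x = (0 : ℂ)) →
    1 < 2 * t → ∀ x : E, ‖x‖ = 1 → ‖(aeval A p) x‖ = 2 * t →
    inner ℂ ((aeval A p) x) x = (0 : ℂ)

end

end Pool.Agent.H243.CE
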