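import Pool.Agent.H243.CE.Stmt

/-!
# Equality cases in Crouzeix's inequality: the structure of the operator, and `|q| < 1`
-/

set_option autoImplicit false

open MeasureTheory Set Filter Topology Polynomial

namespace Pool.Agent.H243.CE

open Pool.Agent.W753.CZ (numRange)

noncomputable section

/-- the weights of Crabb's matrix: `√2, 1, …, 1, √2` for `N ≥ 2`, and `2` for `N = 1` -/
def cw (N j : ℕ) : ℝ :=
  (if j = 0 then Real.sqrt 2 else 1) * (if j + 1 = N then Real.sqrt 2 else 1)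

section

variable {H : Type} [NormedAddCommGroup H] [InnerProductSpace ℂ H]

/-- `e 0, …, e N` is an orthonormal basis of a reducing subspace of `b`, on which `b` is the
weighted shift with the weights `w`. -/
structure Block (b : H →L[ℂ] H) (N : ℕ) (w : ℕ → ℝ) (e : Fin (N + 1) → H) : Prop where
  on : Orthonormal ℂ e
  sh : ∀ j : Fin N, b (e j.castSucc) = ((w j : ℝ) : ℂ) • e j.succ
  last : b (e (Fin.last N)) = 0
  ad : ∀ (j : Fin N) (u : H), inner ℂ (e j.succ) (b u) = ((w j : ℝ) : ℂ) * inner ℂ (e j.castSucc) u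
  ad0 : ∀ u : H, inner ℂ (e 0) (b u) = (0 : ℂ)

end

/-- (CE18) Crabb's theorem -/
def S_CRABB : Prop :=
  ∀ (H : Type) [NormedAddCommGroup H] [InnerProductSpace ℂ H] [CompleteSpace H] (b : H →L[ℂ] H)
    (N : ℕ) (x : H), 1 ≤ N → (∀ w ∈ numRange b, ‖w‖ ≤ 1) → ‖x‖ = 1 → ‖(b ^ N) x‖ = 2 →
    ∃ e : Fin (N + 1) → H, Block b N (cw N) e ∧ e 0 = x ∧
      (b ^ N) x = (2 : ℂ) • e (Fin.last N)

/-- (CE19) powers of a weighted shift -/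
def S_BPOW : Prop :=
  (∀ (H : Type) [NormedAddCommGroup H] [InnerProductSpace ℂ H] (b : H →L[ℂ] H) (N : ℕ)
    (w : ℕ → ℝ) (e : Fin (N + 1) → H), Block b N w e →
    (b ^ N) (e 0) = ((∏ i ∈ Finset.range N, w i : ℝ) : ℂ) • e (Fin.last N)) ∧
  (∀ N : ℕ, 1 ≤ N → ∏ i ∈ Finset.range N, cw N i = 2)

/-- (CE20) points of the numerical range of the similar operator -/
def S_REP : Prop :=
  ∀ (H : Type) [NormedAddCommGroup H] [InnerProductSpace ℂ H] (A : H →L[ℂ] H) (s t q : ℝ),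
    0 ≤ s → 0 < t → 0 < q → q * (1 + t ^ 2) = 2 * t → s ^ 2 * q ^ 2 = 1 - q ^ 2 →
    ∀ y u : H, ‖y‖ = 1 → ‖u‖ = 1 →
    ∃ x v : H, ‖x‖ = 1 ∧ inner ℂ v x = (0 : ℂ) ∧ ‖v‖ ≤ s ∧
      inner ℂ u ((Q82.QR.S t⁻¹ y * A * Q82.QR.S t y) u) = inner ℂ x (A x) + inner ℂ v (A x) ∧
      (‖v‖ = s → t = 1 ∨ ‖(inner ℂ y u : ℂ)‖ ^ 2 = 1 / 2) ∧
      (∀ μ : ℂ, A x = μ • x → (Q82.QR.S t⁻¹ y * A * Q82.QR.S t y) u = μ • u)

/-- (CE21) the equality case for `|q| < 1`, `c(q) > 1` -/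
def S_QCASE : Prop :=
  ∀ (E : Type) [NormedAddCommGroup E] [InnerProductSpace ℂ E] [FiniteDimensional ℂ E]
    [Nontrivial E] (A : E →L[ℂ] E) (p : ℂ[X]) (s t q : ℝ), 0 < s → 0 < t → t < 1 → 0 < q →
    q * (1 + t ^ 2) = 2 * t → s ^ 2 * q ^ 2 = 1 - q ^ 2 → Q82.QR.Bd A s p 1 →
    (∀ x : E, ‖x‖ = 1 → ∃ v : E, ‖v‖ = 1 ∧ inner ℂ v x = (0 : ℂ)) →
    1 < 2 * t → ∀ x : E, ‖x‖ = 1 → ‖(aeval A p) x‖ = 2 * t →
    ∃ (c α : ℂ) (r : ℝ) (e : Fin 2 → E), p = C c * (X - C α) ∧ 0 < r ∧ ‖c‖ * r = 1 ∧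
      Block (A - α • (1 : E →L[ℂ] E)) 1 (fun _ => 2 * t * r) e

/-- (CE22) eigenvalues are interior points -/
def S_EIG : Prop :=
  ∀ (E : Type) [NormedAddCommGroup E] [InnerProductSpace ℂ E] [FiniteDimensional ℂ E]
    (A : E →L[ℂ] E) (p : ℂ[X]) (s : ℝ), 0 < s → Q82.QR.Bd A s p 1 →
    (∀ x : E, ‖x‖ = 1 → ∃ v : E, ‖v‖ = 1 ∧ inner ℂ v x = (0 : ℂ)) → 1 ≤ p.natDegree →
    (∀ μ : ℂ, A ≠ μ • (1 : E →L[ℂ] E)) →
    ∀ (μ : ℂ) (x : E), ‖x‖ = 1 → A x = μ • x → ‖p.eval μ‖ < 1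

/-- (CE23) strict inequality for `|q| < 4/5` -/
def S_SMALLQ : Prop :=
  ∀ (E : Type) [NormedAddCommGroup E] [InnerProductSpace ℂ E] [FiniteDimensional ℂ E]
    [Nontrivial E] (A : E →L[ℂ] E) (p : ℂ[X]) (s : ℝ), 3 / 4 < s → Q82.QR.Bd A s p 1 →
    (∀ x : E, ‖x‖ = 1 → ∃ v : E, ‖v‖ = 1 ∧ inner ℂ v x = (0 : ℂ)) → 1 ≤ p.natDegree →
    (∀ μ : ℂ, A ≠ μ • (1 : E →L[ℂ] E)) → ‖aeval A p‖ < 1

end

end Pool.Agent.H243.CE
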