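import Pool.Agent.H243.CE.Stmt2

/-!
# Equality cases in Crouzeix's inequality: Moebius images of polynomials

`F = (p - ε) / (1 - conj ε p)` with a polynomial `p`; `T = F(A)`.
-/

set_option autoImplicit false

open MeasureTheory Set Filter Topology Polynomial

namespace Pool.Agent.H243.CE

open Pool.Agent.W753.CZ (numRange)

noncomputable section

/-- the Moebius transform -/
def mo (ε z : ℂ) : ℂ := (z - ε) / (1 - (starRingEnd ℂ) ε * z)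

section defs

variable {H : Type} [NormedAddCommGroup H] [InnerProductSpace ℂ H]

/-- `T` is the Moebius image of `p(A)` -/
structure Mob (A : H →L[ℂ] H) (p : ℂ[X]) (ε : ℂ) (T Q : H →L[ℂ] H) : Prop where
  e1 : ‖ε‖ < 1
  q1 : Q * (1 - (starRingEnd ℂ) ε • aeval A p) = 1
  q2 : (1 - (starRingEnd ℂ) ε • aeval A p) * Q = 1
  t : T = (aeval A p - ε • (1 : H →L[ℂ] H)) * Q

/-- the approximating sequence for `F` -/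
structure ApproxM (A : H →L[ℂ] H) (p : ℂ[X]) (ε : ℂ) (T : H →L[ℂ] H) (L K : ℝ) (s : ℕ → ℝ → ℂ)
    (ρ : ℕ → ℝ → ℝ) (Y : ℕ → ℝ → H →L[ℂ] H) (M M' : ℕ → ℝ) : Prop where
  ap : Approx A p L K s ρ Y M
  eM : ∀ j, ‖ε‖ * M j ≤ (1 + ‖ε‖) / 2
  M1 : ∀ j, 1 ≤ M' j
  M2 : ∀ j, M' j ≤ 2
  Mt : Tendsto M' atTop (𝓝 1)
  Fb : ∀ j φ, ‖mo ε (p.eval (s j φ))‖ ≤ M' j
  Fi : ∀ (j k : ℕ) (g : ℂ[X]),
    ∫ φ in (0 : ℝ)..(2 * Real.pi), (g.eval (s j φ) * (mo ε (p.eval (s j φ))) ^ k) • Y j φ =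
      ((2 * Real.pi : ℝ) : ℂ) • (aeval A g * T ^ k)
  comm : ∀ j φ, T * Y j φ = Y j φ * T

/-- the polynomial `Dp` for the Moebius image, multiplied by `(1 - conj ε p)³` -/
def Dm (A : H →L[ℂ] H) (p : ℂ[X]) (ε : ℂ) (x y : H) : ℂ[X] :=
  (p - C ε) * (1 - C ((starRingEnd ℂ) ε) * p) *
      (psi A p y y + psi A p x (x + (2 * (starRingEnd ℂ) ε) • y)) +
    (p - C ε) ^ 2 * psi A p y (x + (2 * (starRingEnd ℂ) ε) • y) +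
    (1 - C ((starRingEnd ℂ) ε) * p) ^ 2 * psi A p x y

/-- the polynomial `Np` for the Moebius image, multiplied by `(1 - conj ε p)³` -/
def Nm (A : H →L[ℂ] H) (p : ℂ[X]) (ε : ℂ) (x y : H) : ℂ[X] :=
  (p - C ε) * (1 - C ((starRingEnd ℂ) ε) * p) *
      (psi A p (A y) y + psi A p (A x) (x + (2 * (starRingEnd ℂ) ε) • y)) +
    (p - C ε) ^ 2 * psi A p (A y) (x + (2 * (starRingEnd ℂ) ε) • y) +
    (1 - C ((starRingEnd ℂ) ε) * p) ^ 2 * psi A p (A x) y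

end defs

/-- (CE31) the integrals with the Moebius image -/
def S_INTF : Prop :=
  ∀ (H : Type) [NormedAddCommGroup H] [InnerProductSpace ℂ H] [CompleteSpace H]
    (A : H →L[ℂ] H) (L : ℝ) (s : ℝ → ℂ) (ρ : ℝ → ℝ) (Y : ℝ → H →L[ℂ] H), Datum A L s ρ Y →
    ∀ (p : ℂ[X]) (ε : ℂ) (T Q : H →L[ℂ] H) (θ : ℝ), Mob A p ε T Q → θ < 1 →
      (∀ φ, ‖ε‖ * ‖p.eval (s φ)‖ ≤ θ) → ∀ (k : ℕ) (g : ℂ[X]),
      ∫ φ in (0 : ℝ)..(2 * Real.pi), (g.eval (s φ) * (mo ε (p.eval (s φ))) ^ k) • Y φ =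
        ((2 * Real.pi : ℝ) : ℂ) • (aeval A g * T ^ k)

/-- (CE32) the approximating sequence -/
def S_APPROXM : Prop :=
  ∀ (H : Type) [NormedAddCommGroup H] [InnerProductSpace ℂ H] [FiniteDimensional ℂ H]
    [Nontrivial H] (A : H →L[ℂ] H) (p : ℂ[X]) (ε : ℂ) (T Q : H →L[ℂ] H), NE A →
    (∀ w ∈ numRange A, ‖p.eval w‖ ≤ 1) → Mob A p ε T Q →
    ∃ (L K : ℝ) (s : ℕ → ℝ → ℂ) (ρ : ℕ → ℝ → ℝ) (Y : ℕ → ℝ → H →L[ℂ] H) (M M' : ℕ → ℝ),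
      ApproxM A p ε T L K s ρ Y M M'

/-- (CE33) Toeplitz positivity -/
def S_TOEPF : Prop :=
  ∀ (H : Type) [NormedAddCommGroup H] [InnerProductSpace ℂ H] [CompleteSpace H]
    (A : H →L[ℂ] H) (L : ℝ) (s : ℝ → ℂ) (ρ : ℝ → ℝ) (Y : ℝ → H →L[ℂ] H), Datum A L s ρ Y →
    ∀ (F : ℝ → ℂ) (T : H →L[ℂ] H), Continuous F → (∀ φ, ‖F φ‖ ≤ 1) →
    (∀ k : ℕ, ∫ φ in (0 : ℝ)..(2 * Real.pi), (F φ) ^ k • Y φ =
      ((2 * Real.pi : ℝ) : ℂ) • T ^ k) → ∀ (k : ℕ) (a b c : H),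
      0 ≤ ‖a‖ ^ 2 + ‖b‖ ^ 2 + ‖c‖ ^ 2
        + ((inner ℂ b ((T ^ k) a)).re
          + (inner ℂ a (Gam Y (fun φ => (starRingEnd ℂ) (F φ) ^ k) b)).re)
        + ((inner ℂ c ((T ^ (k + 1)) a)).re
          + (inner ℂ a (Gam Y (fun φ => (starRingEnd ℂ) (F φ) ^ (k + 1)) c)).re)
        + ((inner ℂ c (T b)).re
          + (inner ℂ b (Gam Y (fun φ => (starRingEnd ℂ) (F φ)) c)).re)

/-- (CE34) an exact mean value -/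
def S_MEANF : Prop :=
  ∀ (H : Type) [NormedAddCommGroup H] [InnerProductSpace ℂ H] [CompleteSpace H]
    (A : H →L[ℂ] H) (L : ℝ) (s : ℝ → ℂ) (ρ : ℝ → ℝ) (Y : ℝ → H →L[ℂ] H), Datum A L s ρ Y →
    ∀ (F : ℝ → ℂ) (T : H →L[ℂ] H), Continuous F →
    (∫ φ in (0 : ℝ)..(2 * Real.pi), F φ • Y φ = ((2 * Real.pi : ℝ) : ℂ) • T) → ∀ (x y : H),
      mean (fun φ => (inner ℂ (y - F φ • x) (Y φ (y - F φ • x))).re
        + (1 - ‖F φ‖ ^ 2) * (inner ℂ x (Y φ x)).re) =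
      ‖y‖ ^ 2 + ‖x‖ ^ 2 - (inner ℂ y (T x)).re
        - (inner ℂ x (Gam Y (fun φ => (starRingEnd ℂ) (F φ)) y)).re

/-- (CE35) the kernel relations at a maximal vector -/
def S_KERF : Prop :=
  ∀ (H : Type) [NormedAddCommGroup H] [InnerProductSpace ℂ H] [CompleteSpace H]
    (A : H →L[ℂ] H) (p : ℂ[X]) (ε : ℂ) (T : H →L[ℂ] H) (L K : ℝ) (s : ℕ → ℝ → ℂ)
    (ρ : ℕ → ℝ → ℝ) (Y : ℕ → ℝ → H →L[ℂ] H) (M M' : ℕ → ℝ), ‖ε‖ < 1 →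
    ApproxM A p ε T L K s ρ Y M M' → Tendsto (fun k : ℕ => ‖T ^ k‖) atTop (𝓝 0) →
    ∀ x y : H, ‖x‖ = 1 → ‖y‖ = 1 → T x = (2 : ℂ) • y →
    (∀ u : H, inner ℂ y (T u) = 2 * inner ℂ x u) →
    (∀ u : H, inner ℂ x (T u) = (0 : ℂ)) ∧ T y = 0 ∧
    Tendsto (fun j => mean (fun φ =>
      (inner ℂ (y - (((M' j)⁻¹ : ℝ) * mo ε (p.eval (s j φ)) : ℂ) • x)
        (Y j φ (y - (((M' j)⁻¹ : ℝ) * mo ε (p.eval (s j φ)) : ℂ) • x))).re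
      + (1 - ‖(((M' j)⁻¹ : ℝ) * mo ε (p.eval (s j φ)) : ℂ)‖ ^ 2) * (inner ℂ x (Y j φ x)).re))
      atTop (𝓝 0)

/-- (CE36) the pointwise inequality, abstract form -/
def S_PTF : Prop :=
  ∀ (H : Type) [NormedAddCommGroup H] [InnerProductSpace ℂ H] [CompleteSpace H]
    (A : H →L[ℂ] H) (L : ℝ) (s : ℝ → ℂ) (ρ : ℝ → ℝ) (Y : ℝ → H →L[ℂ] H), Datum A L s ρ Y →
    ∀ (x y : H), ‖x‖ = 1 → ‖y‖ = 1 → inner ℂ x y = (0 : ℂ) → ∀ (φ : ℝ) (F : ℂ) (a b : H),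
      ‖F‖ ≤ 2 → s φ • a - A a = F • y → s φ • b - A b = F • x - (2 : ℂ) • y →
      ρ φ * ‖(starRingEnd ℂ) (s φ) *
          (F * (inner ℂ y a + F * inner ℂ y b) + (inner ℂ x a + F * inner ℂ x b)) -
          (F * (inner ℂ (A y) a + F * inner ℂ (A y) b) +
            (inner ℂ (A x) a + F * inner ℂ (A x) b))‖ ^ 2 ≤
        160 * (L + ‖A‖) * (inner ℂ (y - F • x) (Y φ (y - F • x))).re

/-- (CE37) the polynomial `Dm` does not vanish -/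
def S_DNZM : Prop :=
  ∀ (H : Type) [NormedAddCommGroup H] [InnerProductSpace ℂ H] (A : H →L[ℂ] H) (p : ℂ[X]) (ε : ℂ)
    (x y : H), ‖x‖ = 1 → ‖y‖ = 1 → inner ℂ x y = (0 : ℂ) → ‖ε‖ < 1 → 1 ≤ p.natDegree →
    Dm A p ε x y ≠ 0

/-- (CE38) for `p = X`: if `N / D` is the Schwarz function of the circle then `ε = 0` -/
def S_EPS : Prop :=
  ∀ (H : Type) [NormedAddCommGroup H] [InnerProductSpace ℂ H] (A : H →L[ℂ] H) (ε : ℂ)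
    (x y : H), ‖x‖ = 1 → ‖y‖ = 1 → inner ℂ x y = (0 : ℂ) → ‖ε‖ < 1 →
    Gp X (Dm A X ε x y) (Nm A X ε x y) = 0 → ε = 0

/-- (CE39) polynomials which are small in `L²` annihilate `y` -/
def S_IDEALF : Prop :=
  ∀ (H : Type) [NormedAddCommGroup H] [InnerProductSpace ℂ H] [CompleteSpace H]
    (A : H →L[ℂ] H) (p : ℂ[X]) (ε : ℂ) (T : H →L[ℂ] H) (L K : ℝ) (s : ℕ → ℝ → ℂ)
    (ρ : ℕ → ℝ → ℝ) (Y : ℕ → ℝ → H →L[ℂ] H) (M M' : ℕ → ℝ), ‖ε‖ < 1 →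
    ApproxM A p ε T L K s ρ Y M M' →
    ∀ x y : H, T x = (2 : ℂ) • y → (∀ u : H, inner ℂ x (T u) = (0 : ℂ)) →
    ∀ g : ℂ[X], Tendsto (fun j => J x (s j) (Y j) g) atTop (𝓝 0) → (aeval A g) y = 0

/-- (CE40) decay of the powers of `F(A)` -/
def S_DECAYF : Prop :=
  ∀ (H : Type) [NormedAddCommGroup H] [InnerProductSpace ℂ H] [FiniteDimensional ℂ H]
    [Nontrivial H] (A : H →L[ℂ] H) (p : ℂ[X]) (ε : ℂ) (T Q : H →L[ℂ] H), NE A →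
    (∀ w ∈ numRange A, ‖p.eval w‖ ≤ 1) → 1 ≤ p.natDegree → Mob A p ε T Q →
    Tendsto (fun k : ℕ => ‖T ^ k‖) atTop (𝓝 0)

/-- (CE41) existence of the Moebius image and its norm -/
def S_NORMT : Prop :=
  ∀ (H : Type) [NormedAddCommGroup H] [InnerProductSpace ℂ H] [FiniteDimensional ℂ H]
    [Nontrivial H] (A : H →L[ℂ] H) (p : ℂ[X]) (ε : ℂ),
    (∀ w ∈ numRange A, ‖p.eval w‖ ≤ 1) → ‖ε‖ < 1 → ∃ T Q : H →L[ℂ] H, Mob A p ε T Q ∧ ‖T‖ ≤ 2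

/-- the equality case for operators without eigenvalues on the boundary -/
def S_NECASEF : Prop :=
  ∀ (H : Type) [NormedAddCommGroup H] [InnerProductSpace ℂ H] [FiniteDimensional ℂ H]
    (A : H →L[ℂ] H) (p : ℂ[X]) (ε : ℂ) (h : H), NE A → (∀ w ∈ numRange A, ‖p.eval w‖ ≤ 1) →
    ‖ε‖ < 1 → ‖h - (starRingEnd ℂ) ε • (aeval A p) h‖ = 1 → ‖(aeval A p) h - ε • h‖ = 2 →
    1 ≤ p.natDegree ∧ (∃ c α : ℂ, p = C c * (X - C α) ^ p.natDegree) ∧ (p = X → ε = 0)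

/-- the equality case for all operators -/
def S_ALLCASEF : Prop :=
  ∀ (H : Type) [NormedAddCommGroup H] [InnerProductSpace ℂ H] [FiniteDimensional ℂ H]
    (A : H →L[ℂ] H) (p : ℂ[X]) (ε : ℂ) (h : H), (∀ w ∈ numRange A, ‖p.eval w‖ ≤ 1) →
    ‖ε‖ < 1 → ‖h - (starRingEnd ℂ) ε • (aeval A p) h‖ = 1 → ‖(aeval A p) h - ε • h‖ = 2 →
    1 ≤ p.natDegree ∧ (∃ c α : ℂ, p = C c * (X - C α) ^ p.natDegree) ∧ (p = X → ε = 0)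

/-- (CE42) reduction to operators without eigenvalues on the boundary -/
def S_REDF : Prop := S_NECASEF → S_ALLCASEF

/-- (CE43) the equality case for `|q| = 4/5` -/
def S_Q45 : Prop :=
  ∀ (E : Type) [NormedAddCommGroup E] [InnerProductSpace ℂ E] [FiniteDimensional ℂ E]
    [Nontrivial E] (A : E →L[ℂ] E) (p : ℂ[X]), Q82.QR.Bd A (3 / 4) p 1 →
    (∀ x : E, ‖x‖ = 1 → ∃ v : E, ‖v‖ = 1 ∧ inner ℂ v x = (0 : ℂ)) → 1 ≤ p.natDegree →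
    (∀ μ : ℂ, A ≠ μ • (1 : E →L[ℂ] E)) → ∀ x : E, ‖x‖ = 1 → ‖(aeval A p) x‖ = 1 →
    inner ℂ ((aeval A p) x) x = (0 : ℂ)

end

end Pool.Agent.H243.CE
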