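import Pool.Agent.H243.CE.Stmt3

/-!
# Equality cases: the scaled `q`-numerical range contains a disc
-/

set_option autoImplicit false

open MeasureTheory Set Filter Topology Polynomial

namespace Pool.Agent.H243.CE

noncomputable section

/-- (CE44) a two-dimensional block gives a disc in the scaled `q`-numerical range -/
def S_BALLQ : Prop :=
  ∀ (H : Type) [NormedAddCommGroup H] [InnerProductSpace ℂ H] (A : H →L[ℂ] H) (s t q r : ℝ) (α : ℂ)
    (e : Fin 2 → H), 0 ≤ s → 0 < t → t ≤ 1 → 0 < q → q * (1 + t ^ 2) = 2 * t →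
    s ^ 2 * q ^ 2 = 1 - q ^ 2 → 0 < r →
    Block (A - α • (1 : H →L[ℂ] H)) 1 (fun _ => 2 * t * r) e →
    ∀ z : ℂ, z ∈ Metric.closedBall α r → ∃ x v : H, ‖x‖ = 1 ∧ inner ℂ v x = (0 : ℂ) ∧ ‖v‖ = s ∧
      z = inner ℂ x (A x) + inner ℂ v (A x)

end

end Pool.Agent.H243.CE
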